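import Pool.Agent.Lib.MP_7d1258_an.Basic

/-!
The algebra `A^∞(B)`, flows on the sphere and the bundle of complex tangential vectors.
-/

set_option autoImplicit false
set_option linter.unusedSectionVars false

namespace Pool.Agent.PeakLib

open scoped ContDiff
open MeasureTheory Metric Complex

noncomputable section

/-! ### Smooth reciprocal -/

/-- A smooth function equal to `w⁻¹` for `c ≤ |w|`. -/
def recip (c : ℝ) (w : ℂ) : ℂ :=
  (starRingEnd ℂ) w * (((‖w‖ ^ 2 + expNegInvGlue (c ^ 2 - ‖w‖ ^ 2))⁻¹ : ℝ) : ℂ)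

theorem recip_den_pos {c : ℝ} (hc : 0 < c) (w : ℂ) :
    0 < ‖w‖ ^ 2 + expNegInvGlue (c ^ 2 - ‖w‖ ^ 2) := by
  rcases lt_or_ge (‖w‖ ^ 2) (c ^ 2) with h | h
  · have h1 : 0 < expNegInvGlue (c ^ 2 - ‖w‖ ^ 2) := expNegInvGlue.pos_of_pos (by linarith)
    positivity
  · have h1 : 0 ≤ expNegInvGlue (c ^ 2 - ‖w‖ ^ 2) := expNegInvGlue.nonneg _
    have h2 : 0 < c ^ 2 := by positivity
    linarith

theorem contDiff_recip {c : ℝ} (hc : 0 < c) : ContDiff ℝ ∞ (recip c) := by
  unfold recip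
  have h1 : ContDiff ℝ ∞ (fun w : ℂ => ‖w‖ ^ 2) := contDiff_norm_sq ℝ
  have h2 : ContDiff ℝ ∞ (fun w : ℂ => expNegInvGlue (c ^ 2 - ‖w‖ ^ 2)) :=
    expNegInvGlue.contDiff.comp (contDiff_const.sub h1)
  have h3 : ContDiff ℝ ∞ (fun w : ℂ => (‖w‖ ^ 2 + expNegInvGlue (c ^ 2 - ‖w‖ ^ 2))⁻¹) :=
    (h1.add h2).inv (fun w => (recip_den_pos hc w).ne')
  have h4 : ContDiff ℝ ∞ (fun w : ℂ => (starRingEnd ℂ) w) := Complex.conjCLE.contDiff
  exact h4.mul (Complex.ofRealCLM.contDiff.comp h3)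

theorem recip_eq {c : ℝ} (hc : 0 < c) {w : ℂ} (hw : c ≤ ‖w‖) : recip c w = w⁻¹ := by
  unfold recip
  have h1 : expNegInvGlue (c ^ 2 - ‖w‖ ^ 2) = 0 := by
    refine expNegInvGlue.zero_of_nonpos ?_
    have := pow_le_pow_left₀ hc.le hw 2
    linarith
  rw [h1, add_zero, Complex.inv_def, Complex.normSq_eq_norm_sq]

theorem recip_eventuallyEq {c : ℝ} (hc : 0 < c) {w : ℂ} (hw : c < ‖w‖) :
    recip c =ᶠ[nhds w] fun w => w⁻¹ := by
  have h : ∀ᶠ x in nhds w, c < ‖x‖ := continuous_norm.continuousAt.eventually_const_lt hw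
  exact h.mono fun x hx => recip_eq hc hx.le

theorem db_recip {c : ℝ} (hc : 0 < c) {w : ℂ} (hw : c < ‖w‖) (δ : ℂ) :
    db (recip c) w δ = 0 := by
  rw [db_congr (recip_eventuallyEq hc hw)]
  refine db_eq_zero_of_complex ?_ δ
  have : w ≠ 0 := fun h => by rw [h, norm_zero] at hw; linarith
  exact differentiableAt_inv this

/-! ### The algebra -/

variable {d : ℕ}

/-- Smooth functions on `ℂ^n` which are holomorphic in the unit ball. -/
def AA (f : EE d → ℂ) : Prop :=
  ContDiff ℝ ∞ f ∧ ∀ z ∈ closedBall (0 : EE d) 1, ∀ w, db f z w = 0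

theorem eq_zero_on_closedBall {g : EE d → ℂ} (hg : Continuous g)
    (h : ∀ z ∈ ball (0 : EE d) 1, g z = 0) : ∀ z ∈ closedBall (0 : EE d) 1, g z = 0 := by
  have hc : IsClosed {z | g z = 0} := isClosed_eq hg continuous_const
  have h1 : closure (ball (0 : EE d) 1) ⊆ {z | g z = 0} := hc.closure_subset_iff.2 h
  rw [closure_ball (0 : EE d) one_ne_zero] at h1
  exact h1

theorem contDiff_db_apply {f : EE d → ℂ} (hf : ContDiff ℝ ∞ f) (w : EE d) :
    ContDiff ℝ ∞ (fun z => db f z w) := by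
  have h1 := contDiff_dbF hf
  exact h1.comp (contDiff_id.prodMk contDiff_const)

theorem AA.of_ball {f : EE d → ℂ} (hf : ContDiff ℝ ∞ f)
    (h : ∀ z ∈ ball (0 : EE d) 1, ∀ w, db f z w = 0) : AA f := by
  refine ⟨hf, fun z hz w => ?_⟩
  exact eq_zero_on_closedBall (contDiff_db_apply hf w).continuous (fun z hz => h z hz w) z hz

theorem AA.differentiable {f : EE d → ℂ} (hf : AA f) : Differentiable ℝ f :=
  hf.1.differentiable (by simp)

theorem AA_iff {f : EE d → ℂ} :
    AA f ↔ ContDiff ℝ ∞ f ∧ DifferentiableOn ℂ f (ball (0 : EE d) 1) := by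
  constructor
  · intro h
    refine ⟨h.1, fun z hz => ?_⟩
    exact (differentiableAt_complex_of_db (h.differentiable z)
      (fun w => h.2 z (ball_subset_closedBall hz) w)).differentiableWithinAt
  · intro h
    refine AA.of_ball h.1 fun z hz w => ?_
    exact db_eq_zero_of_complex (h.2.differentiableAt (isOpen_ball.mem_nhds hz)) w

theorem AA.diffContOnCl {f : EE d → ℂ} (hf : AA f) : DiffContOnCl ℂ f (ball (0 : EE d) 1) :=
  ⟨(AA_iff.1 hf).2, hf.1.continuous.continuousOn⟩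

theorem AA.add {f g : EE d → ℂ} (hf : AA f) (hg : AA g) : AA (fun z => f z + g z) := by
  refine ⟨hf.1.add hg.1, fun z hz w => ?_⟩
  rw [db_add (hf.differentiable z) (hg.differentiable z), hf.2 z hz, hg.2 z hz, add_zero]

theorem AA.sub {f g : EE d → ℂ} (hf : AA f) (hg : AA g) : AA (fun z => f z - g z) := by
  refine ⟨hf.1.sub hg.1, fun z hz w => ?_⟩
  rw [db_sub (hf.differentiable z) (hg.differentiable z), hf.2 z hz, hg.2 z hz, sub_zero]

theorem AA.neg {f : EE d → ℂ} (hf : AA f) : AA (fun z => - f z) := by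
  refine ⟨hf.1.neg, fun z hz w => ?_⟩
  rw [db_neg, hf.2 z hz, neg_zero]

theorem AA.const (c : ℂ) : AA (fun _ : EE d => c) :=
  ⟨contDiff_const, fun z _ w => db_const c z w⟩

theorem AA.mul {f g : EE d → ℂ} (hf : AA f) (hg : AA g) : AA (fun z => f z * g z) := by
  refine ⟨hf.1.mul hg.1, fun z hz w => ?_⟩
  rw [db_mul (hf.differentiable z) (hg.differentiable z), hf.2 z hz, hg.2 z hz]
  ring

theorem db_comp_zero {V : Type*} [NormedAddCommGroup V] [NormedSpace ℝ V] [NormedSpace ℂ V]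
    [IsScalarTower ℝ ℂ V] {F : ℂ → ℂ} {f : V → ℂ} {z : V} (hF : DifferentiableAt ℝ F (f z))
    (hf : DifferentiableAt ℝ f z) (w : V) (h1 : ∀ δ, db F (f z) δ = 0) (h2 : db f z w = 0) :
    db (fun z => F (f z)) z w = 0 := by
  rw [db_comp hF hf, h1, h2]
  simp

theorem AA.comp {f : EE d → ℂ} (hf : AA f) {F : ℂ → ℂ} (hF : ContDiff ℝ ∞ F)
    (h : ∀ z ∈ closedBall (0 : EE d) 1, ∀ δ, db F (f z) δ = 0) : AA (fun z => F (f z)) := by
  refine ⟨hF.comp hf.1, fun z hz w => ?_⟩
  exact db_comp_zero (hF.differentiable (by simp) _) (hf.differentiable z) w (h z hz) (hf.2 z hz w)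

theorem AA.exp {f : EE d → ℂ} (hf : AA f) : AA (fun z => Complex.exp (f z)) := by
  refine hf.comp (Complex.contDiff_exp) fun z _ δ => ?_
  exact db_eq_zero_of_complex (Complex.differentiable_exp _) δ

theorem AA.recip {f : EE d → ℂ} (hf : AA f) {c : ℝ} (hc : 0 < c)
    (h : ∀ z ∈ closedBall (0 : EE d) 1, c < ‖f z‖) : AA (fun z => recip c (f z)) :=
  hf.comp (contDiff_recip hc) fun z hz δ => db_recip hc (h z hz) δ

/-- Directional derivative of a function of the algebra. -/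
theorem db_fderiv_apply {f : EE d → ℂ} (hf : ContDiff ℝ ∞ f) (v z w : EE d) :
    db (fun z => fderiv ℝ f z v) z w = fderiv ℝ (fun z => db f z w) z v := by
  have h1 : ContDiff ℝ ∞ (fderiv ℝ f) := (contDiff_infty_iff_fderiv.1 hf).2
  have h2 : ∀ v, HasFDerivAt (fun z => fderiv ℝ f z v) ((fderiv ℝ (fderiv ℝ f) z).flip v) z := by
    intro v
    have h3 := ((h1.differentiable (by simp) z).hasFDerivAt).clm_apply
      (hasFDerivAt_const v z)
    refine h3.congr_fderiv ?_
    ext q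
    simp
  have h4 : HasFDerivAt (fun z => db f z w) ((1/2 : ℂ) • ((fderiv ℝ (fderiv ℝ f) z).flip w +
      I • (fderiv ℝ (fderiv ℝ f) z).flip (I • w))) z :=
    ((h2 w).add ((h2 (I • w)).const_mul I)).const_mul (1/2 : ℂ)
  rw [h4.fderiv]
  unfold db
  rw [(h2 v).fderiv]
  simp only [ContinuousLinearMap.flip_apply, smul_apply, add_apply, smul_eq_mul]
  rw [fderiv_fderiv_symm hf z w v, fderiv_fderiv_symm hf z (I • w) v]

theorem AA.fderiv_apply {f : EE d → ℂ} (hf : AA f) (v : EE d) :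
    AA (fun z => fderiv ℝ f z v) := by
  have h1 : ContDiff ℝ ∞ (fderiv ℝ f) := (contDiff_infty_iff_fderiv.1 hf.1).2
  refine AA.of_ball (h1.clm_apply contDiff_const) fun z hz w => ?_
  rw [db_fderiv_apply hf.1]
  have h2 : (fun z => db f z w) =ᶠ[nhds z] fun _ => (0:ℂ) := by
    filter_upwards [isOpen_ball.mem_nhds hz] with y hy
    exact hf.2 y (ball_subset_closedBall hy) w
  rw [h2.fderiv_eq]
  simp

/-- The radial derivative of a function of the algebra. -/
def rad (f : EE d → ℂ) (z : EE d) : ℂ := fderiv ℝ f z z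

theorem AA.rad {f : EE d → ℂ} (hf : AA f) : AA (rad f) := by
  have h1 : ContDiff ℝ ∞ (fderiv ℝ f) := (contDiff_infty_iff_fderiv.1 hf.1).2
  refine ⟨h1.clm_apply contDiff_id, fun z hz w => ?_⟩
  have h2 : HasFDerivAt (PeakLib.rad f) ((fderiv ℝ (fderiv ℝ f) z).flip z + fderiv ℝ f z) z := by
    have h3 := ((h1.differentiable (by simp) z).hasFDerivAt).clm_apply (hasFDerivAt_id z)
    refine h3.congr_fderiv ?_
    ext q
    simp [add_comm]
  have h3 : HasFDerivAt (fun y => fderiv ℝ f y z) ((fderiv ℝ (fderiv ℝ f) z).flip z) z := by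
    have h3 := ((h1.differentiable (by simp) z).hasFDerivAt).clm_apply
      (hasFDerivAt_const z z)
    refine h3.congr_fderiv ?_
    ext q
    simp
  have h4 := (hf.fderiv_apply z).2 z hz w
  have h5 := hf.2 z hz w
  unfold db at h4 h5 ⊢
  rw [h2.fderiv]
  rw [h3.fderiv] at h4
  simp only [add_apply]
  linear_combination h4 + h5

theorem AA.fderiv_I_smul {f : EE d → ℂ} (hf : AA f) {z : EE d} (hz : z ∈ closedBall (0 : EE d) 1)
    (w : EE d) : fderiv ℝ f z (I • w) = I * fderiv ℝ f z w :=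
  fderiv_I_smul_of_db (hf.2 z hz w)

theorem AA.fderiv_smul {f : EE d → ℂ} (hf : AA f) {z : EE d} (hz : z ∈ closedBall (0 : EE d) 1)
    (c : ℂ) (w : EE d) : fderiv ℝ f z (c • w) = c * fderiv ℝ f z w := by
  rw [complex_smul_eq c w, map_add, map_smul, map_smul, hf.fderiv_I_smul hz]
  simp only [Complex.real_smul]
  conv_rhs => rw [← re_add_im c]
  ring

/-! ### Maximum principle -/

theorem AA.norm_le {f : EE d → ℂ} (hf : AA f) {M : ℝ}
    (h : ∀ z ∈ sphere (0 : EE d) 1, ‖f z‖ ≤ M) : ∀ z ∈ closedBall (0 : EE d) 1, ‖f z‖ ≤ M := by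
  intro z hz
  refine Complex.norm_le_of_forall_mem_frontier_norm_le isBounded_ball hf.diffContOnCl ?_ ?_
  · intro w hw
    rw [frontier_ball (0 : EE d) one_ne_zero] at hw
    exact h w hw
  · rw [closure_ball (0 : EE d) one_ne_zero]
    exact hz

theorem AA.le_re {f : EE d → ℂ} (hf : AA f) {c : ℝ}
    (h : ∀ z ∈ sphere (0 : EE d) 1, c ≤ (f z).re) :
    ∀ z ∈ closedBall (0 : EE d) 1, c ≤ (f z).re := by
  intro z hz
  have h1 := hf.neg.exp.norm_le (M := Real.exp (-c)) (fun z hz => by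
    rw [Complex.norm_exp, Complex.neg_re]
    exact Real.exp_le_exp.2 (neg_le_neg (h z hz))) z hz
  rw [Complex.norm_exp, Complex.neg_re, Real.exp_le_exp] at h1
  linarith

/-- Strict version. -/
theorem AA.re_pos {f : EE d → ℂ} (hf : AA f)
    (h : ∀ z ∈ sphere (0 : EE d) 1, 0 ≤ (f z).re)
    {z₀ : EE d} (hz₀ : z₀ ∈ sphere (0 : EE d) 1) (h0 : 0 < (f z₀).re) :
    ∀ z ∈ ball (0 : EE d) 1, 0 < (f z).re := by
  intro z hz
  have hle := hf.le_re h
  by_contra hcon
  have hz0 : (f z).re = 0 := le_antisymm (not_lt.1 hcon) (hle z (ball_subset_closedBall hz))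
  have hg := hf.neg.exp
  have hgn : ∀ y, ‖Complex.exp (-f y)‖ = Real.exp (-(f y).re) := fun y => by
    rw [Complex.norm_exp, Complex.neg_re]
  have hmax : IsMaxOn (norm ∘ fun y => Complex.exp (-f y)) (ball (0 : EE d) 1) z := by
    intro y hy
    show ‖Complex.exp (-f y)‖ ≤ ‖Complex.exp (-f z)‖
    rw [hgn, hgn, hz0, Real.exp_le_exp]
    have := hle y (ball_subset_closedBall hy)
    linarith
  have heq := Complex.eqOn_closure_of_isPreconnected_of_isMaxOn_norm
    (convex_ball (0 : EE d) 1).isPreconnected isOpen_ball hg.diffContOnCl hz hmax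
  have h1 := heq (x := z₀) (by
    rw [closure_ball (0 : EE d) one_ne_zero]
    exact sphere_subset_closedBall hz₀)
  have h2 : ‖Complex.exp (-f z₀)‖ = ‖Complex.exp (-f z)‖ := congrArg norm h1
  rw [hgn, hgn, hz0, Real.exp_eq_exp] at h2
  linarith

/-! ### Flows on rotation invariant sets -/

/-- Rotation invariant sets. -/
class RotInv {V : Type*} [NormedAddCommGroup V] [NormedSpace ℂ V] (K : Set V) : Prop where
  rot : ∀ (θ : ℝ), ∀ p ∈ K, Complex.exp (θ * I) • p ∈ K

/-- Points of a set, as a type. -/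
def Pt {V : Type*} (K : Set V) : Type _ := {p : V // p ∈ K}

section Flow

variable {V : Type*} [NormedAddCommGroup V] [NormedSpace ℝ V] [NormedSpace ℂ V]
  [IsScalarTower ℝ ℂ V] {K : Set V} [RotInv K]

instance : AddAction ℝ (Pt K) where
  vadd θ p := ⟨Complex.exp (θ * I) • p.1, RotInv.rot θ p.1 p.2⟩
  zero_vadd p := Subtype.ext (by
    show Complex.exp (((0:ℝ):ℂ) * I) • p.1 = p.1
    simp)
  add_vadd s t p := Subtype.ext (by
    show Complex.exp (((s + t : ℝ):ℂ) * I) • p.1 =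
      Complex.exp ((s:ℂ) * I) • Complex.exp ((t:ℂ) * I) • p.1
    rw [smul_smul, ← Complex.exp_add]
    push_cast
    ring_nf)

theorem Pt.vadd_val (θ : ℝ) (p : Pt K) : (θ +ᵥ p).1 = Complex.exp (θ * I) • p.1 := rfl

theorem contDiff_rot (p : V) : ContDiff ℝ ∞ (fun θ : ℝ => Complex.exp (θ * I) • p) := by
  have h1 : ContDiff ℝ ∞ (fun θ : ℝ => Complex.exp (θ * I)) := by
    have h2 : ContDiff ℝ ∞ (fun θ : ℝ => ((θ : ℂ) * I)) :=
      Complex.ofRealCLM.contDiff.mul contDiff_const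
    exact h2.cexp
  exact h1.smul contDiff_const

theorem Sm.restrict {g : V → ℂ} (hg : ContDiff ℝ ∞ g) : Sm (fun p : Pt K => g p.1) := by
  intro p
  exact hg.comp (contDiff_rot p.1)

theorem TT_restrict {g : V → ℂ} (hg : ContDiff ℝ ∞ g) :
    TT (fun p : Pt K => g p.1) = fun p => TE g p.1 := by
  funext p
  have h := hasDerivAt_rot (g := g) (p := p.1) (θ := 0) (hg.differentiable (by simp) _)
  have h2 : Complex.exp (((0:ℝ):ℂ) * I) • p.1 = p.1 := by simp
  rw [h2] at h
  exact h.deriv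

theorem TT_restrict_iterate {g : V → ℂ} (hg : ContDiff ℝ ∞ g) (k : ℕ) :
    TT^[k] (fun p : Pt K => g p.1) = fun p => (TE^[k] g) p.1 := by
  induction k generalizing g with
  | zero => rfl
  | succ k ih =>
    rw [Function.iterate_succ, Function.comp_apply, TT_restrict hg, ih (contDiff_TE hg)]
    rfl

/-- Restrictions of smooth functions to compact sets satisfy all estimates. -/
theorem Iter.bd_restrict {ι : Type*} (hK : IsCompact K) {g : V → ℂ} (hg : ContDiff ℝ ∞ g) (k : ℕ) :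
    Iter BD k (fun (_ : ι) (p : Pt K) => g p.1) := by
  refine Iter.of_all k fun j _ => ?_
  obtain ⟨C, hC⟩ := hK.exists_bound_of_continuousOn
    (contDiff_TE_iterate hg j).continuous.continuousOn
  refine ⟨C, fun _ p => ?_⟩
  rw [TT_restrict_iterate hg]
  exact hC p.1 p.2

end Flow

/-- The unit sphere. -/
abbrev SS (d : ℕ) : Set (EE d) := sphere (0 : EE d) 1

/-- The bundle of complex tangential vectors of norm at most one. -/
def DD (d : ℕ) : Set (EE d × EE d) := {p | ‖p.1‖ = 1 ∧ ‖p.2‖ ≤ 1 ∧ inner ℂ p.1 p.2 = 0}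

instance : RotInv (SS d) where
  rot θ p hp := by
    rw [mem_sphere_zero_iff_norm] at hp ⊢
    rw [norm_smul, Complex.norm_exp_ofReal_mul_I, one_mul, hp]

instance : RotInv (DD d) where
  rot θ p hp := by
    obtain ⟨h1, h2, h3⟩ := hp
    refine ⟨?_, ?_, ?_⟩
    · rw [Prod.smul_fst, norm_smul, Complex.norm_exp_ofReal_mul_I, one_mul, h1]
    · rw [Prod.smul_snd, norm_smul, Complex.norm_exp_ofReal_mul_I, one_mul]
      exact h2
    · rw [Prod.smul_fst, Prod.smul_snd, inner_smul_left, inner_smul_right, h3]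
      simp

theorem isCompact_SS : IsCompact (SS d) := isCompact_sphere 0 1

theorem isCompact_DD : IsCompact (DD d) := by
  refine Metric.isCompact_of_isClosed_isBounded ?_ ?_
  · have h1 : IsClosed {p : EE d × EE d | ‖p.1‖ = 1} :=
      isClosed_eq (by fun_prop) continuous_const
    have h2 : IsClosed {p : EE d × EE d | ‖p.2‖ ≤ 1} :=
      isClosed_le (by fun_prop) continuous_const
    have h3 : IsClosed {p : EE d × EE d | inner ℂ p.1 p.2 = 0} :=
      isClosed_eq (by fun_prop) continuous_const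
    exact h1.inter (h2.inter h3)
  · refine (isBounded_closedBall (x := (0 : EE d × EE d)) (r := 1)).subset ?_
    intro p hp
    rw [mem_closedBall_zero_iff, Prod.norm_def]
    exact max_le hp.1.le hp.2.1

theorem AA.db_DD {f : EE d → ℂ} (hf : AA f) {p : EE d × EE d} (hp : p ∈ DD d) :
    db f p.1 p.2 = 0 :=
  hf.2 p.1 (mem_closedBall_zero_iff.2 hp.1.le) p.2

end

end Pool.Agent.PeakLib
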