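import Pool.Agent.Lib.MP_7d1258_an.Algebra

/-!
Taylor estimates, and an almost analytic cut-off function.
-/

set_option autoImplicit false
set_option linter.unusedSectionVars false
set_option linter.unnecessarySeqFocus false

namespace Pool.Agent.PeakLib

open scoped ContDiff
open MeasureTheory Metric Complex Filter

noncomputable section

/-! ### Taylor estimates -/

theorem lipschitz_compact {V F : Type*} [NormedAddCommGroup V] [NormedSpace ℝ V]
    [NormedAddCommGroup F] [NormedSpace ℝ F] {f : V → F} (hf : ContDiff ℝ ∞ f) {K : Set V}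
    (hK : IsCompact K) (hKc : Convex ℝ K) :
    ∃ L : ℝ, 0 ≤ L ∧ ∀ x ∈ K, ∀ y ∈ K, ‖f x - f y‖ ≤ L * ‖x - y‖ := by
  have h1 : ContDiff ℝ ∞ (fderiv ℝ f) := (contDiff_infty_iff_fderiv.1 hf).2
  obtain ⟨L, hL⟩ := hK.exists_bound_of_continuousOn h1.continuous.continuousOn
  refine ⟨max L 0, le_max_right _ _, fun x hx y hy => ?_⟩
  refine hKc.norm_image_sub_le_of_norm_fderiv_le (𝕜 := ℝ)
    (fun x _ => hf.differentiable (by simp) x) (fun x hx => (hL x hx).trans (le_max_left _ _))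
    hy hx

theorem taylor2 {V F : Type*} [NormedAddCommGroup V] [NormedSpace ℝ V]
    [NormedAddCommGroup F] [NormedSpace ℝ F] {f : V → F} (hf : ContDiff ℝ ∞ f) {K : Set V}
    (hK : IsCompact K) (hKc : Convex ℝ K) :
    ∃ C : ℝ, 0 ≤ C ∧ ∀ z ∈ K, ∀ y ∈ K, ‖f y - f z - fderiv ℝ f z (y - z)‖ ≤ C * ‖y - z‖ ^ 2 := by
  have h1 : ContDiff ℝ ∞ (fderiv ℝ f) := (contDiff_infty_iff_fderiv.1 hf).2
  obtain ⟨L, hL0, hL⟩ := lipschitz_compact h1 hK hKc
  refine ⟨L, hL0, fun z hz y hy => ?_⟩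
  have hseg : segment ℝ z y ⊆ K := hKc.segment_subset hz hy
  have h2 := (convex_segment z y).norm_image_sub_le_of_norm_fderiv_le' (𝕜 := ℝ) (f := f)
    (φ := fderiv ℝ f z) (C := L * ‖y - z‖) (fun x _ => hf.differentiable (by simp) x) ?_
    (left_mem_segment ℝ z y) (right_mem_segment ℝ z y)
  · rw [pow_two, ← mul_assoc]
    exact h2
  · intro x hx
    refine (hL x (hseg hx) z hz).trans (mul_le_mul_of_nonneg_left ?_ hL0)
    obtain ⟨a, b, ha, hb, hab, rfl⟩ := hx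
    have h3 : a • z + b • y - z = b • (y - z) := by
      have : a = 1 - b := by linarith
      rw [this, sub_smul, one_smul, smul_sub]
      abel
    rw [h3, norm_smul, Real.norm_of_nonneg hb]
    exact mul_le_of_le_one_left (norm_nonneg _) (by linarith)

/-- The elementary quadratic inequality. -/
theorem quad_ineq {ρ D M : ℝ} (hM : 0 < M) (hρM : ρ ≤ M)
    (h : ∀ t : ℝ, |t| ≤ 1 → 0 ≤ ρ + D * t + M * t ^ 2) : D ^ 2 ≤ 4 * M * ρ := by
  by_cases hD : |D| ≤ 2 * M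
  · have h1 := h (-D / (2 * M)) (by
      rw [abs_div, abs_neg, abs_of_pos (by linarith : (0:ℝ) < 2 * M), div_le_one (by linarith)]
      exact hD)
    have h2 : ρ + D * (-D / (2 * M)) + M * (-D / (2 * M)) ^ 2 = ρ - D ^ 2 / (4 * M) := by
      field_simp
      ring
    rw [h2] at h1
    have h3 : D ^ 2 / (4 * M) ≤ ρ := by linarith
    rw [div_le_iff₀ (by linarith)] at h3
    linarith
  · push Not at hD
    exfalso
    rcases le_or_gt 0 D with h0 | h0
    · have h1 := h (-1) (by simp)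
      rw [abs_of_nonneg h0] at hD
      nlinarith
    · have h1 := h 1 (by simp)
      rw [abs_of_neg h0] at hD
      nlinarith

/-! ### The basic functions -/

/-- Admissible angular profiles. -/
def Adm (β : ℝ → ℂ) : Prop := ContDiff ℝ ∞ β ∧ ∀ ρ : ℝ, 1 < |ρ| → β ρ = 0

theorem Adm.deriv {β : ℝ → ℂ} (h : Adm β) : Adm (deriv β) := by
  refine ⟨(contDiff_infty_iff_deriv.1 h.1).2, fun ρ hρ => ?_⟩
  have h1 : β =ᶠ[nhds ρ] fun _ => 0 := by
    have h2 : ∀ᶠ x in nhds ρ, 1 < |x| := continuous_abs.continuousAt.eventually_const_lt hρ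
    exact h2.mono fun x hx => h.2 x hx
  rw [h1.deriv_eq]
  simp

theorem Adm.mul_left {β γ : ℝ → ℂ} (h : Adm β) (hγ : ContDiff ℝ ∞ γ) :
    Adm (fun ρ => γ ρ * β ρ) :=
  ⟨hγ.mul h.1, fun ρ hρ => by show γ ρ * β ρ = 0; rw [h.2 ρ hρ, mul_zero]⟩

theorem Adm.add {β γ : ℝ → ℂ} (h : Adm β) (hγ : Adm γ) :
    Adm (fun ρ => β ρ + γ ρ) :=
  ⟨h.1.add hγ.1, fun ρ hρ => by show β ρ + γ ρ = 0; rw [h.2 ρ hρ, hγ.2 ρ hρ, add_zero]⟩

theorem Adm.eq_zero {β : ℝ → ℂ} (h : Adm β) {ρ : ℝ} (hρ : 1 ≤ |ρ|) : β ρ = 0 := by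
  rcases hρ.lt_or_eq with h1 | h1
  · exact h.2 ρ h1
  · -- by continuity
    have hc : IsClosed {x | β x = 0} := isClosed_eq h.1.continuous continuous_const
    have hρ0 : ρ ≠ 0 := by
      intro h0; rw [h0, abs_zero] at h1; linarith
    have ht : Tendsto (fun t : ℝ => t * ρ) (nhdsWithin 1 (Set.Ioi 1)) (nhds ρ) := by
      have : Tendsto (fun t : ℝ => t * ρ) (nhds 1) (nhds (1 * ρ)) :=
        (continuous_id.mul continuous_const).tendsto 1
      rw [one_mul] at this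
      exact this.mono_left nhdsWithin_le_nhds
    refine hc.mem_of_tendsto ht ?_
    filter_upwards [self_mem_nhdsWithin] with t ht
    refine h.2 _ ?_
    have ht' : (1:ℝ) < t := ht
    rw [abs_mul, ← h1, mul_one, abs_of_pos (by linarith)]
    exact ht'

theorem Adm.bound {β : ℝ → ℂ} (h : Adm β) : ∃ B : ℝ, 0 ≤ B ∧ ∀ ρ, ‖β ρ‖ ≤ B := by
  obtain ⟨B, hB⟩ := (isCompact_Icc (a := (-1:ℝ)) (b := 1)).exists_bound_of_continuousOn
    h.1.continuous.continuousOn
  refine ⟨max B 0, le_max_right _ _, fun ρ => ?_⟩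
  by_cases h1 : |ρ| ≤ 1
  · exact (hB ρ (abs_le.1 h1)).trans (le_max_left _ _)
  · rw [h.2 ρ (not_le.1 h1), norm_zero]
    exact le_max_right _ _

/-- The basic functions. -/
def Fn (m : ℕ) (β : ℝ → ℂ) (w : ℂ) : ℂ :=
  if 0 < w.re then (((w.re)⁻¹ ^ m : ℝ) : ℂ) * Complex.exp (-w⁻¹) * β (w.im / w.re) else 0

theorem Fn_pos {m : ℕ} {β : ℝ → ℂ} {w : ℂ} (hw : 0 < w.re) :
    Fn m β w = (((w.re)⁻¹ ^ m : ℝ) : ℂ) * Complex.exp (-w⁻¹) * β (w.im / w.re) := if_pos hw

theorem Fn_nonpos {m : ℕ} {β : ℝ → ℂ} {w : ℂ} (hw : w.re ≤ 0) : Fn m β w = 0 :=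
  if_neg (not_lt.2 hw)

theorem exp_neg_inv_le {t : ℝ} (ht : 0 < t) (k : ℕ) :
    Real.exp (-(1 / (2 * t))) ≤ k.factorial * (2 * t) ^ k := by
  have h1 := Real.pow_div_factorial_le_exp (1 / (2 * t)) (by positivity) k
  rw [Real.exp_neg]
  have h2 : 0 < Real.exp (1 / (2 * t)) := Real.exp_pos _
  rw [inv_le_iff_one_le_mul₀ h2]
  have h3 : (k.factorial : ℝ) * (2 * t) ^ k * ((1 / (2 * t)) ^ k / k.factorial) = 1 := by
    have : (k.factorial : ℝ) ≠ 0 := by positivity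
    rw [mul_div_assoc', mul_assoc, ← mul_pow, mul_one_div, div_self (by positivity), one_pow,
      mul_one, div_self this]
  calc (1:ℝ) = (k.factorial : ℝ) * (2 * t) ^ k * ((1 / (2 * t)) ^ k / k.factorial) := h3.symm
    _ ≤ (k.factorial : ℝ) * (2 * t) ^ k * Real.exp (1 / (2 * t)) :=
        mul_le_mul_of_nonneg_left h1 (by positivity)

/-- Flatness of the basic functions. -/
theorem Fn_bound (m : ℕ) {β : ℝ → ℂ} (h : Adm β) (N : ℕ) :
    ∃ C : ℝ, 0 ≤ C ∧ ∀ w : ℂ, 0 < w.re → ‖Fn m β w‖ ≤ C * w.re ^ N := by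
  obtain ⟨B, hB0, hB⟩ := h.bound
  refine ⟨(m + N).factorial * 2 ^ (m + N) * B, by positivity, fun w hw => ?_⟩
  rw [Fn_pos hw]
  by_cases hρ : 1 < |w.im / w.re|
  · rw [h.2 _ hρ, mul_zero, norm_zero]
    positivity
  · push Not at hρ
    have him : |w.im| ≤ w.re := by
      rw [abs_div, abs_of_pos hw, div_le_one hw] at hρ
      exact hρ
    rw [norm_mul, norm_mul, Complex.norm_exp, Complex.norm_real, norm_pow, norm_inv,
      Real.norm_of_nonneg hw.le]
    have h1 : (-w⁻¹).re ≤ -(1 / (2 * w.re)) := by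
      rw [Complex.neg_re, Complex.inv_re, neg_le_neg_iff, Complex.normSq_apply]
      rw [div_le_div_iff₀ (by positivity) (by nlinarith [mul_pos hw hw, mul_self_nonneg w.im])]
      have h2 : w.im * w.im ≤ w.re * w.re := by
        rw [← abs_mul_abs_self w.im]
        exact mul_le_mul him him (abs_nonneg _) hw.le
      nlinarith
    have h2 : Real.exp (-w⁻¹).re ≤ (m + N).factorial * (2 * w.re) ^ (m + N) :=
      (Real.exp_le_exp.2 h1).trans (exp_neg_inv_le hw _)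
    calc (w.re)⁻¹ ^ m * Real.exp (-w⁻¹).re * ‖β (w.im / w.re)‖
        ≤ (w.re)⁻¹ ^ m * ((m + N).factorial * (2 * w.re) ^ (m + N)) * B := by
          refine mul_le_mul (mul_le_mul_of_nonneg_left h2 (by positivity)) (hB _)
            (norm_nonneg _) (by positivity)
      _ = (m + N).factorial * 2 ^ (m + N) * B * w.re ^ N := by
          rw [mul_pow, pow_add w.re, inv_pow]
          field_simp

/-- The profiles of the derivative. -/
def bt1 (m : ℕ) (β : ℝ → ℂ) (ρ : ℝ) : ℂ := (-(m : ℂ)) * β ρ + (-(ρ : ℂ)) * deriv β ρ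

/-- The profiles of the derivative. -/
def bt3 (β : ℝ → ℂ) (ρ : ℝ) : ℂ := ((1 + I * (ρ : ℂ)) ^ 2)⁻¹ * β ρ

theorem one_add_I_mul_ne (ρ : ℝ) : (1 + I * (ρ : ℂ)) ≠ 0 := by
  intro h
  have := congrArg Complex.re h
  simp at this

theorem Adm.bt1 {β : ℝ → ℂ} (h : Adm β) (m : ℕ) : Adm (bt1 m β) :=
  (h.mul_left contDiff_const).add (h.deriv.mul_left (Complex.ofRealCLM.contDiff.neg))

theorem Adm.bt3 {β : ℝ → ℂ} (h : Adm β) : Adm (bt3 β) := by
  refine h.mul_left (γ := fun ρ : ℝ => ((1 + I * (ρ : ℂ)) ^ 2)⁻¹) ?_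
  have h1 : ContDiff ℝ ∞ (fun ρ : ℝ => (1 + I * (ρ : ℂ)) ^ 2) :=
    (contDiff_const.add (contDiff_const.mul Complex.ofRealCLM.contDiff)).pow 2
  exact h1.inv fun ρ => pow_ne_zero _ (one_add_I_mul_ne ρ)

/-- Real part as a map into `ℂ`. -/
def reC : ℂ →L[ℝ] ℂ := Complex.ofRealCLM ∘L Complex.reCLM

/-- Imaginary part as a map into `ℂ`. -/
def imC : ℂ →L[ℝ] ℂ := Complex.ofRealCLM ∘L Complex.imCLM

theorem reC_apply (w : ℂ) : reC w = (w.re : ℂ) := rfl
theorem imC_apply (w : ℂ) : imC w = (w.im : ℂ) := rfl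

/-- The derivative. -/
def dFn (m : ℕ) (β : ℝ → ℂ) (w : ℂ) : ℂ →L[ℝ] ℂ :=
  Fn (m + 1) (bt1 m β) w • reC + Fn (m + 1) (deriv β) w • imC +
    Fn (m + 2) (bt3 β) w • ContinuousLinearMap.id ℝ ℂ

theorem hasFDerivAt_Fn_pos (m : ℕ) {β : ℝ → ℂ} (h : Adm β) {w : ℂ} (hw : 0 < w.re) :
    HasFDerivAt (Fn m β) (dFn m β w) w := by
  have hw0 : w ≠ 0 := fun h0 => by rw [h0] at hw; simp at hw
  have hre0 : w.re ≠ 0 := hw.ne'
  have e1 : Fn m β =ᶠ[nhds w] fun w =>
      (((w.re)⁻¹ ^ m : ℝ) : ℂ) * Complex.exp (-w⁻¹) * β (w.im / w.re) := by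
    have h1 : ∀ᶠ x in nhds w, 0 < x.re :=
      Complex.continuous_re.continuousAt.eventually_const_lt hw
    exact h1.mono fun x hx => Fn_pos hx
  refine HasFDerivAt.congr_of_eventuallyEq ?_ e1
  have dre : HasFDerivAt (fun w : ℂ => w.re) Complex.reCLM w := Complex.reCLM.hasFDerivAt
  have dim : HasFDerivAt (fun w : ℂ => w.im) Complex.imCLM w := Complex.imCLM.hasFDerivAt
  have d1 : HasFDerivAt (fun w : ℂ => (((w.re)⁻¹ ^ m : ℝ) : ℂ))
      ((((-(m:ℝ)) * (w.re)⁻¹ ^ (m+1) : ℝ) : ℂ) • reC) w := by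
    have h1 : HasDerivAt (fun t : ℝ => (t⁻¹ ^ m : ℝ)) ((-(m:ℝ)) * (w.re)⁻¹ ^ (m+1)) w.re := by
      have h2 := (hasDerivAt_inv hre0).pow m
      refine h2.congr_deriv ?_
      rcases Nat.eq_zero_or_pos m with hm | hm
      · subst hm; simp
      · obtain ⟨k, rfl⟩ : ∃ k, m = k + 1 := ⟨m - 1, by omega⟩
        rw [Nat.add_sub_cancel]
        have h3 : (w.re ^ 2)⁻¹ = w.re⁻¹ ^ 2 := by rw [inv_pow]
        rw [h3]
        ring
    have h3 := h1.comp_hasFDerivAt w dre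
    have h4 := Complex.ofRealCLM.hasFDerivAt.comp w h3
    refine h4.congr_fderiv ?_
    ext <;> simp [reC_apply]
  have d2 : HasFDerivAt (fun w : ℂ => Complex.exp (-w⁻¹))
      ((Complex.exp (-w⁻¹) * (w ^ 2)⁻¹) • ContinuousLinearMap.id ℝ ℂ) w := by
    have h1 : HasDerivAt (fun w : ℂ => Complex.exp (-w⁻¹))
      (Complex.exp (-w⁻¹) * (w ^ 2)⁻¹) w := by
      have h2 := ((hasDerivAt_inv hw0).neg).cexp
      simpa using h2
    refine (h1.hasFDerivAt.restrictScalars ℝ).congr_fderiv ?_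
    ext <;> simp <;> ring
  have d3 : HasFDerivAt (fun w : ℂ => β (w.im / w.re))
      (((deriv β (w.im / w.re)) * (((w.re)⁻¹ : ℝ) : ℂ)) • imC +
        (-(((w.im / w.re : ℝ) : ℂ)) * deriv β (w.im / w.re) * (((w.re)⁻¹ : ℝ) : ℂ)) • reC) w := by
    have h1 : HasFDerivAt (fun w : ℂ => w.im / w.re)
        ((w.re)⁻¹ • Complex.imCLM + (-(w.im / w.re) * (w.re)⁻¹) • Complex.reCLM) w := by
      have h2 := dim.mul ((hasDerivAt_inv hre0).comp_hasFDerivAt w dre)
      have e2 : (fun w : ℂ => w.im / w.re) = (fun w : ℂ => w.im) * (Inv.inv ∘ fun w : ℂ => w.re) := by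
        funext w; simp [div_eq_mul_inv]
      rw [e2]
      refine h2.congr_fderiv ?_
      ext <;> simp <;> field_simp <;> ring
    have h2 : HasDerivAt β (deriv β (w.im / w.re)) (w.im / w.re) :=
      ((h.1.differentiable (by simp)) _).hasDerivAt
    have h3 := h2.hasFDerivAt.comp w h1
    refine h3.congr_fderiv ?_
    ext
    simp [reC_apply, imC_apply]
    ring
  have d4 := (d1.mul d2).mul d3
  refine d4.congr_fderiv ?_
  have hw2 : w = (w.re : ℂ) * (1 + I * ((w.im / w.re : ℝ) : ℂ)) := by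
    have : (w.re : ℂ) ≠ 0 := by exact_mod_cast hre0
    push_cast
    field_simp
    conv_lhs => rw [← re_add_im w]
    ring
  have hne := one_add_I_mul_ne (w.im / w.re)
  unfold dFn
  rw [Fn_pos hw, Fn_pos hw, Fn_pos hw]
  unfold bt1 bt3
  have hrc : (w.re : ℂ) ≠ 0 := by exact_mod_cast hre0
  have key : (w ^ 2)⁻¹ = ((w.re : ℂ)⁻¹) ^ 2 * ((1 + I * ((w.im / w.re : ℝ) : ℂ)) ^ 2)⁻¹ := by
    conv_lhs => rw [hw2]
    rw [mul_pow, mul_inv, inv_pow]
  set E := Complex.exp (-w⁻¹)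
  set ρ : ℝ := w.im / w.re
  set J := ((1 + I * (ρ : ℂ)) ^ 2)⁻¹
  rw [key]
  apply ContinuousLinearMap.ext
  intro δ
  simp only [add_apply, smul_apply, ContinuousLinearMap.id_apply, reC_apply,
    imC_apply, smul_eq_mul, Complex.ofReal_mul, Complex.ofReal_pow, Complex.ofReal_inv,
    Complex.ofReal_neg, Complex.ofReal_natCast, Pi.mul_apply]
  rw [pow_succ ((w.re : ℂ)⁻¹) m, pow_add ((w.re : ℂ)⁻¹) m 2]
  ring

theorem dFn_zero (m : ℕ) (β : ℝ → ℂ) {w : ℂ} (hw : w.re ≤ 0) : dFn m β w = 0 := by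
  unfold dFn
  rw [Fn_nonpos hw, Fn_nonpos hw, Fn_nonpos hw]
  apply ContinuousLinearMap.ext
  intro δ
  simp only [add_apply, smul_apply, smul_eq_mul, zero_mul, add_zero]
  rfl

theorem hasFDerivAt_Fn (m : ℕ) {β : ℝ → ℂ} (h : Adm β) (w : ℂ) :
    HasFDerivAt (Fn m β) (dFn m β w) w := by
  rcases lt_or_ge 0 w.re with hw | hw
  · exact hasFDerivAt_Fn_pos m h hw
  rw [dFn_zero m β hw]
  rcases eq_or_ne w 0 with h0 | h0
  · subst h0
    refine Asymptotics.IsBigO.hasFDerivAt (n := 2) ?_ one_lt_two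
    obtain ⟨C, hC0, hC⟩ := Fn_bound m h 2
    refine Asymptotics.IsBigO.of_bound C (Eventually.of_forall fun x => ?_)
    rw [sub_zero, norm_pow, norm_norm]
    rcases lt_or_ge 0 x.re with hx | hx
    · refine (hC x hx).trans (mul_le_mul_of_nonneg_left ?_ hC0)
      exact pow_le_pow_left₀ hx.le (Complex.re_le_norm x) _
    · rw [Fn_nonpos hx, norm_zero]
      positivity
  · -- locally zero
    have e1 : Fn m β =ᶠ[nhds w] fun _ => 0 := by
      have h1 : ∀ᶠ x in nhds w, x.re < |x.im| ∨ x.re < 0 := by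
        rcases hw.lt_or_eq with h1 | h1
        · exact (Complex.continuous_re.continuousAt.eventually_lt_const h1).mono
            fun x hx => Or.inr hx
        · have h2 : w.re < |w.im| := by
            rw [h1]
            refine abs_pos.2 fun h3 => h0 (Complex.ext h1 h3)
          have h3 : ContinuousAt (fun x : ℂ => |x.im| - x.re) w := by fun_prop
          have h4 : ∀ᶠ x in nhds w, 0 < |x.im| - x.re :=
            h3.eventually_const_lt (by simpa using h2)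
          exact h4.mono fun x hx => Or.inl (by linarith)
      refine h1.mono fun x hx => ?_
      rcases lt_or_ge 0 x.re with h2 | h2
      · rcases hx with hx | hx
        · rw [Fn_pos h2, h.2, mul_zero]
          rw [abs_div, abs_of_pos h2, one_lt_div h2]
          exact hx
        · linarith
      · exact Fn_nonpos h2
    exact (hasFDerivAt_const (0:ℂ) w).congr_of_eventuallyEq e1

theorem contDiff_Fn_nat (n : ℕ) : ∀ (m : ℕ) {β : ℝ → ℂ}, Adm β → ContDiff ℝ n (Fn m β) := by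
  induction n with
  | zero =>
    intro m β h
    rw [Nat.cast_zero, contDiff_zero]
    exact continuous_iff_continuousAt.2 fun w => (hasFDerivAt_Fn m h w).continuousAt
  | succ n ih =>
    intro m β h
    have h1 : fderiv ℝ (Fn m β) = dFn m β := funext fun w => (hasFDerivAt_Fn m h w).fderiv
    rw [Nat.cast_succ, contDiff_succ_iff_fderiv]
    refine ⟨fun w => (hasFDerivAt_Fn m h w).differentiableAt, by simp, ?_⟩
    rw [h1]
    unfold dFn
    exact (((ih _ (h.bt1 m)).smul contDiff_const).add ((ih _ h.deriv).smul contDiff_const)).add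
      ((ih _ h.bt3).smul contDiff_const)

theorem contDiff_Fn (m : ℕ) {β : ℝ → ℂ} (h : Adm β) : ContDiff ℝ ∞ (Fn m β) :=
  contDiff_infty.2 fun n => contDiff_Fn_nat n m h

/-! ### The function `ϕ` -/

/-- Angular cut-off. -/
def kap (ρ : ℝ) : ℂ := ((Real.smoothTransition ((1 - ρ ^ 2) * (4 / 3)) : ℝ) : ℂ)

theorem adm_kap : Adm kap := by
  refine ⟨?_, fun ρ hρ => ?_⟩
  · have h1 : ContDiff ℝ ∞ (fun ρ : ℝ => (1 - ρ ^ 2) * (4 / 3)) :=
      (contDiff_const.sub (contDiff_id.pow 2)).mul contDiff_const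
    exact Complex.ofRealCLM.contDiff.comp (Real.smoothTransition.contDiff.comp h1)
  · unfold kap
    have h1 : 1 < ρ ^ 2 := by
      rw [← sq_abs]
      nlinarith
    rw [Real.smoothTransition.zero_of_nonpos (by nlinarith)]
    simp

theorem kap_one {ρ : ℝ} (hρ : |ρ| ≤ 1 / 2) : kap ρ = 1 := by
  unfold kap
  have h1 : ρ ^ 2 ≤ 1 / 4 := by
    rw [← sq_abs]
    nlinarith [abs_nonneg ρ]
  rw [Real.smoothTransition.one_of_one_le (by nlinarith)]
  simp

theorem deriv_kap {ρ : ℝ} (hρ : |ρ| < 1 / 2) : deriv kap ρ = 0 := by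
  have h1 : kap =ᶠ[nhds ρ] fun _ => 1 := by
    have h2 : ∀ᶠ x in nhds ρ, |x| < 1 / 2 := continuous_abs.continuousAt.eventually_lt_const hρ
    exact h2.mono fun x hx => kap_one hx.le
  rw [h1.deriv_eq]
  simp

/-- The almost analytic function `exp (-1/w)`. -/
def vph (w : ℂ) : ℂ := Fn 0 kap w

theorem contDiff_vph : ContDiff ℝ ∞ vph := contDiff_Fn 0 adm_kap

theorem vph_nonpos {w : ℂ} (hw : w.re ≤ 0) : vph w = 0 := Fn_nonpos hw

theorem vph_real {x : ℝ} (hx : 0 < x) : vph x = ((Real.exp (-x⁻¹) : ℝ) : ℂ) := by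
  unfold vph
  rw [Fn_pos (by simpa using hx)]
  simp only [pow_zero, Complex.ofReal_one, one_mul, Complex.ofReal_im, zero_div]
  rw [kap_one (by simp), mul_one]
  push_cast
  rfl

theorem db_vph_formula (w δ : ℂ) : db vph w δ = (1 / 2) *
    (Fn 1 (bt1 0 kap) w + I * Fn 1 (deriv kap) w) * (starRingEnd ℂ) δ := by
  unfold db
  have h1 : fderiv ℝ vph w = dFn 0 kap w := (hasFDerivAt_Fn 0 adm_kap w).fderiv
  rw [h1]
  unfold dFn
  simp only [add_apply, smul_apply, ContinuousLinearMap.id_apply, reC_apply,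
    imC_apply, smul_eq_mul]
  have e1 : (I * δ).re = -δ.im := by simp
  have e2 : (I * δ).im = δ.re := by simp
  have e3 : (starRingEnd ℂ) δ = (δ.re : ℂ) - I * (δ.im : ℂ) := by
    apply Complex.ext <;> simp
  rw [e1, e2, e3]
  have hI : I * I = -1 := I_mul_I
  push_cast
  linear_combination (1 / 2 * Fn 2 (bt3 kap) w * δ + 1/2 * Fn 1 (deriv kap) w * (δ.im : ℂ)) * hI

/-- Almost analyticity of `ϕ`. -/
theorem db_vph_bound (N : ℕ) : ∃ C : ℝ, 0 ≤ C ∧ ∀ w δ : ℂ,
    ‖db vph w δ‖ ≤ C * |w.im| ^ N * ‖δ‖ := by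
  obtain ⟨C1, hC10, hC1⟩ := Fn_bound 1 (adm_kap.bt1 0) N
  obtain ⟨C2, hC20, hC2⟩ := Fn_bound 1 adm_kap.deriv N
  refine ⟨(C1 + C2) * 2 ^ N, by positivity, fun w δ => ?_⟩
  rw [db_vph_formula]
  rcases lt_or_ge 0 w.re with hw | hw
  · rcases lt_or_ge (|w.im / w.re|) (1 / 2) with h | h
    · have e1 : Fn 1 (bt1 0 kap) w = 0 := by
        rw [Fn_pos hw]
        unfold bt1
        rw [deriv_kap h]
        simp
      have e2 : Fn 1 (deriv kap) w = 0 := by
        rw [Fn_pos hw, deriv_kap h]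
        simp
      rw [e1, e2]
      simp only [mul_zero, add_zero, zero_mul, norm_zero]
      positivity
    · have h1 : w.re ≤ 2 * |w.im| := by
        rw [abs_div, abs_of_pos hw, le_div_iff₀ hw] at h
        linarith
      have h2 : w.re ^ N ≤ 2 ^ N * |w.im| ^ N := by
        rw [← mul_pow]
        exact pow_le_pow_left₀ hw.le h1 _
      rw [norm_mul, RCLike.norm_conj]
      refine mul_le_mul_of_nonneg_right ?_ (norm_nonneg _)
      rw [norm_mul]
      have h3 : ‖(1 / 2 : ℂ)‖ ≤ 1 := by norm_num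
      have h4 : ‖Fn 1 (bt1 0 kap) w + I * Fn 1 (deriv kap) w‖ ≤ (C1 + C2) * w.re ^ N := by
        refine (norm_add_le _ _).trans ?_
        rw [norm_mul, norm_I, one_mul, add_mul]
        exact add_le_add (hC1 w hw) (hC2 w hw)
      calc ‖(1 / 2 : ℂ)‖ * ‖Fn 1 (bt1 0 kap) w + I * Fn 1 (deriv kap) w‖
          ≤ 1 * ((C1 + C2) * w.re ^ N) := mul_le_mul h3 h4 (norm_nonneg _) zero_le_one
        _ ≤ (C1 + C2) * (2 ^ N * |w.im| ^ N) := by
            rw [one_mul]
            exact mul_le_mul_of_nonneg_left h2 (by positivity)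
        _ = (C1 + C2) * 2 ^ N * |w.im| ^ N := by ring
  · rw [Fn_nonpos hw, Fn_nonpos hw]
    simp only [mul_zero, add_zero, zero_mul, norm_zero]
    positivity

end

end Pool.Agent.PeakLib
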