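import Mathlib

/-!
The rotation invariant probability measure on the unit sphere of `ℂ^(d+2)`.
-/

set_option autoImplicit false
set_option linter.unusedSectionVars false

namespace Pool.Agent.PeakLib

open scoped ContDiff
open MeasureTheory Metric

noncomputable section

/-- The space `ℂ^(d+2)`. -/
abbrev EE (d : ℕ) := EuclideanSpace ℂ (Fin (d + 2))

variable {d : ℕ}

/-- Radial projection to the sphere. -/
def nrm (z : EE d) : EE d := (‖z‖⁻¹ : ℝ) • z

theorem measurable_nrm : Measurable (nrm (d := d)) := by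
  unfold nrm
  exact (measurable_norm.inv).smul measurable_id

theorem nrm_mem {z : EE d} (hz : z ≠ 0) : nrm z ∈ sphere (0 : EE d) 1 := by
  rw [mem_sphere_zero_iff_norm, nrm, norm_smul, norm_inv, norm_norm]
  exact inv_mul_cancel₀ (norm_ne_zero_iff.2 hz)

/-- The rotation invariant probability measure on the unit sphere. -/
def sig (d : ℕ) : Measure (EE d) :=
  (volume (ball (0 : EE d) 1))⁻¹ • Measure.map nrm (volume.restrict (ball (0 : EE d) 1))

theorem vol_ball_ne_zero : volume (ball (0 : EE d) 1) ≠ 0 :=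
  (isOpen_ball.measure_pos volume ⟨0, mem_ball_self one_pos⟩).ne'

theorem vol_ball_ne_top : volume (ball (0 : EE d) 1) ≠ ⊤ := measure_ball_lt_top.ne

instance : IsProbabilityMeasure (sig d) := by
  constructor
  unfold sig
  rw [Measure.smul_apply, Measure.map_apply measurable_nrm MeasurableSet.univ, Set.preimage_univ,
    Measure.restrict_apply_univ, smul_eq_mul]
  exact ENNReal.inv_mul_cancel vol_ball_ne_zero vol_ball_ne_top

theorem sig_compl : sig d (sphere (0 : EE d) 1)ᶜ = 0 := by
  unfold sig
  rw [Measure.smul_apply, Measure.map_apply measurable_nrm isClosed_sphere.measurableSet.compl,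
    smul_eq_mul]
  have h : (volume.restrict (ball (0 : EE d) 1)) (nrm ⁻¹' (sphere (0 : EE d) 1)ᶜ) = 0 := by
    refine measure_mono_null (t := {0}) ?_ (by simp)
    intro z hz
    by_contra h
    exact hz (nrm_mem h)
  rw [h, mul_zero]

theorem ae_mem_sphere : ∀ᵐ z ∂(sig d), z ∈ sphere (0 : EE d) 1 := by
  rw [ae_iff]
  exact sig_compl

theorem sig_restrict : (sig d).restrict (sphere (0 : EE d) 1) = sig d :=
  Measure.restrict_eq_self_of_ae_mem ae_mem_sphere

/-- Continuous functions on the sphere are integrable. -/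
theorem integrable_of_continuousOn {F : Type*} [NormedAddCommGroup F]
    {f : EE d → F} (hf : ContinuousOn f (sphere (0 : EE d) 1)) : Integrable f (sig d) := by
  have h := hf.integrableOn_compact (μ := sig d) (isCompact_sphere 0 1)
  rw [IntegrableOn, sig_restrict] at h
  exact h

theorem aesm_of_continuousOn {F : Type*} [NormedAddCommGroup F]
    {f : EE d → F} (hf : ContinuousOn f (sphere (0 : EE d) 1)) :
    AEStronglyMeasurable f (sig d) := (integrable_of_continuousOn hf).aestronglyMeasurable

theorem integral_congr_sphere {F : Type*} [NormedAddCommGroup F] [NormedSpace ℝ F]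
    {f g : EE d → F} (h : ∀ z ∈ sphere (0 : EE d) 1, f z = g z) :
    ∫ z, f z ∂(sig d) = ∫ z, g z ∂(sig d) :=
  integral_congr_ae (ae_mem_sphere.mono h)

/-- Invariance under real linear isometries. -/
theorem sig_measurePreserving (L : EE d ≃ₗᵢ[ℝ] EE d) : MeasurePreserving L (sig d) (sig d) := by
  have hL : Measurable (L : EE d → EE d) := L.continuous.measurable
  refine ⟨hL, ?_⟩
  unfold sig
  rw [Measure.map_smul, Measure.map_map hL measurable_nrm]
  congr 1
  have hcomm : (L : EE d → EE d) ∘ nrm = nrm ∘ L := by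
    funext z
    simp only [Function.comp, nrm, L.norm_map]
    exact L.map_smul _ _
  rw [hcomm, ← Measure.map_map measurable_nrm hL]
  congr 1
  have h1 := (L.measurePreserving).restrict_preimage
    (measurableSet_ball (x := (0 : EE d)) (ε := 1))
  have h2 : (L : EE d → EE d) ⁻¹' ball (0 : EE d) 1 = ball 0 1 := by
    ext z
    simp
  rw [h2] at h1
  exact h1.map_eq

theorem integral_comp_isometry {F : Type*} [NormedAddCommGroup F] [NormedSpace ℝ F]
    (L : EE d ≃ₗᵢ[ℝ] EE d) (f : EE d → F) :
    ∫ z, f (L z) ∂(sig d) = ∫ z, f z ∂(sig d) :=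
  (sig_measurePreserving L).integral_comp' (f := L.toMeasurableEquiv) f

theorem integrable_comp_isometry {F : Type*} [NormedAddCommGroup F]
    (L : EE d ≃ₗᵢ[ℝ] EE d) (f : EE d → F) :
    Integrable (fun z => f (L z)) (sig d) ↔ Integrable f (sig d) :=
  (sig_measurePreserving L).integrable_comp_emb L.toMeasurableEquiv.measurableEmbedding

/-- Integration by parts on the sphere: the generator of a one parameter group of isometries
has mean value zero. -/
theorem integral_skew (A : EE d →L[ℝ] EE d) (hA : ∀ z : EE d, inner ℝ (A z) z = 0)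
    {h : EE d → ℂ} (hd : ∀ z ∈ sphere (0 : EE d) 1, DifferentiableAt ℝ h z)
    (hc : ContinuousOn (fderiv ℝ h) (sphere (0 : EE d) 1)) :
    ∫ z, fderiv ℝ h z (A z) ∂(sig d) = 0 := by
  -- A is skew-adjoint
  have hskew : A ∈ skewAdjoint (EE d →L[ℝ] EE d) := by
    rw [skewAdjoint.mem_iff, ContinuousLinearMap.star_eq_adjoint]
    symm
    rw [ContinuousLinearMap.eq_adjoint_iff]
    intro x y
    have h1 := hA (x + y)
    rw [map_add, inner_add_left, inner_add_right, inner_add_right, hA x, hA y] at h1
    rw [neg_apply, inner_neg_left]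
    have h2 : inner ℝ (A y) x = inner ℝ x (A y) := real_inner_comm _ _
    linarith
  have hsk : ∀ t : ℝ, t • A ∈ skewAdjoint (EE d →L[ℝ] EE d) := fun t => by
    rw [skewAdjoint.mem_iff, star_smul, skewAdjoint.mem_iff.1 hskew]
    simp
  let _ : NormedAlgebra ℚ (EE d →L[ℝ] EE d) := NormedAlgebra.restrictScalars ℚ ℝ _
  set U : ℝ → unitary (EE d →L[ℝ] EE d) := fun t =>
    ⟨NormedSpace.exp (t • A), NormedSpace.exp_mem_unitary_of_mem_skewAdjoint (hsk t)⟩ with hU
  set L : ℝ → (EE d ≃ₗᵢ[ℝ] EE d) := fun t => Unitary.linearIsometryEquiv (U t) with hL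
  have hLapp : ∀ t z, L t z = NormedSpace.exp (t • A) z := fun t z => rfl
  have hderiv : ∀ t z, HasDerivAt (fun t => L t z) (A (L t z)) t := by
    intro t z
    have h1 := hasDerivAt_exp_smul_const' (𝕂 := ℝ) A t
    have h2 := h1.clm_apply (hasDerivAt_const t z)
    simpa [hLapp] using h2
  have hL0 : ∀ z, L 0 z = z := by
    intro z
    have h0 : (0 : ℝ) • A = 0 := zero_smul ℝ A
    rw [hLapp, h0, NormedSpace.exp_zero]
    rfl
  have hsph : ∀ t, ∀ z ∈ sphere (0 : EE d) 1, L t z ∈ sphere (0 : EE d) 1 := by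
    intro t z hz
    rw [mem_sphere_zero_iff_norm] at hz ⊢
    rw [(L t).norm_map, hz]
  -- bound on derivative
  obtain ⟨M, hM⟩ := (isCompact_sphere (0 : EE d) 1).exists_bound_of_continuousOn hc
  have hcont : ContinuousOn h (sphere (0 : EE d) 1) := fun z hz =>
    (hd z hz).continuousAt.continuousWithinAt
  have hmeas : ∀ t, AEStronglyMeasurable (fun z => h (L t z)) (sig d) := by
    intro t
    refine aesm_of_continuousOn ?_
    exact hcont.comp (L t).continuous.continuousOn (fun z hz => hsph t z hz)
  have hcont' : ContinuousOn (fun z => fderiv ℝ h z (A z)) (sphere (0 : EE d) 1) :=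
    hc.clm_apply A.continuous.continuousOn
  have key := hasDerivAt_integral_of_dominated_loc_of_deriv_le (μ := sig d) (𝕜 := ℝ)
    (F := fun t z => h (L t z)) (F' := fun t z => fderiv ℝ h (L t z) (A (L t z)))
    (x₀ := (0 : ℝ)) (s := Set.univ) (bound := fun _ => |M| * ‖A‖) Filter.univ_mem
    (Filter.Eventually.of_forall hmeas) ?_ ?_ ?_ (integrable_const _) ?_
  · have h1 := key.2
    have h2 : (fun n => ∫ (a : EE d), (fun t z => h (L t z)) n a ∂sig d) =
        fun _ => ∫ a, h a ∂(sig d) := by
      funext t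
      exact integral_comp_isometry (L t) h
    rw [h2] at h1
    have h3 := h1.unique (hasDerivAt_const (0:ℝ) (∫ a, h a ∂(sig d)))
    rw [← h3]
    refine integral_congr_ae (Filter.Eventually.of_forall fun z => ?_)
    simp only [hL0]
  · have : (fun z => h (L 0 z)) = h := by
      funext z; rw [hL0]
    show Integrable (fun z => h (L 0 z)) (sig d)
    rw [this]
    exact integrable_of_continuousOn hcont
  · have : (fun z => fderiv ℝ h (L 0 z) (A (L 0 z))) = fun z => fderiv ℝ h z (A z) := by
      funext z; rw [hL0]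
    show AEStronglyMeasurable (fun z => fderiv ℝ h (L 0 z) (A (L 0 z))) (sig d)
    rw [this]
    exact aesm_of_continuousOn hcont'
  · refine ae_mem_sphere.mono fun z hz t _ => ?_
    have hz1 := hsph t z hz
    have h1 := hM _ hz1
    have h2 : ‖A (L t z)‖ ≤ ‖A‖ := by
      have := A.le_opNorm (L t z)
      rw [mem_sphere_zero_iff_norm.1 hz1, mul_one] at this
      exact this
    calc ‖fderiv ℝ h (L t z) (A (L t z))‖ ≤ ‖fderiv ℝ h (L t z)‖ * ‖A (L t z)‖ :=
          ContinuousLinearMap.le_opNorm _ _
      _ ≤ |M| * ‖A‖ := mul_le_mul (h1.trans (le_abs_self _)) h2 (norm_nonneg _) (abs_nonneg _)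
  · refine ae_mem_sphere.mono fun z hz t _ => ?_
    have hz1 := hsph t z hz
    exact (hd _ hz1).hasFDerivAt.comp_hasDerivAt t (hderiv t z)

end

end Pool.Agent.PeakLib
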