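import Pool.Agent.Lib.MP_7d1258_an.Flow
import Pool.Agent.Lib.MP_7d1258_an.SphereMeasure

/-!
The `∂̄` operator, rotation derivative, and the algebra `A^∞(B)`.
-/

set_option autoImplicit false
set_option linter.unusedSectionVars false

namespace Pool.Agent.PeakLib

open scoped ContDiff
open MeasureTheory Metric Complex

noncomputable section

section General

variable {V : Type*} [NormedAddCommGroup V] [NormedSpace ℝ V] [NormedSpace ℂ V]
  [IsScalarTower ℝ ℂ V]

/-- The `∂̄` operator: the conjugate linear part of the real derivative. -/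
def db (g : V → ℂ) (ζ w : V) : ℂ :=
  (1 / 2) * (fderiv ℝ g ζ w + I * fderiv ℝ g ζ (I • w))

theorem I_smul_I_smul (w : V) : I • I • w = -w := by
  rw [smul_smul, I_mul_I, neg_one_smul]

theorem complex_smul_eq (c : ℂ) (w : V) : c • w = c.re • w + c.im • (I • w) := by
  have h : c = (c.re : ℂ) + (c.im : ℂ) * I := (re_add_im c).symm
  conv_lhs => rw [h]
  rw [add_smul, mul_smul]
  congr 1
  · exact coe_smul' c.re w
  · exact coe_smul' c.im (I • w)
where
  coe_smul' (r : ℝ) (w : V) : (r : ℂ) • w = r • w := by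
    rw [← one_smul ℂ w, ← smul_assoc r (1:ℂ) w, Complex.real_smul, mul_one, one_smul]

theorem db_add {f g : V → ℂ} {z : V} (hf : DifferentiableAt ℝ f z) (hg : DifferentiableAt ℝ g z)
    (w : V) : db (fun z => f z + g z) z w = db f z w + db g z w := by
  unfold db
  rw [show (fun z => f z + g z) = f + g from rfl, fderiv_add hf hg]
  simp only [add_apply]
  ring

theorem db_sub {f g : V → ℂ} {z : V} (hf : DifferentiableAt ℝ f z) (hg : DifferentiableAt ℝ g z)
    (w : V) : db (fun z => f z - g z) z w = db f z w - db g z w := by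
  unfold db
  rw [show (fun z => f z - g z) = f - g from rfl, fderiv_sub hf hg]
  simp only [sub_apply]
  ring

theorem db_neg (f : V → ℂ) (z w : V) : db (fun z => - f z) z w = - db f z w := by
  unfold db
  rw [show (fun z => - f z) = - f from rfl, fderiv_neg]
  simp only [neg_apply]
  ring

theorem db_const (c : ℂ) (z w : V) : db (fun _ => c) z w = 0 := by
  unfold db
  simp

theorem fderiv_mul_apply' {f g : V → ℂ} {z : V} (hf : DifferentiableAt ℝ f z)
    (hg : DifferentiableAt ℝ g z) (w : V) :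
    fderiv ℝ (fun z => f z * g z) z w = fderiv ℝ f z w * g z + f z * fderiv ℝ g z w := by
  have h := (hf.hasFDerivAt.mul hg.hasFDerivAt).fderiv
  have h2 : (fun z => f z * g z) = f * g := rfl
  rw [h2, h]
  simp only [add_apply, smul_apply, smul_eq_mul]
  ring

theorem db_mul {f g : V → ℂ} {z : V} (hf : DifferentiableAt ℝ f z) (hg : DifferentiableAt ℝ g z)
    (w : V) : db (fun z => f z * g z) z w = db f z w * g z + f z * db g z w := by
  unfold db
  rw [fderiv_mul_apply' hf hg, fderiv_mul_apply' hf hg]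
  ring

theorem db_const_mul {g : V → ℂ} {z : V} (c : ℂ) (hg : DifferentiableAt ℝ g z)
    (w : V) : db (fun z => c * g z) z w = c * db g z w := by
  have := db_mul (f := fun _ : V => c) (g := g) (z := z) (by fun_prop) hg w
  rw [this, db_const]
  ring

theorem db_add_right (g : V → ℂ) (z w w' : V) : db g z (w + w') = db g z w + db g z w' := by
  unfold db
  rw [smul_add, map_add, map_add]
  ring

theorem db_zero_right (g : V → ℂ) (z : V) : db g z 0 = 0 := by
  unfold db
  simp

theorem db_neg_right (g : V → ℂ) (z w : V) : db g z (-w) = - db g z w := by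
  unfold db
  rw [smul_neg, map_neg, map_neg]
  ring

theorem db_sub_right (g : V → ℂ) (z w w' : V) : db g z (w - w') = db g z w - db g z w' := by
  rw [sub_eq_add_neg, db_add_right, db_neg_right, sub_eq_add_neg]

theorem db_smul_right (g : V → ℂ) (z : V) (c : ℂ) (w : V) :
    db g z (c • w) = (starRingEnd ℂ) c * db g z w := by
  unfold db
  have h1 : c • w = c.re • w + c.im • (I • w) := complex_smul_eq c w
  have h2 : I • (c • w) = c.re • (I • w) + c.im • (-w) := by
    rw [smul_comm I c w, complex_smul_eq c (I • w), I_smul_I_smul]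
  rw [h2, h1]
  simp only [map_add, map_smul, map_neg, Complex.real_smul]
  have hc : (starRingEnd ℂ) c = (c.re : ℂ) - (c.im : ℂ) * I := by
    apply Complex.ext <;> simp
  rw [hc]
  have hI : I * I = -1 := I_mul_I
  linear_combination (1 / 2 * (c.im : ℂ) * fderiv ℝ g z (I • w)) * hI

theorem db_sum_right {ι : Type*} (s : Finset ι) (g : V → ℂ) (z : V) (w : ι → V) :
    db g z (∑ i ∈ s, w i) = ∑ i ∈ s, db g z (w i) := by
  classical
  induction s using Finset.induction_on with
  | empty => simp [db_zero_right]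
  | insert a s ha ih => rw [Finset.sum_insert ha, Finset.sum_insert ha, db_add_right, ih]

theorem db_congr {f g : V → ℂ} {z : V} (h : f =ᶠ[nhds z] g) (w : V) : db f z w = db g z w := by
  unfold db
  rw [h.fderiv_eq]

theorem db_eq_zero_of_complex {g : V → ℂ} {z : V} (hg : DifferentiableAt ℂ g z) (w : V) :
    db g z w = 0 := by
  unfold db
  have h : fderiv ℝ g z = (fderiv ℂ g z).restrictScalars ℝ := hg.fderiv_restrictScalars ℝ
  rw [h]
  simp only [ContinuousLinearMap.coe_restrictScalars', map_smul, smul_eq_mul]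
  have hI : I * I = -1 := I_mul_I
  linear_combination (1 / 2 * fderiv ℂ g z w) * hI

theorem fderiv_I_smul_of_db {g : V → ℂ} {z : V} {w : V} (h : db g z w = 0) :
    fderiv ℝ g z (I • w) = I * fderiv ℝ g z w := by
  unfold db at h
  have hI : I * I = -1 := I_mul_I
  linear_combination (-(2 : ℂ) * I) * h + (fderiv ℝ g z (I • w)) * hI

theorem differentiableAt_complex_of_db {g : V → ℂ} {z : V} (hg : DifferentiableAt ℝ g z)
    (h : ∀ w, db g z w = 0) : DifferentiableAt ℂ g z := by
  rw [differentiableAt_iff_restrictScalars ℝ hg]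
  refine ⟨{ toFun := fun w => fderiv ℝ g z w
            map_add' := fun x y => map_add _ _ _
            map_smul' := ?_
            cont := (fderiv ℝ g z).continuous }, ?_⟩
  · intro c w
    rw [complex_smul_eq c w, map_add, map_smul, map_smul, fderiv_I_smul_of_db (h w)]
    simp only [Complex.real_smul, RingHom.id_apply, smul_eq_mul]
    conv_rhs => rw [← re_add_im c]
    ring
  · ext w
    rfl

/-- Chain rule for `∂̄`. -/
theorem db_comp {F : ℂ → ℂ} {f : V → ℂ} {z : V} (hF : DifferentiableAt ℝ F (f z))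
    (hf : DifferentiableAt ℝ f z) (w : V) :
    db (fun z => F (f z)) z w =
      db F (f z) (fderiv ℝ f z w) - I * fderiv ℝ F (f z) (I * db f z w) := by
  have hc : fderiv ℝ (fun z => F (f z)) z = (fderiv ℝ F (f z)).comp (fderiv ℝ f z) :=
    fderiv_comp z hF hf
  unfold db
  rw [hc]
  simp only [ContinuousLinearMap.comp_apply, smul_eq_mul]
  set A := fderiv ℝ f z w
  set B := fderiv ℝ f z (I • w)
  set D := fderiv ℝ F (f z)
  have hI : I * I = -1 := I_mul_I
  have h1 : I * (1 / 2 * (A + I * B)) = (1/2 : ℝ) • (I * A - B) := by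
    rw [Complex.real_smul]
    push_cast
    linear_combination (1/2 * B) * hI
  rw [h1, map_smul, map_sub, Complex.real_smul]
  push_cast
  ring

/-- Rotation derivative. -/
def TE (g : V → ℂ) (p : V) : ℂ := fderiv ℝ g p (I • p)

theorem contDiff_I_smul : ContDiff ℝ ∞ (fun p : V => I • p) := by
  have : ContDiff ℝ ∞ (fun p : V => ((ContinuousLinearMap.lsmul ℝ ℂ (E := V)) I) p) :=
    ((ContinuousLinearMap.lsmul ℝ ℂ (E := V)) I).contDiff
  exact this

theorem contDiff_TE {g : V → ℂ} (hg : ContDiff ℝ ∞ g) : ContDiff ℝ ∞ (TE g) := by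
  unfold TE
  have h1 : ContDiff ℝ ∞ (fderiv ℝ g) := (contDiff_infty_iff_fderiv.1 hg).2
  exact h1.clm_apply contDiff_I_smul

theorem contDiff_TE_iterate {g : V → ℂ} (hg : ContDiff ℝ ∞ g) (k : ℕ) :
    ContDiff ℝ ∞ (TE^[k] g) := by
  induction k generalizing g with
  | zero => exact hg
  | succ k ih => exact ih (contDiff_TE hg)

theorem hasDerivAt_rot {g : V → ℂ} {p : V} {θ : ℝ}
    (hg : DifferentiableAt ℝ g (Complex.exp (θ * I) • p)) :
    HasDerivAt (fun θ : ℝ => g (Complex.exp (θ * I) • p)) (TE g (Complex.exp (θ * I) • p)) θ := by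
  have h1 : HasDerivAt (fun θ : ℝ => Complex.exp (θ * I)) (Complex.exp (θ * I) * I) θ := by
    have h2 : HasDerivAt (fun x : ℂ => Complex.exp (x * I)) (Complex.exp (θ * I) * I) (θ : ℂ) := by
      have := ((hasDerivAt_id (θ : ℂ)).mul_const I).cexp
      simpa using this
    exact h2.comp_ofReal
  have h2 : HasDerivAt (fun θ : ℝ => Complex.exp (θ * I) • p) ((Complex.exp (θ * I) * I) • p) θ :=
    h1.smul_const p
  have h3 := hg.hasFDerivAt.comp_hasDerivAt θ h2
  unfold TE
  rw [show I • Complex.exp (θ * I) • p = (Complex.exp (θ * I) * I) • p by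
    rw [smul_smul, mul_comm]]
  exact h3

/-- `∂̄ g` as a function on the product space. -/
def dbF (g : V → ℂ) (p : V × V) : ℂ := db g p.1 p.2

theorem contDiff_dbF {g : V → ℂ} (hg : ContDiff ℝ ∞ g) : ContDiff ℝ ∞ (dbF g) := by
  unfold dbF db
  have h1 : ContDiff ℝ ∞ (fderiv ℝ g) := (contDiff_infty_iff_fderiv.1 hg).2
  have h2 : ContDiff ℝ ∞ (fun p : V × V => fderiv ℝ g p.1) := h1.comp contDiff_fst
  have h3 : ContDiff ℝ ∞ (fun p : V × V => fderiv ℝ g p.1 p.2) := h2.clm_apply contDiff_snd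
  have h4 : ContDiff ℝ ∞ (fun p : V × V => fderiv ℝ g p.1 (I • p.2)) :=
    h2.clm_apply (contDiff_I_smul.comp contDiff_snd)
  exact contDiff_const.mul (h3.add (contDiff_const.mul h4))

theorem hasFDerivAt_fderiv_apply {g : V → ℂ} (hg : ContDiff ℝ ∞ g) (A : V →L[ℝ] V) (p : V × V) :
    HasFDerivAt (fun p : V × V => fderiv ℝ g p.1 (A p.2))
      ((fderiv ℝ (fderiv ℝ g) p.1).flip (A p.2) ∘L ContinuousLinearMap.fst ℝ V V
        + fderiv ℝ g p.1 ∘L A ∘L ContinuousLinearMap.snd ℝ V V) p := by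
  have h1 : ContDiff ℝ ∞ (fderiv ℝ g) := (contDiff_infty_iff_fderiv.1 hg).2
  have h2 : HasFDerivAt (fderiv ℝ g) (fderiv ℝ (fderiv ℝ g) p.1) p.1 :=
    (h1.differentiable (by simp) p.1).hasFDerivAt
  have h3 : HasFDerivAt (fun p : V × V => fderiv ℝ g p.1)
      ((fderiv ℝ (fderiv ℝ g) p.1) ∘L ContinuousLinearMap.fst ℝ V V) p :=
    h2.comp p hasFDerivAt_fst
  have h4 : HasFDerivAt (fun p : V × V => A p.2) (A ∘L ContinuousLinearMap.snd ℝ V V) p :=
    A.hasFDerivAt.comp p hasFDerivAt_snd
  have h5 := h3.clm_apply h4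
  refine h5.congr_fderiv ?_
  ext q
  · simp
  · simp

theorem fderiv_fderiv_symm {g : V → ℂ} (hg : ContDiff ℝ ∞ g) (z v w : V) :
    fderiv ℝ (fderiv ℝ g) z v w = fderiv ℝ (fderiv ℝ g) z w v := by
  have h1 : ContDiff ℝ ∞ (fderiv ℝ g) := (contDiff_infty_iff_fderiv.1 hg).2
  refine second_derivative_symmetric (f := g) (f' := fderiv ℝ g) (x := z) ?_ ?_ v w
  · intro y
    exact (hg.differentiable (by simp) y).hasFDerivAt
  · exact (h1.differentiable (by simp) z).hasFDerivAt

theorem fderiv_TE_apply {g : V → ℂ} (hg : ContDiff ℝ ∞ g) (z w : V) :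
    fderiv ℝ (TE g) z w = fderiv ℝ (fderiv ℝ g) z w (I • z) + fderiv ℝ g z (I • w) := by
  set A : V →L[ℝ] V := (ContinuousLinearMap.lsmul ℝ ℂ (E := V)) I with hA
  have hAapp : ∀ v, A v = I • v := fun v => rfl
  have h1 := hasFDerivAt_fderiv_apply hg A (z, z)
  have h2 : HasFDerivAt (fun z : V => (z, z))
      ((ContinuousLinearMap.id ℝ V).prod (ContinuousLinearMap.id ℝ V)) z :=
    (hasFDerivAt_id z).prodMk (hasFDerivAt_id z)
  have h3 := (HasFDerivAt.comp z (f := fun z : V => (z, z)) h1 h2).fderiv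
  have h4 : ((fun p : V × V => fderiv ℝ g p.1 (A p.2)) ∘ fun z : V => (z, z)) = TE g := rfl
  rw [h4] at h3
  rw [h3]
  simp [hAapp]

theorem TE_dbF {g : V → ℂ} (hg : ContDiff ℝ ∞ g) : TE (dbF g) = dbF (TE g) := by
  funext p
  obtain ⟨z, w⟩ := p
  set A : V →L[ℝ] V := (ContinuousLinearMap.lsmul ℝ ℂ (E := V)) I with hA
  have hAapp : ∀ v, A v = I • v := fun v => rfl
  have h1 := hasFDerivAt_fderiv_apply hg (ContinuousLinearMap.id ℝ V) (z, w)
  have h2 := hasFDerivAt_fderiv_apply hg A (z, w)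
  have h3 := ((h1.add (h2.const_mul I)).const_mul (1/2 : ℂ)).fderiv
  have h4 : (fun p : V × V => (1/2 : ℂ) * (fderiv ℝ g p.1 (ContinuousLinearMap.id ℝ V p.2) +
      I * fderiv ℝ g p.1 (A p.2))) = dbF g := rfl
  unfold TE
  rw [← h4]
  have h5 : fderiv ℝ (fun p : V × V => (1/2 : ℂ) *
      (fderiv ℝ g p.1 (ContinuousLinearMap.id ℝ V p.2) + I * fderiv ℝ g p.1 (A p.2))) (z, w) = _ := h3
  rw [h5]
  unfold dbF db
  have e1 : fderiv ℝ (fun p : V => fderiv ℝ g p (I • p)) z w
      = fderiv ℝ (fderiv ℝ g) z w (I • z) + fderiv ℝ g z (I • w) := fderiv_TE_apply hg z w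
  have e2 : fderiv ℝ (fun p : V => fderiv ℝ g p (I • p)) z (I • w)
      = fderiv ℝ (fderiv ℝ g) z (I • w) (I • z) + fderiv ℝ g z (I • I • w) :=
    fderiv_TE_apply hg z (I • w)
  rw [e1, e2, fderiv_fderiv_symm hg z w, fderiv_fderiv_symm hg z (I • w)]
  simp [hAapp]
  ring

end General

end

end Pool.Agent.PeakLib
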