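import Pool.Agent.Lib.MP_7d1258_an.Peak

/-!
Good real functions relative to a peak function, and the cut-off functions.
-/

set_option autoImplicit false
set_option linter.unusedSectionVars false

namespace Pool.Agent.PeakLib

open scoped ContDiff
open MeasureTheory Metric Complex Filter

noncomputable section

variable {d : ℕ}

/-- Real functions which have an approximation which is `∂̄`-closed near the zero set of `e`. -/
def GoodP (e : EE d → ℂ) (c : ℝ) (p : EE d → ℝ) : Prop :=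
  ContDiff ℝ ∞ p ∧ ∃ P : EE d → ℂ, ContDiff ℝ ∞ P ∧
    (∃ C : ℝ, 0 ≤ C ∧ ∀ z ∈ SS d, ‖e z‖ ≤ c → ‖P z - (p z : ℂ)‖ ≤ C * Real.sqrt (e z).re) ∧
    ∀ z ∈ SS d, ‖e z‖ ≤ c → ∀ w, db P z w = 0

variable {e : EE d → ℂ} {c : ℝ}

theorem GoodP.const (a : ℝ) : GoodP e c (fun _ => a) := by
  refine ⟨contDiff_const, fun _ => (a : ℂ), contDiff_const, ⟨0, le_rfl, fun z _ _ => ?_⟩,
    fun z _ _ w => db_const _ z w⟩
  simp

theorem GoodP.add {p q : EE d → ℝ} (hp : GoodP e c p) (hq : GoodP e c q) :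
    GoodP e c (fun z => p z + q z) := by
  obtain ⟨hp1, P, hP1, ⟨C, hC0, hC⟩, hP3⟩ := hp
  obtain ⟨hq1, Q, hQ1, ⟨D, hD0, hD⟩, hQ3⟩ := hq
  refine ⟨hp1.add hq1, fun z => P z + Q z, hP1.add hQ1, ⟨C + D, by positivity,
    fun z hz he => ?_⟩, fun z hz he w => ?_⟩
  · have h1 : P z + Q z - ((p z + q z : ℝ) : ℂ) = (P z - (p z : ℂ)) + (Q z - (q z : ℂ)) := by
      push_cast; ring
    show ‖P z + Q z - ((p z + q z : ℝ) : ℂ)‖ ≤ _
    rw [h1, add_mul]
    exact (norm_add_le _ _).trans (add_le_add (hC z hz he) (hD z hz he))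
  · rw [db_add (hP1.differentiable (by simp) z) (hQ1.differentiable (by simp) z),
      hP3 z hz he, hQ3 z hz he, add_zero]

theorem GoodP.const_mul {p : EE d → ℝ} (hp : GoodP e c p) (a : ℝ) :
    GoodP e c (fun z => a * p z) := by
  obtain ⟨hp1, P, hP1, ⟨C, hC0, hC⟩, hP3⟩ := hp
  refine ⟨contDiff_const.mul hp1, fun z => (a : ℂ) * P z, contDiff_const.mul hP1,
    ⟨|a| * C, by positivity, fun z hz he => ?_⟩, fun z hz he w => ?_⟩
  · have h1 : (a : ℂ) * P z - ((a * p z : ℝ) : ℂ) = (a : ℂ) * (P z - (p z : ℂ)) := by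
      push_cast; ring
    show ‖(a : ℂ) * P z - ((a * p z : ℝ) : ℂ)‖ ≤ _
    rw [h1, norm_mul, Complex.norm_real, Real.norm_eq_abs, mul_assoc]
    exact mul_le_mul_of_nonneg_left (hC z hz he) (abs_nonneg _)
  · rw [db_const_mul _ (hP1.differentiable (by simp) z), hP3 z hz he, mul_zero]

theorem GoodP.exp {p : EE d → ℝ} (hp : GoodP e c p) :
    GoodP e c (fun z => Real.exp (p z)) := by
  obtain ⟨hp1, P, hP1, ⟨C, hC0, hC⟩, hP3⟩ := hp
  obtain ⟨R1, hR1⟩ := isCompact_SS.exists_bound_of_continuousOn (s := SS d)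
    hP1.continuous.continuousOn
  obtain ⟨R2, hR2⟩ := isCompact_SS.exists_bound_of_continuousOn (s := SS d)
    hp1.continuous.continuousOn
  have hexp : ContDiff ℝ ∞ Complex.exp := Complex.contDiff_exp
  obtain ⟨L, hL0, hL⟩ := lipschitz_compact hexp (isCompact_closedBall (0:ℂ) (max R1 R2))
    (convex_closedBall (0:ℂ) (max R1 R2))
  refine ⟨Real.contDiff_exp.comp hp1, fun z => Complex.exp (P z), hexp.comp hP1,
    ⟨L * C, by positivity, fun z hz he => ?_⟩, fun z hz he w => ?_⟩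
  · have h1 : (((Real.exp (p z) : ℝ)) : ℂ) = Complex.exp (p z : ℂ) := Complex.ofReal_exp _
    show ‖Complex.exp (P z) - ((Real.exp (p z) : ℝ) : ℂ)‖ ≤ _
    rw [h1, mul_assoc]
    refine (hL _ ?_ _ ?_).trans (mul_le_mul_of_nonneg_left (hC z hz he) hL0)
    · exact mem_closedBall_zero_iff.2 ((hR1 z hz).trans (le_max_left _ _))
    · rw [mem_closedBall_zero_iff, Complex.norm_real]
      exact (hR2 z hz).trans (le_max_right _ _)
  · refine db_comp_zero (hexp.differentiable (by simp) _) (hP1.differentiable (by simp) z) w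
      (fun δ => db_eq_zero_of_complex (Complex.differentiable_exp _) δ) (hP3 z hz he w)

theorem GoodP.sum {ι : Type*} (s : Finset ι) {p : ι → EE d → ℝ} (hp : ∀ i, GoodP e c (p i)) :
    GoodP e c (fun z => ∑ i ∈ s, p i z) := by
  classical
  induction s using Finset.induction_on with
  | empty => simpa using GoodP.const (e := e) (c := c) 0
  | insert a s ha ih =>
    have h1 : (fun z => ∑ i ∈ insert a s, p i z) = fun z => p a z + ∑ i ∈ s, p i z := by
      funext z
      rw [Finset.sum_insert ha]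
    rw [h1]
    exact (hp a).add ih

/-- The basic good functions: real parts of linear functions. -/
theorem GoodP.base {Z : Set (EE d)} (h : PK e Z) (hc0 : 0 < c)
    (hc : ∀ z ∈ SS d, ‖e z‖ ≤ c → c < ‖rad e z‖) (ξ : EE d) :
    GoodP e c (fun z => (inner ℂ z ξ : ℂ).re) := by
  obtain ⟨C, hC0, hC⟩ := h.tangential
  have hA : AA (fun z => fderiv ℝ e z ξ) := h.aa.fderiv_apply ξ
  have hR : AA (rad e) := h.aa.rad
  have hrc : ContDiff ℝ ∞ (fun z => recip c (rad e z)) := (contDiff_recip hc0).comp hR.1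
  have hin : ContDiff ℝ ∞ (fun z : EE d => (inner ℂ ξ z : ℂ)) := by
    have h2 : ContDiff ℝ ∞ (fun ζ : EE d => ((innerSL ℂ ξ).restrictScalars ℝ) ζ) :=
      ((innerSL ℂ ξ).restrictScalars ℝ).contDiff
    exact h2
  have hre : ∀ z : EE d, (inner ℂ z ξ : ℂ).re = (inner ℂ ξ z : ℂ).re := fun z =>
    inner_re_symm (𝕜 := ℂ) z ξ
  refine ⟨?_, fun z => (1 / 2) * (inner ℂ ξ z + fderiv ℝ e z ξ * recip c (rad e z)),
    contDiff_const.mul (hin.add (hA.1.mul hrc)), ⟨C * (2 * ‖ξ‖) / c, by positivity,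
    fun z hz he => ?_⟩, fun z hz he w => ?_⟩
  · simp only [hre]
    exact Complex.reCLM.contDiff.comp hin
  · have hz1 := mem_sphere_zero_iff_norm.1 hz
    have hzc := sphere_subset_closedBall hz
    have hrad := hc z hz he
    have hrad0 : rad e z ≠ 0 := fun h0 => by
      rw [h0, norm_zero] at hrad; linarith
    set w : EE d := ξ - (inner ℂ z ξ : ℂ) • z with hw
    have hzz : (inner ℂ z z : ℂ) = 1 := by
      rw [inner_self_eq_norm_sq_to_K, hz1]; simp
    have hzw : inner ℂ z w = 0 := by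
      rw [hw, inner_sub_right, inner_smul_right, hzz, mul_one, sub_self]
    have hwn : ‖w‖ ≤ 2 * ‖ξ‖ := by
      rw [hw]
      refine (norm_sub_le _ _).trans ?_
      rw [norm_smul, hz1, mul_one]
      have := norm_inner_le_norm (𝕜 := ℂ) z ξ
      rw [hz1, one_mul] at this
      linarith
    have h1 : fderiv ℝ e z ξ = inner ℂ z ξ * rad e z + fderiv ℝ e z w := by
      have h2 : ξ = (inner ℂ z ξ : ℂ) • z + w := by rw [hw]; abel
      conv_lhs => rw [h2]
      rw [map_add, h.aa.fderiv_smul hzc]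
      rfl
    have h2 : (((inner ℂ z ξ : ℂ).re : ℝ) : ℂ) = (1 / 2) * (inner ℂ ξ z + inner ℂ z ξ) := by
      rw [← inner_conj_symm ξ z]
      generalize (inner ℂ z ξ : ℂ) = x
      apply Complex.ext
      · simp; ring
      · simp
    show ‖(1 / 2) * (inner ℂ ξ z + fderiv ℝ e z ξ * recip c (rad e z)) -
      (((inner ℂ z ξ : ℂ).re : ℝ) : ℂ)‖ ≤ _
    have h3 : (1 / 2) * (inner ℂ ξ z + fderiv ℝ e z ξ * recip c (rad e z)) -
      (((inner ℂ z ξ : ℂ).re : ℝ) : ℂ) = (1 / 2) * (fderiv ℝ e z w * (rad e z)⁻¹) := by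
      rw [h2, recip_eq hc0 hrad.le, h1]
      field_simp
      ring
    rw [h3, norm_mul, norm_mul, norm_inv]
    have h4 := hC z hz w hzw
    have h5 : ‖rad e z‖⁻¹ ≤ c⁻¹ := inv_anti₀ hc0 hrad.le
    have h6 : ‖(1 / 2 : ℂ)‖ ≤ 1 := by norm_num
    calc ‖(1 / 2 : ℂ)‖ * (‖fderiv ℝ e z w‖ * ‖rad e z‖⁻¹)
        ≤ 1 * ((C * Real.sqrt (e z).re * (2 * ‖ξ‖)) * c⁻¹) := by
          refine mul_le_mul h6 (mul_le_mul (h4.trans ?_) h5 (by positivity) (by positivity))
            (by positivity) zero_le_one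
          exact mul_le_mul_of_nonneg_left hwn (by positivity)
      _ = C * (2 * ‖ξ‖) / c * Real.sqrt (e z).re := by
          field_simp
  · have hzc := sphere_subset_closedBall hz
    have hrad := hc z hz he
    have d1 : DifferentiableAt ℝ (fun z : EE d => (inner ℂ ξ z : ℂ)) z :=
      hin.differentiable (by simp) z
    have d2 : DifferentiableAt ℝ (fun z => fderiv ℝ e z ξ) z := hA.differentiable z
    have d3 : DifferentiableAt ℝ (fun z => recip c (rad e z)) z :=
      hrc.differentiable (by simp) z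
    have e1 : db (fun z : EE d => (inner ℂ ξ z : ℂ)) z w = 0 := by
      refine db_eq_zero_of_complex ?_ w
      exact (innerSL ℂ ξ).differentiableAt
    have e2 : db (fun z => fderiv ℝ e z ξ) z w = 0 := hA.2 z hzc w
    have e3 : db (fun z => recip c (rad e z)) z w = 0 :=
      db_comp_zero ((contDiff_recip hc0).differentiable (by simp) _) (hR.differentiable z) w
        (fun δ => db_recip hc0 hrad δ) (hR.2 z hzc w)
    have e4 : db (fun z => fderiv ℝ e z ξ * recip c (rad e z)) z w = 0 := by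
      rw [db_mul d2 d3, e2, e3]; ring
    have d4 : DifferentiableAt ℝ (fun z => fderiv ℝ e z ξ * recip c (rad e z)) z := d2.mul d3
    have d5 : DifferentiableAt ℝ
      (fun z : EE d => (inner ℂ ξ z : ℂ) + fderiv ℝ e z ξ * recip c (rad e z)) z := d1.add d4
    rw [db_const_mul _ d5, db_add d1 d4, e1, e4]
    simp

/-- Smooth cut-off: one for `x ≤ 1/4`, zero for `x ≥ 1`. -/
def ct (x : ℝ) : ℝ := Real.smoothTransition ((1 - x) * (4 / 3))

theorem contDiff_ct : ContDiff ℝ ∞ ct :=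
  Real.smoothTransition.contDiff.comp ((contDiff_const.sub contDiff_id).mul contDiff_const)

theorem ct_one {x : ℝ} (hx : x ≤ 1 / 4) : ct x = 1 :=
  Real.smoothTransition.one_of_one_le (by linarith)

theorem ct_zero {x : ℝ} (hx : 1 ≤ x) : ct x = 0 :=
  Real.smoothTransition.zero_of_nonpos (by linarith)

theorem ct_nonneg (x : ℝ) : 0 ≤ ct x := Real.smoothTransition.nonneg _

theorem ct_le_one (x : ℝ) : ct x ≤ 1 := Real.smoothTransition.le_one _

/-- The cut-off lemma. -/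
theorem cutoff {Z : Set (EE d)} (h : PK e Z) (hc0 : 0 < c) {p : EE d → ℝ} (hp : GoodP e c p)
    {η : ℝ} (hη : 0 < η) :
    ∃ C0 δ0 : ℝ, 0 ≤ C0 ∧ 0 < δ0 ∧ ∀ δ : ℝ, 0 < δ → δ ≤ δ0 → ∃ χ : EE d → ℂ,
      ContDiff ℝ ∞ χ ∧
      (∀ z ∈ SS d, ‖χ z - ((ThR (p z) : ℝ) : ℂ)‖ ≤
        C0 * (Real.sqrt (ThR (p z)) * Real.sqrt (e z).re + (e z).re)) ∧
      (∀ z ∈ SS d, δ ≤ ‖e z‖ → χ z = ((ThR (p z) : ℝ) : ℂ)) ∧
      (∀ z ∈ SS d, 1 + η ≤ p z → χ z = 1) ∧
      (∀ z ∈ SS d, 1 + η < p z → ∀ w, db χ z w = 0) ∧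
      (∀ N : ℕ, ∃ C : ℝ, ∀ q ∈ DD d, ‖db χ q.1 q.2‖ ≤ C * (e q.1).re ^ N) := by
  obtain ⟨hp1, P, hP1, ⟨C, hC0, hC⟩, hP3⟩ := hp
  obtain ⟨B, hB⟩ := isCompact_SS.exists_bound_of_continuousOn (s := SS d)
    h.aa.1.continuous.continuousOn
  obtain ⟨R1, hR1⟩ := isCompact_SS.exists_bound_of_continuousOn (s := SS d)
    hp1.continuous.continuousOn
  set R : ℝ := |R1| + C * Real.sqrt |B| with hR
  obtain ⟨C1, hC10, hC1⟩ := Th_compare R
  refine ⟨C1 * (C + C ^ 2), min c ((η / (C + 1)) ^ 2), by positivity, by positivity,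
    fun δ hδ0 hδ => ?_⟩
  have hδc : δ ≤ c := hδ.trans (min_le_left _ _)
  have hδη : C * Real.sqrt δ ≤ η := by
    have h1 : Real.sqrt δ ≤ η / (C + 1) := by
      rw [Real.sqrt_le_left (by positivity)]
      exact hδ.trans (min_le_right _ _)
    calc C * Real.sqrt δ ≤ (C + 1) * (η / (C + 1)) :=
          mul_le_mul (by linarith) h1 (Real.sqrt_nonneg _) (by positivity)
      _ = η := by field_simp
  -- the cut off function
  set k : EE d → ℝ := fun z => ct (‖e z‖ ^ 2 / δ ^ 2) with hk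
  have hkcd : ContDiff ℝ ∞ k := by
    have h1 : ContDiff ℝ ∞ (fun z => ‖e z‖ ^ 2) := (contDiff_norm_sq ℝ).comp h.aa.1
    exact contDiff_ct.comp (h1.div_const _)
  have hkC : ContDiff ℝ ∞ (fun z => ((k z : ℝ) : ℂ)) := Complex.ofRealCLM.contDiff.comp hkcd
  have hpC : ContDiff ℝ ∞ (fun z => ((p z : ℝ) : ℂ)) := Complex.ofRealCLM.contDiff.comp hp1
  set τ : EE d → ℂ := fun z => ((k z : ℝ) : ℂ) * P z + (1 - ((k z : ℝ) : ℂ)) * ((p z : ℝ) : ℂ)
    with hτ
  have hτcd : ContDiff ℝ ∞ τ := (hkC.mul hP1).add ((contDiff_const.sub hkC).mul hpC)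
  have hτp : ∀ z, τ z - ((p z : ℝ) : ℂ) = ((k z : ℝ) : ℂ) * (P z - ((p z : ℝ) : ℂ)) := by
    intro z; rw [hτ]; ring
  have hkzero : ∀ z, δ ≤ ‖e z‖ → k z = 0 := by
    intro z hz
    refine ct_zero ?_
    rw [one_le_div (by positivity)]
    exact pow_le_pow_left₀ hδ0.le hz 2
  have hkone : ∀ z, ‖e z‖ ≤ δ / 2 → k z = 1 := by
    intro z hz
    refine ct_one ?_
    rw [div_le_iff₀ (by positivity)]
    have := pow_le_pow_left₀ (norm_nonneg _) hz 2
    calc ‖e z‖ ^ 2 ≤ (δ / 2) ^ 2 := this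
      _ = 1 / 4 * δ ^ 2 := by ring
  have hdiff : ∀ z ∈ SS d, ‖τ z - ((p z : ℝ) : ℂ)‖ ≤ C * Real.sqrt (e z).re := by
    intro z hz
    rw [hτp]
    rcases lt_or_ge ‖e z‖ δ with h1 | h1
    · rw [norm_mul, Complex.norm_real, Real.norm_of_nonneg (ct_nonneg _)]
      exact (mul_le_of_le_one_left (norm_nonneg _) (ct_le_one _)).trans
        (hC z hz (h1.le.trans hδc))
    · rw [hkzero z h1]
      simp only [Complex.ofReal_zero, zero_mul, norm_zero]
      positivity
  have hdiff2 : ∀ z ∈ SS d, ‖τ z - ((p z : ℝ) : ℂ)‖ ≤ C * Real.sqrt δ := by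
    intro z hz
    rcases lt_or_ge ‖e z‖ δ with h1 | h1
    · refine (hdiff z hz).trans (mul_le_mul_of_nonneg_left (Real.sqrt_le_sqrt ?_) hC0)
      exact (Complex.re_le_norm _).trans h1.le
    · rw [hτp, hkzero z h1]
      simp only [Complex.ofReal_zero, zero_mul, norm_zero]
      positivity
  have hpR : ∀ z ∈ SS d, |p z| ≤ R := by
    intro z hz
    have h1 : |p z| ≤ R1 := hR1 z hz
    have h2 : 0 ≤ C * Real.sqrt |B| := by positivity
    have h3 := le_abs_self R1
    linarith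
  have hτR : ∀ z ∈ SS d, ‖τ z‖ ≤ R := by
    intro z hz
    have h1 : ‖τ z‖ ≤ ‖τ z - ((p z : ℝ) : ℂ)‖ + ‖((p z : ℝ) : ℂ)‖ := by
      have := norm_add_le (τ z - ((p z : ℝ) : ℂ)) ((p z : ℝ) : ℂ)
      rwa [sub_add_cancel] at this
    have h2 : ‖((p z : ℝ) : ℂ)‖ ≤ R1 := by
      rw [Complex.norm_real]; exact hR1 z hz
    have h3 := le_abs_self R1
    have h4 : C * Real.sqrt (e z).re ≤ C * Real.sqrt |B| := by
      refine mul_le_mul_of_nonneg_left (Real.sqrt_le_sqrt ?_) hC0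
      exact (Complex.re_le_norm _).trans ((hB z hz).trans (le_abs_self _))
    have h5 := hdiff z hz
    linarith
  have hτre : ∀ z ∈ SS d, 1 + η ≤ p z → 1 ≤ (τ z).re := by
    intro z hz hpz
    have h1 := (Complex.abs_re_le_norm _).trans (hdiff2 z hz)
    rw [Complex.sub_re, Complex.ofReal_re] at h1
    have h2 := (abs_le.1 h1).1
    linarith
  have hτre' : ∀ z ∈ SS d, 1 + η < p z → 1 < (τ z).re := by
    intro z hz hpz
    have h1 := (Complex.abs_re_le_norm _).trans (hdiff2 z hz)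
    rw [Complex.sub_re, Complex.ofReal_re] at h1
    have h2 := (abs_le.1 h1).1
    linarith
  refine ⟨fun z => Th (τ z), contDiff_Th.comp hτcd, ?_, ?_, ?_, ?_, ?_⟩
  · intro z hz
    have h1 := hC1 (p z) (τ z) (hpR z hz) (hτR z hz)
    rw [Th_ofReal] at h1
    refine h1.trans ?_
    have h2 := hdiff z hz
    have h3 : 0 ≤ (e z).re := h.re_nonneg' hz
    have h4 : ‖τ z - ((p z : ℝ) : ℂ)‖ ^ 2 ≤ C ^ 2 * (e z).re := by
      have := pow_le_pow_left₀ (norm_nonneg _) h2 2
      rwa [mul_pow, Real.sq_sqrt h3] at this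
    have h5 : Real.sqrt (ThR (p z)) * ‖τ z - ((p z : ℝ) : ℂ)‖ ≤
        C * (Real.sqrt (ThR (p z)) * Real.sqrt (e z).re) := by
      calc Real.sqrt (ThR (p z)) * ‖τ z - ((p z : ℝ) : ℂ)‖
          ≤ Real.sqrt (ThR (p z)) * (C * Real.sqrt (e z).re) :=
            mul_le_mul_of_nonneg_left h2 (Real.sqrt_nonneg _)
        _ = _ := by ring
    rw [mul_assoc]
    refine mul_le_mul_of_nonneg_left ?_ hC10
    have h6 : 0 ≤ C ^ 2 * (Real.sqrt (ThR (p z)) * Real.sqrt (e z).re) := by positivity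
    have h7 : 0 ≤ C * (e z).re := by positivity
    nlinarith
  · intro z hz hez
    have h1 : τ z = ((p z : ℝ) : ℂ) := by
      have := hτp z
      rw [hkzero z hez, Complex.ofReal_zero, zero_mul] at this
      exact sub_eq_zero.1 this
    show Th (τ z) = _
    rw [h1, Th_ofReal]
  · intro z hz hpz
    exact Th_one (hτre z hz hpz)
  · intro z hz hpz w
    have h1 : (fun z => Th (τ z)) =ᶠ[nhds z] fun _ => 1 := by
      have h2 : ∀ᶠ y in nhds z, 1 < (τ y).re :=
        (Complex.continuous_re.comp hτcd.continuous).continuousAt.eventually_const_lt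
          (hτre' z hz hpz)
      exact h2.mono fun y hy => Th_one hy.le
    rw [db_congr h1, db_const]
  · intro N
    -- compactness constants
    have hDτ : ContDiff ℝ ∞ (fderiv ℝ τ) := (contDiff_infty_iff_fderiv.1 hτcd).2
    obtain ⟨M1, hM1⟩ := isCompact_SS.exists_bound_of_continuousOn (s := SS d)
      hDτ.continuous.continuousOn
    obtain ⟨C2, hC20, hC2⟩ := aan_Th.2.2 R (2 * N)
    obtain ⟨M2, hM2⟩ := isCompact_DD.exists_bound_of_continuousOn (s := DD d)
      (contDiff_dbF (contDiff_Th.comp hτcd)).continuous.continuousOn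
    -- lower bound for Re e
    obtain ⟨μ, hμ0, hμ⟩ : ∃ μ : ℝ, 0 < μ ∧ ∀ z ∈ SS d, δ / 2 ≤ ‖e z‖ → μ ≤ (e z).re := by
      have hKc : IsCompact (SS d ∩ {z | δ / 2 ≤ ‖e z‖}) :=
        isCompact_SS.inter_right (isClosed_le continuous_const h.aa.1.continuous.norm)
      rcases Set.eq_empty_or_nonempty (SS d ∩ {z | δ / 2 ≤ ‖e z‖}) with h0 | h0
      · refine ⟨1, one_pos, fun z hz hez => ?_⟩
        have : z ∈ SS d ∩ {z | δ / 2 ≤ ‖e z‖} := ⟨hz, hez⟩
        rw [h0] at this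
        exact absurd this (Set.notMem_empty z)
      · obtain ⟨z0, hz0, hmin⟩ := hKc.exists_isMinOn h0
          ((Complex.continuous_re.comp h.aa.1.continuous).continuousOn)
        refine ⟨(e z0).re, ?_, fun z hz hez => hmin ⟨hz, hez⟩⟩
        refine h.pos z0 (sphere_subset_closedBall hz0.1) fun hZ => ?_
        have h1 : δ / 2 ≤ ‖e z0‖ := hz0.2
        rw [h.zero z0 hZ, norm_zero] at h1
        linarith
    refine ⟨|M2| / μ ^ N + C2 * C ^ (2 * N) * |M1|, fun q hq => ?_⟩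
    have hqS : q.1 ∈ SS d := mem_sphere_zero_iff_norm.2 hq.1
    have hre0 : 0 ≤ (e q.1).re := h.re_nonneg' hqS
    rcases le_or_gt (δ / 2) ‖e q.1‖ with h1 | h1
    · have h2 := hμ q.1 hqS h1
      have h3 : μ ^ N ≤ (e q.1).re ^ N := pow_le_pow_left₀ hμ0.le h2 _
      have h4 : ‖db (fun z => Th (τ z)) q.1 q.2‖ ≤ |M2| := (hM2 q hq).trans (le_abs_self _)
      calc ‖db (fun z => Th (τ z)) q.1 q.2‖ ≤ |M2| := h4
        _ = |M2| / μ ^ N * μ ^ N := by field_simp
        _ ≤ |M2| / μ ^ N * (e q.1).re ^ N := mul_le_mul_of_nonneg_left h3 (by positivity)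
        _ ≤ (|M2| / μ ^ N + C2 * C ^ (2 * N) * |M1|) * (e q.1).re ^ N := by
            refine mul_le_mul_of_nonneg_right ?_ (by positivity)
            have : 0 ≤ C2 * C ^ (2 * N) * |M1| := by positivity
            linarith
    · -- near the zero set
      have h2 : τ =ᶠ[nhds q.1] P := by
        have h3 : ∀ᶠ y in nhds q.1, ‖e y‖ < δ / 2 :=
          h.aa.1.continuous.norm.continuousAt.eventually_lt_const h1
        refine h3.mono fun y hy => ?_
        rw [hτ]
        simp only []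
        rw [hkone y hy.le]
        simp
      have hdbτ : db τ q.1 q.2 = 0 := by
        rw [db_congr h2]
        exact hP3 q.1 hqS (by linarith) q.2
      have h3 : db (fun z => Th (τ z)) q.1 q.2 = db Th (τ q.1) (fderiv ℝ τ q.1 q.2) := by
        rw [db_comp (contDiff_Th.differentiable (by simp) _)
          (hτcd.differentiable (by simp) _), hdbτ]
        simp
      rw [h3]
      have h4 := hC2 (τ q.1) (fderiv ℝ τ q.1 q.2) (hτR q.1 hqS)
      have h5 : |(τ q.1).im| ≤ C * Real.sqrt (e q.1).re := by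
        have h6 := (Complex.abs_im_le_norm _).trans (hdiff q.1 hqS)
        rwa [Complex.sub_im, Complex.ofReal_im, sub_zero] at h6
      have h6 : |(τ q.1).im| ^ (2 * N) ≤ C ^ (2 * N) * (e q.1).re ^ N := by
        refine (pow_le_pow_left₀ (abs_nonneg _) h5 _).trans (le_of_eq ?_)
        rw [mul_pow, pow_mul (Real.sqrt _), Real.sq_sqrt hre0]
      have h7 : ‖fderiv ℝ τ q.1 q.2‖ ≤ |M1| := by
        refine ((fderiv ℝ τ q.1).le_opNorm _).trans ?_
        calc ‖fderiv ℝ τ q.1‖ * ‖q.2‖ ≤ |M1| * 1 :=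
              mul_le_mul ((hM1 q.1 hqS).trans (le_abs_self _)) hq.2.1 (norm_nonneg _)
                (abs_nonneg _)
          _ = |M1| := mul_one _
      calc ‖db Th (τ q.1) (fderiv ℝ τ q.1 q.2)‖
          ≤ C2 * |(τ q.1).im| ^ (2 * N) * ‖fderiv ℝ τ q.1 q.2‖ := h4
        _ ≤ C2 * (C ^ (2 * N) * (e q.1).re ^ N) * |M1| := by
            refine mul_le_mul (mul_le_mul_of_nonneg_left h6 hC20) h7 (norm_nonneg _)
              (by positivity)
        _ = (C2 * C ^ (2 * N) * |M1|) * (e q.1).re ^ N := by ring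
        _ ≤ (|M2| / μ ^ N + C2 * C ^ (2 * N) * |M1|) * (e q.1).re ^ N := by
            refine mul_le_mul_of_nonneg_right ?_ (by positivity)
            have : 0 ≤ |M2| / μ ^ N := by positivity
            linarith

end

end Pool.Agent.PeakLib
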