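import Pool.Agent.Lib.MP_7d1258_an.Algebra

/-!
Power series with rapidly decreasing homogeneous terms define elements of `A^∞(B)`.
-/

set_option autoImplicit false
set_option linter.unusedSectionVars false

namespace Pool.Agent.PeakLib

open scoped ContDiff
open MeasureTheory Metric Complex

noncomputable section

variable {d : ℕ}

/-- Homogeneous forms of degree `m`. -/
abbrev MM (d m : ℕ) := ContinuousMultilinearMap ℂ (fun _ : Fin m => EE d) ℂ

/-- Diagonal map. -/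
def diag (d m : ℕ) : EE d →L[ℝ] (Fin m → EE d) :=
  ContinuousLinearMap.pi (fun _ => ContinuousLinearMap.id ℝ (EE d))

theorem diag_apply (m : ℕ) (z : EE d) : diag d m z = fun _ => z := rfl

theorem norm_diag_le (m : ℕ) : ‖diag d m‖ ≤ 1 := by
  refine ContinuousLinearMap.opNorm_le_bound _ zero_le_one fun x => ?_
  rw [one_mul, diag_apply]
  exact pi_norm_const_le x

theorem contDiff_form {m : ℕ} (q : MM d m) : ContDiff ℝ ∞ (fun z : EE d => q (fun _ => z)) := by
  have h1 : ContDiff ℝ ∞ (fun v : Fin m → EE d => (q.restrictScalars ℝ) v) :=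
    (q.restrictScalars ℝ).contDiff
  exact h1.comp (diag d m).contDiff

theorem norm_iteratedFDeriv_form {m : ℕ} (q : MM d m) (j : ℕ) (z : EE d) :
    ‖iteratedFDeriv ℝ j (fun z : EE d => q (fun _ => z)) z‖ ≤
      (m : ℝ) ^ j * ‖q‖ * ‖z‖ ^ (m - j) := by
  have h1 : ContDiff ℝ ∞ (fun v : Fin m → EE d => (q.restrictScalars ℝ) v) :=
    (q.restrictScalars ℝ).contDiff
  have h2 := (diag d m).iteratedFDeriv_comp_right h1 z (i := j) (by exact_mod_cast le_top)
  have h3 : ((fun v : Fin m → EE d => (q.restrictScalars ℝ) v) ∘ (diag d m)) =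
      fun z : EE d => q (fun _ => z) := rfl
  rw [h3] at h2
  rw [h2]
  refine (ContinuousMultilinearMap.norm_compContinuousLinearMap_le _ _).trans ?_
  have h4 : ∏ _i : Fin j, ‖diag d m‖ ≤ 1 := by
    rw [Finset.prod_const]
    exact pow_le_one₀ (norm_nonneg _) (norm_diag_le m)
  have h5 := (q.restrictScalars ℝ).norm_iteratedFDeriv_le j (diag d m z)
  rw [ContinuousMultilinearMap.norm_restrictScalars, Fintype.card_fin] at h5
  have h6 : ‖diag d m z‖ ≤ ‖z‖ := by
    rw [diag_apply]; exact pi_norm_const_le z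
  have h7 : ((m.descFactorial j : ℕ) : ℝ) ≤ (m : ℝ) ^ j := by
    exact_mod_cast Nat.descFactorial_le_pow m j
  calc ‖iteratedFDeriv ℝ j (fun v : Fin m → EE d => (q.restrictScalars ℝ) v) (diag d m z)‖ *
        ∏ _i : Fin j, ‖diag d m‖
      ≤ ‖iteratedFDeriv ℝ j (fun v : Fin m → EE d => (q.restrictScalars ℝ) v) (diag d m z)‖ * 1 :=
        mul_le_mul_of_nonneg_left h4 (norm_nonneg _)
    _ ≤ (m.descFactorial j : ℕ) * ‖q‖ * ‖diag d m z‖ ^ (m - j) := by
        rw [mul_one]; exact h5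
    _ ≤ (m : ℝ) ^ j * ‖q‖ * ‖z‖ ^ (m - j) := by
        refine mul_le_mul (mul_le_mul_of_nonneg_right h7 (norm_nonneg _))
          (pow_le_pow_left₀ (norm_nonneg _) h6 _) (pow_nonneg (norm_nonneg _) _) (by positivity)

theorem pow_bound {m : ℕ} {z : EE d} (hz : ((m : ℝ) + 1) * (‖z‖ ^ 2 - 1) ≤ 1) (j : ℕ) :
    ‖z‖ ^ (m - j) ≤ 2 := by
  rcases le_or_gt ‖z‖ 1 with h | h
  · have := pow_le_one₀ (n := m - j) (norm_nonneg z) h
    linarith
  · have hm : (0 : ℝ) < (m : ℝ) + 1 := by positivity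
    have h1 : ‖z‖ ^ 2 ≤ 1 + 1 / ((m : ℝ) + 1) := by
      have : ‖z‖ ^ 2 - 1 ≤ 1 / ((m : ℝ) + 1) := by
        rw [le_div_iff₀ hm]
        linarith
      linarith
    have h2 : (‖z‖ ^ 2) ^ m ≤ 4 := by
      calc (‖z‖ ^ 2) ^ m ≤ (1 + 1 / ((m : ℝ) + 1)) ^ m :=
            pow_le_pow_left₀ (by positivity) h1 _
        _ ≤ (Real.exp (1 / ((m : ℝ) + 1))) ^ m := by
            refine pow_le_pow_left₀ (by positivity) ?_ _
            have := Real.add_one_le_exp (1 / ((m : ℝ) + 1))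
            linarith
        _ = Real.exp ((m : ℝ) * (1 / ((m : ℝ) + 1))) := by
            rw [← Real.exp_nat_mul]
        _ ≤ Real.exp 1 := by
            refine Real.exp_le_exp.2 ?_
            rw [mul_one_div, div_le_one hm]
            linarith
        _ ≤ 4 := by
            have := Real.exp_one_lt_d9
            linarith
    have h3 : ‖z‖ ^ m ≤ 2 := by
      have h4 : (‖z‖ ^ m) ^ 2 ≤ 2 ^ 2 := by
        rw [← pow_mul, mul_comm m 2, pow_mul]
        linarith
      exact (pow_le_pow_iff_left₀ (by positivity) (by norm_num) two_ne_zero).1 h4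
    refine le_trans (pow_le_pow_right₀ h.le (Nat.sub_le m j)) h3

/-- Cutoff function. -/
def chi (x : ℝ) : ℝ := Real.smoothTransition (1 - x)

theorem contDiff_chi : ContDiff ℝ ∞ chi :=
  Real.smoothTransition.contDiff.comp (contDiff_const.sub contDiff_id)

theorem chi_one {x : ℝ} (hx : x ≤ 0) : chi x = 1 :=
  Real.smoothTransition.one_of_one_le (by linarith)

theorem chi_zero {x : ℝ} (hx : 1 ≤ x) : chi x = 0 :=
  Real.smoothTransition.zero_of_nonpos (by linarith)

/-- The cut off homogeneous terms. -/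
def term (m : ℕ) (q : MM d m) (z : EE d) : ℂ :=
  ((chi (((m : ℝ) + 1) * (‖z‖ ^ 2 - 1)) : ℝ) : ℂ) * q (fun _ => z)

theorem contDiff_psi (m : ℕ) :
    ContDiff ℝ ∞ (fun z : EE d => ((m : ℝ) + 1) * (‖z‖ ^ 2 - 1)) := by
  have h1 : ContDiff ℝ ∞ (fun z : EE d => ‖z‖ ^ 2) := contDiff_norm_sq ℝ
  exact contDiff_const.mul (h1.sub contDiff_const)

theorem contDiff_cut (m : ℕ) :
    ContDiff ℝ ∞ (fun z : EE d => ((chi (((m : ℝ) + 1) * (‖z‖ ^ 2 - 1)) : ℝ) : ℂ)) :=
  Complex.ofRealCLM.contDiff.comp (contDiff_chi.comp (contDiff_psi m))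

theorem contDiff_term (m : ℕ) (q : MM d m) : ContDiff ℝ ∞ (term m q) :=
  (contDiff_cut m).mul (contDiff_form q)

theorem exists_psi_bound (d k : ℕ) : ∃ C : ℝ, 1 ≤ C ∧ ∀ i, i ≤ k → ∀ z ∈ closedBall (0 : EE d) 2,
    ‖iteratedFDeriv ℝ i (fun z : EE d => ‖z‖ ^ 2 - 1) z‖ ≤ C := by
  have h0 : ContDiff ℝ ∞ (fun z : EE d => ‖z‖ ^ 2 - 1) :=
    (contDiff_norm_sq ℝ).sub contDiff_const
  induction k with
  | zero =>
    obtain ⟨C, hC⟩ := (isCompact_closedBall (0 : EE d) 2).exists_bound_of_continuousOn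
      (h0.continuous_iteratedFDeriv (m := 0) (by exact_mod_cast le_top)).continuousOn
    refine ⟨max C 1, le_max_right _ _, fun i hi z hz => ?_⟩
    obtain rfl : i = 0 := by omega
    exact (hC z hz).trans (le_max_left _ _)
  | succ k ih =>
    obtain ⟨C, hC1, hC⟩ := ih
    obtain ⟨D, hD⟩ := (isCompact_closedBall (0 : EE d) 2).exists_bound_of_continuousOn
      (h0.continuous_iteratedFDeriv (m := k + 1)
        (by exact_mod_cast le_top)).continuousOn
    refine ⟨max C D, hC1.trans (le_max_left _ _), fun i hi z hz => ?_⟩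
    rcases Nat.lt_or_ge i (k+1) with h | h
    · exact (hC i (by omega) z hz).trans (le_max_left _ _)
    · obtain rfl : i = k + 1 := by omega
      exact (hD z hz).trans (le_max_right _ _)

theorem exists_chi_bound (k : ℕ) : ∃ C : ℝ, ∀ i, i ≤ k → ∀ x ∈ Set.Icc (0:ℝ) 1,
    ‖iteratedFDeriv ℝ i (fun x : ℝ => ((chi x : ℝ) : ℂ)) x‖ ≤ C := by
  have h0 : ContDiff ℝ ∞ (fun x : ℝ => ((chi x : ℝ) : ℂ)) :=
    Complex.ofRealCLM.contDiff.comp contDiff_chi
  induction k with
  | zero =>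
    obtain ⟨C, hC⟩ := (isCompact_Icc (a := (0:ℝ)) (b := 1)).exists_bound_of_continuousOn
      (h0.continuous_iteratedFDeriv (m := 0) (by exact_mod_cast le_top)).continuousOn
    refine ⟨C, fun i hi z hz => ?_⟩
    obtain rfl : i = 0 := by omega
    exact (hC z hz)
  | succ k ih =>
    obtain ⟨C, hC⟩ := ih
    obtain ⟨D, hD⟩ := (isCompact_Icc (a := (0:ℝ)) (b := 1)).exists_bound_of_continuousOn
      (h0.continuous_iteratedFDeriv (m := k + 1)
        (by exact_mod_cast le_top)).continuousOn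
    refine ⟨max C D, fun i hi z hz => ?_⟩
    rcases Nat.lt_or_ge i (k+1) with h | h
    · exact (hC i (by omega) z hz).trans (le_max_left _ _)
    · obtain rfl : i = k + 1 := by omega
      exact (hD z hz).trans (le_max_right _ _)

/-- Bounds for the derivatives of the cut off. -/
theorem cut_bound (d k : ℕ) : ∃ C : ℝ, 0 ≤ C ∧ ∀ i, i ≤ k → ∀ (m : ℕ) (z : EE d),
    ((m : ℝ) + 1) * (‖z‖ ^ 2 - 1) ∈ Set.Icc (0:ℝ) 1 →
    ‖iteratedFDeriv ℝ i
      (fun z : EE d => ((chi (((m : ℝ) + 1) * (‖z‖ ^ 2 - 1)) : ℝ) : ℂ)) z‖ ≤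
      C * ((m : ℝ) + 1) ^ i := by
  obtain ⟨C₁, hC₁1, hC₁⟩ := exists_psi_bound d k
  obtain ⟨C₂, hC₂⟩ := exists_chi_bound k
  have hC₂0 : 0 ≤ C₂ := (norm_nonneg _).trans (hC₂ 0 (Nat.zero_le _) 0 ⟨le_rfl, zero_le_one⟩)
  refine ⟨k.factorial * C₂ * C₁ ^ k, by positivity, fun i hi m z hz => ?_⟩
  have hm : (1 : ℝ) ≤ (m : ℝ) + 1 := by
    have : (0:ℝ) ≤ m := Nat.cast_nonneg m
    linarith
  have hz2 : z ∈ closedBall (0 : EE d) 2 := by
    rw [mem_closedBall_zero_iff]
    by_contra hcon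
    push Not at hcon
    have h1 : 3 ≤ ‖z‖ ^ 2 - 1 := by nlinarith
    have h2 := hz.2
    nlinarith
  set D : ℝ := C₁ * ((m : ℝ) + 1) with hD
  have hD1 : 1 ≤ D := by
    rw [hD]; nlinarith
  have key := norm_iteratedFDeriv_comp_le (𝕜 := ℝ) (g := fun x : ℝ => ((chi x : ℝ) : ℂ))
    (f := fun z : EE d => ((m : ℝ) + 1) * (‖z‖ ^ 2 - 1)) (n := i) (N := ∞)
    (Complex.ofRealCLM.contDiff.comp contDiff_chi) (contDiff_psi m)
    (by exact_mod_cast le_top) z (C := C₂) (D := D)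
    (fun j hj => hC₂ j (hj.trans hi) _ hz) ?_
  · refine key.trans ?_
    have h1 : (i.factorial : ℝ) ≤ k.factorial := by
      exact_mod_cast Nat.factorial_le hi
    have h2 : C₁ ^ i ≤ C₁ ^ k := pow_le_pow_right₀ hC₁1 hi
    calc (i.factorial : ℝ) * C₂ * D ^ i = (i.factorial : ℝ) * C₂ * C₁ ^ i * ((m : ℝ) + 1) ^ i := by
          rw [hD, mul_pow]; ring
      _ ≤ k.factorial * C₂ * C₁ ^ k * ((m : ℝ) + 1) ^ i := by
          refine mul_le_mul_of_nonneg_right ?_ (by positivity)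
          refine mul_le_mul ?_ h2 (by positivity) (by positivity)
          exact mul_le_mul_of_nonneg_right h1 hC₂0
  · intro j hj1 hj2
    have h0 : ContDiff ℝ ∞ (fun z : EE d => ‖z‖ ^ 2 - 1) :=
      (contDiff_norm_sq ℝ).sub contDiff_const
    have h1 : iteratedFDeriv ℝ j (fun z : EE d => ((m : ℝ) + 1) * (‖z‖ ^ 2 - 1)) z =
        ((m : ℝ) + 1) • iteratedFDeriv ℝ j (fun z : EE d => (‖z‖ ^ 2 - 1)) z := by
      have := iteratedFDeriv_const_smul_apply (𝕜 := ℝ) (i := j) (a := ((m : ℝ) + 1))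
        (f := fun z : EE d => (‖z‖ ^ 2 - 1)) (x := z)
        (h0.contDiffAt.of_le (by exact_mod_cast le_top))
      exact this
    rw [h1, norm_smul, Real.norm_of_nonneg (by linarith)]
    calc ((m : ℝ) + 1) * ‖iteratedFDeriv ℝ j (fun z : EE d => (‖z‖ ^ 2 - 1)) z‖
        ≤ ((m : ℝ) + 1) * C₁ :=
          mul_le_mul_of_nonneg_left (hC₁ j (hj2.trans hi) z hz2) (by linarith)
      _ = D ^ 1 := by rw [hD, pow_one]; ring
      _ ≤ D ^ j := pow_le_pow_right₀ hD1 hj1

theorem term_bound (d k : ℕ) : ∃ C : ℝ, 0 ≤ C ∧ ∀ (m : ℕ) (q : MM d m) (z : EE d),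
    ‖iteratedFDeriv ℝ k (term m q) z‖ ≤ C * (‖q‖ * ((m : ℝ) + 1) ^ k) := by
  obtain ⟨C, hC0, hC⟩ := cut_bound d k
  refine ⟨2 ^ k * C * 2 + 2, by positivity, fun m q z => ?_⟩
  have hm : (1 : ℝ) ≤ (m : ℝ) + 1 := by
    have : (0:ℝ) ≤ m := Nat.cast_nonneg m
    linarith
  have hcont : Continuous (fun z : EE d => ((m : ℝ) + 1) * (‖z‖ ^ 2 - 1)) :=
    (contDiff_psi m).continuous
  have hqm : 0 ≤ ‖q‖ * ((m : ℝ) + 1) ^ k := by positivity
  rcases lt_or_ge (((m : ℝ) + 1) * (‖z‖ ^ 2 - 1)) 0 with h | h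
  · -- cut off is one near z
    have h1 : term m q =ᶠ[nhds z] fun z => q (fun _ => z) := by
      have h2 : ∀ᶠ y in nhds z, ((m : ℝ) + 1) * (‖y‖ ^ 2 - 1) < 0 :=
        hcont.continuousAt.eventually_lt_const h
      refine h2.mono fun y hy => ?_
      unfold term
      rw [chi_one hy.le]
      simp
    rw [(h1.iteratedFDeriv ℝ k).eq_of_nhds]
    refine (norm_iteratedFDeriv_form q k z).trans ?_
    have h2 := pow_bound (m := m) (z := z) (by linarith) k
    have h3 : (m : ℝ) ^ k ≤ ((m : ℝ) + 1) ^ k :=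
      pow_le_pow_left₀ (Nat.cast_nonneg m) (by linarith) _
    calc (m : ℝ) ^ k * ‖q‖ * ‖z‖ ^ (m - k) ≤ ((m : ℝ) + 1) ^ k * ‖q‖ * 2 := by
          refine mul_le_mul (mul_le_mul_of_nonneg_right h3 (norm_nonneg _)) h2
            (by positivity) (by positivity)
      _ = 2 * (‖q‖ * ((m : ℝ) + 1) ^ k) := by ring
      _ ≤ (2 ^ k * C * 2 + 2) * (‖q‖ * ((m : ℝ) + 1) ^ k) := by
          refine mul_le_mul_of_nonneg_right ?_ hqm
          have : 0 ≤ 2 ^ k * C * 2 := by positivity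
          linarith
  · rcases lt_or_ge 1 (((m : ℝ) + 1) * (‖z‖ ^ 2 - 1)) with h' | h'
    · have h1 : term m q =ᶠ[nhds z] fun _ => 0 := by
        have h2 : ∀ᶠ y in nhds z, 1 < ((m : ℝ) + 1) * (‖y‖ ^ 2 - 1) :=
          hcont.continuousAt.eventually_const_lt h'
        refine h2.mono fun y hy => ?_
        unfold term
        rw [chi_zero hy.le]
        simp
      rw [(h1.iteratedFDeriv ℝ k).eq_of_nhds]
      have : iteratedFDeriv ℝ k (fun _ : EE d => (0:ℂ)) z = 0 := by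
        rw [iteratedFDeriv_fun_zero]
        rfl
      rw [this, norm_zero]
      positivity
    · unfold term
      refine (norm_iteratedFDeriv_mul_le (N := ∞) (contDiff_cut m) (contDiff_form q) z
        (by exact_mod_cast le_top)).trans ?_
      have h1 : ∀ i ∈ Finset.range (k + 1), (k.choose i : ℝ) *
          ‖iteratedFDeriv ℝ i
            (fun z : EE d => ((chi (((m : ℝ) + 1) * (‖z‖ ^ 2 - 1)) : ℝ) : ℂ)) z‖ *
          ‖iteratedFDeriv ℝ (k - i) (fun z : EE d => q (fun _ => z)) z‖ ≤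
          (k.choose i : ℝ) * (C * 2 * (‖q‖ * ((m : ℝ) + 1) ^ k)) := by
        intro i hi
        rw [Finset.mem_range] at hi
        have hik : i ≤ k := by omega
        have a1 := hC i hik m z ⟨h, h'⟩
        have a2 := norm_iteratedFDeriv_form q (k - i) z
        have a3 := pow_bound (m := m) (z := z) h' (k - i)
        have a4 : (m : ℝ) ^ (k - i) ≤ ((m : ℝ) + 1) ^ (k - i) :=
          pow_le_pow_left₀ (Nat.cast_nonneg m) (by linarith) _
        have a5 : (m : ℝ) ^ (k - i) * ‖q‖ * ‖z‖ ^ (m - (k - i)) ≤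
            ((m : ℝ) + 1) ^ (k - i) * ‖q‖ * 2 := by
          refine mul_le_mul (mul_le_mul_of_nonneg_right a4 (norm_nonneg _)) a3
            (by positivity) (by positivity)
        rw [mul_assoc]
        refine mul_le_mul_of_nonneg_left ?_ (Nat.cast_nonneg _)
        refine (mul_le_mul a1 (a2.trans a5) (norm_nonneg _) (by positivity)).trans (le_of_eq ?_)
        have : ((m : ℝ) + 1) ^ k = ((m : ℝ) + 1) ^ i * ((m : ℝ) + 1) ^ (k - i) := by
          rw [← pow_add]; congr 1; omega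
        rw [this]; ring
      refine (Finset.sum_le_sum h1).trans ?_
      rw [← Finset.sum_mul]
      have h2 : ∑ i ∈ Finset.range (k + 1), (k.choose i : ℝ) = 2 ^ k := by
        exact_mod_cast Nat.sum_range_choose k
      rw [h2]
      have : 2 ^ k * (C * 2 * (‖q‖ * ((m : ℝ) + 1) ^ k)) =
        (2 ^ k * C * 2) * (‖q‖ * ((m : ℝ) + 1) ^ k) := by ring
      rw [this]
      exact mul_le_mul_of_nonneg_right (by linarith) hqm

theorem summable_inv_sq : Summable (fun m : ℕ => (1 : ℝ) / ((m : ℝ) + 1) ^ 2) := by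
  have h := (summable_nat_add_iff 1).2 (Real.summable_one_div_nat_pow.2 (one_lt_two))
  simpa using h

theorem summable_of_decay {a : ℕ → ℝ} (h0 : ∀ m, 0 ≤ a m) {C : ℝ}
    (h : ∀ m : ℕ, a m * ((m : ℝ) + 1) ^ 2 ≤ C) : Summable a := by
  refine Summable.of_nonneg_of_le h0 (fun m => ?_) (summable_inv_sq.mul_left C)
  have hm : (0 : ℝ) < ((m : ℝ) + 1) ^ 2 := by positivity
  rw [mul_one_div, le_div_iff₀ hm]
  exact h m

/-- Extension theorem. -/
theorem extension (q : ∀ m : ℕ, MM d m) (hq : ∀ N : ℕ, ∃ C : ℝ, ∀ m, ‖q m‖ * ((m : ℝ) + 1) ^ N ≤ C) :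
    ∃ u : EE d → ℂ, AA u ∧
      ∀ z ∈ closedBall (0 : EE d) 1, u z = ∑' m, q m (fun _ => z) := by
  set u : EE d → ℂ := fun z => ∑' m, term m (q m) z with hu
  have hval : ∀ z ∈ closedBall (0 : EE d) 1, u z = ∑' m, q m (fun _ => z) := by
    intro z hz
    rw [hu]
    refine tsum_congr fun m => ?_
    unfold term
    rw [mem_closedBall_zero_iff] at hz
    have h1 : ((m : ℝ) + 1) * (‖z‖ ^ 2 - 1) ≤ 0 := by
      have h2 : ‖z‖ ^ 2 ≤ 1 := pow_le_one₀ (norm_nonneg _) hz
      have h3 : (0:ℝ) ≤ m := Nat.cast_nonneg m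
      nlinarith
    rw [chi_one h1]
    simp
  have hcd : ContDiff ℝ ∞ u := by
    choose C hC0 hC using term_bound d
    refine contDiff_tsum (v := fun k m => C k * (‖q m‖ * ((m : ℝ) + 1) ^ k))
      (fun m => contDiff_term m (q m)) ?_ ?_
    · intro k _
      obtain ⟨D, hD⟩ := hq (k + 2)
      refine Summable.mul_left _ (summable_of_decay (fun m => by positivity) (C := D) fun m => ?_)
      refine le_trans (le_of_eq ?_) (hD m)
      rw [pow_add]; ring
    · intro k m z _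
      exact hC k m (q m) z
  refine ⟨u, ?_, hval⟩
  rw [AA_iff]
  refine ⟨hcd, ?_⟩
  let p : FormalMultilinearSeries ℂ (EE d) ℂ := fun m => q m
  obtain ⟨C, hC⟩ := hq 0
  have hrad : ((1 : NNReal) : ENNReal) ≤ p.radius := by
    refine p.le_radius_of_bound C (r := 1) fun m => ?_
    have := hC m
    simpa using this
  have hpos : 0 < p.radius := lt_of_lt_of_le (by simp) hrad
  have h1 := (p.hasFPowerSeriesOnBall hpos).differentiableOn
  have h2 : DifferentiableOn ℂ p.sum (ball (0 : EE d) 1) := by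
    refine h1.mono fun z hz => ?_
    rw [Metric.mem_eball, edist_zero_right]
    refine lt_of_lt_of_le ?_ hrad
    rw [mem_ball_zero_iff] at hz
    rw [← ofReal_norm, ENNReal.coe_one]
    exact ENNReal.ofReal_lt_one.2 hz
  refine h2.congr fun z hz => ?_
  rw [hval z (ball_subset_closedBall hz)]
  rfl

end

end Pool.Agent.PeakLib
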