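import Pool.Agent.Lib.MP_7d1258_an.Glue2

/-!
Separation, the induction over finite covers and the final theorem.

Outline of the whole proof (all files of this folder):

* `TheoremA2.theoremA` (a `∂̄`-theorem): if `v` is smooth on `ℂ^n`, `Re v ≥ 0` on the sphere, and the
  tangential Cauchy-Riemann derivative of `v` is `O(|v|^N)` for all `N` on the sphere, then the zero
  set of `v` on the sphere is a peak set. Proof: `G_ε = 1/(v+ε)`, subtract the (smoothed) Szegő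
  projection (`Szego`, `KeyIneq*`), control all rotation derivatives uniformly (`Flow`), and pass to
  the limit `ε → 0` in `1/(F_ε + C)` using an extension theorem for power series (`Extension`).
* `Peak`: Hopf lemma and tangential estimates for a peak function `e` (`Re e > 0`).
* `Cutoff`: cut-off functions which are almost `∂̄`-closed relative to a given peak function.
* `Glue2.glue`: for peak sets `E`, `F` and a good function `p` the set
  `(E ∩ F) ∪ (E ∩ {p ≤ t₁}) ∪ (F ∩ {t₄ ≤ p})` is a peak set.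
* This file: good functions separate compact sets; gluing over a finite cover of `K`.
-/

set_option autoImplicit false
set_option linter.unusedSectionVars false

namespace Pool.Agent.PeakLib

open scoped ContDiff
open MeasureTheory Metric Complex Filter

noncomputable section

variable {d : ℕ}

/-- A finite sum of Gaussian bumps centered at points of `t`. -/
def bump (N : ℝ) (t : Finset (EE d)) (z : EE d) : ℝ :=
  ∑ ξ ∈ t, Real.exp ((2 * N) * (inner ℂ z ξ : ℂ).re + -(2 * N))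

theorem bump_good {e : EE d → ℂ} {E : Set (EE d)} (he : PK e E) {c : ℝ} (hc0 : 0 < c)
    (hc : ∀ z ∈ SS d, ‖e z‖ ≤ c → c < ‖rad e z‖) (N : ℝ) (t : Finset (EE d)) :
    GoodP e c (bump N t) := by
  refine GoodP.sum t fun ξ => GoodP.exp ?_
  exact ((GoodP.base he hc0 hc ξ).const_mul (2 * N)).add (GoodP.const _)

theorem bump_exponent {z ξ : EE d} (hz : z ∈ SS d) (hξ : ξ ∈ SS d) (N : ℝ) :
    (2 * N) * (inner ℂ z ξ : ℂ).re + -(2 * N) = -(N * ‖z - ξ‖ ^ 2) := by
  have h1 : ‖z - ξ‖ ^ 2 = ‖z‖ ^ 2 - 2 * (inner ℂ z ξ : ℂ).re + ‖ξ‖ ^ 2 :=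
    norm_sub_sq (𝕜 := ℂ) z ξ
  rw [h1, mem_sphere_zero_iff_norm.1 hz, mem_sphere_zero_iff_norm.1 hξ]
  ring

/-- Separation of disjoint compact subsets of the sphere by good functions. -/
theorem separation {D1 D2 : Set (EE d)} (h1 : IsCompact D1) (h2 : IsCompact D2)
    (hD1 : D1 ⊆ SS d) (hD2 : D2 ⊆ SS d) (hdis : Disjoint D1 D2) :
    ∃ (N : ℝ) (t : Finset (EE d)) (t1 t4 : ℝ), t1 < t4 ∧ (∀ z ∈ D1, bump N t z < t1) ∧
      (∀ z ∈ D2, t4 < bump N t z) := by
  obtain ⟨r, hr0, hr⟩ := Metric.exists_pos_forall_lt_edist h1 h2.isClosed hdis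
  set δ : ℝ := (r : ℝ) with hδ
  have hδ0 : 0 < δ := hr0
  have hdist : ∀ x ∈ D1, ∀ y ∈ D2, δ < ‖x - y‖ := by
    intro x hx y hy
    have h3 := hr x hx y hy
    rw [edist_nndist, ENNReal.coe_lt_coe] at h3
    have h4 : (r : ℝ) < dist x y := by exact_mod_cast h3
    rwa [dist_eq_norm] at h4
  obtain ⟨t0, ht0, htfin, hcov⟩ := h2.finite_cover_balls (e := δ / 2) (by linarith)
  lift t0 to Finset (EE d) using htfin
  set t := t0 with ht
  -- number of points
  set M : ℝ := (t.card : ℝ) with hM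
  have hM0 : 0 ≤ M := by positivity
  set c : ℝ := δ ^ 2 with hc
  have hc0 : 0 < c := by positivity
  -- choose N
  obtain ⟨N, hN0, hN⟩ : ∃ N : ℝ, 0 < N ∧ M * Real.exp (-(N * c)) < Real.exp (-(N * (c / 4))) := by
    refine ⟨2 * M / c + 1, by positivity, ?_⟩
    set N : ℝ := 2 * M / c + 1 with hN
    have h5 : N * c = 2 * M + c := by rw [hN]; field_simp
    have h6 : Real.exp (-(N * (c / 4))) = Real.exp (N * c * (3 / 4)) * Real.exp (-(N * c)) := by
      rw [← Real.exp_add]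
      congr 1
      ring
    rw [h6]
    refine mul_lt_mul_of_pos_right ?_ (Real.exp_pos _)
    have h7 := Real.add_one_le_exp (N * c * (3 / 4))
    rw [h5] at h7 ⊢
    linarith
  set A : ℝ := M * Real.exp (-(N * c)) with hA
  set B : ℝ := Real.exp (-(N * (c / 4))) with hB
  refine ⟨N, t, (2 * A + B) / 3, (A + 2 * B) / 3, by linarith, fun z hz => ?_, fun z hz => ?_⟩
  · have h3 : bump N t z ≤ A := by
      have h4 : ∀ ξ ∈ t, Real.exp ((2 * N) * (inner ℂ z ξ : ℂ).re + -(2 * N)) ≤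
          Real.exp (-(N * c)) := by
        intro ξ hξ
        have hξ2 : ξ ∈ D2 := ht0 hξ
        rw [bump_exponent (hD1 hz) (hD2 hξ2), Real.exp_le_exp, neg_le_neg_iff]
        refine mul_le_mul_of_nonneg_left ?_ hN0.le
        exact pow_le_pow_left₀ hδ0.le (hdist z hz ξ hξ2).le 2
      have h5 := Finset.sum_le_card_nsmul t _ _ h4
      rw [nsmul_eq_mul] at h5
      exact h5
    linarith
  · have h3 : B ≤ bump N t z := by
      obtain ⟨ξ, hξ, hzξ⟩ := Set.mem_iUnion₂.1 (hcov hz)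
      have hξ2 : ξ ∈ D2 := ht0 hξ
      have h4 : B ≤ Real.exp ((2 * N) * (inner ℂ z ξ : ℂ).re + -(2 * N)) := by
        rw [bump_exponent (hD2 hz) (hD2 hξ2), hB, Real.exp_le_exp, neg_le_neg_iff]
        refine mul_le_mul_of_nonneg_left ?_ hN0.le
        have h5 : ‖z - ξ‖ ≤ δ / 2 := by
          rw [← dist_eq_norm]
          exact (mem_ball.1 hzξ).le
        have h6 := pow_le_pow_left₀ (norm_nonneg _) h5 2
        rw [hc]
        linarith
      refine h4.trans ?_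
      exact Finset.single_le_sum
        (f := fun ξ => Real.exp ((2 * N) * (inner ℂ z ξ : ℂ).re + -(2 * N)))
        (fun ξ _ => (Real.exp_pos _).le) hξ
    linarith

theorem continuous_bump (N : ℝ) (t : Finset (EE d)) : Continuous (bump N t) := by
  unfold bump
  refine continuous_finsetSum _ fun ξ _ => ?_
  have : Continuous fun z : EE d => (inner ℂ z ξ : ℂ) := by fun_prop
  have h2 : Continuous fun z : EE d => (inner ℂ z ξ : ℂ).re := Complex.continuous_re.comp this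
  fun_prop

/-- Gluing of two peak sets which are relatively open along compact sets. -/
theorem glue_union {K C1 C2 P1 P2 : Set (EE d)} (hKS : K ⊆ SS d) (hC1 : IsCompact C1)
    (hC2 : IsCompact C2) (hC1K : C1 ⊆ K) (hC2K : C2 ⊆ K) (hP1K : P1 ⊆ K) (hP2K : P2 ⊆ K)
    (hP1 : IsPk P1) (hP2 : IsPk P2) (h1 : C1 ⊆ interior (Kᶜ ∪ P1))
    (h2 : C2 ⊆ interior (Kᶜ ∪ P2)) :
    ∃ P ⊆ K, IsPk P ∧ C1 ∪ C2 ⊆ interior (Kᶜ ∪ P) := by
  obtain ⟨e, he⟩ := hP1
  obtain ⟨f, hf⟩ := hP2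
  obtain ⟨ce, hce0, hce⟩ := he.rad_lower
  obtain ⟨cf, hcf0, hcf⟩ := hf.rad_lower
  set D1 : Set (EE d) := C1 \ interior (Kᶜ ∪ P2) with hD1
  set D2 : Set (EE d) := C2 \ interior (Kᶜ ∪ P1) with hD2
  have hD1c : IsCompact D1 := hC1.diff isOpen_interior
  have hD2c : IsCompact D2 := hC2.diff isOpen_interior
  have hdis : Disjoint D1 D2 := by
    rw [Set.disjoint_left]
    rintro x ⟨hx1, _⟩ ⟨_, hx2⟩
    exact hx2 (h1 hx1)
  obtain ⟨N, t, t1, t4, ht14, hb1, hb2⟩ := separation hD1c hD2c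
    (fun x hx => hKS (hC1K hx.1)) (fun x hx => hKS (hC2K hx.1)) hdis
  obtain ⟨G, hG, hsub⟩ : ∃ G : Set (EE d), IsPk G ∧
      G = (P1 ∩ P2) ∪ (P1 ∩ {z | bump N t z ≤ t1}) ∪ (P2 ∩ {z | t4 ≤ bump N t z}) := by
    refine ⟨_, glue he hf hce0 hcf0 (bump_good he hce0 hce N t) (bump_good hf hcf0 hcf N t)
      (t1 := t1) (t2 := (2 * t1 + t4) / 3) (t3 := (t1 + 2 * t4) / 3) (t4 := t4)
      (by linarith) (by linarith) (by linarith), rfl⟩
  have hcont := continuous_bump (d := d) N t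
  have hboth : interior (Kᶜ ∪ P1) ∩ interior (Kᶜ ∪ P2) ⊆ interior (Kᶜ ∪ G) := by
    refine interior_maximal ?_ (isOpen_interior.inter isOpen_interior)
    rintro x ⟨hx1, hx2⟩
    rcases interior_subset hx1 with h3 | h3
    · exact Or.inl h3
    · rcases interior_subset hx2 with h4 | h4
      · exact Or.inl h4
      · right
        rw [hsub]
        exact Or.inl (Or.inl ⟨h3, h4⟩)
  have hleft : interior (Kᶜ ∪ P1) ∩ {z | bump N t z < t1} ⊆ interior (Kᶜ ∪ G) := by
    refine interior_maximal ?_ (isOpen_interior.inter (isOpen_lt hcont continuous_const))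
    rintro x ⟨hx1, hx2⟩
    rcases interior_subset hx1 with h3 | h3
    · exact Or.inl h3
    · right
      rw [hsub]
      exact Or.inl (Or.inr ⟨h3, (show bump N t x < t1 from hx2).le⟩)
  have hright : interior (Kᶜ ∪ P2) ∩ {z | t4 < bump N t z} ⊆ interior (Kᶜ ∪ G) := by
    refine interior_maximal ?_ (isOpen_interior.inter (isOpen_lt continuous_const hcont))
    rintro x ⟨hx1, hx2⟩
    rcases interior_subset hx1 with h3 | h3
    · exact Or.inl h3
    · right
      rw [hsub]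
      exact Or.inr ⟨h3, (show t4 < bump N t x from hx2).le⟩
  refine ⟨G, ?_, hG, ?_⟩
  · rw [hsub]
    rintro x ((⟨h3, _⟩ | ⟨h3, _⟩) | ⟨h3, _⟩)
    · exact hP1K h3
    · exact hP1K h3
    · exact hP2K h3
  · rintro x (hx | hx)
    · by_cases hx2 : x ∈ interior (Kᶜ ∪ P2)
      · exact hboth ⟨h1 hx, hx2⟩
      · exact hleft ⟨h1 hx, hb1 x ⟨hx, hx2⟩⟩
    · by_cases hx1 : x ∈ interior (Kᶜ ∪ P1)
      · exact hboth ⟨hx1, h2 hx⟩
      · exact hright ⟨h2 hx, hb2 x ⟨hx, hx1⟩⟩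

theorem isPk_empty : IsPk (∅ : Set (EE d)) := by
  refine ⟨fun _ => 1, AA.const 1, Set.empty_subset _, fun z hz => absurd hz (Set.notMem_empty z),
    fun z _ _ => ?_⟩
  simp

/-- Local peak sets are peak sets. -/
theorem isPk_of_local {K : Set (EE d)} (hK : IsCompact K) (hKS : K ⊆ SS d)
    (hloc : ∀ p ∈ K, ∃ V ∈ nhds p, IsPk (K ∩ closure V)) : IsPk K := by
  have key : ∃ C : Set (EE d), IsCompact C ∧ K ∩ K ⊆ C ∧ C ⊆ K ∧ ∃ P ⊆ K, IsPk P ∧
      C ⊆ interior (Kᶜ ∪ P) := by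
    refine hK.induction_on (p := fun s => ∃ C : Set (EE d), IsCompact C ∧ K ∩ s ⊆ C ∧ C ⊆ K ∧
      ∃ P ⊆ K, IsPk P ∧ C ⊆ interior (Kᶜ ∪ P)) ?_ ?_ ?_ ?_
    · exact ⟨∅, isCompact_empty, by simp, Set.empty_subset _, ∅, Set.empty_subset _, isPk_empty,
        Set.empty_subset _⟩
    · rintro s t hst ⟨C, hC, hsC, hCK, hP⟩
      exact ⟨C, hC, (Set.inter_subset_inter_right K hst).trans hsC, hCK, hP⟩
    · rintro s t ⟨C1, hC1, hsC1, hC1K, P1, hP1K, hP1, h1⟩ ⟨C2, hC2, hsC2, hC2K, P2, hP2K, hP2, h2⟩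
      refine ⟨C1 ∪ C2, hC1.union hC2, ?_, Set.union_subset hC1K hC2K,
        glue_union hKS hC1 hC2 hC1K hC2K hP1K hP2K hP1 hP2 h1 h2⟩
      rw [Set.inter_union_distrib_left]
      exact Set.union_subset_union hsC1 hsC2
    · intro x hx
      obtain ⟨V, hV, hpk⟩ := hloc x hx
      obtain ⟨r, hr0, hr⟩ := Metric.nhds_basis_closedBall.mem_iff.1 (interior_mem_nhds.2 hV)
      refine ⟨closedBall x r, mem_nhdsWithin_of_mem_nhds (closedBall_mem_nhds x hr0),
        K ∩ closedBall x r, hK.inter_right isClosed_closedBall, subset_rfl,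
        Set.inter_subset_left, K ∩ closure V, Set.inter_subset_left, hpk, ?_⟩
      rintro y ⟨_, hy⟩
      have h1 : interior V ⊆ interior (Kᶜ ∪ (K ∩ closure V)) := by
        refine interior_mono fun z hz => ?_
        by_cases hzK : z ∈ K
        · exact Or.inr ⟨hzK, subset_closure hz⟩
        · exact Or.inl hzK
      exact h1 (hr hy)
  obtain ⟨C, hC, hKC, hCK, P, hPK, hP, hCP⟩ := key
  have h1 : K ⊆ P := by
    intro x hx
    rcases interior_subset (hCP (hKC ⟨hx, hx⟩)) with h | h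
    · exact absurd hx h
    · exact h
  rwa [← Set.Subset.antisymm hPK h1]

/-- Translation between peak functions and functions with positive real part. -/
theorem isPk_of_peak {P : Set (EE d)} (hP : P ⊆ SS d) {f : EE d → ℂ} (hf : ContDiff ℝ ∞ f)
    (hd : DifferentiableOn ℂ f (ball (0 : EE d) 1)) (h1 : ∀ z ∈ P, f z = 1)
    (h2 : ∀ z ∈ closedBall (0 : EE d) 1 \ P, ‖f z‖ < 1) : IsPk P := by
  refine ⟨fun z => 1 - f z, (AA.const 1).sub (AA_iff.2 ⟨hf, hd⟩), hP, fun z hz => ?_,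
    fun z hz hzP => ?_⟩
  · rw [h1 z hz, sub_self]
  · have h3 := h2 z ⟨hz, hzP⟩
    have h4 := Complex.re_le_norm (f z)
    rw [Complex.sub_re, Complex.one_re]
    linarith

theorem peak_of_isPk {P : Set (EE d)} (h : IsPk P) : ∃ f : EE d → ℂ, ContDiff ℝ ∞ f ∧
    DifferentiableOn ℂ f (ball (0 : EE d) 1) ∧ (∀ z ∈ P, f z = 1) ∧
    ∀ z ∈ closedBall (0 : EE d) 1 \ P, ‖f z‖ < 1 := by
  obtain ⟨e, he⟩ := h
  have h1 := AA_iff.1 he.aa.neg.exp
  refine ⟨fun z => Complex.exp (-e z), h1.1, h1.2, fun z hz => ?_, fun z hz => ?_⟩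
  · show Complex.exp (-e z) = 1
    rw [he.zero z hz]; simp
  · rw [Complex.norm_exp, Complex.neg_re, Real.exp_lt_one_iff]
    have := he.pos z hz.1 hz.2
    linarith

/-- The main theorem. -/
theorem main_theorem (n : ℕ) (hn : 1 < n) (K : Set (EuclideanSpace ℂ (Fin n))) (hK : IsCompact K)
    (hKS : K ⊆ Metric.sphere (0 : EuclideanSpace ℂ (Fin n)) 1)
    (hloc : ∀ p ∈ K, ∃ V ∈ nhds p, ∃ f : EuclideanSpace ℂ (Fin n) → ℂ,
          ContDiff ℝ ((⊤ : ℕ∞) : WithTop ℕ∞) f ∧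
          DifferentiableOn ℂ f (Metric.ball (0 : EuclideanSpace ℂ (Fin n)) 1) ∧
          (∀ z ∈ K ∩ closure V, f z = 1) ∧
          ∀ z ∈ Metric.closedBall (0 : EuclideanSpace ℂ (Fin n)) 1 \ (K ∩ closure V),
            ‖f z‖ < 1) :
    ∃ f : EuclideanSpace ℂ (Fin n) → ℂ,
        ContDiff ℝ ((⊤ : ℕ∞) : WithTop ℕ∞) f ∧
        DifferentiableOn ℂ f (Metric.ball (0 : EuclideanSpace ℂ (Fin n)) 1) ∧
        (∀ z ∈ K, f z = 1) ∧
        ∀ z ∈ Metric.closedBall (0 : EuclideanSpace ℂ (Fin n)) 1 \ K, ‖f z‖ < 1 := by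
  obtain ⟨d, rfl⟩ : ∃ d, n = d + 2 := ⟨n - 2, by omega⟩
  refine peak_of_isPk (isPk_of_local hK hKS fun p hp => ?_)
  obtain ⟨V, hV, f, hf, hd, h1, h2⟩ := hloc p hp
  exact ⟨V, hV, isPk_of_peak (Set.inter_subset_left.trans hKS) hf hd h1 h2⟩

end

end Pool.Agent.PeakLib
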