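import Mathlib

/-!
Abstract calculus along a flow of `ℝ` on a type: smoothness along the flow, derivative along the
flow, and iterated classes of estimates.
-/

set_option autoImplicit false
set_option linter.unusedSectionVars false

namespace Pool.Agent.PeakLib

open scoped ContDiff

noncomputable section

variable {X : Type*} [AddAction ℝ X]

/-- Derivative along the flow. -/
def TT (G : X → ℂ) (x : X) : ℂ := deriv (fun θ : ℝ => G (θ +ᵥ x)) 0

/-- Smoothness along the flow. -/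
def Sm (G : X → ℂ) : Prop := ∀ x, ContDiff ℝ ∞ (fun θ : ℝ => G (θ +ᵥ x))

theorem Sm.const (c : ℂ) : Sm (fun _ : X => c) := fun _ => contDiff_const

theorem Sm.add {F G : X → ℂ} (hF : Sm F) (hG : Sm G) : Sm (fun x => F x + G x) :=
  fun x => (hF x).add (hG x)

theorem Sm.sub {F G : X → ℂ} (hF : Sm F) (hG : Sm G) : Sm (fun x => F x - G x) :=
  fun x => (hF x).sub (hG x)

theorem Sm.mul {F G : X → ℂ} (hF : Sm F) (hG : Sm G) : Sm (fun x => F x * G x) :=
  fun x => (hF x).mul (hG x)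

theorem Sm.neg {F : X → ℂ} (hF : Sm F) : Sm (fun x => - F x) :=
  fun x => (hF x).neg

theorem Sm.inv {F : X → ℂ} (hF : Sm F) (h0 : ∀ x, F x ≠ 0) : Sm (fun x => (F x)⁻¹) :=
  fun x => (hF x).inv (fun _ => h0 _)

theorem TT_vadd (G : X → ℂ) (θ : ℝ) (x : X) :
    TT G (θ +ᵥ x) = deriv (fun t : ℝ => G (t +ᵥ x)) θ := by
  unfold TT
  have h : (fun t : ℝ => G (t +ᵥ (θ +ᵥ x))) = fun t : ℝ => (fun s : ℝ => G (s +ᵥ x)) (t + θ) := by
    funext t
    simp only [← add_vadd]
  rw [h, deriv_comp_add_const (fun s : ℝ => G (s +ᵥ x)) θ 0, zero_add]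

theorem Sm.TT {G : X → ℂ} (hG : Sm G) : Sm (TT G) := by
  intro x
  have h : (fun θ : ℝ => PeakLib.TT G (θ +ᵥ x)) = deriv (fun t : ℝ => G (t +ᵥ x)) := by
    funext θ
    exact TT_vadd G θ x
  rw [h]
  exact (contDiff_infty_iff_deriv.1 (hG x)).2

theorem Sm.hasDerivAt {G : X → ℂ} (hG : Sm G) (x : X) (θ : ℝ) :
    HasDerivAt (fun t : ℝ => G (t +ᵥ x)) (PeakLib.TT G (θ +ᵥ x)) θ := by
  rw [TT_vadd]
  exact (((hG x).differentiable (by simp)) θ).hasDerivAt

theorem Sm.hasDerivAt_zero {G : X → ℂ} (hG : Sm G) (x : X) :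
    HasDerivAt (fun t : ℝ => G (t +ᵥ x)) (PeakLib.TT G x) 0 := by
  have := hG.hasDerivAt x 0
  rwa [zero_vadd] at this

theorem TT_const (c : ℂ) : TT (fun _ : X => c) = fun _ => 0 := by
  funext x
  simp [TT]

theorem TT_add {F G : X → ℂ} (hF : Sm F) (hG : Sm G) :
    TT (fun x => F x + G x) = fun x => TT F x + TT G x := by
  funext x
  exact ((hF.hasDerivAt_zero x).add (hG.hasDerivAt_zero x)).deriv

theorem TT_sub {F G : X → ℂ} (hF : Sm F) (hG : Sm G) :
    TT (fun x => F x - G x) = fun x => TT F x - TT G x := by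
  funext x
  exact ((hF.hasDerivAt_zero x).sub (hG.hasDerivAt_zero x)).deriv

theorem TT_neg {F : X → ℂ} (hF : Sm F) :
    TT (fun x => - F x) = fun x => - TT F x := by
  funext x
  exact ((hF.hasDerivAt_zero x).neg).deriv

theorem TT_mul {F G : X → ℂ} (hF : Sm F) (hG : Sm G) :
    TT (fun x => F x * G x) = fun x => TT F x * G x + F x * TT G x := by
  funext x
  have := ((hF.hasDerivAt_zero x).mul (hG.hasDerivAt_zero x)).deriv
  simp only [zero_vadd] at this
  exact this

theorem TT_inv {F : X → ℂ} (hF : Sm F) (h0 : ∀ x, F x ≠ 0) :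
    TT (fun x => (F x)⁻¹) = fun x => - (TT F x * ((F x)⁻¹ * (F x)⁻¹)) := by
  funext x
  have := ((hF.hasDerivAt_zero x).inv (by simpa using h0 x)).deriv
  simp only [zero_vadd] at this
  refine Eq.trans this ?_
  have := h0 x
  field_simp

/-- Iterated classes of families. -/
def Iter {ι : Type*} (Q : (ι → X → ℂ) → Prop) : ℕ → (ι → X → ℂ) → Prop
  | 0, G => Q G
  | k + 1, G => Q G ∧ Iter Q k (fun i => TT (G i))

theorem Iter.base {ι : Type*} {Q : (ι → X → ℂ) → Prop} {k : ℕ} {G : ι → X → ℂ}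
    (h : Iter Q k G) : Q G := by
  cases k with
  | zero => exact h
  | succ k => exact h.1

theorem Iter.pred {ι : Type*} {Q : (ι → X → ℂ) → Prop} {k : ℕ} :
    ∀ {G : ι → X → ℂ}, Iter Q (k + 1) G → Iter Q k G := by
  induction k with
  | zero => intro G h; exact h.1
  | succ k ih => intro G h; exact ⟨h.1, ih h.2⟩

theorem Iter.iterate {ι : Type*} {Q : (ι → X → ℂ) → Prop} {k : ℕ} :
    ∀ {G : ι → X → ℂ}, Iter Q k G → Q (fun i => TT^[k] (G i)) := by
  induction k with
  | zero => intro G h; exact h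
  | succ k ih =>
    intro G h
    have := ih h.2
    simpa only [Function.iterate_succ, Function.comp] using this

theorem Iter.of_all {ι : Type*} {Q : (ι → X → ℂ) → Prop} {G : ι → X → ℂ} (k : ℕ)
    (h : ∀ j, j ≤ k → Q (fun i => TT^[j] (G i))) : Iter Q k G := by
  induction k generalizing G with
  | zero => exact h 0 le_rfl
  | succ k ih =>
    refine ⟨h 0 (Nat.zero_le _), ih ?_⟩
    intro j hj
    have := h (j + 1) (by omega)
    simpa only [Function.iterate_succ, Function.comp] using this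

theorem Iter.add {ι : Type*} {Q : (ι → X → ℂ) → Prop}
    (hQ : ∀ F G : ι → X → ℂ, Q F → Q G → Q (fun i x => F i x + G i x)) {k : ℕ} :
    ∀ {F G : ι → X → ℂ}, (∀ i, Sm (F i)) → (∀ i, Sm (G i)) → Iter Q k F → Iter Q k G →
      Iter Q k (fun i x => F i x + G i x) := by
  induction k with
  | zero => intro F G _ _ hF hG; exact hQ F G hF hG
  | succ k ih =>
    intro F G sF sG hF hG
    refine ⟨hQ F G hF.1 hG.1, ?_⟩
    have h : (fun i => TT (fun x => F i x + G i x)) =
        fun i x => (fun i => TT (F i)) i x + (fun i => TT (G i)) i x := by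
      funext i
      exact TT_add (sF i) (sG i)
    rw [h]
    exact ih (fun i => (sF i).TT) (fun i => (sG i).TT) hF.2 hG.2

theorem Iter.neg {ι : Type*} {Q : (ι → X → ℂ) → Prop}
    (hQ : ∀ F : ι → X → ℂ, Q F → Q (fun i x => - F i x)) {k : ℕ} :
    ∀ {F : ι → X → ℂ}, (∀ i, Sm (F i)) → Iter Q k F → Iter Q k (fun i x => - F i x) := by
  induction k with
  | zero => intro F _ hF; exact hQ F hF
  | succ k ih =>
    intro F sF hF
    refine ⟨hQ F hF.1, ?_⟩
    have h : (fun i => TT (fun x => - F i x)) = fun i x => - (fun i => TT (F i)) i x := by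
      funext i
      exact TT_neg (sF i)
    rw [h]
    exact ih (fun i => (sF i).TT) hF.2

theorem Iter.mul {ι : Type*} {Q₁ Q₂ Q₃ : (ι → X → ℂ) → Prop}
    (hadd : ∀ F G : ι → X → ℂ, Q₃ F → Q₃ G → Q₃ (fun i x => F i x + G i x))
    (hmul : ∀ F G : ι → X → ℂ, Q₁ F → Q₂ G → Q₃ (fun i x => F i x * G i x)) {k : ℕ} :
    ∀ {F G : ι → X → ℂ}, (∀ i, Sm (F i)) → (∀ i, Sm (G i)) → Iter Q₁ k F → Iter Q₂ k G →
      Iter Q₃ k (fun i x => F i x * G i x) := by
  induction k with
  | zero => intro F G _ _ hF hG; exact hmul F G hF hG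
  | succ k ih =>
    intro F G sF sG hF hG
    refine ⟨hmul F G hF.1 hG.1, ?_⟩
    have h : (fun i => TT (fun x => F i x * G i x)) =
        fun i x => (fun i x => TT (F i) x * G i x) i x + (fun i x => F i x * TT (G i) x) i x := by
      funext i
      exact TT_mul (sF i) (sG i)
    rw [h]
    refine Iter.add hadd (fun i => (sF i).TT.mul (sG i)) (fun i => (sF i).mul (sG i).TT) ?_ ?_
    · exact ih (fun i => (sF i).TT) sG hF.2 hG.pred
    · exact ih sF (fun i => (sG i).TT) hF.pred hG.2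

/-- Bounded families. -/
def BD {ι : Type*} (G : ι → X → ℂ) : Prop := ∃ C : ℝ, ∀ i x, ‖G i x‖ ≤ C

theorem BD.add {ι : Type*} (F G : ι → X → ℂ) (hF : BD F) (hG : BD G) :
    BD (fun i x => F i x + G i x) := by
  obtain ⟨C, hC⟩ := hF
  obtain ⟨D, hD⟩ := hG
  exact ⟨C + D, fun i x => (norm_add_le _ _).trans (add_le_add (hC i x) (hD i x))⟩

theorem BD.neg {ι : Type*} (F : ι → X → ℂ) (hF : BD F) :
    BD (fun i x => - F i x) := by
  obtain ⟨C, hC⟩ := hF
  exact ⟨C, fun i x => by rw [norm_neg]; exact hC i x⟩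

theorem BD.mul {ι : Type*} (F G : ι → X → ℂ) (hF : BD F) (hG : BD G) :
    BD (fun i x => F i x * G i x) := by
  obtain ⟨C, hC⟩ := hF
  obtain ⟨D, hD⟩ := hG
  refine ⟨|C| * |D|, fun i x => ?_⟩
  rw [norm_mul]
  exact mul_le_mul ((hC i x).trans (le_abs_self _)) ((hD i x).trans (le_abs_self _))
    (norm_nonneg _) (abs_nonneg _)

theorem Iter.bd_mul {ι : Type*} {k : ℕ} {F G : ι → X → ℂ} (sF : ∀ i, Sm (F i))
    (sG : ∀ i, Sm (G i)) (hF : Iter BD k F) (hG : Iter BD k G) :
    Iter BD k (fun i x => F i x * G i x) :=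
  Iter.mul BD.add BD.mul sF sG hF hG

theorem Iter.bd_add {ι : Type*} {k : ℕ} {F G : ι → X → ℂ} (sF : ∀ i, Sm (F i))
    (sG : ∀ i, Sm (G i)) (hF : Iter BD k F) (hG : Iter BD k G) :
    Iter BD k (fun i x => F i x + G i x) :=
  Iter.add BD.add sF sG hF hG

theorem Iter.bd_neg {ι : Type*} {k : ℕ} {F : ι → X → ℂ} (sF : ∀ i, Sm (F i))
    (hF : Iter BD k F) : Iter BD k (fun i x => - F i x) :=
  Iter.neg BD.neg sF hF

theorem Iter.bd_const {ι : Type*} (k : ℕ) (c : ℂ) :
    Iter BD k (fun (_ : ι) (_ : X) => c) := by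
  induction k generalizing c with
  | zero => exact ⟨‖c‖, fun _ _ => le_rfl⟩
  | succ k ih =>
    refine ⟨⟨‖c‖, fun _ _ => le_rfl⟩, ?_⟩
    have : (fun _ : ι => TT (fun _ : X => c)) = fun _ _ => 0 := by
      funext i
      exact TT_const c
    rw [this]
    exact ih 0

theorem Iter.bd_inv {ι : Type*} {k : ℕ} {F : ι → X → ℂ} (sF : ∀ i, Sm (F i))
    {c : ℝ} (hc : 0 < c) (hFc : ∀ i x, c ≤ ‖F i x‖)
    (hF : Iter BD k F) : Iter BD k (fun i x => (F i x)⁻¹) := by
  have h0 : ∀ i x, F i x ≠ 0 := fun i x h => by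
    have := hFc i x
    rw [h, norm_zero] at this
    linarith
  have hb : BD (fun i x => (F i x)⁻¹) := by
    refine ⟨c⁻¹, fun i x => ?_⟩
    rw [norm_inv]
    exact inv_anti₀ hc (hFc i x)
  induction k with
  | zero => exact hb
  | succ k ih =>
    refine ⟨hb, ?_⟩
    have h : (fun i => TT (fun x => (F i x)⁻¹)) =
        fun i x => - (fun i x => TT (F i) x * (fun i x => (F i x)⁻¹ * (F i x)⁻¹) i x) i x := by
      funext i
      exact TT_inv (sF i) (h0 i)
    rw [h]
    have hs : ∀ i, Sm (fun x => (F i x)⁻¹) := fun i => (sF i).inv (h0 i)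
    have h2 := ih hF.pred
    refine Iter.bd_neg (fun i => (sF i).TT.mul ((hs i).mul (hs i))) ?_
    exact Iter.bd_mul (fun i => (sF i).TT) (fun i => (hs i).mul (hs i)) hF.2
      (Iter.bd_mul hs hs h2 h2)

/-- Flat families with respect to a weight. -/
def FL {ι : Type*} (a : X → ℝ) (G : ι → X → ℂ) : Prop :=
  ∀ N : ℕ, ∃ C : ℝ, ∀ i x, ‖G i x‖ ≤ C * a x ^ N

/-- Families with polynomial growth with respect to a weight. -/
def PG {ι : Type*} (w : ι → X → ℝ) (G : ι → X → ℂ) : Prop :=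
  ∃ m : ℕ, ∃ C : ℝ, ∀ i x, ‖G i x‖ * w i x ^ m ≤ C

theorem FL.add {ι : Type*} {a : X → ℝ} (F G : ι → X → ℂ) (hF : FL a F) (hG : FL a G) :
    FL a (fun i x => F i x + G i x) := by
  intro N
  obtain ⟨C, hC⟩ := hF N
  obtain ⟨D, hD⟩ := hG N
  refine ⟨C + D, fun i x => (norm_add_le _ _).trans ?_⟩
  rw [add_mul]
  exact add_le_add (hC i x) (hD i x)

theorem FL.neg {ι : Type*} {a : X → ℝ} (F : ι → X → ℂ) (hF : FL a F) :
    FL a (fun i x => - F i x) := by
  intro N
  obtain ⟨C, hC⟩ := hF N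
  exact ⟨C, fun i x => by rw [norm_neg]; exact hC i x⟩

theorem PG.mul {ι : Type*} {w : ι → X → ℝ} (hw : ∀ i x, 0 ≤ w i x) (F G : ι → X → ℂ)
    (hF : PG w F) (hG : PG w G) :
    PG w (fun i x => F i x * G i x) := by
  obtain ⟨m, C, hC⟩ := hF
  obtain ⟨m', D, hD⟩ := hG
  refine ⟨m + m', |C| * |D|, fun i x => ?_⟩
  have h1 : 0 ≤ ‖F i x‖ * w i x ^ m := mul_nonneg (norm_nonneg _) (pow_nonneg (hw i x) _)
  have h2 : 0 ≤ ‖G i x‖ * w i x ^ m' := mul_nonneg (norm_nonneg _) (pow_nonneg (hw i x) _)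
  calc ‖F i x * G i x‖ * w i x ^ (m + m')
      = (‖F i x‖ * w i x ^ m) * (‖G i x‖ * w i x ^ m') := by rw [norm_mul, pow_add]; ring
    _ ≤ |C| * |D| := mul_le_mul ((hC i x).trans (le_abs_self _)) ((hD i x).trans (le_abs_self _))
        h2 (abs_nonneg _)

theorem PG.add {ι : Type*} {w : ι → X → ℝ} (hw : ∀ i x, 0 ≤ w i x) {R : ℝ}
    (hR : ∀ i x, w i x ≤ R) (F G : ι → X → ℂ)
    (hF : PG w F) (hG : PG w G) :
    PG w (fun i x => F i x + G i x) := by
  obtain ⟨m, C, hC⟩ := hF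
  obtain ⟨m', D, hD⟩ := hG
  refine ⟨m + m', |C| * |R| ^ m' + |D| * |R| ^ m, fun i x => ?_⟩
  have hw0 := hw i x
  have hwR : w i x ≤ |R| := (hR i x).trans (le_abs_self _)
  have h1 : 0 ≤ ‖F i x‖ * w i x ^ m := mul_nonneg (norm_nonneg _) (pow_nonneg hw0 _)
  have h2 : 0 ≤ ‖G i x‖ * w i x ^ m' := mul_nonneg (norm_nonneg _) (pow_nonneg hw0 _)
  have h3 : w i x ^ m' ≤ |R| ^ m' := pow_le_pow_left₀ hw0 hwR _
  have h4 : w i x ^ m ≤ |R| ^ m := pow_le_pow_left₀ hw0 hwR _
  calc ‖F i x + G i x‖ * w i x ^ (m + m')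
      ≤ (‖F i x‖ + ‖G i x‖) * w i x ^ (m + m') :=
        mul_le_mul_of_nonneg_right (norm_add_le _ _) (pow_nonneg hw0 _)
    _ = (‖F i x‖ * w i x ^ m) * w i x ^ m' + (‖G i x‖ * w i x ^ m') * w i x ^ m := by
        rw [pow_add]; ring
    _ ≤ |C| * |R| ^ m' + |D| * |R| ^ m := by
        refine add_le_add ?_ ?_
        · exact mul_le_mul ((hC i x).trans (le_abs_self _)) h3 (pow_nonneg hw0 _) (abs_nonneg _)
        · exact mul_le_mul ((hD i x).trans (le_abs_self _)) h4 (pow_nonneg hw0 _) (abs_nonneg _)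

theorem PG.neg {ι : Type*} {w : ι → X → ℝ} (F : ι → X → ℂ) (hF : PG w F) :
    PG w (fun i x => - F i x) := by
  obtain ⟨m, C, hC⟩ := hF
  exact ⟨m, C, fun i x => by rw [norm_neg]; exact hC i x⟩

theorem BD.pg {ι : Type*} {w : ι → X → ℝ} {F : ι → X → ℂ} (hF : BD F) : PG w F := by
  obtain ⟨C, hC⟩ := hF
  exact ⟨0, C, fun i x => by simpa using hC i x⟩

theorem FL.mul_pg {ι : Type*} {a : X → ℝ} {w : ι → X → ℝ} (ha : ∀ x, 0 ≤ a x)
    (haw : ∀ i x, a x ≤ w i x) (hw : ∀ i x, 0 < w i x) (F G : ι → X → ℂ)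
    (hF : FL a F) (hG : PG w G) : FL a (fun i x => F i x * G i x) := by
  intro N
  obtain ⟨m, D, hD⟩ := hG
  obtain ⟨C, hC⟩ := hF (N + m)
  refine ⟨|C| * |D|, fun i x => ?_⟩
  have hax := ha x
  have hwx := hw i x
  have hG1 : ‖G i x‖ * w i x ^ m ≤ |D| := (hD i x).trans (le_abs_self _)
  have hF1 : ‖F i x‖ ≤ |C| * a x ^ (N + m) :=
    (hC i x).trans (mul_le_mul_of_nonneg_right (le_abs_self _) (pow_nonneg hax _))
  have h4 : a x ^ m ≤ w i x ^ m := pow_le_pow_left₀ hax (haw i x) _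
  calc ‖F i x * G i x‖ = ‖F i x‖ * ‖G i x‖ := norm_mul _ _
    _ ≤ (|C| * a x ^ (N + m)) * ‖G i x‖ := mul_le_mul_of_nonneg_right hF1 (norm_nonneg _)
    _ = |C| * a x ^ N * (‖G i x‖ * a x ^ m) := by rw [pow_add]; ring
    _ ≤ |C| * a x ^ N * (‖G i x‖ * w i x ^ m) := by
        refine mul_le_mul_of_nonneg_left (mul_le_mul_of_nonneg_left h4 (norm_nonneg _)) ?_
        exact mul_nonneg (abs_nonneg _) (pow_nonneg hax _)
    _ ≤ |C| * a x ^ N * |D| := by
        refine mul_le_mul_of_nonneg_left hG1 ?_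
        exact mul_nonneg (abs_nonneg _) (pow_nonneg hax _)
    _ = |C| * |D| * a x ^ N := by ring

/-- The inverse of a family has polynomial growth with respect to the weight given by the norm. -/
theorem Iter.pg_inv {ι : Type*} {k : ℕ} {F : ι → X → ℂ} (sF : ∀ i, Sm (F i))
    (h0 : ∀ i x, F i x ≠ 0) {R : ℝ} (hR : ∀ i x, ‖F i x‖ ≤ R)
    (hF : Iter BD k F) :
    Iter (PG (fun i x => ‖F i x‖)) k (fun i x => (F i x)⁻¹) := by
  have hb : PG (fun i x => ‖F i x‖) (fun i x => (F i x)⁻¹) := by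
    refine ⟨1, 1, fun i x => ?_⟩
    rw [norm_inv, pow_one, inv_mul_cancel₀ (norm_ne_zero_iff.2 (h0 i x))]
  have hw : ∀ i x, 0 ≤ ‖F i x‖ := fun i x => norm_nonneg _
  have key : ∀ j {G : ι → X → ℂ}, Iter BD j G → Iter (PG (fun i x => ‖F i x‖)) j G := by
    intro j
    induction j with
    | zero => intro G hG; exact BD.pg hG
    | succ j ih => intro G hG; exact ⟨BD.pg hG.1, ih hG.2⟩
  induction k with
  | zero => exact hb
  | succ k ih =>
    refine ⟨hb, ?_⟩
    have h : (fun i => TT (fun x => (F i x)⁻¹)) =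
        fun i x => - (fun i x => TT (F i) x * (fun i x => (F i x)⁻¹ * (F i x)⁻¹) i x) i x := by
      funext i
      exact TT_inv (sF i) (h0 i)
    rw [h]
    have hs : ∀ i, Sm (fun x => (F i x)⁻¹) := fun i => (sF i).inv (h0 i)
    have h2 := ih hF.pred
    refine Iter.neg PG.neg (fun i => (sF i).TT.mul ((hs i).mul (hs i))) ?_
    refine Iter.mul (PG.add hw hR) (PG.mul hw) (fun i => (sF i).TT)
      (fun i => (hs i).mul (hs i)) (key k hF.2) ?_
    exact Iter.mul (PG.add hw hR) (PG.mul hw) hs hs h2 h2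

/-- Landau–Kolmogorov type lemma: the derivative along the flow of a flat function is flat. -/
theorem flat_TT {G : X → ℂ} (hG : Sm G) {a : X → ℝ} (ha : ∀ x, 0 ≤ a x) {A L : ℝ}
    (haA : ∀ x, a x ≤ A) (hL : ∀ (θ : ℝ) x, a (θ +ᵥ x) ≤ a x + L * |θ|)
    {M : ℝ} (hM : ∀ x, ‖TT (TT G) x‖ ≤ M)
    (hflat : ∀ N : ℕ, ∃ C : ℝ, ∀ x, ‖G x‖ ≤ C * a x ^ N) :
    ∀ N : ℕ, ∃ C : ℝ, ∀ x, ‖TT G x‖ ≤ C * a x ^ N := by
  -- basic estimate
  have key : ∀ x, ∀ h : ℝ, 0 < h → ‖TT G x‖ * h ≤ ‖G (h +ᵥ x)‖ + ‖G x‖ + M * h * h := by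
    intro x h hh
    have hd1 : ∀ t : ℝ, HasDerivAt (fun t : ℝ => TT G (t +ᵥ x)) (TT (TT G) (t +ᵥ x)) t :=
      fun t => hG.TT.hasDerivAt x t
    have hb1 : ∀ t ∈ Set.Icc (0:ℝ) h, ‖TT G (t +ᵥ x) - TT G x‖ ≤ M * h := by
      intro t ht
      have := (convex_Icc (0:ℝ) h).norm_image_sub_le_of_norm_hasDerivWithin_le
        (f := fun t : ℝ => TT G (t +ᵥ x)) (f' := fun t => TT (TT G) (t +ᵥ x)) (C := M)
        (fun t _ => (hd1 t).hasDerivWithinAt) (fun t _ => hM _)
        (⟨le_rfl, hh.le⟩ : (0:ℝ) ∈ Set.Icc (0:ℝ) h) ht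
      simp only [zero_vadd, sub_zero] at this
      refine this.trans ?_
      have hM0 : 0 ≤ M := (norm_nonneg _).trans (hM x)
      refine mul_le_mul_of_nonneg_left ?_ hM0
      rw [Real.norm_eq_abs, abs_of_nonneg ht.1]
      exact ht.2
    have hd2 : ∀ t : ℝ, HasDerivAt (fun t : ℝ => G (t +ᵥ x) - (t : ℂ) * TT G x)
        (TT G (t +ᵥ x) - TT G x) t := by
      intro t
      refine (hG.hasDerivAt x t).sub ?_
      have h1 : HasDerivAt (fun t : ℝ => (t : ℂ)) 1 t := Complex.ofRealCLM.hasDerivAt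
      simpa using h1.mul_const (TT G x)
    have := (convex_Icc (0:ℝ) h).norm_image_sub_le_of_norm_hasDerivWithin_le
        (f := fun t : ℝ => G (t +ᵥ x) - (t : ℂ) * TT G x)
        (f' := fun t => TT G (t +ᵥ x) - TT G x) (C := M * h)
        (fun t _ => (hd2 t).hasDerivWithinAt) hb1
        (⟨le_rfl, hh.le⟩ : (0:ℝ) ∈ Set.Icc (0:ℝ) h) (⟨hh.le, le_rfl⟩ : h ∈ Set.Icc (0:ℝ) h)
    simp only [zero_vadd, sub_zero, Complex.ofReal_zero, zero_mul, Real.norm_eq_abs,
      abs_of_pos hh] at this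
    have h3 : ‖TT G x‖ * h = ‖(h : ℂ) * TT G x‖ := by
      rw [norm_mul, Complex.norm_real, Real.norm_eq_abs, abs_of_pos hh, mul_comm]
    rw [h3]
    have h4 : (h : ℂ) * TT G x = G (h +ᵥ x) - G x - (G (h +ᵥ x) - (h : ℂ) * TT G x - G x) := by
      ring
    rw [h4]
    refine (norm_sub_le _ _).trans ?_
    exact add_le_add (norm_sub_le _ _) this
  have main : ∀ N : ℕ, 1 ≤ N → ∃ C : ℝ, ∀ x, ‖TT G x‖ ≤ C * a x ^ N := by
    intro N hN
    obtain ⟨C, hC⟩ := hflat (2 * N)
    obtain ⟨C2, hC2⟩ := hflat 2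
    set B : ℝ := max A 1 with hB
    have hB1 : 1 ≤ B := le_max_right _ _
    have hBA : A ≤ B := le_max_left _ _
    refine ⟨(|C| * (1 + |L|) ^ (2 * N) + |C|) * B ^ N + |M|, fun x => ?_⟩
    have hM0 : 0 ≤ M := (norm_nonneg _).trans (hM x)
    rcases (ha x).eq_or_lt with hs | hs
    · -- a x = 0
      have hGx : G x = 0 := by
        have := hC2 x
        rw [← hs] at this
        simpa using this
      have hz : ‖TT G x‖ ≤ 0 := by
        refine le_of_forall_pos_le_add ?_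
        intro ε hε
        set K : ℝ := |C2| * |L| ^ 2 + M + 1 with hK
        have hKpos : 0 < K := by positivity
        set h : ℝ := ε / K with hh
        have hhpos : 0 < h := by positivity
        have h1 := key x h hhpos
        have h2 : ‖G (h +ᵥ x)‖ ≤ |C2| * (|L| * h) ^ 2 := by
          refine (hC2 _).trans ?_
          have ha0 := ha (h +ᵥ x)
          have hal : a (h +ᵥ x) ≤ |L| * h := by
            have := hL h x
            rw [← hs, zero_add, abs_of_pos hhpos] at this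
            exact this.trans (mul_le_mul_of_nonneg_right (le_abs_self _) hhpos.le)
          exact mul_le_mul (le_abs_self _) (pow_le_pow_left₀ ha0 hal _) (pow_nonneg ha0 _)
            (abs_nonneg _)
        rw [hGx, norm_zero, add_zero] at h1
        have h3 : ‖TT G x‖ * h ≤ (K * h) * h := by
          refine h1.trans ?_
          have : |C2| * (|L| * h) ^ 2 + M * h * h ≤ K * h * h := by
            rw [hK]
            nlinarith [mul_pos hhpos hhpos]
          linarith
        have h4 : ‖TT G x‖ ≤ K * h := le_of_mul_le_mul_right h3 hhpos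
        have h5 : K * h = ε := by
          rw [hh]; field_simp
        linarith
      refine hz.trans ?_
      rw [← hs]
      have : (0:ℝ) ^ N = 0 := by
        rw [zero_pow]; omega
      rw [this, mul_zero]
    · -- a x > 0
      set s := a x with hsdef
      set h : ℝ := (s / B) ^ N with hh
      have hBpos : 0 < B := by linarith
      have hsB : s / B ≤ 1 := by
        rw [div_le_one hBpos]
        exact (haA x).trans hBA
      have hsBpos : 0 < s / B := by positivity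
      have hhpos : 0 < h := by positivity
      have hhs : h ≤ s := by
        have h1 : h ≤ (s / B) ^ 1 := pow_le_pow_of_le_one hsBpos.le hsB hN
        rw [pow_one] at h1
        refine h1.trans ?_
        exact div_le_self hs.le hB1
      have h1 := key x h hhpos
      have h2 : ‖G (h +ᵥ x)‖ ≤ |C| * ((1 + |L|) * s) ^ (2 * N) := by
        refine (hC _).trans ?_
        have ha0 := ha (h +ᵥ x)
        have hal : a (h +ᵥ x) ≤ (1 + |L|) * s := by
          have := hL h x
          rw [abs_of_pos hhpos] at this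
          refine this.trans ?_
          have h3 : L * h ≤ |L| * s :=
            mul_le_mul (le_abs_self _) hhs hhpos.le (abs_nonneg _)
          linarith
        exact mul_le_mul (le_abs_self _) (pow_le_pow_left₀ ha0 hal _) (pow_nonneg ha0 _)
          (abs_nonneg _)
      have h3 : ‖G x‖ ≤ |C| * s ^ (2 * N) :=
        (hC x).trans (mul_le_mul_of_nonneg_right (le_abs_self _) (pow_nonneg hs.le _))
      have h4 : ‖TT G x‖ * h ≤
          ((|C| * (1 + |L|) ^ (2 * N) + |C|) * B ^ N * s ^ N + |M| * s ^ N) * h := by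
        refine h1.trans ?_
        have e1 : |C| * ((1 + |L|) * s) ^ (2 * N) =
            (|C| * (1 + |L|) ^ (2 * N)) * B ^ N * s ^ N * h := by
          rw [hh, mul_pow, div_pow, two_mul, pow_add s]
          field_simp
        have e2 : |C| * s ^ (2 * N) = |C| * B ^ N * s ^ N * h := by
          rw [hh, div_pow, two_mul, pow_add s]
          field_simp
        have e3 : M * h * h ≤ |M| * s ^ N * h := by
          refine mul_le_mul_of_nonneg_right ?_ hhpos.le
          refine mul_le_mul (le_abs_self _) ?_ hhpos.le (abs_nonneg _)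
          rw [hh]
          exact pow_le_pow_left₀ hsBpos.le (div_le_self hs.le hB1) _
        calc ‖G (h +ᵥ x)‖ + ‖G x‖ + M * h * h
            ≤ (|C| * (1 + |L|) ^ (2 * N)) * B ^ N * s ^ N * h + |C| * B ^ N * s ^ N * h
              + |M| * s ^ N * h := by
              refine add_le_add (add_le_add ?_ ?_) e3
              · rw [← e1]; exact h2
              · rw [← e2]; exact h3
          _ = _ := by ring
      have h5 := le_of_mul_le_mul_right h4 hhpos
      refine h5.trans (le_of_eq ?_)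
      ring
  intro N
  rcases Nat.eq_zero_or_pos N with hN | hN
  · subst hN
    obtain ⟨C, hC⟩ := main 1 le_rfl
    refine ⟨|C| * A, fun x => ?_⟩
    rw [pow_zero, mul_one]
    refine (hC x).trans ?_
    rw [pow_one]
    exact mul_le_mul (le_abs_self _) (haA x) (ha x) (abs_nonneg _)
  · exact main N hN

end

end Pool.Agent.PeakLib
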