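import Pool.Agent.Lib.MP_7d1258_an.TheoremA1

/-!
Theorem A: a smooth function with nonnegative real part on the sphere whose `∂̄_b` vanishes to
infinite order on its zero set can be replaced by an element of `A^∞(B)` with the same zero set.
-/

set_option autoImplicit false
set_option linter.unusedSectionVars false

namespace Pool.Agent.PeakLib

open scoped ContDiff
open MeasureTheory Metric Complex Filter

noncomputable section

variable {d : ℕ}

theorem TE_sub' {f g : EE d → ℂ} (hf : ContDiff ℝ ∞ f) (hg : ContDiff ℝ ∞ g) :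
    TE (fun z => f z - g z) = fun z => TE f z - TE g z := by
  funext z
  unfold TE
  rw [show (fun z => f z - g z) = f - g from rfl,
    fderiv_sub (hf.differentiable (by simp) z) (hg.differentiable (by simp) z)]
  rfl

theorem TE_sub_iterate (k : ℕ) : ∀ {f g : EE d → ℂ}, ContDiff ℝ ∞ f → ContDiff ℝ ∞ g →
    TE^[k] (fun z => f z - g z) = fun z => (TE^[k] f) z - (TE^[k] g) z := by
  induction k with
  | zero => intro f g _ _; rfl
  | succ k ih =>
    intro f g hf hg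
    rw [Function.iterate_succ, Function.comp_apply, TE_sub' hf hg,
      ih (contDiff_TE hf) (contDiff_TE hg)]
    rfl

theorem exists_SS (d : ℕ) : ∃ z : EE d, z ∈ SS d := by
  refine ⟨EuclideanSpace.single 0 (1:ℂ), ?_⟩
  rw [mem_sphere_zero_iff_norm]
  simp

/-- A family `Φ_ε` in the algebra with uniform estimates. -/
theorem exists_family {v : EE d → ℂ} (hv : ContDiff ℝ ∞ v) (hre : ∀ z ∈ SS d, 0 ≤ (v z).re)
    (hflat : ∀ N : ℕ, ∃ C : ℝ, ∀ p ∈ DD d, ‖db v p.1 p.2‖ ≤ C * ‖v p.1‖ ^ N) :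
    ∃ (Φ H : IE → EE d → ℂ) (c L : ℝ), 0 < c ∧
      (∀ ε, AA (Φ ε)) ∧
      (∀ ε, ∀ z ∈ SS d, Φ ε z = (v z + ((ε.1 : ℝ) : ℂ)) *
        (1 - (v z + ((ε.1 : ℝ) : ℂ)) * H ε z)⁻¹) ∧
      (∀ ε, ∀ z ∈ SS d, c ≤ ‖1 - (v z + ((ε.1 : ℝ) : ℂ)) * H ε z‖) ∧
      (∀ ε ε', ∀ z ∈ SS d, ‖H ε z - H ε' z‖ ≤ L * |ε.1 - ε'.1|) ∧
      (∀ ε, ∀ z ∈ SS d, ‖Φ ε z‖ ^ 2 ≤ (Φ ε z).re) ∧
      (∀ ε, ∀ z ∈ SS d, ‖Φ ε z‖ ≤ 1) ∧
      (∀ k : ℕ, ∃ M : ℝ, ∀ ε, ∀ z ∈ SS d, ‖(TE^[k] (Φ ε)) z‖ ≤ M) := by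
  choose FF hFF hFSZ using fun ε : IE => exists_projection (contDiff_GG hv ε)
  -- derivative bounds for the difference
  have hh : ∀ k : ℕ, ∃ C : ℝ, ∀ ε : IE, ∀ z ∈ SS d,
      ‖(TE^[k] (fun z => GG v ε z - FF ε z)) z‖ ≤ C := by
    intro k
    obtain ⟨C, hC⟩ := uniform_db hv hre hflat k
    refine ⟨CK d * C, fun ε z hz => ?_⟩
    rw [TE_sub_iterate k (contDiff_GG hv ε) (hFF ε).1]
    show ‖(TE^[k] (GG v ε)) z - (TE^[k] (FF ε)) z‖ ≤ _
    rw [TE_iterate_of_eq_SZ k (contDiff_GG hv ε) (hFF ε).1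
        (fun z hz => hFSZ ε z (sphere_subset_closedBall hz)) z hz]
    exact key_ineq (contDiff_TE_iterate (contDiff_GG hv ε) k) (hC ε) hz
  have hcdh : ∀ ε, ContDiff ℝ ∞ (fun z => GG v ε z - FF ε z) := fun ε =>
    (contDiff_GG hv ε).sub (hFF ε).1
  obtain ⟨B0, hB0⟩ := hh 0
  set C0 : ℝ := |B0| + 1 with hC0
  have hC0pos : 1 ≤ C0 := by
    have := abs_nonneg B0
    linarith
  -- real part bound
  have hre1 : ∀ ε : IE, ∀ z ∈ closedBall (0 : EE d) 1, 1 ≤ (FF ε z + ((C0 : ℝ) : ℂ)).re := by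
    intro ε
    refine ((hFF ε).add (AA.const _)).le_re fun z hz => ?_
    have h1 : 0 ≤ (GG v ε z).re := by
      rw [GG_eq hre ε hz, Complex.inv_re]
      have h2 := re_add_ge hre ε hz
      have h3 := ε.2.1
      exact div_nonneg (by linarith) (Complex.normSq_nonneg _)
    have h2 : |(GG v ε z - FF ε z).re| ≤ |B0| :=
      (Complex.abs_re_le_norm _).trans ((hB0 ε z hz).trans (le_abs_self _))
    rw [Complex.sub_re] at h2
    rw [Complex.add_re, Complex.ofReal_re]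
    have h3 := (abs_le.1 h2).2
    linarith
  have hnorm1 : ∀ ε : IE, ∀ z ∈ closedBall (0 : EE d) 1, 1 ≤ ‖FF ε z + ((C0 : ℝ) : ℂ)‖ :=
    fun ε z hz => (hre1 ε z hz).trans (Complex.re_le_norm _)
  set Φ : IE → EE d → ℂ := fun ε z => recip (1/2) (FF ε z + ((C0 : ℝ) : ℂ)) with hΦ
  set H : IE → EE d → ℂ := fun ε z => GG v ε z - FF ε z - ((C0 : ℝ) : ℂ) with hH
  have hAA : ∀ ε, AA (Φ ε) := fun ε =>
    ((hFF ε).add (AA.const _)).recip (by norm_num) (fun z hz => by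
      have := hnorm1 ε z hz
      linarith)
  have hΦeq : ∀ ε, ∀ z ∈ closedBall (0 : EE d) 1, Φ ε z = (FF ε z + ((C0 : ℝ) : ℂ))⁻¹ := by
    intro ε z hz
    refine recip_eq (by norm_num) ?_
    have := hnorm1 ε z hz
    linarith
  -- the relation with H
  have hwH : ∀ ε, ∀ z ∈ SS d, 1 - (v z + ((ε.1 : ℝ) : ℂ)) * H ε z =
      (v z + ((ε.1 : ℝ) : ℂ)) * (FF ε z + ((C0 : ℝ) : ℂ)) := by
    intro ε z hz
    have hne := add_ne hre ε hz
    rw [hH]
    simp only []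
    rw [GG_eq hre ε hz]
    field_simp
    ring
  have hHbd : ∀ ε, ∀ z ∈ SS d, ‖H ε z‖ ≤ 2 * C0 := by
    intro ε z hz
    rw [hH]
    refine (norm_sub_le _ _).trans ?_
    have h1 := hB0 ε z hz
    have h2 : ‖((C0 : ℝ) : ℂ)‖ = C0 := by
      rw [Complex.norm_real, Real.norm_of_nonneg (by linarith)]
    rw [h2]
    have h3 : ‖GG v ε z - FF ε z‖ ≤ |B0| := h1.trans (le_abs_self _)
    linarith
  set c : ℝ := 1 / (4 * C0) with hc
  have hcpos : 0 < c := by positivity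
  have hcle : ∀ ε, ∀ z ∈ SS d, c ≤ ‖1 - (v z + ((ε.1 : ℝ) : ℂ)) * H ε z‖ := by
    intro ε z hz
    rcases le_or_gt (‖v z + ((ε.1 : ℝ) : ℂ)‖) (1 / (4 * C0)) with h | h
    · have h1 : ‖(v z + ((ε.1 : ℝ) : ℂ)) * H ε z‖ ≤ 1 / 2 := by
        rw [norm_mul]
        calc ‖v z + ((ε.1 : ℝ) : ℂ)‖ * ‖H ε z‖ ≤ (1 / (4 * C0)) * (2 * C0) :=
              mul_le_mul h (hHbd ε z hz) (norm_nonneg _) (by positivity)
          _ = 1 / 2 := by field_simp; norm_num
      have h2 := norm_sub_norm_le (1:ℂ) ((v z + ((ε.1 : ℝ) : ℂ)) * H ε z)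
      rw [norm_one] at h2
      have h3 : c ≤ 1 / 2 := by
        rw [hc, div_le_div_iff₀ (by positivity) (by norm_num)]
        linarith
      linarith
    · rw [hwH ε z hz, norm_mul]
      have h1 := hnorm1 ε z (sphere_subset_closedBall hz)
      calc c ≤ ‖v z + ((ε.1 : ℝ) : ℂ)‖ * 1 := by rw [mul_one]; exact h.le
        _ ≤ _ := mul_le_mul_of_nonneg_left h1 (norm_nonneg _)
  have hΦform : ∀ ε, ∀ z ∈ SS d, Φ ε z = (v z + ((ε.1 : ℝ) : ℂ)) *
        (1 - (v z + ((ε.1 : ℝ) : ℂ)) * H ε z)⁻¹ := by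
    intro ε z hz
    rw [hwH ε z hz, hΦeq ε z (sphere_subset_closedBall hz), mul_inv, ← mul_assoc,
      mul_inv_cancel₀ (add_ne hre ε hz), one_mul]
  -- Lipschitz dependence
  obtain ⟨L0, hL0⟩ := db_GG_sub hv hre hflat
  have hLip : ∀ ε ε', ∀ z ∈ SS d, ‖H ε z - H ε' z‖ ≤ (CK d * L0) * |ε.1 - ε'.1| := by
    intro ε ε' z hz
    have hz1 : ‖z‖ ≤ 1 := (mem_sphere_zero_iff_norm.1 hz).le
    have h1 := key_ineq ((contDiff_GG hv ε).sub (contDiff_GG hv ε')) (hL0 ε ε') hz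
    rw [SZ_sub (contDiff_GG hv ε) (contDiff_GG hv ε') hz1,
      ← hFSZ ε z (sphere_subset_closedBall hz), ← hFSZ ε' z (sphere_subset_closedBall hz)] at h1
    have h2 : H ε z - H ε' z = GG v ε z - GG v ε' z - (FF ε z - FF ε' z) := by
      rw [hH]; ring
    rw [h2, mul_assoc]
    exact h1
  -- real part of Φ
  have hΦre : ∀ ε, ∀ z ∈ SS d, ‖Φ ε z‖ ^ 2 ≤ (Φ ε z).re := by
    intro ε z hz
    have hzc := sphere_subset_closedBall hz
    rw [hΦeq ε z hzc, norm_inv, Complex.inv_re, Complex.normSq_eq_norm_sq, inv_pow,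
      inv_eq_one_div]
    exact div_le_div_of_nonneg_right (hre1 ε z hzc) (by positivity)
  have hΦnorm : ∀ ε, ∀ z ∈ SS d, ‖Φ ε z‖ ≤ 1 := by
    intro ε z hz
    have hzc := sphere_subset_closedBall hz
    rw [hΦeq ε z hzc, norm_inv]
    exact inv_le_one_of_one_le₀ (hnorm1 ε z hzc)
  -- derivative bounds
  refine ⟨Φ, H, c, CK d * L0, hcpos, hAA, hΦform, hcle, hLip, hΦre, hΦnorm, fun k => ?_⟩
  -- work on the sphere
  have i1 : Iter BD k (fun (ε : IE) (p : Pt (SS d)) => v p.1 + ((ε.1 : ℝ) : ℂ)) :=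
    Iter.bd_add (fun _ => Sm.restrict hv) (fun _ => Sm.const _)
      (Iter.bd_restrict isCompact_SS hv k) (Iter.bd_constfam k (C := 1) _ (fun i => by
        rw [Complex.norm_real, Real.norm_of_nonneg i.2.1.le]; exact i.2.2))
  have s1 : ∀ ε : IE, Sm (fun (p : Pt (SS d)) => v p.1 + ((ε.1 : ℝ) : ℂ)) := fun ε =>
    (Sm.restrict hv).add (Sm.const _)
  have i2 : Iter BD k (fun (ε : IE) (p : Pt (SS d)) => GG v ε p.1 - FF ε p.1) := by
    refine Iter.of_all k fun j _ => ?_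
    obtain ⟨C, hC⟩ := hh j
    refine ⟨C, fun ε p => ?_⟩
    have := TT_restrict_iterate (K := SS d) (hcdh ε) j
    show ‖TT^[j] (fun p : Pt (SS d) => GG v ε p.1 - FF ε p.1) p‖ ≤ C
    rw [this]
    exact hC ε p.1 p.2
  have s2 : ∀ ε : IE, Sm (fun (p : Pt (SS d)) => GG v ε p.1 - FF ε p.1) := fun ε =>
    Sm.restrict (hcdh ε)
  have i3 : Iter BD k (fun (ε : IE) (p : Pt (SS d)) => H ε p.1) := by
    have : (fun (ε : IE) (p : Pt (SS d)) => H ε p.1) =
        fun (ε : IE) (p : Pt (SS d)) => (GG v ε p.1 - FF ε p.1) + (-((C0 : ℝ) : ℂ)) := by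
      funext ε p
      rw [hH]; ring
    rw [this]
    exact Iter.bd_add s2 (fun _ => Sm.const _) i2 (Iter.bd_const k _)
  have s3 : ∀ ε : IE, Sm (fun (p : Pt (SS d)) => H ε p.1) := fun ε =>
    (s2 ε).sub (Sm.const _)
  have i4 : Iter BD k (fun (ε : IE) (p : Pt (SS d)) =>
      (1:ℂ) + -((v p.1 + ((ε.1 : ℝ) : ℂ)) * H ε p.1)) :=
    Iter.bd_add (fun _ => Sm.const _) (fun ε => ((s1 ε).mul (s3 ε)).neg) (Iter.bd_const k _)
      (Iter.bd_neg (fun ε => (s1 ε).mul (s3 ε)) (Iter.bd_mul s1 s3 i1 i3))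
  have s4 : ∀ ε : IE, Sm (fun (p : Pt (SS d)) =>
      (1:ℂ) + -((v p.1 + ((ε.1 : ℝ) : ℂ)) * H ε p.1)) := fun ε =>
    (Sm.const _).add ((s1 ε).mul (s3 ε)).neg
  have hlow : ∀ (ε : IE) (p : Pt (SS d)),
      c ≤ ‖(1:ℂ) + -((v p.1 + ((ε.1 : ℝ) : ℂ)) * H ε p.1)‖ := by
    intro ε p
    rw [← sub_eq_add_neg]
    exact hcle ε p.1 p.2
  have hne4 : ∀ (ε : IE) (p : Pt (SS d)),
      (1:ℂ) + -((v p.1 + ((ε.1 : ℝ) : ℂ)) * H ε p.1) ≠ 0 := by
    intro ε p h
    have := hlow ε p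
    rw [h, norm_zero] at this
    linarith
  have i5 := Iter.bd_inv s4 hcpos hlow i4
  have i6 := Iter.bd_mul s1 (fun ε => (s4 ε).inv (hne4 ε)) i1 i5
  obtain ⟨M, hM⟩ := i6.iterate
  refine ⟨M, fun ε z hz => ?_⟩
  have e1 : (fun (p : Pt (SS d)) => (v p.1 + ((ε.1 : ℝ) : ℂ)) *
      ((1:ℂ) + -((v p.1 + ((ε.1 : ℝ) : ℂ)) * H ε p.1))⁻¹) = fun p => Φ ε p.1 := by
    funext p
    rw [hΦform ε p.1 p.2, sub_eq_add_neg]
  have e2 := hM ε ⟨z, hz⟩
  have e3 : ‖TT^[k] (fun (p : Pt (SS d)) => (v p.1 + ((ε.1 : ℝ) : ℂ)) *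
      ((1:ℂ) + -((v p.1 + ((ε.1 : ℝ) : ℂ)) * H ε p.1))⁻¹) ⟨z, hz⟩‖ ≤ M := e2
  rw [e1, TT_restrict_iterate (hAA ε).1] at e3
  exact e3

/-- The parameter sequence. -/
def epsSeq (j : ℕ) : IE := ⟨1 / ((j : ℝ) + 1), by positivity, by
  rw [div_le_one (by positivity)]
  have : (0:ℝ) ≤ j := Nat.cast_nonneg j
  linarith⟩

theorem tendsto_epsSeq : Tendsto (fun j => (epsSeq j).1) atTop (nhds 0) :=
  tendsto_one_div_add_atTop_nhds_zero_nat

/-- Theorem A. -/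
theorem theoremA {v : EE d → ℂ} (hv : ContDiff ℝ ∞ v) (hre : ∀ z ∈ SS d, 0 ≤ (v z).re)
    (hflat : ∀ N : ℕ, ∃ C : ℝ, ∀ p ∈ DD d, ‖db v p.1 p.2‖ ≤ C * ‖v p.1‖ ^ N)
    (hne : ∃ z ∈ SS d, v z ≠ 0) :
    ∃ u : EE d → ℂ, AA u ∧ (∀ z ∈ SS d, v z = 0 → u z = 0) ∧
      ∀ z ∈ closedBall (0 : EE d) 1, (z ∈ SS d → v z ≠ 0) → 0 < (u z).re := by
  obtain ⟨Φ, H, c, L, hc, hAA, hform, hcle, hLip, hΦre, hΦ1, hder⟩ := exists_family hv hre hflat
  -- convergence of H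
  have hcauchy : ∀ z ∈ SS d, CauchySeq (fun j => H (epsSeq j) z) := by
    intro z hz
    rw [Metric.cauchySeq_iff']
    intro η hη
    have h1 : Tendsto (fun j => (|L| + 1) * (epsSeq j).1) atTop (nhds ((|L| + 1) * 0)) :=
      tendsto_epsSeq.const_mul _
    rw [mul_zero] at h1
    have h2 := (h1.eventually_lt_const hη).exists_forall_of_atTop
    obtain ⟨N, hN⟩ := h2
    refine ⟨N, fun n hn => ?_⟩
    rw [dist_eq_norm]
    refine lt_of_le_of_lt (hLip _ _ z hz) ?_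
    have h3 : |(epsSeq n).1 - (epsSeq N).1| ≤ (epsSeq N).1 := by
      have h4 : (epsSeq n).1 ≤ (epsSeq N).1 := by
        show 1 / ((n : ℝ) + 1) ≤ 1 / ((N : ℝ) + 1)
        have : (N : ℝ) ≤ n := by exact_mod_cast hn
        exact one_div_le_one_div_of_le (by positivity) (by linarith)
      have h5 := (epsSeq n).2.1
      rw [abs_sub_comm, abs_of_nonneg (by linarith)]
      linarith
    calc L * |(epsSeq n).1 - (epsSeq N).1| ≤ (|L| + 1) * (epsSeq N).1 := by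
          refine mul_le_mul ?_ h3 (abs_nonneg _) (by positivity)
          have := le_abs_self L
          linarith
      _ < η := hN N le_rfl
  choose! H0 hH0 using fun z hz => cauchySeq_tendsto_of_complete (hcauchy z hz)
  have hw : ∀ z, Tendsto (fun j => v z + (((epsSeq j).1 : ℝ) : ℂ)) atTop (nhds (v z)) := by
    intro z
    have h1 : Tendsto (fun j => (((epsSeq j).1 : ℝ) : ℂ)) atTop (nhds ((0:ℝ):ℂ)) :=
      (Complex.continuous_ofReal.tendsto 0).comp tendsto_epsSeq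
    have h2 := h1.const_add (v z)
    rw [Complex.ofReal_zero, add_zero] at h2
    exact h2
  have hden : ∀ z ∈ SS d, Tendsto (fun j => 1 - (v z + (((epsSeq j).1 : ℝ) : ℂ)) *
      H (epsSeq j) z) atTop (nhds (1 - v z * H0 z)) := fun z hz =>
    ((hw z).mul (hH0 z hz)).const_sub 1
  have hdenc : ∀ z ∈ SS d, c ≤ ‖1 - v z * H0 z‖ := fun z hz =>
    ge_of_tendsto (hden z hz).norm (Eventually.of_forall fun j => hcle _ z hz)
  have hden0 : ∀ z ∈ SS d, 1 - v z * H0 z ≠ 0 := fun z hz h => by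
    have := hdenc z hz
    rw [h, norm_zero] at this
    linarith
  set Φ0 : EE d → ℂ := fun z => v z * (1 - v z * H0 z)⁻¹ with hΦ0
  have hlim : ∀ z ∈ SS d, Tendsto (fun j => Φ (epsSeq j) z) atTop (nhds (Φ0 z)) := by
    intro z hz
    have h1 := (hw z).mul ((hden z hz).inv₀ (hden0 z hz))
    refine h1.congr fun j => ?_
    rw [hform _ z hz]
  -- convergence of the components
  have hqlim : ∀ m, Tendsto (fun j => qq m (Φ (epsSeq j))) atTop (nhds (qq m Φ0)) := by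
    intro m
    unfold qq
    refine Tendsto.const_smul ?_ _
    refine tendsto_integral_of_dominated_convergence (fun _ => 1) ?_ (integrable_const _) ?_ ?_
    · intro j
      exact aesm_of_continuousOn (continuousOn_smul_form (hAA _).1.continuous.continuousOn m)
    · intro j
      refine ae_mem_sphere.mono fun ζ hζ => ?_
      rw [norm_smul]
      have h1 := norm_form_le m (mem_sphere_zero_iff_norm.1 hζ)
      have h2 := hΦ1 (epsSeq j) ζ hζ
      exact mul_le_one₀ h2 (norm_nonneg _) h1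
    · refine ae_mem_sphere.mono fun ζ hζ => ?_
      exact (hlim ζ hζ).smul_const (form m ζ)
  -- decay
  have hdecay : ∀ N : ℕ, ∃ C : ℝ, ∀ ε m, ‖qq m (Φ ε)‖ * ((m : ℝ) + 1) ^ N ≤ C := by
    intro N
    obtain ⟨K, A, hA, hK⟩ := decay_of_bounds (d := d) N
    obtain ⟨M, hM⟩ := hder K
    refine ⟨A * max 1 M, fun ε m => ?_⟩
    exact hK (Φ ε) (hAA ε).1 (max 1 M) (fun ζ hζ => (hΦ1 ε ζ hζ).trans (le_max_left _ _))
      (fun ζ hζ => (hM ε ζ hζ).trans (le_max_right _ _)) m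
  have hdecay0 : ∀ N : ℕ, ∃ C : ℝ, ∀ m, ‖qq m Φ0‖ * ((m : ℝ) + 1) ^ N ≤ C := by
    intro N
    obtain ⟨C, hC⟩ := hdecay N
    refine ⟨C, fun m => ?_⟩
    exact le_of_tendsto ((hqlim m).norm.mul_const _) (Eventually.of_forall fun j => hC _ m)
  obtain ⟨u, hu, huval⟩ := extension (fun m => qq m Φ0) hdecay0
  -- boundary values
  have hub : ∀ z ∈ SS d, u z = Φ0 z := by
    intro z hz
    have hz1 : ‖z‖ ≤ 1 := (mem_sphere_zero_iff_norm.1 hz).le
    have h1 : ∀ j, Φ (epsSeq j) z = SZ (Φ (epsSeq j)) z := by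
      intro j
      have h2 := key_ineq (hAA (epsSeq j)).1 (M := 0)
        (fun p hp => by rw [(hAA (epsSeq j)).db_DD hp, norm_zero]) hz
      rw [mul_zero] at h2
      exact sub_eq_zero.1 (norm_le_zero_iff.1 h2)
    obtain ⟨C, hC⟩ := hdecay 2
    have h2 : Tendsto (fun j => SZ (Φ (epsSeq j)) z) atTop (nhds (∑' m, qq m Φ0 (fun _ => z))) := by
      unfold SZ
      refine tendsto_tsum_of_dominated_convergence (bound := fun m : ℕ =>
        C * (1 / ((m : ℝ) + 1) ^ 2)) (summable_inv_sq.mul_left C) ?_ ?_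
      · intro m
        have h3 := ((ContinuousMultilinearMap.apply ℂ (fun _ : Fin m => EE d) ℂ
          (fun _ => z)).continuous.tendsto (qq m Φ0)).comp (hqlim m)
        exact h3
      · refine Eventually.of_forall fun j m => ?_
        refine (norm_apply_diag_le _ hz1).trans ?_
        rw [mul_one_div, le_div_iff₀ (by positivity)]
        exact hC _ m
    have h3 : Tendsto (fun j => SZ (Φ (epsSeq j)) z) atTop (nhds (Φ0 z)) :=
      (hlim z hz).congr h1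
    rw [huval z (sphere_subset_closedBall hz)]
    exact tendsto_nhds_unique h2 h3
  have hre0 : ∀ z ∈ SS d, ‖u z‖ ^ 2 ≤ (u z).re := by
    intro z hz
    rw [hub z hz]
    refine le_of_tendsto_of_tendsto ((hlim z hz).norm.pow 2)
      ((Complex.continuous_re.tendsto _).comp (hlim z hz)) (Eventually.of_forall fun j => ?_)
    exact hΦre _ z hz
  have hpos : ∀ z ∈ SS d, v z ≠ 0 → 0 < (u z).re := by
    intro z hz hvz
    have h1 : u z ≠ 0 := by
      rw [hub z hz]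
      exact mul_ne_zero hvz (inv_ne_zero (hden0 z hz))
    have h2 : 0 < ‖u z‖ ^ 2 := by positivity
    exact h2.trans_le (hre0 z hz)
  refine ⟨u, hu, ?_, ?_⟩
  · intro z hz hvz
    rw [hub z hz, hΦ0]
    simp [hvz]
  · intro z hz hcond
    rcases (mem_closedBall_zero_iff.1 hz).lt_or_eq with h | h
    · obtain ⟨z0, hz0, hvz0⟩ := hne
      exact hu.re_pos (fun z hz => (sq_nonneg _).trans (hre0 z hz)) hz0 (hpos z0 hz0 hvz0) z
        (mem_ball_zero_iff.2 h)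
    · have hzS : z ∈ SS d := mem_sphere_zero_iff_norm.2 h
      exact hpos z hzS (hcond hzS)

end

end Pool.Agent.PeakLib
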