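import Pool.Agent.Lib.MP_7d1258_an.Cutoff
import Pool.Agent.Lib.MP_7d1258_an.TheoremA2

/-!
The gluing lemma.
-/

set_option autoImplicit false
set_option linter.unusedSectionVars false

namespace Pool.Agent.PeakLib

open scoped ContDiff
open MeasureTheory Metric Complex Filter

noncomputable section

variable {d : ℕ}

/-! ### Möbius transformation -/

/-- The Möbius transformation `x ↦ x / (1 + Λ x)`. -/
def mob (Λ : ℝ) (x : ℂ) : ℂ := x * (1 + (Λ : ℂ) * x)⁻¹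

section Mob

variable {Λ : ℝ} (hΛ : 1 ≤ Λ) {x : ℂ} (hx : 0 ≤ x.re)

include hΛ hx

theorem mob_den_re : 1 ≤ (1 + (Λ : ℂ) * x).re := by
  rw [Complex.add_re, Complex.one_re, Complex.re_ofReal_mul]
  have : 0 ≤ Λ * x.re := mul_nonneg (by linarith) hx
  linarith

theorem mob_den_norm : 1 ≤ ‖1 + (Λ : ℂ) * x‖ := (mob_den_re hΛ hx).trans (Complex.re_le_norm _)

theorem mob_den_ne : 1 + (Λ : ℂ) * x ≠ 0 := fun h => by
  have := mob_den_norm hΛ hx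
  rw [h, norm_zero] at this
  linarith

theorem mob_re : (mob Λ x).re = (x.re + Λ * ‖x‖ ^ 2) / ‖1 + (Λ : ℂ) * x‖ ^ 2 := by
  unfold mob
  rw [Complex.mul_re, Complex.inv_re, Complex.inv_im, Complex.normSq_eq_norm_sq]
  have h1 : ‖x‖ ^ 2 = x.re * x.re + x.im * x.im := by
    rw [← Complex.normSq_eq_norm_sq, Complex.normSq_apply]
  rw [h1, Complex.add_re, Complex.one_re, Complex.re_ofReal_mul, Complex.add_im, Complex.one_im,
    Complex.im_ofReal_mul]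
  ring

theorem mob_norm_sq : ‖mob Λ x‖ ^ 2 = ‖x‖ ^ 2 / ‖1 + (Λ : ℂ) * x‖ ^ 2 := by
  unfold mob
  rw [norm_mul, norm_inv, mul_pow, inv_pow, div_eq_mul_inv]

theorem mob1 : Λ * ‖mob Λ x‖ ^ 2 ≤ (mob Λ x).re := by
  have h1 := mob_den_norm hΛ hx
  rw [mob_re hΛ hx, mob_norm_sq hΛ hx, ← mul_div_assoc]
  exact div_le_div_of_nonneg_right (by linarith) (by positivity)

theorem mob_re_nonneg : 0 ≤ (mob Λ x).re :=
  (mul_nonneg (by linarith) (sq_nonneg _)).trans (mob1 hΛ hx)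

theorem mob_norm_le : ‖mob Λ x‖ ≤ 1 / Λ := by
  have h1 := (mob1 hΛ hx).trans (Complex.re_le_norm _)
  have hΛ0 : 0 < Λ := by linarith
  rw [le_div_iff₀ hΛ0]
  by_contra hcon
  push Not at hcon
  have h2 : 0 < ‖mob Λ x‖ := by
    rcases (norm_nonneg (mob Λ x)).eq_or_lt with h | h
    · rw [← h] at hcon; linarith
    · exact h
  nlinarith

theorem mob_den_le {B : ℝ} (hB : ‖x‖ ≤ B) : ‖1 + (Λ : ℂ) * x‖ ^ 2 ≤ (1 + Λ * B) ^ 2 := by
  have h1 : ‖1 + (Λ : ℂ) * x‖ ≤ 1 + Λ * B := by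
    refine (norm_add_le _ _).trans ?_
    rw [norm_one, norm_mul, Complex.norm_real, Real.norm_of_nonneg (by linarith)]
    have := mul_le_mul_of_nonneg_left hB (by linarith : (0:ℝ) ≤ Λ)
    linarith
  exact pow_le_pow_left₀ (norm_nonneg _) h1 2

theorem mob5 {B : ℝ} (hB : ‖x‖ ≤ B) : x.re ≤ (1 + Λ * B) ^ 2 * (mob Λ x).re := by
  have h1 := mob_den_norm hΛ hx
  have h2 := mob_den_le hΛ hx hB
  have hpos : 0 < ‖1 + (Λ : ℂ) * x‖ ^ 2 := by positivity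
  have h3 : ‖1 + (Λ : ℂ) * x‖ ^ 2 * (mob Λ x).re = x.re + Λ * ‖x‖ ^ 2 := by
    rw [mob_re hΛ hx]
    field_simp
  have h4 : 0 ≤ Λ * ‖x‖ ^ 2 := mul_nonneg (by linarith) (sq_nonneg _)
  have h5 := mul_le_mul_of_nonneg_right h2 (mob_re_nonneg hΛ hx)
  linarith

theorem mob2 (h : ‖x‖ ≤ 1 / Λ) : x.re ≤ 4 * (mob Λ x).re := by
  have h1 := mob5 hΛ hx h
  have hΛ0 : Λ ≠ 0 := by linarith
  have h2 : (1 + Λ * (1 / Λ)) ^ 2 = 4 := by
    rw [mul_one_div_cancel hΛ0]; norm_num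
  rwa [h2] at h1

theorem mob3 (h : 1 / Λ ≤ ‖x‖) : 1 / (4 * Λ) ≤ (mob Λ x).re := by
  have hΛ0 : 0 < Λ := by linarith
  have h1 := mob_den_norm hΛ hx
  have h2 := mob_den_le hΛ hx (le_refl ‖x‖)
  have hpos : 0 < ‖1 + (Λ : ℂ) * x‖ ^ 2 := by positivity
  rw [mob_re hΛ hx, div_le_div_iff₀ (by positivity) hpos, one_mul]
  have h3 : 1 ≤ Λ * ‖x‖ := by
    rw [div_le_iff₀ hΛ0] at h
    linarith
  have h4 : (1 + Λ * ‖x‖) ^ 2 ≤ (2 * (Λ * ‖x‖)) ^ 2 :=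
    pow_le_pow_left₀ (by positivity) (by linarith) 2
  have h5 : (2 * (Λ * ‖x‖)) ^ 2 = (Λ * ‖x‖ ^ 2) * (4 * Λ) := by ring
  have h6 : 0 ≤ x.re * (4 * Λ) := by positivity
  nlinarith

theorem mob_eq_zero (h : (mob Λ x).re = 0) : x = 0 := by
  have h1 := mob1 hΛ hx
  rw [h] at h1
  have h2 : ‖mob Λ x‖ ^ 2 ≤ 0 := by
    have := sq_nonneg ‖mob Λ x‖
    nlinarith
  have h3 : mob Λ x = 0 := by
    have : ‖mob Λ x‖ = 0 := by
      have := sq_nonneg ‖mob Λ x‖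
      exact pow_eq_zero_iff (two_ne_zero) |>.1 (le_antisymm h2 this)
    exact norm_eq_zero.1 this
  unfold mob at h3
  exact (mul_eq_zero.1 h3).resolve_right (inv_ne_zero (mob_den_ne hΛ hx))

end Mob

theorem core_aux1 {C A X B sA sB sX nx ny D L : ℝ} (hC : 1 ≤ C) (hA0 : 0 ≤ A) (hB0 : 0 ≤ B)
    (hX0 : 0 ≤ X) (hsA : 0 ≤ sA) (_hsB : 0 ≤ sB) (hsX : 0 ≤ sX) (hsX1 : sX ≤ 1)
    (hA2 : sA ^ 2 = A) (hB2 : sB ^ 2 = B) (hX2 : sX ^ 2 = X) (hnx : 0 ≤ nx) (hny : 0 ≤ ny)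
    (hL : 0 ≤ L)
    (hD1 : D ≤ C * (sX * (2 * sA) + 4 * A)) (hx2 : nx * L ≤ sA) (hy2 : ny * L ≤ sB)
    (hx3 : nx * L ≤ 1) (hy3 : ny * L ≤ 1) :
    D * (nx + ny) * L ≤ C * (11 * (A + X * B)) := by
  have hC0 : 0 ≤ C := by linarith
  have t1 : D * (nx * L) ≤ C * (6 * A) := by
    calc D * (nx * L)
        ≤ (C * (sX * (2 * sA) + 4 * A)) * (nx * L) :=
          mul_le_mul_of_nonneg_right hD1 (by positivity)
      _ = C * ((sX * (2 * sA)) * (nx * L) + 4 * A * (nx * L)) := by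
          ring
      _ ≤ C * ((1 * (2 * sA)) * sA + 4 * A * 1) := by
          refine mul_le_mul_of_nonneg_left ?_ hC0
          refine add_le_add ?_ ?_
          · refine mul_le_mul ?_ hx2 (by positivity) (by positivity)
            exact mul_le_mul_of_nonneg_right hsX1 (by positivity)
          · exact mul_le_mul_of_nonneg_left hx3 (by positivity)
      _ = C * (6 * A) := by
          have : (1 * (2 * sA)) * sA = 2 * A := by rw [← hA2]; ring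
          rw [this]; ring
  have hXB : 0 ≤ X * B := mul_nonneg hX0 hB0
  have h2 : 2 * (sX * sB) * sA ≤ A + X * B := by
    have h3 := sq_nonneg (sX * sB - sA)
    have h4 : (sX * sB - sA) ^ 2 = sX ^ 2 * sB ^ 2 - 2 * (sX * sB) * sA + sA ^ 2 := by ring
    rw [h4, hX2, hB2, hA2] at h3
    linarith
  have t2 : D * (ny * L) ≤ C * (5 * A + X * B) := by
    calc D * (ny * L)
        ≤ (C * (sX * (2 * sA) + 4 * A)) * (ny * L) :=
          mul_le_mul_of_nonneg_right hD1 (by positivity)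
      _ = C * ((sX * (2 * sA)) * (ny * L) + 4 * A * (ny * L)) := by
          ring
      _ ≤ C * ((sX * (2 * sA)) * sB + 4 * A * 1) := by
          refine mul_le_mul_of_nonneg_left ?_ hC0
          refine add_le_add ?_ ?_
          · exact mul_le_mul_of_nonneg_left hy2 (by positivity)
          · exact mul_le_mul_of_nonneg_left hy3 (by positivity)
      _ = C * (2 * (sX * sB) * sA + 4 * A) := by ring
      _ ≤ C * (5 * A + X * B) := by
          refine mul_le_mul_of_nonneg_left ?_ hC0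
          linarith
  calc D * (nx + ny) * L
      = D * (nx * L) + D * (ny * L) := by ring
    _ ≤ C * (6 * A) + C * (5 * A + X * B) := add_le_add t1 t2
    _ = C * (11 * A + X * B) := by ring
    _ ≤ C * (11 * (A + X * B)) := mul_le_mul_of_nonneg_left (by linarith) hC0

theorem mob_sqrt_bounds {Λ : ℝ} (hΛ : 1 ≤ Λ) {x : ℂ} (hx : 0 ≤ x.re) :
    ‖mob Λ x‖ * Real.sqrt Λ ≤ Real.sqrt (mob Λ x).re ∧ ‖mob Λ x‖ * Real.sqrt Λ ≤ 1 := by
  have hΛ0 : 0 < Λ := by linarith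
  have hsΛ2 : Real.sqrt Λ ^ 2 = Λ := Real.sq_sqrt hΛ0.le
  have hsΛ : 1 ≤ Real.sqrt Λ := by
    rw [Real.one_le_sqrt]; exact hΛ
  constructor
  · refine Real.le_sqrt_of_sq_le ?_
    rw [mul_pow, hsΛ2, mul_comm]
    exact mob1 hΛ hx
  · calc ‖mob Λ x‖ * Real.sqrt Λ ≤ (1 / Λ) * Real.sqrt Λ :=
          mul_le_mul_of_nonneg_right (mob_norm_le hΛ hx) (Real.sqrt_nonneg _)
      _ = 1 / Real.sqrt Λ := by
          rw [div_mul_eq_mul_div, one_mul, div_eq_div_iff hΛ0.ne' (by positivity), one_mul,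
            ← sq, hsΛ2]
      _ ≤ 1 := by
          rw [div_le_one (by linarith)]; exact hsΛ

theorem core_key {Λ δ C : ℝ} (hΛ : 1 ≤ Λ) (hC : 1 ≤ C) (hΛC : 22 * C ≤ Real.sqrt Λ)
    (hδC : 32 * C * Real.sqrt δ ≤ 1) (hδ1 : δ ≤ 1) {x y χ : ℂ} {X : ℝ} (hx : 0 ≤ x.re)
    (hy : 0 ≤ y.re) (hX0 : 0 ≤ X) (hX1 : X ≤ 1)
    (hχ : ‖χ - (X : ℂ)‖ ≤ C * (Real.sqrt X * Real.sqrt x.re + x.re))
    (hχδ : δ ≤ ‖x‖ → χ = (X : ℂ)) :
    ‖χ - (X : ℂ)‖ * (‖mob Λ x‖ + ‖mob Λ y‖) ≤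
      (1 / 2) * ((mob Λ x).re + X * (mob Λ y).re) := by
  have hA0 : 0 ≤ (mob Λ x).re := mob_re_nonneg hΛ hx
  have hB0 : 0 ≤ (mob Λ y).re := mob_re_nonneg hΛ hy
  have hx1 : ‖mob Λ x‖ ≤ 1 / Λ := mob_norm_le hΛ hx
  have hy1 : ‖mob Λ y‖ ≤ 1 / Λ := mob_norm_le hΛ hy
  obtain ⟨hx2, hx3⟩ := mob_sqrt_bounds hΛ hx
  obtain ⟨hy2, hy3⟩ := mob_sqrt_bounds hΛ hy
  have hm2 : ‖x‖ ≤ 1 / Λ → x.re ≤ 4 * (mob Λ x).re := mob2 hΛ hx
  have hm3 : 1 / Λ ≤ ‖x‖ → 1 / (4 * Λ) ≤ (mob Λ x).re := mob3 hΛ hx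
  generalize (mob Λ x).re = A at *
  generalize (mob Λ y).re = B at *
  have hΛ0 : 0 < Λ := by linarith
  have hC0 : 0 ≤ C := by linarith
  have hsΛ : 1 ≤ Real.sqrt Λ := by linarith
  have hD0 : 0 ≤ ‖χ - (X : ℂ)‖ := norm_nonneg _
  have hnx0 : 0 ≤ ‖mob Λ x‖ := norm_nonneg _
  have hny0 : 0 ≤ ‖mob Λ y‖ := norm_nonneg _
  generalize ‖mob Λ x‖ = nx at *
  generalize ‖mob Λ y‖ = ny at *
  have hXB : 0 ≤ X * B := mul_nonneg hX0 hB0
  have t5 : 0 ≤ A + X * B := add_nonneg hA0 hXB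
  rcases le_or_gt ‖x‖ (1 / Λ) with h | h
  · have h1 : x.re ≤ 4 * A := hm2 h
    have hsx : Real.sqrt x.re ≤ 2 * Real.sqrt A := by
      rw [Real.sqrt_le_left (by positivity), mul_pow, Real.sq_sqrt hA0]
      linarith
    have hD1 : ‖χ - (X : ℂ)‖ ≤ C * (Real.sqrt X * (2 * Real.sqrt A) + 4 * A) := by
      refine hχ.trans (mul_le_mul_of_nonneg_left (add_le_add ?_ h1) hC0)
      exact mul_le_mul_of_nonneg_left hsx (Real.sqrt_nonneg _)
    have hmul := core_aux1 hC hA0 hB0 hX0 (Real.sqrt_nonneg A) (Real.sqrt_nonneg B)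
      (Real.sqrt_nonneg X) (Real.sqrt_le_one.2 hX1) (Real.sq_sqrt hA0) (Real.sq_sqrt hB0)
      (Real.sq_sqrt hX0) hnx0 hny0 (Real.sqrt_nonneg Λ) hD1 hx2 hy2 hx3 hy3
    have t6 : C * (11 * (A + X * B)) ≤ (1 / 2) * (A + X * B) * Real.sqrt Λ := by
      have := mul_le_mul_of_nonneg_right hΛC (by linarith : 0 ≤ (1 / 2) * (A + X * B))
      calc C * (11 * (A + X * B)) = 22 * C * ((1 / 2) * (A + X * B)) := by ring
        _ ≤ Real.sqrt Λ * ((1 / 2) * (A + X * B)) := this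
        _ = _ := mul_comm _ _
    exact le_of_mul_le_mul_right (hmul.trans t6) (by linarith : (0:ℝ) < Real.sqrt Λ)
  · rcases lt_or_ge ‖x‖ δ with h' | h'
    · have hδ0 : 0 < δ := (norm_nonneg x).trans_lt h'
      have hxre : x.re ≤ δ := (Complex.re_le_norm x).trans h'.le
      have hsδ : δ ≤ Real.sqrt δ := by
        refine Real.le_sqrt_of_sq_le ?_
        rw [sq]
        exact mul_le_of_le_one_left hδ0.le hδ1
      have hD1 : ‖χ - (X : ℂ)‖ ≤ C * (2 * Real.sqrt δ) := by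
        refine hχ.trans (mul_le_mul_of_nonneg_left ?_ hC0)
        have h2 : Real.sqrt X * Real.sqrt x.re ≤ 1 * Real.sqrt δ :=
          mul_le_mul (Real.sqrt_le_one.2 hX1) (Real.sqrt_le_sqrt hxre) (Real.sqrt_nonneg _)
            zero_le_one
        linarith
      have hA3 : 1 / (4 * Λ) ≤ A := hm3 h.le
      have h4 : ‖χ - (X : ℂ)‖ * (nx + ny) ≤ (C * (2 * Real.sqrt δ)) * (2 / Λ) := by
        refine mul_le_mul hD1 ?_ (by positivity) (by positivity)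
        have : 2 / Λ = 1 / Λ + 1 / Λ := by ring
        rw [this]
        exact add_le_add hx1 hy1
      have h5 : (C * (2 * Real.sqrt δ)) * (2 / Λ) ≤ (1 / 2) * (1 / (4 * Λ)) := by
        have e1 : (C * (2 * Real.sqrt δ)) * (2 / Λ) = (32 * C * Real.sqrt δ) * (1 / (8 * Λ)) := by
          field_simp; ring
        have e2 : (1 / 2) * (1 / (4 * Λ)) = 1 * (1 / (8 * Λ)) := by
          field_simp; norm_num
        rw [e1, e2]
        exact mul_le_mul_of_nonneg_right hδC (by positivity)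
      linarith
    · have h1 := hχδ h'
      have h2 : ‖χ - (X : ℂ)‖ = 0 := by rw [h1, sub_self, norm_zero]
      rw [h2, zero_mul]
      linarith

/-- The main pointwise estimate. -/
theorem core {Λ δ C : ℝ} (hΛ : 1 ≤ Λ) (hC : 1 ≤ C) (hΛC : 22 * C ≤ Real.sqrt Λ)
    (hδC : 32 * C * Real.sqrt δ ≤ 1) (hδ1 : δ ≤ 1) {x y χ : ℂ} {X : ℝ} (hx : 0 ≤ x.re)
    (hy : 0 ≤ y.re) (hX0 : 0 ≤ X) (hX1 : X ≤ 1)
    (hχ : ‖χ - (X : ℂ)‖ ≤ C * (Real.sqrt X * Real.sqrt x.re + x.re))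
    (hχδ : δ ≤ ‖x‖ → χ = (X : ℂ)) :
    (1 / 4) * (mob Λ x).re + (1 / 4) * (X * (mob Λ y).re) ≤
      ((1 - χ / 2) * mob Λ x + (χ / 2) * mob Λ y).re := by
  have key := core_key hΛ hC hΛC hδC hδ1 hx hy hX0 hX1 hχ hχδ
  have hA0 : 0 ≤ (mob Λ x).re := mob_re_nonneg hΛ hx
  have hB0 : 0 ≤ (mob Λ y).re := mob_re_nonneg hΛ hy
  have e1 : (1 - χ / 2) * mob Λ x + (χ / 2) * mob Λ y =
      ((((1 - X / 2 : ℝ)) : ℂ) * mob Λ x + (((X / 2 : ℝ)) : ℂ) * mob Λ y) +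
        (1 / 2) * ((χ - (X : ℂ)) * (mob Λ y - mob Λ x)) := by
    push_cast; ring
  have e2 : ((((1 - X / 2 : ℝ)) : ℂ) * mob Λ x + (((X / 2 : ℝ)) : ℂ) * mob Λ y).re =
      (1 - X / 2) * (mob Λ x).re + (X / 2) * (mob Λ y).re := by
    rw [Complex.add_re, Complex.re_ofReal_mul, Complex.re_ofReal_mul]
  have e3 : ‖(1 / 2 : ℂ) * ((χ - (X : ℂ)) * (mob Λ y - mob Λ x))‖ ≤
      (1 / 2) * (‖χ - (X : ℂ)‖ * (‖mob Λ x‖ + ‖mob Λ y‖)) := by
    rw [norm_mul, norm_mul]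
    have h6 : ‖(1 / 2 : ℂ)‖ = 1 / 2 := by norm_num
    rw [h6]
    refine mul_le_mul_of_nonneg_left ?_ (by norm_num)
    refine mul_le_mul_of_nonneg_left ?_ (norm_nonneg _)
    rw [add_comm]
    exact norm_sub_le _ _
  have e4 := (abs_le.1 ((Complex.abs_re_le_norm _).trans e3)).1
  rw [e1, Complex.add_re, e2]
  generalize (mob Λ x).re = A at *
  generalize (mob Λ y).re = B at *
  have t7 : X * A ≤ 1 * A := mul_le_mul_of_nonneg_right hX1 hA0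
  have t8 : (1 - X / 2) * A + (X / 2) * B = A - (1/2) * (X * A) + (1/2) * (X * B) := by ring
  rw [t8]
  linarith

end

end Pool.Agent.PeakLib
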