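import Pool.Agent.Lib.MP_7d1258_an.Glue

/-!
The gluing lemma, part 2.
-/

set_option autoImplicit false
set_option linter.unusedSectionVars false

namespace Pool.Agent.PeakLib

open scoped ContDiff
open MeasureTheory Metric Complex Filter

noncomputable section

variable {d : ℕ}

/-- A peak set has no relative interior. -/
theorem PK.exists_notMem {e : EE d → ℂ} {E : Set (EE d)} (h : PK e E) {ζ : EE d} (hζ : ζ ∈ SS d)
    {U : Set (EE d)} (hU : IsOpen U) (hζU : ζ ∈ U) : ∃ z ∈ SS d, z ∈ U ∧ z ∉ E := by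
  by_contra hcon
  push Not at hcon
  have hζE : ζ ∈ E := hcon ζ hζ hζU
  have hd : HasDerivAt (fun θ : ℝ => e (Complex.exp (θ * I) • ζ)) (TE e ζ) 0 := by
    have := hasDerivAt_rot (g := e) (p := ζ) (θ := 0) (h.aa.differentiable _)
    simpa using this
  have hcont : Continuous (fun θ : ℝ => Complex.exp (θ * I) • ζ) := by fun_prop
  have hev : ∀ᶠ θ : ℝ in nhds 0, Complex.exp (θ * I) • ζ ∈ U := by
    refine hcont.continuousAt.eventually_mem ?_
    refine hU.mem_nhds ?_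
    simpa using hζU
  have hev2 : (fun θ : ℝ => e (Complex.exp (θ * I) • ζ)) =ᶠ[nhds 0] fun _ => (0:ℂ) := by
    filter_upwards [hev] with θ hθ
    refine h.zero _ (hcon _ ?_ hθ)
    rw [mem_sphere_zero_iff_norm, norm_smul, Complex.norm_exp_ofReal_mul_I, one_mul]
    exact mem_sphere_zero_iff_norm.1 hζ
  have h0 : TE e ζ = 0 := by
    have h1 := hd.congr_of_eventuallyEq hev2.symm
    exact h1.unique (hasDerivAt_const (0:ℝ) (0:ℂ))
  have h2 : TE e ζ = I * rad e ζ := h.aa.fderiv_I_smul (sphere_subset_closedBall hζ) ζ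
  rw [h2] at h0
  rcases mul_eq_zero.1 h0 with h3 | h3
  · exact I_ne_zero h3
  · exact h.rad_ne_zero hζE h3

theorem SS_nonempty : (SS d).Nonempty := by
  refine ⟨EuclideanSpace.single 0 (1:ℂ), ?_⟩
  rw [mem_sphere_zero_iff_norm]
  simp

theorem nonfull {e f : EE d → ℂ} {E F : Set (EE d)} (he : PK e E) (hf : PK f F) :
    ∃ z ∈ SS d, z ∉ E ∧ z ∉ F := by
  obtain ⟨z0, hz0⟩ := SS_nonempty (d := d)
  obtain ⟨z1, hz1, _, hz1E⟩ := he.exists_notMem hz0 isOpen_univ (Set.mem_univ _)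
  obtain ⟨z2, hz2, hz2E, hz2F⟩ := hf.exists_notMem hz1 he.isClosed.isOpen_compl hz1E
  exact ⟨z2, hz2, hz2E, hz2F⟩

/-- The Möbius transform of a peak function. -/
def mobF (Λ : ℝ) (e : EE d → ℂ) (z : EE d) : ℂ := e z * recip (1 / 2) (1 + (Λ : ℂ) * e z)

theorem mobF_eq {Λ : ℝ} (hΛ : 1 ≤ Λ) {e : EE d → ℂ} {E : Set (EE d)} (he : PK e E) {z : EE d}
    (hz : z ∈ closedBall (0 : EE d) 1) : mobF Λ e z = mob Λ (e z) := by
  unfold mobF mob
  rw [recip_eq (by norm_num)]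
  have := mob_den_norm hΛ (he.re_nonneg hz)
  linarith

theorem mobF_AA {Λ : ℝ} (hΛ : 1 ≤ Λ) {e : EE d → ℂ} {E : Set (EE d)} (he : PK e E) :
    AA (mobF Λ e) := by
  have h1 : AA (fun z => 1 + (Λ : ℂ) * e z) := (AA.const 1).add ((AA.const (Λ : ℂ)).mul he.aa)
  refine he.aa.mul (h1.recip (by norm_num) fun z hz => ?_)
  have := mob_den_norm hΛ (he.re_nonneg hz)
  linarith

/-- One half of the gluing construction: what happens on the side where the second cut-off is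
identically one. -/
theorem side {e f : EE d → ℂ} {E F : Set (EE d)} (he : PK e E) (hf : PK f F) {Λ δ C : ℝ}
    (hΛ : 1 ≤ Λ) (hC : 1 ≤ C) (hΛC : 22 * C ≤ Real.sqrt Λ) (hδC : 32 * C * Real.sqrt δ ≤ 1)
    (hδ1 : δ ≤ 1) {χ : EE d → ℂ} {p : EE d → ℝ}
    (hχ : ∀ z ∈ SS d, ‖χ z - ((ThR (p z) : ℝ) : ℂ)‖ ≤
        C * (Real.sqrt (ThR (p z)) * Real.sqrt (e z).re + (e z).re))
    (hχδ : ∀ z ∈ SS d, δ ≤ ‖e z‖ → χ z = ((ThR (p z) : ℝ) : ℂ))
    {z : EE d} (hz : z ∈ SS d) {v : ℂ}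
    (hv : v = (1 - χ z / 2) * mob Λ (e z) + (χ z / 2) * mob Λ (f z)) :
    0 ≤ v.re ∧ (mob Λ (e z)).re ≤ 4 * v.re ∧ (v = 0 ↔ z ∈ E ∧ (p z ≤ 0 ∨ z ∈ F)) := by
  have hzc := sphere_subset_closedBall hz
  have hex := he.re_nonneg' hz
  have hfx := hf.re_nonneg' hz
  have h1 := core hΛ hC hΛC hδC hδ1 hex hfx (ThR_nonneg (p z)) (ThR_le_one (p z))
    (hχ z hz) (hχδ z hz)
  rw [← hv] at h1
  have hA := mob_re_nonneg hΛ hex
  have hB := mob_re_nonneg hΛ hfx
  have hXB : 0 ≤ ThR (p z) * (mob Λ (f z)).re := mul_nonneg (ThR_nonneg _) hB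
  refine ⟨by linarith, by linarith, fun h0 => ?_, fun h0 => ?_⟩
  · rw [h0, Complex.zero_re] at h1
    have h2 : (mob Λ (e z)).re = 0 := by linarith
    have h3 : ThR (p z) * (mob Λ (f z)).re = 0 := by linarith
    refine ⟨(he.mem_iff' hzc).2 (mob_eq_zero hΛ hex h2), ?_⟩
    rcases mul_eq_zero.1 h3 with h4 | h4
    · left
      by_contra hcon
      exact (ThR_pos (not_le.1 hcon)).ne' h4
    · right
      exact (hf.mem_iff' hzc).2 (mob_eq_zero hΛ hfx h4)
  · obtain ⟨hzE, h2⟩ := h0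
    have h3 : e z = 0 := he.zero z hzE
    have h4 : mob Λ (e z) = 0 := by rw [h3]; simp [mob]
    rw [hv, h4, mul_zero, zero_add]
    rcases h2 with h2 | h2
    · have h5 := hχ z hz
      rw [ThR_zero h2, h3] at h5
      have h6 : χ z = 0 := by
        have : ‖χ z - ((0 : ℝ) : ℂ)‖ ≤ 0 := by simpa using h5
        have := norm_le_zero_iff.1 this
        simpa using this
      rw [h6]; simp
    · rw [hf.zero z h2]; simp [mob]

/-- The flatness bound on one side. -/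
theorem side_flat {e f : EE d → ℂ} {E F : Set (EE d)} (he : PK e E) (hf : PK f F) {Λ : ℝ}
    (hΛ : 1 ≤ Λ) {χ : EE d → ℂ}
    (hflat : ∀ N : ℕ, ∃ C : ℝ, ∀ q ∈ DD d, ‖db χ q.1 q.2‖ ≤ C * (e q.1).re ^ N) (N : ℕ) :
    ∃ K : ℝ, 0 ≤ K ∧ ∀ q ∈ DD d, ∀ v : ℂ, (mob Λ (e q.1)).re ≤ 4 * v.re →
      ‖(1 / 2) * (db χ q.1 q.2 * (mob Λ (e q.1) - mob Λ (f q.1)))‖ ≤ K * ‖v‖ ^ N := by
  obtain ⟨C, hC⟩ := hflat N
  obtain ⟨B, hB⟩ := isCompact_SS.exists_bound_of_continuousOn (s := SS d)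
    he.aa.1.continuous.continuousOn
  have hΛ0 : 0 < Λ := by linarith
  refine ⟨|C| * (4 * (1 + Λ * |B|) ^ 2) ^ N, by positivity, fun q hq v hv => ?_⟩
  have hz : q.1 ∈ SS d := mem_sphere_zero_iff_norm.2 hq.1
  have hex := he.re_nonneg' hz
  have hfx := hf.re_nonneg' hz
  have h1 := mob5 hΛ hex ((hB q.1 hz).trans (le_abs_self B))
  have h2 : (e q.1).re ≤ (4 * (1 + Λ * |B|) ^ 2) * ‖v‖ := by
    have h3 : (1 + Λ * |B|) ^ 2 * (mob Λ (e q.1)).re ≤ (1 + Λ * |B|) ^ 2 * (4 * ‖v‖) := by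
      refine mul_le_mul_of_nonneg_left ?_ (by positivity)
      have := Complex.re_le_norm v
      linarith
    calc (e q.1).re ≤ (1 + Λ * |B|) ^ 2 * (4 * ‖v‖) := h1.trans h3
      _ = _ := by ring
  have h3 : ‖mob Λ (e q.1) - mob Λ (f q.1)‖ ≤ 2 := by
    refine (norm_sub_le _ _).trans ?_
    have h4 := mob_norm_le hΛ hex
    have h5 := mob_norm_le hΛ hfx
    have h6 : 1 / Λ ≤ 1 := by rw [div_le_one hΛ0]; exact hΛ
    linarith
  have h4 : ‖db χ q.1 q.2‖ ≤ |C| * (e q.1).re ^ N :=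
    (hC q hq).trans (mul_le_mul_of_nonneg_right (le_abs_self C) (by positivity))
  rw [norm_mul, norm_mul]
  have h5 : ‖(1 / 2 : ℂ)‖ = 1 / 2 := by norm_num
  rw [h5]
  calc 1 / 2 * (‖db χ q.1 q.2‖ * ‖mob Λ (e q.1) - mob Λ (f q.1)‖)
      ≤ 1 / 2 * ((|C| * (e q.1).re ^ N) * 2) := by
        refine mul_le_mul_of_nonneg_left ?_ (by norm_num)
        exact mul_le_mul h4 h3 (norm_nonneg _) (by positivity)
    _ = |C| * (e q.1).re ^ N := by ring
    _ ≤ |C| * ((4 * (1 + Λ * |B|) ^ 2) * ‖v‖) ^ N := by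
        refine mul_le_mul_of_nonneg_left ?_ (abs_nonneg _)
        exact pow_le_pow_left₀ hex h2 N
    _ = _ := by rw [mul_pow]; ring

theorem db_v {g h χ ψ : EE d → ℂ} {z w : EE d} (dg : DifferentiableAt ℝ g z)
    (dh : DifferentiableAt ℝ h z) (dχ : DifferentiableAt ℝ χ z) (dψ : DifferentiableAt ℝ ψ z)
    (z1 : db g z w = 0) (z2 : db h z w = 0) :
    db (fun z => (1 / 2) * ((g z + h z) + ((1 - χ z) * (g z - h z) + (1 - ψ z) * (h z - g z))))
      z w = -((1 / 2) * (db χ z w * (g z - h z))) - (1 / 2) * (db ψ z w * (h z - g z)) := by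
  have d1 : DifferentiableAt ℝ (fun _ : EE d => (1:ℂ)) z := differentiableAt_const _
  have a1 : DifferentiableAt ℝ (fun z => 1 - χ z) z := d1.sub dχ
  have a2 : DifferentiableAt ℝ (fun z => 1 - ψ z) z := d1.sub dψ
  have a3 : DifferentiableAt ℝ (fun z => g z - h z) z := dg.sub dh
  have a4 : DifferentiableAt ℝ (fun z => h z - g z) z := dh.sub dg
  have a5 : DifferentiableAt ℝ (fun z => g z + h z) z := dg.add dh
  have a6 : DifferentiableAt ℝ (fun z => (1 - χ z) * (g z - h z)) z := a1.mul a3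
  have a7 : DifferentiableAt ℝ (fun z => (1 - ψ z) * (h z - g z)) z := a2.mul a4
  have a8 : DifferentiableAt ℝ
    (fun z => (1 - χ z) * (g z - h z) + (1 - ψ z) * (h z - g z)) z := a6.add a7
  have a9 : DifferentiableAt ℝ (fun z => (g z + h z) +
    ((1 - χ z) * (g z - h z) + (1 - ψ z) * (h z - g z))) z := a5.add a8
  rw [db_const_mul _ a9, db_add a5 a8, db_add dg dh, db_add a6 a7, db_mul a1 a3, db_mul a2 a4,
    db_sub d1 dχ, db_sub d1 dψ, db_sub dg dh, db_sub dh dg, z1, z2, db_const]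
  ring

/-- The gluing lemma. -/
theorem glue {e f : EE d → ℂ} {E F : Set (EE d)} (he : PK e E) (hf : PK f F) {ce cf : ℝ}
    (hce : 0 < ce) (hcf : 0 < cf) {p : EE d → ℝ} (hpe : GoodP e ce p) (hpf : GoodP f cf p)
    {t1 t2 t3 t4 : ℝ} (h12 : t1 < t2) (h23 : t2 < t3) (h34 : t3 < t4) :
    IsPk ((E ∩ F) ∪ (E ∩ {z | p z ≤ t1}) ∪ (F ∩ {z | t4 ≤ p z})) := by
  set s : ℝ := (t2 + t3) / 2 with hs
  have hs2 : t2 < s := by rw [hs]; linarith
  have hs3 : s < t3 := by rw [hs]; linarith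
  set a : ℝ := (t2 - t1)⁻¹ with ha
  set b : ℝ := (t4 - t3)⁻¹ with hb
  have ha0 : 0 < a := inv_pos.2 (by linarith)
  have hb0 : 0 < b := inv_pos.2 (by linarith)
  have ha1 : a * (t2 - t1) = 1 := inv_mul_cancel₀ (by linarith)
  have hb1 : b * (t4 - t3) = 1 := inv_mul_cancel₀ (by linarith)
  set η : ℝ := min (a * (s - t2)) (b * (t3 - s)) / 2 with hη
  have hm0 : 0 < min (a * (s - t2)) (b * (t3 - s)) :=
    lt_min (mul_pos ha0 (by linarith)) (mul_pos hb0 (by linarith))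
  have hη0 : 0 < η := by rw [hη]; linarith
  have hη1 : η < a * (s - t2) := by
    have := min_le_left (a * (s - t2)) (b * (t3 - s))
    rw [hη]; linarith
  have hη2 : η < b * (t3 - s) := by
    have := min_le_right (a * (s - t2)) (b * (t3 - s))
    rw [hη]; linarith
  set pe : EE d → ℝ := fun z => a * p z + (-(a * t1)) with hpedef
  set pf : EE d → ℝ := fun z => (-b) * p z + b * t4 with hpfdef
  have hpe' : GoodP e ce pe := (hpe.const_mul a).add (GoodP.const _)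
  have hpf' : GoodP f cf pf := (hpf.const_mul (-b)).add (GoodP.const _)
  obtain ⟨Ce, δe, hCe0, hδe0, hcute⟩ := cutoff he hce hpe' hη0
  obtain ⟨Cf, δf, hCf0, hδf0, hcutf⟩ := cutoff hf hcf hpf' hη0
  set C : ℝ := max 1 (max Ce Cf) with hC
  have hC1 : 1 ≤ C := le_max_left _ _
  have hCe : Ce ≤ C := (le_max_left _ _).trans (le_max_right _ _)
  have hCf : Cf ≤ C := (le_max_right _ _).trans (le_max_right _ _)
  set δ : ℝ := min (min δe δf) (min 1 ((1 / (32 * C)) ^ 2)) with hδ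
  have hδ0 : 0 < δ := by positivity
  have hδe : δ ≤ δe := (min_le_left _ _).trans (min_le_left _ _)
  have hδf : δ ≤ δf := (min_le_left _ _).trans (min_le_right _ _)
  have hδ1 : δ ≤ 1 := (min_le_right _ _).trans (min_le_left _ _)
  have hδC : 32 * C * Real.sqrt δ ≤ 1 := by
    have h1 : Real.sqrt δ ≤ 1 / (32 * C) := by
      rw [Real.sqrt_le_left (by positivity)]
      exact (min_le_right _ _).trans (min_le_right _ _)
    calc 32 * C * Real.sqrt δ ≤ 32 * C * (1 / (32 * C)) :=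
          mul_le_mul_of_nonneg_left h1 (by positivity)
      _ = 1 := by field_simp
  set Λ : ℝ := (22 * C) ^ 2 with hΛdef
  have hΛ : 1 ≤ Λ := by
    rw [hΛdef]
    exact one_le_pow₀ (by linarith)
  have hΛC : 22 * C ≤ Real.sqrt Λ := by
    rw [hΛdef, Real.sqrt_sq (by positivity)]
  obtain ⟨χe, hχe, hχe1, hχe2, hχe3, hχe4, hχe5⟩ := hcute δ hδ0 hδe
  obtain ⟨χf, hχf, hχf1, hχf2, hχf3, hχf4, hχf5⟩ := hcutf δ hδ0 hδf
  have hχe1' : ∀ z ∈ SS d, ‖χe z - ((ThR (pe z) : ℝ) : ℂ)‖ ≤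
      C * (Real.sqrt (ThR (pe z)) * Real.sqrt (e z).re + (e z).re) := by
    intro z hz
    refine (hχe1 z hz).trans (mul_le_mul_of_nonneg_right hCe ?_)
    have := he.re_nonneg' hz
    positivity
  have hχf1' : ∀ z ∈ SS d, ‖χf z - ((ThR (pf z) : ℝ) : ℂ)‖ ≤
      C * (Real.sqrt (ThR (pf z)) * Real.sqrt (f z).re + (f z).re) := by
    intro z hz
    refine (hχf1 z hz).trans (mul_le_mul_of_nonneg_right hCf ?_)
    have := hf.re_nonneg' hz
    positivity
  set e' := mobF Λ e with he'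
  set f' := mobF Λ f with hf'
  have hAe : AA e' := mobF_AA hΛ he
  have hAf : AA f' := mobF_AA hΛ hf
  set v : EE d → ℂ := fun z =>
    (1 / 2) * ((e' z + f' z) + ((1 - χe z) * (e' z - f' z) + (1 - χf z) * (f' z - e' z)))
    with hv
  have hvcd : ContDiff ℝ ∞ v := by
    refine contDiff_const.mul ((hAe.1.add hAf.1).add ?_)
    exact ((contDiff_const.sub hχe).mul (hAe.1.sub hAf.1)).add
      ((contDiff_const.sub hχf).mul (hAf.1.sub hAe.1))
  -- the two sides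
  have pe_big : ∀ z, s ≤ p z → 1 + η < pe z := by
    intro z hz
    have h1 : a * s ≤ a * p z := mul_le_mul_of_nonneg_left hz ha0.le
    rw [hpedef]
    show 1 + η < a * p z + (-(a * t1))
    nlinarith
  have pf_big : ∀ z, p z ≤ s → 1 + η < pf z := by
    intro z hz
    have h1 : b * p z ≤ b * s := mul_le_mul_of_nonneg_left hz hb0.le
    rw [hpfdef]
    show 1 + η < (-b) * p z + b * t4
    nlinarith
  have pe_le : ∀ z, pe z ≤ 0 ↔ p z ≤ t1 := by
    intro z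
    show a * p z + (-(a * t1)) ≤ 0 ↔ _
    rw [show a * p z + (-(a * t1)) = a * (p z - t1) by ring]
    constructor
    · intro h
      by_contra hcon
      have := mul_pos ha0 (by linarith : 0 < p z - t1)
      linarith
    · intro h
      exact mul_nonpos_of_nonneg_of_nonpos ha0.le (by linarith)
  have pf_le : ∀ z, pf z ≤ 0 ↔ t4 ≤ p z := by
    intro z
    show (-b) * p z + b * t4 ≤ 0 ↔ _
    rw [show (-b) * p z + b * t4 = b * (t4 - p z) by ring]
    constructor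
    · intro h
      by_contra hcon
      have := mul_pos hb0 (by linarith : 0 < t4 - p z)
      linarith
    · intro h
      exact mul_nonpos_of_nonneg_of_nonpos hb0.le (by linarith)
  have left : ∀ z ∈ SS d, p z ≤ s → 0 ≤ (v z).re ∧ (mob Λ (e z)).re ≤ 4 * (v z).re ∧
      (v z = 0 ↔ z ∈ E ∧ (pe z ≤ 0 ∨ z ∈ F)) := by
    intro z hz hps
    refine side he hf hΛ hC1 hΛC hδC hδ1 hχe1' hχe2 hz ?_
    have h1 : χf z = 1 := hχf3 z hz (pf_big z hps).le
    show (1 / 2) * ((e' z + f' z) + ((1 - χe z) * (e' z - f' z) + (1 - χf z) * (f' z - e' z))) = _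
    rw [h1, ← mobF_eq hΛ he (sphere_subset_closedBall hz),
      ← mobF_eq hΛ hf (sphere_subset_closedBall hz)]
    ring
  have right : ∀ z ∈ SS d, s ≤ p z → 0 ≤ (v z).re ∧ (mob Λ (f z)).re ≤ 4 * (v z).re ∧
      (v z = 0 ↔ z ∈ F ∧ (pf z ≤ 0 ∨ z ∈ E)) := by
    intro z hz hps
    refine side hf he hΛ hC1 hΛC hδC hδ1 hχf1' hχf2 hz ?_
    have h1 : χe z = 1 := hχe3 z hz (pe_big z hps).le
    show (1 / 2) * ((e' z + f' z) + ((1 - χe z) * (e' z - f' z) + (1 - χf z) * (f' z - e' z))) = _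
    rw [h1, ← mobF_eq hΛ he (sphere_subset_closedBall hz),
      ← mobF_eq hΛ hf (sphere_subset_closedBall hz)]
    ring
  have hre : ∀ z ∈ SS d, 0 ≤ (v z).re := by
    intro z hz
    rcases le_total (p z) s with h | h
    · exact (left z hz h).1
    · exact (right z hz h).1
  -- the zero set
  have hzero : ∀ z ∈ SS d, v z = 0 ↔
      z ∈ (E ∩ F) ∪ (E ∩ {z | p z ≤ t1}) ∪ (F ∩ {z | t4 ≤ p z}) := by
    intro z hz
    rcases le_total (p z) s with h | h
    · rw [(left z hz h).2.2, pe_le]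
      constructor
      · rintro ⟨h1, h2 | h2⟩
        · exact Or.inl (Or.inr ⟨h1, h2⟩)
        · exact Or.inl (Or.inl ⟨h1, h2⟩)
      · rintro ((⟨h1, h2⟩ | ⟨h1, h2⟩) | ⟨h1, h2⟩)
        · exact ⟨h1, Or.inr h2⟩
        · exact ⟨h1, Or.inl h2⟩
        · exfalso
          have h3 : t4 ≤ p z := h2
          linarith
    · rw [(right z hz h).2.2, pf_le]
      constructor
      · rintro ⟨h1, h2 | h2⟩
        · exact Or.inr ⟨h1, h2⟩
        · exact Or.inl (Or.inl ⟨h2, h1⟩)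
      · rintro ((⟨h1, h2⟩ | ⟨h1, h2⟩) | ⟨h1, h2⟩)
        · exact ⟨h2, Or.inr h1⟩
        · exfalso
          have h3 : p z ≤ t1 := h2
          linarith
        · exact ⟨h1, Or.inl h2⟩
  -- derivative formula
  have hdb : ∀ q ∈ DD d, db v q.1 q.2 =
      -((1 / 2) * (db χe q.1 q.2 * (e' q.1 - f' q.1))) -
        (1 / 2) * (db χf q.1 q.2 * (f' q.1 - e' q.1)) := by
    intro q hq
    exact db_v (hAe.differentiable _) (hAf.differentiable _) (hχe.differentiable (by simp) _)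
      (hχf.differentiable (by simp) _) (hAe.db_DD hq) (hAf.db_DD hq)
  have hflat : ∀ N : ℕ, ∃ C : ℝ, ∀ q ∈ DD d, ‖db v q.1 q.2‖ ≤ C * ‖v q.1‖ ^ N := by
    intro N
    obtain ⟨K1, hK10, hK1⟩ := side_flat he hf hΛ hχe5 N
    obtain ⟨K2, hK20, hK2⟩ := side_flat hf he hΛ hχf5 N
    refine ⟨K1 + K2, fun q hq => ?_⟩
    have hz : q.1 ∈ SS d := mem_sphere_zero_iff_norm.2 hq.1
    have hzc := sphere_subset_closedBall hz
    rw [hdb q hq]
    have hpow : 0 ≤ ‖v q.1‖ ^ N := by positivity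
    rcases le_total (p q.1) s with h | h
    · rw [hχf4 q.1 hz (pf_big q.1 h) q.2, zero_mul, mul_zero, sub_zero, norm_neg,
        he', hf', mobF_eq hΛ he hzc, mobF_eq hΛ hf hzc]
      have := hK1 q hq (v q.1) (left q.1 hz h).2.1
      have h2 : 0 ≤ K2 * ‖v q.1‖ ^ N := mul_nonneg hK20 hpow
      rw [add_mul]
      linarith
    · rw [hχe4 q.1 hz (pe_big q.1 h) q.2, zero_mul, mul_zero, neg_zero, zero_sub, norm_neg,
        he', hf', mobF_eq hΛ he hzc, mobF_eq hΛ hf hzc]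
      have := hK2 q hq (v q.1) (right q.1 hz h).2.1
      have h2 : 0 ≤ K1 * ‖v q.1‖ ^ N := mul_nonneg hK10 hpow
      rw [add_mul]
      linarith
  have hne : ∃ z ∈ SS d, v z ≠ 0 := by
    obtain ⟨z, hz, hzE, hzF⟩ := nonfull he hf
    refine ⟨z, hz, fun h0 => ?_⟩
    rcases (hzero z hz).1 h0 with (h1 | h1) | h1
    · exact hzE h1.1
    · exact hzE h1.1
    · exact hzF h1.1
  obtain ⟨u, hu, hu0, hupos⟩ := theoremA hvcd hre hflat hne
  have hsub : (E ∩ F) ∪ (E ∩ {z | p z ≤ t1}) ∪ (F ∩ {z | t4 ≤ p z}) ⊆ SS d := by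
    rintro z ((⟨h1, _⟩ | ⟨h1, _⟩) | ⟨h1, _⟩)
    · exact he.sub h1
    · exact he.sub h1
    · exact hf.sub h1
  refine ⟨u, hu, hsub, fun z hz => ?_, fun z hz hzn => ?_⟩
  · exact hu0 z (hsub hz) ((hzero z (hsub hz)).2 hz)
  · exact hupos z hz fun hzS h0 => hzn ((hzero z hzS).1 h0)

end

end Pool.Agent.PeakLib
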