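import Pool.Agent.Lib.MP_7d1258_an.SphereMeasure

/-!
Integrability of the kernel `|1 - ⟨z, ζ⟩|^{-(n - 1/2)}` on the unit sphere of `ℂ^n`, `n = d + 2`.
-/

set_option autoImplicit false
set_option linter.unusedSectionVars false

namespace Pool.Agent.PeakLib

open scoped ContDiff
open MeasureTheory Metric

noncomputable section

variable {d : ℕ}

/-- The exponent. -/
def bet (d : ℕ) : ℝ := ((d : ℝ) + 2 - 1 / 2) / ((d : ℝ) + 2)

theorem bet_pos : 0 < bet d := by
  unfold bet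
  have : (0 : ℝ) ≤ d := Nat.cast_nonneg d
  apply div_pos <;> linarith

theorem bet_lt_one : bet d < 1 := by
  unfold bet
  have : (0 : ℝ) ≤ d := Nat.cast_nonneg d
  rw [div_lt_one (by linarith)]
  linarith

/-- One dimensional function. -/
def g1 (d : ℕ) (x : ℝ) : ℝ := (ball (0:ℝ) 2).indicator (fun x => ‖x‖ ^ (- bet d)) x

theorem integrable_g1 : Integrable (g1 d) volume := by
  unfold g1
  rw [integrable_indicator_iff measurableSet_ball]
  refine integrableOn_ball_of_norm_le_rpow (C := 1) (α := bet d) (by simp) ?_ ?_ ?_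
  · simpa using bet_lt_one (d := d)
  · refine Filter.Eventually.of_forall fun x => ?_
    rw [one_mul, Real.norm_of_nonneg (Real.rpow_nonneg (norm_nonneg _) _)]
  · exact (measurable_norm.pow_const _).aestronglyMeasurable

/-- Two dimensional function. -/
def g2 (d : ℕ) (w : ℂ) : ℝ := g1 d w.re * g1 d w.im

theorem integrable_g2 : Integrable (g2 d) volume := by
  have h : Integrable (fun z : ℝ × ℝ => g1 d z.1 * g1 d z.2) (volume.prod volume) :=
    integrable_g1.mul_prod integrable_g1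
  exact (Complex.volume_preserving_equiv_real_prod.integrable_comp_emb
    Complex.measurableEquivRealProd.measurableEmbedding).2 h

theorem integrable_g3 : Integrable (fun z : EE d => ∏ j, g2 d (z j)) volume := by
  have h : Integrable (fun x : Fin (d+2) → ℂ => ∏ j, g2 d (x j)) volume :=
    Integrable.fintype_prod (fun _ => integrable_g2)
  set e : (Fin (d+2) → ℂ) ≃L[ℝ] EE d :=
    (PiLp.continuousLinearEquiv 2 ℝ (fun _ : Fin (d+2) => ℂ)).symm with he
  have hm : (Measure.map e (volume : Measure (Fin (d+2) → ℂ))).IsAddHaarMeasure :=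
    ContinuousLinearEquiv.isAddHaarMeasure_map e volume
  have h1 : (volume : Measure (EE d)) = _ :=
    Measure.isAddLeftInvariant_eq_smul volume
      (Measure.map e (volume : Measure (Fin (d+2) → ℂ)))
  rw [h1]
  refine Integrable.smul_measure_nnreal ?_
  have hemb : MeasurableEmbedding (e : (Fin (d+2) → ℂ) → EE d) :=
    e.toHomeomorph.measurableEmbedding
  rw [hemb.integrable_map_iff]
  exact h

theorem ae_coord : ∀ᵐ z : EE d ∂volume, ∀ j, (z j).re ≠ 0 ∧ (z j).im ≠ 0 := by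
  rw [ae_all_iff]
  intro j
  have h1 : ∀ᵐ z : EE d ∂volume, (z j).re ≠ 0 := by
    rw [ae_iff]
    simp only [ne_eq, not_not]
    let s : Submodule ℝ (EE d) :=
      { carrier := {z | (z j).re = 0}
        add_mem' := by
          intro a b ha hb
          simp only [Set.mem_ofPred_eq, PiLp.add_apply, Complex.add_re] at *
          rw [ha, hb, add_zero]
        zero_mem' := by simp
        smul_mem' := by
          intro c a ha
          simp only [Set.mem_ofPred_eq, PiLp.smul_apply, Complex.real_smul, Complex.mul_re,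
            Complex.ofReal_re, Complex.ofReal_im, zero_mul, sub_zero] at *
          rw [ha, mul_zero] }
    have hs : s ≠ ⊤ := by
      intro h
      have h2 : (EuclideanSpace.single j (1:ℂ) : EE d) ∈ s := by rw [h]; trivial
      have h3 : ((EuclideanSpace.single j (1:ℂ) : EE d) j).re = 0 := h2
      simp at h3
    exact Measure.addHaar_submodule volume s hs
  have h2 : ∀ᵐ z : EE d ∂volume, (z j).im ≠ 0 := by
    rw [ae_iff]
    simp only [ne_eq, not_not]
    let s : Submodule ℝ (EE d) :=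
      { carrier := {z | (z j).im = 0}
        add_mem' := by
          intro a b ha hb
          simp only [Set.mem_ofPred_eq, PiLp.add_apply, Complex.add_im] at *
          rw [ha, hb, add_zero]
        zero_mem' := by simp
        smul_mem' := by
          intro c a ha
          simp only [Set.mem_ofPred_eq, PiLp.smul_apply, Complex.real_smul, Complex.mul_im,
            Complex.ofReal_re, Complex.ofReal_im, zero_mul, add_zero] at *
          rw [ha, mul_zero] }
    have hs : s ≠ ⊤ := by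
      intro h
      have h2 : (EuclideanSpace.single j (Complex.I) : EE d) ∈ s := by rw [h]; trivial
      have h3 : ((EuclideanSpace.single j (Complex.I) : EE d) j).im = 0 := h2
      simp at h3
    exact Measure.addHaar_submodule volume s hs
  exact h1.and h2

theorem norm_sq_eq_sum (z : EE d) : ‖z‖ ^ 2 = ∑ j, ‖z j‖ ^ 2 := EuclideanSpace.norm_sq_eq z

theorem norm_coord_le (z : EE d) (j : Fin (d+2)) : ‖z j‖ ≤ ‖z‖ := PiLp.norm_apply_le z j

/-- Pointwise bound on the sphere. -/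
theorem coord_bound {ζ : EE d} (hζ : ‖ζ‖ = 1) (j : Fin (d+2)) :
    |(ζ j).re| * |(ζ j).im| ≤ ‖1 - ζ 0‖ := by
  by_cases hj : j = 0
  · subst hj
    have h1 : |(ζ 0).re| ≤ 1 := (Complex.abs_re_le_norm _).trans ((norm_coord_le ζ 0).trans hζ.le)
    have h2 : |(ζ 0).im| ≤ ‖1 - ζ 0‖ := by
      have := Complex.abs_im_le_norm (1 - ζ 0)
      simpa using this
    calc |(ζ 0).re| * |(ζ 0).im| ≤ 1 * ‖1 - ζ 0‖ :=
          mul_le_mul h1 h2 (abs_nonneg _) zero_le_one
      _ = _ := one_mul _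
  · have hsum : ‖ζ 0‖ ^ 2 + ‖ζ j‖ ^ 2 ≤ 1 := by
      have h1 := norm_sq_eq_sum ζ
      rw [hζ, one_pow] at h1
      rw [h1]
      have h2 : ∑ i ∈ ({0, j} : Finset (Fin (d+2))), ‖ζ i‖ ^ 2 ≤ ∑ i, ‖ζ i‖ ^ 2 :=
        Finset.sum_le_sum_of_subset_of_nonneg (Finset.subset_univ _)
          (fun i _ _ => sq_nonneg _)
      rwa [Finset.sum_pair (Ne.symm hj)] at h2
    have h3 : ‖ζ j‖ ^ 2 = (ζ j).re ^ 2 + (ζ j).im ^ 2 := by
      rw [← Complex.normSq_eq_norm_sq, Complex.normSq_apply]; ring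
    have h4 : 2 * (|(ζ j).re| * |(ζ j).im|) ≤ ‖ζ j‖ ^ 2 := by
      rw [h3, ← sq_abs (ζ j).re, ← sq_abs (ζ j).im]
      nlinarith [sq_nonneg (|(ζ j).re| - |(ζ j).im|)]
    have h5 : ‖ζ 0‖ ≤ 1 := (norm_coord_le ζ 0).trans hζ.le
    have h6 : 1 - ‖ζ 0‖ ≤ ‖1 - ζ 0‖ := by
      have := norm_sub_norm_le (1:ℂ) (ζ 0)
      simpa using this
    nlinarith [norm_nonneg (ζ 0)]

theorem rpow_bet (x : ℝ) (hx : 0 < x) : Real.sqrt x / x ^ (d + 2) = (x ^ (- bet d)) ^ (d + 2) := by
  rw [← Real.rpow_natCast (x ^ (- bet d)), ← Real.rpow_mul hx.le, Real.sqrt_eq_rpow,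
    ← Real.rpow_natCast x, ← Real.rpow_sub hx]
  congr 1
  unfold bet
  have : (d : ℝ) + 2 ≠ 0 := by positivity
  push_cast
  field_simp
  ring

theorem measurable_ker0 : Measurable (fun ζ : EE d => Real.sqrt ‖1 - ζ 0‖ / ‖1 - ζ 0‖ ^ (d + 2)) := by
  have h0 : Measurable (fun ζ : EE d => ‖1 - ζ 0‖) := by
    have : Continuous (fun ζ : EE d => ‖1 - ζ 0‖) := by fun_prop
    exact this.measurable
  exact (h0.sqrt).div (h0.pow_const _)

theorem integrable_ker0 :
    Integrable (fun ζ : EE d => Real.sqrt ‖1 - ζ 0‖ / ‖1 - ζ 0‖ ^ (d + 2)) (sig d) := by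
  unfold sig
  refine Integrable.smul_measure ?_ (ENNReal.inv_ne_top.2 vol_ball_ne_zero)
  rw [integrable_map_measure measurable_ker0.aestronglyMeasurable measurable_nrm.aemeasurable]
  have hI : Integrable (fun z : EE d => ∏ j, g2 d (z j)) (volume.restrict (ball (0 : EE d) 1)) :=
    integrable_g3.restrict
  refine hI.mono' (measurable_ker0.comp measurable_nrm).aestronglyMeasurable ?_
  rw [ae_restrict_iff' measurableSet_ball]
  refine ae_coord.mono fun z hz hzB => ?_
  have hz0 : z ≠ 0 := by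
    intro h
    have := (hz 0).1
    rw [h] at this
    simp at this
  have hzn : 0 < ‖z‖ := norm_pos_iff.2 hz0
  have hz1 : ‖z‖ < 1 := by simpa using hzB
  set ζ : EE d := nrm z with hζ
  have hζ1 : ‖ζ‖ = 1 := mem_sphere_zero_iff_norm.1 (nrm_mem hz0)
  have hcoord : ∀ j, ζ j = ((‖z‖⁻¹ : ℝ) : ℂ) * z j := by
    intro j
    rw [hζ, nrm, PiLp.smul_apply, Complex.real_smul]
  have hinv : 1 ≤ ‖z‖⁻¹ := (one_le_inv₀ hzn).2 hz1.le
  have hy : ∀ j, 0 < |(z j).re| * |(z j).im| := fun j =>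
    mul_pos (abs_pos.2 (hz j).1) (abs_pos.2 (hz j).2)
  have hyx : ∀ j, |(z j).re| * |(z j).im| ≤ ‖1 - ζ 0‖ := by
    intro j
    refine le_trans ?_ (coord_bound hζ1 j)
    rw [hcoord j, Complex.re_ofReal_mul, Complex.im_ofReal_mul, abs_mul, abs_mul,
      abs_of_pos (inv_pos.2 hzn)]
    have h1 : |(z j).re| ≤ ‖z‖⁻¹ * |(z j).re| := le_mul_of_one_le_left (abs_nonneg _) hinv
    have h2 : |(z j).im| ≤ ‖z‖⁻¹ * |(z j).im| := le_mul_of_one_le_left (abs_nonneg _) hinv
    exact mul_le_mul h1 h2 (abs_nonneg _) ((abs_nonneg _).trans h1)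
  have hx : 0 < ‖1 - ζ 0‖ := (hy 0).trans_le (hyx 0)
  have hg : ∀ j, g2 d (z j) = (|(z j).re| * |(z j).im|) ^ (- bet d) := by
    intro j
    have hb1 : (z j).re ∈ ball (0:ℝ) 2 := by
      rw [mem_ball_zero_iff, Real.norm_eq_abs]
      have := (Complex.abs_re_le_norm (z j)).trans (norm_coord_le z j)
      linarith
    have hb2 : (z j).im ∈ ball (0:ℝ) 2 := by
      rw [mem_ball_zero_iff, Real.norm_eq_abs]
      have := (Complex.abs_im_le_norm (z j)).trans (norm_coord_le z j)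
      linarith
    unfold g2 g1
    rw [Set.indicator_of_mem hb1, Set.indicator_of_mem hb2, Real.norm_eq_abs, Real.norm_eq_abs,
      Real.mul_rpow (abs_nonneg _) (abs_nonneg _)]
  show ‖Real.sqrt ‖1 - ζ 0‖ / ‖1 - ζ 0‖ ^ (d + 2)‖ ≤ _
  rw [Real.norm_of_nonneg (by positivity), rpow_bet _ hx]
  have hcard : (‖1 - ζ 0‖ ^ (- bet d)) ^ (d + 2) = ∏ _j : Fin (d+2), ‖1 - ζ 0‖ ^ (- bet d) := by
    rw [Finset.prod_const, Finset.card_univ, Fintype.card_fin]
  rw [hcard]
  refine Finset.prod_le_prod (fun j _ => Real.rpow_nonneg (norm_nonneg _) _) fun j _ => ?_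
  rw [hg j]
  exact Real.rpow_le_rpow_of_nonpos (hy j) (hyx j) (by have := bet_pos (d := d); linarith)

/-- Existence of a unitary map sending the first basis vector to a given unit vector. -/
theorem exists_unitary {z : EE d} (hz : ‖z‖ = 1) :
    ∃ b : OrthonormalBasis (Fin (d+2)) ℂ (EE d), b 0 = z := by
  have hcard : Module.finrank ℂ (EE d) = Fintype.card (Fin (d+2)) := by simp
  have hon : Orthonormal ℂ (Set.domRestrict ({0} : Set (Fin (d+2))) (fun _ => z)) := by
    constructor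
    · intro i; exact hz
    · intro i j hij
      exact absurd (Subsingleton.elim i j) hij
  obtain ⟨b, hb⟩ := Orthonormal.exists_orthonormalBasis_extension_of_card_eq hcard hon
  exact ⟨b, hb 0 rfl⟩

/-- The kernel. -/
def ker (z ζ : EE d) : ℝ :=
  Real.sqrt ‖1 - inner ℂ z ζ‖ / ‖1 - inner ℂ z ζ‖ ^ (d + 2)

theorem ker_aux {z : EE d} (hz : ‖z‖ = 1) :
    ∃ L : EE d ≃ₗᵢ[ℝ] EE d, ∀ ζ, ker z ζ =
      Real.sqrt ‖1 - (L ζ) 0‖ / ‖1 - (L ζ) 0‖ ^ (d + 2) := by
  obtain ⟨b, hb⟩ := exists_unitary hz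
  let L : EE d ≃ₗᵢ[ℝ] EE d :=
    { b.repr.toLinearEquiv.restrictScalars ℝ with
      norm_map' := fun x => b.repr.norm_map x }
  refine ⟨L, fun ζ => ?_⟩
  have h : (L ζ) 0 = inner ℂ z ζ := by
    show (b.repr ζ) 0 = _
    rw [b.repr_apply_apply, hb]
  rw [h, ker]

theorem integrable_ker {z : EE d} (hz : ‖z‖ = 1) : Integrable (ker z) (sig d) := by
  obtain ⟨L, hL⟩ := ker_aux hz
  have : ker z = fun ζ => (fun ζ : EE d => Real.sqrt ‖1 - ζ 0‖ / ‖1 - ζ 0‖ ^ (d + 2)) (L ζ) := by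
    funext ζ; exact hL ζ
  rw [this]
  exact (integrable_comp_isometry L
    (fun ζ : EE d => Real.sqrt ‖1 - ζ 0‖ / ‖1 - ζ 0‖ ^ (d + 2))).2 integrable_ker0

/-- The constant: the integral of the kernel. -/
def kerC (d : ℕ) : ℝ := ∫ ζ : EE d, Real.sqrt ‖1 - ζ 0‖ / ‖1 - ζ 0‖ ^ (d + 2) ∂(sig d)

theorem integral_ker {z : EE d} (hz : ‖z‖ = 1) : ∫ ζ, ker z ζ ∂(sig d) = kerC d := by
  obtain ⟨L, hL⟩ := ker_aux hz
  have : ker z = fun ζ => (fun ζ : EE d => Real.sqrt ‖1 - ζ 0‖ / ‖1 - ζ 0‖ ^ (d + 2)) (L ζ) := by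
    funext ζ; exact hL ζ
  rw [this]
  exact integral_comp_isometry L
    (fun ζ : EE d => Real.sqrt ‖1 - ζ 0‖ / ‖1 - ζ 0‖ ^ (d + 2))

theorem ker_nonneg (z ζ : EE d) : 0 ≤ ker z ζ := by
  unfold ker
  positivity

end

end Pool.Agent.PeakLib
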