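import Pool.Agent.Lib.MP_7d1258_an.Szego

/-!
The key inequality: `|g - 𝒫 g| ≤ C sup |∂̄_b g|` on the sphere.
-/

set_option autoImplicit false
set_option linter.unusedSectionVars false

namespace Pool.Agent.PeakLib

open scoped ContDiff
open MeasureTheory Metric Complex

noncomputable section

variable {d : ℕ}

/-! ### Integral representation -/

theorem norm_inner_le_one {ζ z : EE d} (hζ : ‖ζ‖ = 1) (hz : ‖z‖ = 1) : ‖inner ℂ ζ z‖ ≤ 1 := by
  have := norm_inner_le_norm (𝕜 := ℂ) ζ z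
  rwa [hζ, hz, one_mul] at this

theorem SZ_eq_integral {g : EE d → ℂ} (hg : ContinuousOn g (SS d)) {z : EE d} (hz : ‖z‖ = 1)
    {r : ℝ} (hr0 : 0 ≤ r) (hr1 : r < 1) :
    SZ g ((r : ℂ) • z) = ∫ ζ, g ζ * (1 / (1 - r * inner ℂ ζ z) ^ (d + 2)) ∂(sig d) := by
  obtain ⟨M, hM⟩ := isCompact_SS.exists_bound_of_continuousOn hg
  have hM' : ∀ ζ ∈ SS d, ‖g ζ‖ ≤ |M| := fun ζ hζ => (hM ζ hζ).trans (le_abs_self M)
  set F : ℕ → EE d → ℂ := fun m ζ => g ζ * ((((m + (d + 1)).choose (d + 1) : ℕ) : ℂ) *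
    (r * inner ℂ ζ z) ^ m) with hF
  have hcont : ∀ m, ContinuousOn (F m) (SS d) := by
    intro m
    refine hg.mul ?_
    have : Continuous (fun ζ : EE d => (((m + (d + 1)).choose (d + 1) : ℕ) : ℂ) *
      (r * inner ℂ ζ z) ^ m) := by fun_prop
    exact this.continuousOn
  have hint : ∀ m, Integrable (F m) (sig d) := fun m => integrable_of_continuousOn (hcont m)
  have hrw : ∀ ζ ∈ SS d, ‖(r : ℂ) * inner ℂ ζ z‖ ≤ r := by
    intro ζ hζ
    rw [norm_mul, Complex.norm_real, Real.norm_of_nonneg hr0]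
    exact mul_le_of_le_one_right hr0 (norm_inner_le_one (mem_sphere_zero_iff_norm.1 hζ) hz)
  have hFb : ∀ m, ∀ ζ ∈ SS d, ‖F m ζ‖ ≤ |M| * (((m + (d + 1)).choose (d + 1) : ℕ) * r ^ m) := by
    intro m ζ hζ
    rw [hF]
    simp only [norm_mul, norm_pow]
    rw [Complex.norm_natCast]
    refine mul_le_mul (hM' ζ hζ) ?_ (by positivity) (abs_nonneg _)
    refine mul_le_mul_of_nonneg_left ?_ (Nat.cast_nonneg _)
    have h1 := hrw ζ hζ
    rw [norm_mul] at h1
    exact pow_le_pow_left₀ (by positivity) h1 _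
  have hsum0 : Summable (fun m : ℕ => |M| * (((m + (d + 1)).choose (d + 1) : ℕ) * r ^ m)) := by
    refine Summable.mul_left _ ?_
    exact summable_choose_mul_geometric_of_norm_lt_one (d + 1)
      (by rwa [Real.norm_of_nonneg hr0])
  have hsum : Summable (fun m => ∫ a, ‖F m a‖ ∂(sig d)) := by
    refine Summable.of_nonneg_of_le (fun m => integral_nonneg fun a => norm_nonneg _)
      (fun m => ?_) hsum0
    have h1 : ∫ a, ‖F m a‖ ∂(sig d) ≤
        ∫ _a : EE d, |M| * (((m + (d + 1)).choose (d + 1) : ℕ) * r ^ m) ∂(sig d) :=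
      integral_mono_ae (hint m).norm (integrable_const _)
        (ae_mem_sphere.mono fun ζ hζ => hFb m ζ hζ)
    simpa using h1
  have key := hasSum_integral_of_summable_integral_norm hint hsum
  have h1 : SZ g ((r : ℂ) • z) = ∑' m, ∫ a, F m a ∂(sig d) := by
    unfold SZ
    refine tsum_congr fun m => ?_
    rw [qq_diag hg, ← integral_const_mul]
    congr 1
    funext ζ
    rw [inner_smul_right, hF]
    unfold cc
    push_cast
    ring
  rw [h1, key.tsum_eq]
  refine integral_congr_sphere fun ζ hζ => ?_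
  have h2 : ‖(r : ℂ) * inner ℂ ζ z‖ < 1 := (hrw ζ hζ).trans_lt hr1
  have h3 := hasSum_choose_mul_geometric_of_norm_lt_one (d + 1) h2
  have h4 := h3.mul_left (g ζ)
  exact h4.tsum_eq

theorem TE_const' (c : ℂ) : TE (fun _ : EE d => c) = fun _ => 0 := by
  funext z
  unfold TE
  simp

theorem qq_one (m : ℕ) (hm : m ≠ 0) : qq m (fun _ : EE d => (1:ℂ)) = 0 := by
  have h1 := qq_TE m (g := fun _ : EE d => (1:ℂ)) contDiff_const
  rw [TE_const'] at h1
  have h2 : qq m (fun _ : EE d => (0:ℂ)) = 0 := by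
    have := norm_qq_le m (g := fun _ : EE d => (0:ℂ)) (M := 0) (fun ζ _ => by simp)
    rw [mul_zero] at this
    exact norm_le_zero_iff.1 this
  rw [h2] at h1
  have h3 : (I * (m : ℂ)) ≠ 0 := mul_ne_zero I_ne_zero (Nat.cast_ne_zero.2 hm)
  exact (smul_eq_zero.1 h1.symm).resolve_left h3

theorem integral_kernel_one {z : EE d} (hz : ‖z‖ = 1) {r : ℝ} (hr0 : 0 ≤ r) (hr1 : r < 1) :
    ∫ ζ, (1 / (1 - r * inner ℂ ζ z) ^ (d + 2)) ∂(sig d) = 1 := by
  have h1 := SZ_eq_integral (g := fun _ : EE d => (1:ℂ)) continuousOn_const hz hr0 hr1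
  simp only [one_mul] at h1
  rw [← h1]
  unfold SZ
  rw [tsum_eq_single 0]
  · rw [qq_diag continuousOn_const]
    unfold cc
    simp
  · intro m hm
    rw [qq_one m hm]
    simp

/-! ### The vector fields -/

/-- The conjugate linear skew maps `ζ ↦ ⟨a, ζ⟩ b - ⟨b, ζ⟩ a`. -/
def Jm (a b : EE d) : EE d →L[ℝ] EE d :=
  LinearMap.toContinuousLinearMap
    { toFun := fun ζ => (inner ℂ ζ a : ℂ) • b - (inner ℂ ζ b : ℂ) • a
      map_add' := fun x y => by
        rw [inner_add_left, inner_add_left, add_smul, add_smul]; abel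
      map_smul' := fun c x => by
        have h1 : ∀ y : EE d, (inner ℂ (c • x) y : ℂ) = (c : ℂ) * inner ℂ x y := by
          intro y
          have : c • x = (c : ℂ) • x := by
            rw [complex_smul_eq (c : ℂ) x]; simp
          rw [this, inner_smul_left, Complex.conj_ofReal]
        rw [h1, h1, RingHom.id_apply, smul_sub, mul_smul, mul_smul]
        congr 1 }

theorem Jm_apply (a b ζ : EE d) :
    Jm a b ζ = (inner ℂ ζ a : ℂ) • b - (inner ℂ ζ b : ℂ) • a := rfl

theorem inner_Jm (a b ζ : EE d) : inner ℂ (Jm a b ζ) ζ = 0 := by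
  rw [Jm_apply, inner_sub_left, inner_smul_left, inner_smul_left, inner_conj_symm,
    inner_conj_symm]
  ring

theorem Jm_skew (a b ζ : EE d) : inner ℝ (Jm a b ζ) ζ = 0 := by
  rw [real_inner_eq, inner_Jm]; rfl

theorem IJm_skew (a b ζ : EE d) : inner ℝ ((mulI d ∘L Jm a b) ζ) ζ = 0 := by
  rw [real_inner_eq, ContinuousLinearMap.comp_apply, mulI_apply, inner_smul_left, inner_Jm,
    mul_zero]; rfl

theorem nice_of_contDiffAt {h : EE d → ℂ} (hh : ∀ ζ ∈ SS d, ContDiffAt ℝ ∞ h ζ) :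
    (∀ z ∈ SS d, DifferentiableAt ℝ h z) ∧ ContinuousOn (fderiv ℝ h) (SS d) := by
  refine ⟨fun z hz => (hh z hz).differentiableAt (by simp), fun z hz => ?_⟩
  have h1 : ContDiffAt ℝ 0 (fderiv ℝ h) z :=
    (hh z hz).fderiv_right (m := 0) (by exact_mod_cast le_top)
  exact h1.continuousAt.continuousWithinAt

/-- Integration by parts for the conjugate linear vector fields. -/
theorem integral_db_Jm (a b : EE d) {h : EE d → ℂ} (hh : ∀ ζ ∈ SS d, ContDiffAt ℝ ∞ h ζ) :
    ∫ ζ, db h ζ (Jm a b ζ) ∂(sig d) = 0 := by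
  obtain ⟨h1, h2⟩ := nice_of_contDiffAt hh
  have e1 := integral_skew (Jm a b) (Jm_skew a b) h1 h2
  have e2 := integral_skew (mulI d ∘L Jm a b) (IJm_skew a b) h1 h2
  unfold db
  rw [integral_const_mul, integral_add, integral_const_mul]
  · rw [e1]
    have e3 : ∫ ζ, fderiv ℝ h ζ (I • (Jm a b) ζ) ∂(sig d) = 0 := e2
    rw [e3]
    ring
  · exact integrable_of_continuousOn (h2.clm_apply (Jm a b).continuous.continuousOn)
  · refine integrable_of_continuousOn (continuousOn_const.mul ?_)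
    exact h2.clm_apply (mulI d ∘L Jm a b).continuous.continuousOn

theorem continuousOn_db {h : EE d → ℂ} (hh : ContinuousOn (fderiv ℝ h) (SS d))
    {A : EE d → EE d} (hA : Continuous A) : ContinuousOn (fun ζ => db h ζ (A ζ)) (SS d) := by
  unfold db
  refine continuousOn_const.mul ((hh.clm_apply hA.continuousOn).add
    (continuousOn_const.mul (hh.clm_apply ?_)))
  exact ((mulI d).continuous.comp hA).continuousOn

/-! ### `∂̄` of explicit functions -/

theorem contDiff_inner_left (a : EE d) : ContDiff ℝ ∞ (fun ζ : EE d => (inner ℂ ζ a : ℂ)) := by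
  have h : (fun ζ : EE d => (inner ℂ ζ a : ℂ)) = fun ζ => (starRingEnd ℂ) (inner ℂ a ζ) := by
    funext ζ
    rw [inner_conj_symm]
  rw [h]
  have h1 : ContDiff ℝ ∞ (fun ζ : EE d => inner ℂ a ζ) := by
    have h2 : ContDiff ℝ ∞ (fun ζ : EE d => ((innerSL ℂ a).restrictScalars ℝ) ζ) :=
      ((innerSL ℂ a).restrictScalars ℝ).contDiff
    exact h2
  exact Complex.conjCLE.contDiff.comp h1

theorem contDiff_inner_right (a : EE d) : ContDiff ℝ ∞ (fun ζ : EE d => (inner ℂ a ζ : ℂ)) := by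
  have h2 : ContDiff ℝ ∞ (fun ζ : EE d => ((innerSL ℂ a).restrictScalars ℝ) ζ) :=
    ((innerSL ℂ a).restrictScalars ℝ).contDiff
  exact h2

theorem fderiv_inner_right (a ζ v : EE d) :
    fderiv ℝ (fun ζ : EE d => (inner ℂ a ζ : ℂ)) ζ v = inner ℂ a v := by
  have h2 : HasFDerivAt (fun ζ : EE d => ((innerSL ℂ a).restrictScalars ℝ) ζ)
      ((innerSL ℂ a).restrictScalars ℝ) ζ :=
    ((innerSL ℂ a).restrictScalars ℝ).hasFDerivAt
  have h3 : fderiv ℝ (fun ζ : EE d => (inner ℂ a ζ : ℂ)) ζ =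
    ((innerSL ℂ a).restrictScalars ℝ) := h2.fderiv
  rw [h3]
  rfl

theorem fderiv_inner_left (a ζ v : EE d) :
    fderiv ℝ (fun ζ : EE d => (inner ℂ ζ a : ℂ)) ζ v = inner ℂ v a := by
  have h : (fun ζ : EE d => (inner ℂ ζ a : ℂ)) = fun ζ => Complex.conjCLE (inner ℂ a ζ) := by
    funext ζ
    rw [Complex.conjCLE_apply, inner_conj_symm]
  rw [h]
  have h1 : HasFDerivAt (fun ζ : EE d => ((innerSL ℂ a).restrictScalars ℝ) ζ)
      ((innerSL ℂ a).restrictScalars ℝ) ζ :=
    ((innerSL ℂ a).restrictScalars ℝ).hasFDerivAt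
  have h2 : HasFDerivAt (fun ζ : EE d => Complex.conjCLE (inner ℂ a ζ))
      ((Complex.conjCLE : ℂ →L[ℝ] ℂ) ∘L ((innerSL ℂ a).restrictScalars ℝ)) ζ :=
    (Complex.conjCLE : ℂ →L[ℝ] ℂ).hasFDerivAt.comp ζ h1
  rw [h2.fderiv]
  simp

theorem db_inner_left (a ζ v : EE d) :
    db (fun ζ : EE d => (inner ℂ ζ a : ℂ)) ζ v = inner ℂ v a := by
  unfold db
  rw [fderiv_inner_left, fderiv_inner_left, inner_smul_left, Complex.conj_I]
  have hI : I * I = -1 := I_mul_I
  linear_combination (-(1/2) * inner ℂ v a) * hI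

theorem db_inner_right (a ζ v : EE d) :
    db (fun ζ : EE d => (inner ℂ a ζ : ℂ)) ζ v = 0 := by
  unfold db
  rw [fderiv_inner_right, fderiv_inner_right, inner_smul_right]
  have hI : I * I = -1 := I_mul_I
  linear_combination ((1/2) * inner ℂ a v) * hI

theorem db_comp_complex {V : Type*} [NormedAddCommGroup V] [NormedSpace ℝ V] [NormedSpace ℂ V]
    [IsScalarTower ℝ ℂ V] {F : ℂ → ℂ} {f : V → ℂ} {z : V} {F' : ℂ}
    (hF : HasDerivAt F F' (f z)) (hf : DifferentiableAt ℝ f z) (w : V) :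
    db (fun z => F (f z)) z w = F' * db f z w := by
  have hFr : HasFDerivAt F ((ContinuousLinearMap.toSpanSingleton ℂ F').restrictScalars ℝ) (f z) :=
    hF.hasFDerivAt.restrictScalars ℝ
  rw [db_comp hFr.differentiableAt hf,
    db_eq_zero_of_complex hF.differentiableAt, hFr.fderiv]
  simp only [ContinuousLinearMap.coe_restrictScalars', ContinuousLinearMap.toSpanSingleton_apply,
    smul_eq_mul]
  have hI : I * I = -1 := I_mul_I
  linear_combination (- db f z w * F') * hI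

end

end Pool.Agent.PeakLib
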