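import Pool.Agent.Lib.MP_7d1258_an.KeyIneq

/-!
The key inequality, second part.
-/

set_option autoImplicit false
set_option linter.unusedSectionVars false

namespace Pool.Agent.PeakLib

open scoped ContDiff
open MeasureTheory Metric Complex

noncomputable section

variable {d : ℕ}

/-- The auxiliary function. -/
def phi (z : EE d) (r : ℝ) (ζ : EE d) : ℂ :=
  (-(1 / ((d : ℂ) + 1)) * (1 - r * inner ℂ z ζ)⁻¹) * ((1 - r * inner ℂ ζ z) ^ (d + 1))⁻¹

theorem one_sub_ne {x : ℂ} {r : ℝ} (hr0 : 0 ≤ r) (hr1 : r < 1) (hx : ‖x‖ ≤ 1) :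
    1 - (r : ℂ) * x ≠ 0 := by
  intro h
  have h1 : (r : ℂ) * x = 1 := by linear_combination -h
  have h2 : ‖(r : ℂ) * x‖ ≤ r := by
    rw [norm_mul, Complex.norm_real, Real.norm_of_nonneg hr0]
    exact mul_le_of_le_one_right hr0 hx
  rw [h1, norm_one] at h2
  linarith

section

variable {z : EE d} (hz : ‖z‖ = 1) {r : ℝ} (hr0 : 0 ≤ r) (hr1 : r < 1)

include hz hr0 hr1

theorem contDiffAt_phi {ζ : EE d} (hζ : ζ ∈ SS d) : ContDiffAt ℝ ∞ (phi z r) ζ := by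
  have hζ1 := mem_sphere_zero_iff_norm.1 hζ
  have h1 : 1 - (r : ℂ) * inner ℂ z ζ ≠ 0 := one_sub_ne hr0 hr1 (norm_inner_le_one hz hζ1)
  have h2 : 1 - (r : ℂ) * inner ℂ ζ z ≠ 0 := one_sub_ne hr0 hr1 (norm_inner_le_one hζ1 hz)
  unfold phi
  have e1 : ContDiffAt ℝ ∞ (fun ζ : EE d => 1 - (r : ℂ) * inner ℂ z ζ) ζ :=
    (contDiff_const.sub (contDiff_const.mul (contDiff_inner_right z))).contDiffAt
  have e2 : ContDiffAt ℝ ∞ (fun ζ : EE d => (1 - (r : ℂ) * inner ℂ ζ z) ^ (d + 1)) ζ :=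
    ((contDiff_const.sub (contDiff_const.mul (contDiff_inner_left z))).pow (d + 1)).contDiffAt
  exact (contDiffAt_const.mul (e1.inv h1)).mul (e2.inv (pow_ne_zero _ h2))

theorem db_phi {ζ : EE d} (hζ : ζ ∈ SS d) (v : EE d) :
    db (phi z r) ζ v = (-(1 / ((d : ℂ) + 1)) * (1 - r * inner ℂ z ζ)⁻¹) *
      ((((d : ℂ) + 1) * r / (1 - r * inner ℂ ζ z) ^ (d + 2)) * inner ℂ v z) := by
  have hζ1 := mem_sphere_zero_iff_norm.1 hζ
  have h1 : 1 - (r : ℂ) * inner ℂ z ζ ≠ 0 := one_sub_ne hr0 hr1 (norm_inner_le_one hz hζ1)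
  have h2 : 1 - (r : ℂ) * inner ℂ ζ z ≠ 0 := one_sub_ne hr0 hr1 (norm_inner_le_one hζ1 hz)
  have dr : DifferentiableAt ℝ (fun ζ : EE d => (inner ℂ z ζ : ℂ)) ζ :=
    (contDiff_inner_right z).differentiable (by simp) ζ
  have dl : DifferentiableAt ℝ (fun ζ : EE d => (inner ℂ ζ z : ℂ)) ζ :=
    (contDiff_inner_left z).differentiable (by simp) ζ
  have F1 : HasDerivAt (fun y : ℂ => -(1 / ((d : ℂ) + 1)) * (1 - r * y)⁻¹)
      (-(1 / ((d : ℂ) + 1)) * (-(-r) / (1 - r * inner ℂ z ζ) ^ 2)) (inner ℂ z ζ) := by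
    have hb : HasDerivAt (fun y : ℂ => 1 - (r : ℂ) * y) (-r) (inner ℂ z ζ) := by
      simpa using ((hasDerivAt_id (inner ℂ z ζ : ℂ)).const_mul (r : ℂ)).const_sub 1
    exact (hb.fun_inv h1).const_mul _
  have F2 : HasDerivAt (fun y : ℂ => ((1 - r * y) ^ (d + 1))⁻¹)
      (((d : ℂ) + 1) * r / (1 - r * inner ℂ ζ z) ^ (d + 2)) (inner ℂ ζ z) := by
    have hb : HasDerivAt (fun y : ℂ => 1 - (r : ℂ) * y) (-r) (inner ℂ ζ z) := by
      simpa using ((hasDerivAt_id (inner ℂ ζ z : ℂ)).const_mul (r : ℂ)).const_sub 1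
    have h3 := (hb.fun_pow (d + 1)).fun_inv (pow_ne_zero _ h2)
    refine h3.congr_deriv ?_
    rw [Nat.add_sub_cancel]
    push_cast
    field_simp
    ring
  have e1 : db (fun ζ : EE d => -(1 / ((d : ℂ) + 1)) * (1 - r * inner ℂ z ζ)⁻¹) ζ v = 0 := by
    have := db_comp_complex (f := fun ζ : EE d => (inner ℂ z ζ : ℂ)) F1 dr v
    rw [db_inner_right, mul_zero] at this
    exact this
  have e2 : db (fun ζ : EE d => ((1 - r * inner ℂ ζ z) ^ (d + 1))⁻¹) ζ v =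
      (((d : ℂ) + 1) * r / (1 - r * inner ℂ ζ z) ^ (d + 2)) * inner ℂ v z := by
    have := db_comp_complex (f := fun ζ : EE d => (inner ℂ ζ z : ℂ)) F2 dl v
    rw [db_inner_left] at this
    exact this
  have D1 : DifferentiableAt ℝ
      (fun ζ : EE d => -(1 / ((d : ℂ) + 1)) * (1 - (r:ℂ) * inner ℂ z ζ)⁻¹) ζ := by
    have e3 : ContDiffAt ℝ ∞ (fun ζ : EE d => 1 - (r : ℂ) * inner ℂ z ζ) ζ :=
      (contDiff_const.sub (contDiff_const.mul (contDiff_inner_right z))).contDiffAt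
    exact (contDiffAt_const.mul (e3.inv h1)).differentiableAt (by simp)
  have D2 : DifferentiableAt ℝ (fun ζ : EE d => ((1 - (r:ℂ) * inner ℂ ζ z) ^ (d + 1))⁻¹) ζ := by
    have e3 : ContDiffAt ℝ ∞ (fun ζ : EE d => (1 - (r : ℂ) * inner ℂ ζ z) ^ (d + 1)) ζ :=
      ((contDiff_const.sub (contDiff_const.mul (contDiff_inner_left z))).pow (d + 1)).contDiffAt
    exact (e3.inv (pow_ne_zero _ h2)).differentiableAt (by simp)
  have := db_mul D1 D2 v
  unfold phi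
  rw [this, e1, e2]
  ring

theorem sum_db {g : EE d → ℂ} (hg : ContDiff ℝ ∞ g) (c : ℂ)
    (b : OrthonormalBasis (Fin (d+2)) ℂ (EE d)) (hb : b 0 = z) {ζ : EE d} (hζ : ζ ∈ SS d) :
    ∑ j : Fin (d + 1), db (fun ζ => (g ζ - c) * (inner ℂ ζ (b j.succ) * phi z r ζ)) ζ
      (Jm z (b j.succ) ζ) =
    phi z r ζ * db g ζ ((inner ℂ ζ z : ℂ) • ζ - z) +
      (g ζ - c) * ((r - inner ℂ z ζ) / ((1 - r * inner ℂ z ζ) *
        (1 - r * inner ℂ ζ z) ^ (d + 2))) := by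
  have hζ1 := mem_sphere_zero_iff_norm.1 hζ
  have h1 : 1 - (r : ℂ) * inner ℂ z ζ ≠ 0 := one_sub_ne hr0 hr1 (norm_inner_le_one hz hζ1)
  have h2 : 1 - (r : ℂ) * inner ℂ ζ z ≠ 0 := one_sub_ne hr0 hr1 (norm_inner_le_one hζ1 hz)
  have hd1 : ((d : ℂ) + 1) ≠ 0 := by exact_mod_cast Nat.succ_ne_zero d
  -- orthogonality
  have o1 : ∀ j : Fin (d + 1), inner ℂ z (b j.succ) = 0 := by
    intro j
    rw [← hb, b.inner_eq_zero (Fin.succ_ne_zero j).symm]
  have o2 : ∀ j : Fin (d + 1), inner ℂ (b j.succ) z = 0 := by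
    intro j
    rw [← hb, b.inner_eq_zero (Fin.succ_ne_zero j)]
  have o3 : ∀ j : Fin (d + 1), inner ℂ (b j.succ) (b j.succ) = (1:ℂ) := by
    intro j
    rw [inner_self_eq_norm_sq_to_K, b.norm_eq_one]
    simp
  have o4 : inner ℂ z z = (1:ℂ) := by
    rw [inner_self_eq_norm_sq_to_K, hz]
    simp
  have o5 : inner ℂ ζ ζ = (1:ℂ) := by
    rw [inner_self_eq_norm_sq_to_K, hζ1]
    simp
  have dg : DifferentiableAt ℝ g ζ := hg.differentiable (by simp) ζ
  have dphi : DifferentiableAt ℝ (phi z r) ζ :=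
    (contDiffAt_phi hz hr0 hr1 hζ).differentiableAt (by simp)
  have dl : ∀ a, DifferentiableAt ℝ (fun ζ : EE d => (inner ℂ ζ a : ℂ)) ζ := fun a =>
    (contDiff_inner_left a).differentiable (by simp) ζ
  -- parseval
  have pars : ∑ j : Fin (d + 1), inner ℂ ζ (b j.succ) * inner ℂ (b j.succ) ζ =
      1 - inner ℂ ζ z * inner ℂ z ζ := by
    have h3 := b.sum_inner_mul_inner ζ ζ
    rw [Fin.sum_univ_succ, hb, o5] at h3
    linear_combination h3
  have expd : ∑ j : Fin (d + 1), (inner ℂ (b j.succ) ζ : ℂ) • b j.succ =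
      ζ - (inner ℂ z ζ : ℂ) • z := by
    have h3 := b.sum_repr' ζ
    rw [Fin.sum_univ_succ, hb] at h3
    rw [eq_sub_iff_add_eq, add_comm]
    exact h3
  have term : ∀ j : Fin (d + 1),
      db (fun ζ => (g ζ - c) * (inner ℂ ζ (b j.succ) * phi z r ζ)) ζ (Jm z (b j.succ) ζ) =
      phi z r ζ * db g ζ ((inner ℂ (b j.succ) ζ : ℂ) • Jm z (b j.succ) ζ) +
      (g ζ - c) * (inner ℂ z ζ * phi z r ζ + (inner ℂ ζ (b j.succ) * inner ℂ (b j.succ) ζ) *
        (r / ((1 - r * inner ℂ z ζ) * (1 - r * inner ℂ ζ z) ^ (d + 2)))) := by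
    intro j
    have i1 : inner ℂ (Jm z (b j.succ) ζ) (b j.succ) = inner ℂ z ζ := by
      rw [Jm_apply, inner_sub_left, inner_smul_left, inner_smul_left, o1, o3, inner_conj_symm]
      ring
    have i2 : inner ℂ (Jm z (b j.succ) ζ) z = - inner ℂ (b j.succ) ζ := by
      rw [Jm_apply, inner_sub_left, inner_smul_left, inner_smul_left, o2, o4, inner_conj_symm,
        inner_conj_symm]
      ring
    have e1 : db (fun z => g z - c) ζ (Jm z (b j.succ) ζ) = db g ζ (Jm z (b j.succ) ζ) := by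
      rw [db_sub dg (by fun_prop), db_const, sub_zero]
    have dgc : DifferentiableAt ℝ (fun ζ => g ζ - c) ζ := dg.sub (by fun_prop)
    have m1 := db_mul (f := fun ζ => g ζ - c)
      (g := fun ζ => inner ℂ ζ (b j.succ) * phi z r ζ) (z := ζ) dgc ((dl _).mul dphi)
      (Jm z (b j.succ) ζ)
    have m2 := db_mul (f := fun ζ : EE d => (inner ℂ ζ (b j.succ) : ℂ))
      (g := phi z r) (z := ζ) (dl _) dphi (Jm z (b j.succ) ζ)
    rw [m1, m2, db_inner_left,
      db_phi hz hr0 hr1 hζ, i1, i2, db_smul_right, inner_conj_symm, e1]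
    field_simp
  rw [Finset.sum_congr rfl (fun j _ => term j), Finset.sum_add_distrib, ← Finset.mul_sum,
    ← Finset.mul_sum, ← db_sum_right, Finset.sum_add_distrib, ← Finset.sum_mul, ← Finset.sum_mul, pars]
  have e2 : ∑ j : Fin (d + 1), (inner ℂ (b j.succ) ζ : ℂ) • Jm z (b j.succ) ζ =
      (inner ℂ ζ z : ℂ) • ζ - z := by
    have e3 : ∀ j : Fin (d + 1), (inner ℂ (b j.succ) ζ : ℂ) • Jm z (b j.succ) ζ =
        (inner ℂ ζ z : ℂ) • ((inner ℂ (b j.succ) ζ : ℂ) • b j.succ) -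
        (inner ℂ ζ (b j.succ) * inner ℂ (b j.succ) ζ : ℂ) • z := by
      intro j
      rw [Jm_apply, smul_sub, smul_smul, smul_smul, smul_smul]
      congr 2 <;> ring
    rw [Finset.sum_congr rfl (fun j _ => e3 j), Finset.sum_sub_distrib, ← Finset.smul_sum, expd,
      ← Finset.sum_smul, pars, smul_sub, smul_smul, sub_smul, one_smul]
    abel
  rw [e2]
  congr 2
  rw [Finset.sum_const, Finset.card_univ, Fintype.card_fin, nsmul_eq_mul]
  unfold phi
  push_cast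
  field_simp
  ring

/-- The integration by parts formula. -/
theorem integral_identity {g : EE d → ℂ} (hg : ContDiff ℝ ∞ g) (c : ℂ) :
    ∫ ζ, (g ζ - c) * ((r - inner ℂ z ζ) / ((1 - r * inner ℂ z ζ) *
        (1 - r * inner ℂ ζ z) ^ (d + 2))) ∂(sig d) =
    - ∫ ζ, phi z r ζ * db g ζ ((inner ℂ ζ z : ℂ) • ζ - z) ∂(sig d) := by
  obtain ⟨b, hb⟩ := exists_unitary hz
  set h : Fin (d + 1) → EE d → ℂ := fun j ζ => (g ζ - c) * (inner ℂ ζ (b j.succ) * phi z r ζ)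
    with hh
  have hcd : ∀ j, ∀ ζ ∈ SS d, ContDiffAt ℝ ∞ (h j) ζ := by
    intro j ζ hζ
    exact (hg.sub contDiff_const).contDiffAt.mul
      ((contDiff_inner_left _).contDiffAt.mul (contDiffAt_phi hz hr0 hr1 hζ))
  have h0 : ∀ j, ∫ ζ, db (h j) ζ (Jm z (b j.succ) ζ) ∂(sig d) = 0 := fun j =>
    integral_db_Jm _ _ (hcd j)
  have hI : ∀ j, Integrable (fun ζ => db (h j) ζ (Jm z (b j.succ) ζ)) (sig d) := fun j =>
    integrable_of_continuousOn
      (continuousOn_db (nice_of_contDiffAt (hcd j)).2 (Jm z (b j.succ)).continuous)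
  have h1 : ∫ ζ, ∑ j, db (h j) ζ (Jm z (b j.succ) ζ) ∂(sig d) = 0 := by
    rw [integral_finsetSum _ (fun j _ => hI j)]
    exact Finset.sum_eq_zero fun j _ => h0 j
  have hphic : ContinuousOn (phi z r) (SS d) := fun ζ hζ =>
    (contDiffAt_phi hz hr0 hr1 hζ).continuousAt.continuousWithinAt
  have c1 : ContinuousOn (fun ζ => phi z r ζ * db g ζ ((inner ℂ ζ z : ℂ) • ζ - z)) (SS d) := by
    refine hphic.mul (continuousOn_db ?_ ?_)
    · exact ((contDiff_infty_iff_fderiv.1 hg).2).continuous.continuousOn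
    · fun_prop
  have c2 : ContinuousOn (fun ζ => (g ζ - c) * ((r - inner ℂ z ζ) / ((1 - r * inner ℂ z ζ) *
        (1 - r * inner ℂ ζ z) ^ (d + 2)))) (SS d) := by
    refine (hg.continuous.sub continuous_const).continuousOn.mul ?_
    refine ContinuousOn.div (by fun_prop) (by fun_prop) fun ζ hζ => ?_
    have hζ1 := mem_sphere_zero_iff_norm.1 hζ
    exact mul_ne_zero (one_sub_ne hr0 hr1 (norm_inner_le_one hz hζ1))
      (pow_ne_zero _ (one_sub_ne hr0 hr1 (norm_inner_le_one hζ1 hz)))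
  rw [integral_congr_sphere (fun ζ hζ => sum_db hz hr0 hr1 hg c b hb hζ), integral_add
    (integrable_of_continuousOn c1) (integrable_of_continuousOn c2)] at h1
  linear_combination h1

end

end

end Pool.Agent.PeakLib
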