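import Pool.Agent.Lib.MP_7d1258_an.KeyIneq2

/-!
The key inequality, third part.
-/

set_option autoImplicit false
set_option linter.unusedSectionVars false

namespace Pool.Agent.PeakLib

open scoped ContDiff
open MeasureTheory Metric Complex

noncomputable section

variable {d : ℕ}

theorem one_sub_le {x : ℂ} {r : ℝ} (hr0 : 0 ≤ r) (_hr1 : r < 1) (hx : ‖x‖ ≤ 1) :
    1 - r ≤ ‖1 - (r : ℂ) * x‖ := by
  have h1 := norm_sub_norm_le (1:ℂ) ((r:ℂ) * x)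
  rw [norm_one, norm_mul, Complex.norm_real, Real.norm_of_nonneg hr0] at h1
  have h2 : r * ‖x‖ ≤ r := mul_le_of_le_one_right hr0 hx
  linarith

theorem half_le {x : ℂ} {r : ℝ} (hr0 : 0 ≤ r) (hr1 : r < 1) (hx : ‖x‖ ≤ 1) :
    ‖1 - x‖ ≤ 2 * ‖1 - (r : ℂ) * x‖ := by
  have h1 := one_sub_le hr0 hr1 hx
  have h2 : ‖1 - x‖ ≤ ‖1 - (r : ℂ) * x‖ + ‖(r : ℂ) * x - x‖ := by
    have := norm_add_le (1 - (r : ℂ) * x) ((r : ℂ) * x - x)
    rwa [show 1 - (r : ℂ) * x + ((r : ℂ) * x - x) = 1 - x by ring] at this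
  have h3 : ‖(r : ℂ) * x - x‖ ≤ 1 - r := by
    rw [show (r : ℂ) * x - x = -(((1 - r : ℝ) : ℂ) * x) by push_cast; ring, norm_neg, norm_mul,
      Complex.norm_real, Real.norm_of_nonneg (by linarith)]
    exact mul_le_of_le_one_right (by linarith) hx
  linarith

/-- Bound for the kernel in terms of `ker`. -/
theorem inv_pow_le {x : ℂ} {r : ℝ} (hr0 : 0 ≤ r) (hr1 : r < 1) (hx : ‖x‖ ≤ 1) (n : ℕ) :
    (‖1 - (r : ℂ) * x‖ ^ n)⁻¹ * Real.sqrt ‖1 - x‖ ≤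
      2 ^ n * (Real.sqrt ‖1 - x‖ / ‖1 - x‖ ^ n) := by
  rcases eq_or_lt_of_le (norm_nonneg (1 - x)) with h | h
  · rw [← h]
    simp [← Complex.ofReal_pow]
  · have h1 := half_le hr0 hr1 hx
    have h2 : (‖1 - (r : ℂ) * x‖ ^ n)⁻¹ ≤ 2 ^ n / ‖1 - x‖ ^ n := by
      rw [← div_pow, ← inv_pow]
      refine pow_le_pow_left₀ (by positivity) ?_ _
      rw [inv_eq_one_div, div_le_div_iff₀ (by linarith) h]
      linarith
    calc (‖1 - (r : ℂ) * x‖ ^ n)⁻¹ * Real.sqrt ‖1 - x‖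
        ≤ (2 ^ n / ‖1 - x‖ ^ n) * Real.sqrt ‖1 - x‖ :=
          mul_le_mul_of_nonneg_right h2 (Real.sqrt_nonneg _)
      _ = _ := by ring

theorem norm_inner_symm' (ζ z : EE d) (r : ℝ) :
    ‖1 - (r : ℂ) * inner ℂ ζ z‖ = ‖1 - (r : ℂ) * inner ℂ z ζ‖ := by
  rw [← Complex.norm_conj (1 - (r : ℂ) * inner ℂ z ζ)]
  congr 1
  simp only [map_sub, map_one, map_mul, Complex.conj_ofReal, inner_conj_symm]

theorem norm_sub_sq_sphere {ζ z : EE d} (hζ : ‖ζ‖ = 1) (hz : ‖z‖ = 1) :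
    ‖ζ - z‖ ≤ Real.sqrt 2 * Real.sqrt ‖1 - inner ℂ z ζ‖ := by
  rw [← Real.sqrt_mul (by norm_num)]
  refine Real.le_sqrt_of_sq_le ?_
  have h1 := @norm_sub_sq ℂ (EE d) _ _ _ ζ z
  rw [hζ, hz] at h1
  have h2 : RCLike.re (inner ℂ ζ z) = (inner ℂ z ζ).re := inner_re_symm (𝕜 := ℂ) ζ z
  rw [h1, h2]
  have h3 : 1 - (inner ℂ z ζ).re ≤ ‖1 - inner ℂ z ζ‖ := by
    have := Complex.re_le_norm (1 - inner ℂ z ζ)
    simpa using this
  linarith

/-- The tangential vector `⟨z, ζ⟩ ζ - z`. -/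
theorem tang_orth {ζ z : EE d} (hζ : ‖ζ‖ = 1) :
    inner ℂ ζ ((inner ℂ ζ z : ℂ) • ζ - z) = 0 := by
  rw [inner_sub_right, inner_smul_right, inner_self_eq_norm_sq_to_K, hζ]
  simp

theorem norm_tang_sq {ζ z : EE d} (hζ : ‖ζ‖ = 1) (hz : ‖z‖ = 1) :
    ‖(inner ℂ ζ z : ℂ) • ζ - z‖ ^ 2 = 1 - ‖inner ℂ z ζ‖ ^ 2 := by
  have h1 := @norm_sub_sq ℂ (EE d) _ _ _ ((inner ℂ ζ z : ℂ) • ζ) z
  rw [h1, norm_smul, hζ, hz, inner_smul_left, inner_conj_symm]
  have h2 : RCLike.re (inner ℂ z ζ * inner ℂ ζ z) = ‖inner ℂ z ζ‖ ^ 2 := by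
    rw [← inner_conj_symm ζ z, Complex.mul_conj, Complex.normSq_eq_norm_sq]
    simp [← Complex.ofReal_pow]
  have h3 : ‖(inner ℂ ζ z : ℂ)‖ = ‖(inner ℂ z ζ : ℂ)‖ := norm_inner_symm ζ z
  rw [h2, h3]
  ring

theorem norm_tang_le {ζ z : EE d} (hζ : ‖ζ‖ = 1) (hz : ‖z‖ = 1) :
    ‖(inner ℂ ζ z : ℂ) • ζ - z‖ ≤ Real.sqrt 2 * Real.sqrt ‖1 - inner ℂ z ζ‖ := by
  rw [← Real.sqrt_mul (by norm_num)]
  refine Real.le_sqrt_of_sq_le ?_
  rw [norm_tang_sq hζ hz]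
  have h1 := norm_inner_le_one hz hζ
  have h2 : 1 - ‖inner ℂ z ζ‖ ≤ ‖1 - inner ℂ z ζ‖ := by
    have := norm_sub_norm_le (1:ℂ) (inner ℂ z ζ)
    simpa using this
  nlinarith [norm_nonneg (inner ℂ z ζ : ℂ)]

theorem norm_tang_le_one {ζ z : EE d} (hζ : ‖ζ‖ = 1) (hz : ‖z‖ = 1) :
    ‖(inner ℂ ζ z : ℂ) • ζ - z‖ ≤ 1 := by
  have h1 := norm_tang_sq hζ hz
  have h2 : ‖(inner ℂ ζ z : ℂ) • ζ - z‖ ^ 2 ≤ 1 := by
    rw [h1]
    have := sq_nonneg ‖inner ℂ z ζ‖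
    linarith
  exact (sq_le_one_iff₀ (norm_nonneg _)).1 h2

/-- Scaling in the complex tangential directions. -/
theorem db_le_of_DD {g : EE d → ℂ} {M : ℝ} (hM : ∀ p ∈ DD d, ‖db g p.1 p.2‖ ≤ M)
    {ζ w : EE d} (hζ : ‖ζ‖ = 1) (hw : inner ℂ ζ w = 0) :
    ‖db g ζ w‖ ≤ M * ‖w‖ := by
  rcases eq_or_ne w 0 with h | h
  · rw [h, db_zero_right]; simp
  · have hn : 0 < ‖w‖ := norm_pos_iff.2 h
    have h1 : w = ((‖w‖ : ℝ) : ℂ) • (((‖w‖⁻¹ : ℝ) : ℂ) • w) := by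
      rw [smul_smul, ← Complex.ofReal_mul, mul_inv_cancel₀ hn.ne', Complex.ofReal_one, one_smul]
    have h2 : ((ζ, ((‖w‖⁻¹ : ℝ) : ℂ) • w) : EE d × EE d) ∈ DD d := by
      refine ⟨hζ, ?_, ?_⟩
      · show ‖((‖w‖⁻¹ : ℝ) : ℂ) • w‖ ≤ 1
        rw [norm_smul, Complex.norm_real, norm_inv, norm_norm, inv_mul_cancel₀ hn.ne']
      · show inner ℂ ζ (((‖w‖⁻¹ : ℝ) : ℂ) • w) = 0
        rw [inner_smul_right, hw, mul_zero]
    have h3 := hM _ h2
    have h4 : db g ζ w = ((‖w‖ : ℝ) : ℂ) * db g ζ (((‖w‖⁻¹ : ℝ) : ℂ) • w) := by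
      conv_lhs => rw [h1]
      rw [db_smul_right, Complex.conj_ofReal]
    rw [h4, norm_mul, Complex.norm_real, norm_norm, mul_comm]
    exact mul_le_mul_of_nonneg_right h3 hn.le

/-- First bound. -/
theorem bound_first {g : EE d → ℂ} (_hg : ContDiff ℝ ∞ g) {M : ℝ}
    (hM : ∀ p ∈ DD d, ‖db g p.1 p.2‖ ≤ M) {z : EE d} (hz : ‖z‖ = 1) {r : ℝ} (hr0 : 0 ≤ r)
    (hr1 : r < 1) :
    ‖∫ ζ, phi z r ζ * db g ζ ((inner ℂ ζ z : ℂ) • ζ - z) ∂(sig d)‖ ≤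
      Real.sqrt 2 * 2 ^ (d + 2) * kerC d * M := by
  have h1 : ∀ ζ ∈ SS d, ‖phi z r ζ * db g ζ ((inner ℂ ζ z : ℂ) • ζ - z)‖ ≤
      (Real.sqrt 2 * 2 ^ (d + 2) * M) * ker z ζ := by
    intro ζ hζ
    have hζ1 := mem_sphere_zero_iff_norm.1 hζ
    have hx := norm_inner_le_one hz hζ1
    have hpos : 0 < ‖1 - (r : ℂ) * inner ℂ z ζ‖ := by
      have := one_sub_le hr0 hr1 hx
      linarith
    have hM0 : 0 ≤ M := by
      have : ((ζ, (0 : EE d)) : EE d × EE d) ∈ DD d := ⟨hζ1, by simp, by simp⟩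
      exact (norm_nonneg _).trans (hM _ this)
    have e1 : ‖phi z r ζ‖ ≤ (‖1 - (r : ℂ) * inner ℂ z ζ‖ ^ (d + 2))⁻¹ := by
      unfold phi
      rw [norm_mul, norm_mul, norm_neg, norm_inv, norm_inv, norm_pow, norm_inner_symm' ζ z, norm_div,
        norm_one]
      have e2 : ‖(d : ℂ) + 1‖ = (d : ℝ) + 1 := by
        rw [show (d : ℂ) + 1 = ((d + 1 : ℕ) : ℂ) by push_cast; ring, Complex.norm_natCast]
        push_cast; ring
      rw [e2]
      have e3 : (1:ℝ) / ((d:ℝ) + 1) ≤ 1 := by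
        rw [div_le_one (by positivity)]
        have : (0:ℝ) ≤ d := Nat.cast_nonneg d
        linarith
      have e4 : (‖1 - (r : ℂ) * inner ℂ z ζ‖ ^ (d + 2))⁻¹ =
          ‖1 - (r : ℂ) * inner ℂ z ζ‖⁻¹ * (‖1 - (r : ℂ) * inner ℂ z ζ‖ ^ (d + 1))⁻¹ := by
        rw [← mul_inv, ← pow_succ']
      rw [e4]
      refine mul_le_mul_of_nonneg_right ?_ (by positivity)
      exact mul_le_of_le_one_left (by positivity) e3
    have e2 := db_le_of_DD hM hζ1 (tang_orth (z := z) hζ1)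
    have e3 := norm_tang_le hζ1 hz
    have e4 := inv_pow_le hr0 hr1 hx (d + 2)
    rw [norm_mul]
    calc ‖phi z r ζ‖ * ‖db g ζ ((inner ℂ ζ z : ℂ) • ζ - z)‖
        ≤ (‖1 - (r : ℂ) * inner ℂ z ζ‖ ^ (d + 2))⁻¹ *
          (M * (Real.sqrt 2 * Real.sqrt ‖1 - inner ℂ z ζ‖)) := by
          refine mul_le_mul e1 (e2.trans (mul_le_mul_of_nonneg_left e3 hM0)) (norm_nonneg _)
            (by positivity)
      _ = (M * Real.sqrt 2) * ((‖1 - (r : ℂ) * inner ℂ z ζ‖ ^ (d + 2))⁻¹ *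
          Real.sqrt ‖1 - inner ℂ z ζ‖) := by ring
      _ ≤ (M * Real.sqrt 2) * (2 ^ (d + 2) *
          (Real.sqrt ‖1 - inner ℂ z ζ‖ / ‖1 - inner ℂ z ζ‖ ^ (d + 2))) :=
          mul_le_mul_of_nonneg_left e4 (by positivity)
      _ = (Real.sqrt 2 * 2 ^ (d + 2) * M) * ker z ζ := by
          unfold ker
          ring
  have h2 : ‖∫ ζ, phi z r ζ * db g ζ ((inner ℂ ζ z : ℂ) • ζ - z) ∂(sig d)‖ ≤
      ∫ ζ, (Real.sqrt 2 * 2 ^ (d + 2) * M) * ker z ζ ∂(sig d) :=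
    norm_integral_le_of_norm_le ((integrable_ker hz).const_mul _)
      (ae_mem_sphere.mono fun ζ hζ => h1 ζ hζ)
  rw [integral_const_mul, integral_ker hz] at h2
  refine h2.trans (le_of_eq (by ring))

/-- Radii tending to one. -/
def rad1 (j : ℕ) : ℝ := 1 - 1 / ((j : ℝ) + 2)

theorem rad1_nonneg (j : ℕ) : 0 ≤ rad1 j := by
  unfold rad1
  have : (0:ℝ) ≤ j := Nat.cast_nonneg j
  rw [sub_nonneg, div_le_one (by linarith)]
  linarith

theorem rad1_lt (j : ℕ) : rad1 j < 1 := by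
  unfold rad1
  have : (0:ℝ) ≤ j := Nat.cast_nonneg j
  have : 0 < 1 / ((j : ℝ) + 2) := by positivity
  linarith

theorem tendsto_rad1 : Filter.Tendsto rad1 Filter.atTop (nhds 1) := by
  have h1 : Filter.Tendsto (fun j : ℕ => 1 / ((j : ℝ) + 2)) Filter.atTop (nhds 0) := by
    have h2 := (Filter.tendsto_add_atTop_iff_nat 1).2
      (tendsto_one_div_add_atTop_nhds_zero_nat (𝕜 := ℝ))
    refine h2.congr fun j => ?_
    push_cast
    ring_nf
  have := h1.const_sub 1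
  rw [sub_zero] at this
  exact this

/-- The second term tends to zero. -/
theorem tendsto_second {g : EE d → ℂ} (hg : ContDiff ℝ ∞ g) {z : EE d} (hz : ‖z‖ = 1) :
    Filter.Tendsto (fun j : ℕ => ∫ ζ, (g ζ - g z) * ((1 - (rad1 j : ℂ)) * (1 + inner ℂ z ζ) /
      ((1 - rad1 j * inner ℂ z ζ) * (1 - rad1 j * inner ℂ ζ z) ^ (d + 2))) ∂(sig d))
      Filter.atTop (nhds 0) := by
  -- Lipschitz bound
  obtain ⟨L, hL⟩ : ∃ L : ℝ, 0 ≤ L ∧ ∀ ζ ∈ SS d, ‖g ζ - g z‖ ≤ L * ‖ζ - z‖ := by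
    have h1 : ContDiff ℝ ∞ (fderiv ℝ g) := (contDiff_infty_iff_fderiv.1 hg).2
    obtain ⟨L, hL⟩ := (isCompact_closedBall (0 : EE d) 1).exists_bound_of_continuousOn
      h1.continuous.continuousOn
    refine ⟨L, (norm_nonneg _).trans (hL 0 (by simp)), fun ζ hζ => ?_⟩
    exact (convex_closedBall (0 : EE d) 1).norm_image_sub_le_of_norm_fderiv_le (𝕜 := ℝ)
      (fun x _ => hg.differentiable (by simp) x) hL
      (mem_closedBall_zero_iff.2 hz.le) (sphere_subset_closedBall hζ)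
  obtain ⟨hL0, hL⟩ := hL
  have key := tendsto_integral_of_dominated_convergence (μ := sig d)
    (F := fun (j : ℕ) ζ => (g ζ - g z) * ((1 - (rad1 j : ℂ)) * (1 + inner ℂ z ζ) /
      ((1 - rad1 j * inner ℂ z ζ) * (1 - rad1 j * inner ℂ ζ z) ^ (d + 2))))
    (f := fun _ => 0) (fun ζ => (L * Real.sqrt 2 * 2 * 2 ^ (d + 2)) * ker z ζ) ?_
    ((integrable_ker hz).const_mul _) ?_ ?_
  · simpa using key
  · intro j
    refine aesm_of_continuousOn ?_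
    refine (hg.continuous.sub continuous_const).continuousOn.mul ?_
    refine ContinuousOn.div (by fun_prop) (by fun_prop) fun ζ hζ => ?_
    have hζ1 := mem_sphere_zero_iff_norm.1 hζ
    exact mul_ne_zero (one_sub_ne (rad1_nonneg j) (rad1_lt j) (norm_inner_le_one hz hζ1))
      (pow_ne_zero _ (one_sub_ne (rad1_nonneg j) (rad1_lt j) (norm_inner_le_one hζ1 hz)))
  · intro j
    refine ae_mem_sphere.mono fun ζ hζ => ?_
    have hζ1 := mem_sphere_zero_iff_norm.1 hζ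
    have hr0 := rad1_nonneg j
    have hr1 := rad1_lt j
    set r := rad1 j
    have hx := norm_inner_le_one hz hζ1
    have e1 := one_sub_le hr0 hr1 hx
    have hpos : 0 < ‖1 - (r : ℂ) * inner ℂ z ζ‖ := by linarith
    have e2 : ‖(1 - (r:ℂ)) * (1 + inner ℂ z ζ) /
      ((1 - r * inner ℂ z ζ) * (1 - r * inner ℂ ζ z) ^ (d + 2))‖ ≤
        2 * (‖1 - (r : ℂ) * inner ℂ z ζ‖ ^ (d + 2))⁻¹ := by
      rw [norm_div, norm_mul, norm_mul, norm_pow, norm_inner_symm' ζ z]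
      have e3 : ‖(1 - (r:ℂ))‖ = 1 - r := by
        rw [show (1 - (r:ℂ)) = ((1 - r : ℝ) : ℂ) by push_cast; ring, Complex.norm_real,
          Real.norm_of_nonneg (by linarith)]
      have e4 : ‖1 + (inner ℂ z ζ : ℂ)‖ ≤ 2 := by
        refine (norm_add_le _ _).trans ?_
        rw [norm_one]; linarith
      rw [e3, div_le_iff₀ (by positivity)]
      have e5 : 2 * (‖1 - (r : ℂ) * inner ℂ z ζ‖ ^ (d + 2))⁻¹ *
          (‖1 - (r : ℂ) * inner ℂ z ζ‖ * ‖1 - (r : ℂ) * inner ℂ z ζ‖ ^ (d + 2)) =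
          ‖1 - (r : ℂ) * inner ℂ z ζ‖ * 2 := by
        field_simp
      rw [e5]
      exact mul_le_mul e1 e4 (norm_nonneg _) hpos.le
    have e3 := hL ζ hζ
    have e4 := norm_sub_sq_sphere hζ1 hz
    have e5 := inv_pow_le hr0 hr1 hx (d + 2)
    show ‖(g ζ - g z) * ((1 - (r:ℂ)) * (1 + inner ℂ z ζ) /
      ((1 - r * inner ℂ z ζ) * (1 - r * inner ℂ ζ z) ^ (d + 2)))‖ ≤ _
    rw [norm_mul]
    calc ‖g ζ - g z‖ * ‖(1 - (r:ℂ)) * (1 + inner ℂ z ζ) /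
          ((1 - r * inner ℂ z ζ) * (1 - r * inner ℂ ζ z) ^ (d + 2))‖
        ≤ (L * (Real.sqrt 2 * Real.sqrt ‖1 - inner ℂ z ζ‖)) *
          (2 * (‖1 - (r : ℂ) * inner ℂ z ζ‖ ^ (d + 2))⁻¹) := by
          refine mul_le_mul (e3.trans (mul_le_mul_of_nonneg_left e4 hL0)) e2 (norm_nonneg _)
            (by positivity)
      _ = (L * Real.sqrt 2 * 2) * ((‖1 - (r : ℂ) * inner ℂ z ζ‖ ^ (d + 2))⁻¹ *
          Real.sqrt ‖1 - inner ℂ z ζ‖) := by ring
      _ ≤ (L * Real.sqrt 2 * 2) * (2 ^ (d + 2) *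
          (Real.sqrt ‖1 - inner ℂ z ζ‖ / ‖1 - inner ℂ z ζ‖ ^ (d + 2))) :=
          mul_le_mul_of_nonneg_left e5 (by positivity)
      _ = (L * Real.sqrt 2 * 2 * 2 ^ (d + 2)) * ker z ζ := by
          unfold ker
          ring
  · refine ae_mem_sphere.mono fun ζ hζ => ?_
    have hζ1 := mem_sphere_zero_iff_norm.1 hζ
    by_cases hw : inner ℂ z ζ = (1:ℂ)
    · have h1 : ζ = z := by
        have := norm_sub_sq_sphere hζ1 hz
        rw [hw, sub_self, norm_zero, Real.sqrt_zero, mul_zero] at this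
        exact sub_eq_zero.1 (norm_le_zero_iff.1 this)
      rw [h1]
      simp
    · have hw' : inner ℂ ζ z ≠ (1:ℂ) := by
        intro h
        apply hw
        rw [← inner_conj_symm, h, map_one]
      have t1 : Filter.Tendsto (fun j : ℕ => ((rad1 j : ℝ) : ℂ)) Filter.atTop (nhds 1) := by
        have : Filter.Tendsto (fun j : ℕ => ((rad1 j : ℝ) : ℂ)) Filter.atTop
          (nhds ((1:ℝ):ℂ)) := (Complex.continuous_ofReal.tendsto 1).comp tendsto_rad1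
        rwa [Complex.ofReal_one] at this
      have t2 : Filter.Tendsto (fun j : ℕ => (1 - ((rad1 j : ℝ) : ℂ)) * (1 + inner ℂ z ζ))
          Filter.atTop (nhds ((1 - 1) * (1 + inner ℂ z ζ))) :=
        (t1.const_sub 1).mul_const _
      have t3 : Filter.Tendsto (fun j : ℕ => (1 - (rad1 j : ℂ) * inner ℂ z ζ) *
          (1 - (rad1 j : ℂ) * inner ℂ ζ z) ^ (d + 2))
          Filter.atTop (nhds ((1 - 1 * inner ℂ z ζ) * (1 - 1 * inner ℂ ζ z) ^ (d + 2))) :=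
        ((t1.mul_const _).const_sub 1).mul (((t1.mul_const _).const_sub 1).pow _)
      have hne : (1 - 1 * inner ℂ z ζ) * (1 - 1 * inner ℂ ζ z) ^ (d + 2) ≠ (0:ℂ) := by
        refine mul_ne_zero ?_ (pow_ne_zero _ ?_)
        · rw [one_mul]; exact sub_ne_zero.2 (Ne.symm hw)
        · rw [one_mul]; exact sub_ne_zero.2 (Ne.symm hw')
      have t4 := (t2.div t3 hne).const_mul (g ζ - g z)
      simpa using t4

/-- The constant in the key inequality. -/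
def CK (d : ℕ) : ℝ := Real.sqrt 2 * 2 ^ (d + 2) * kerC d

/-- The key inequality. -/
theorem key_ineq {g : EE d → ℂ} (hg : ContDiff ℝ ∞ g) {M : ℝ}
    (hM : ∀ p ∈ DD d, ‖db g p.1 p.2‖ ≤ M) {z : EE d} (hz : z ∈ SS d) :
    ‖g z - SZ g z‖ ≤ CK d * M := by
  have hz1 := mem_sphere_zero_iff_norm.1 hz
  obtain ⟨F, hF, hFSZ⟩ := exists_projection hg
  have hgc := hg.continuous.continuousOn (s := SS d)
  -- formula
  have formula : ∀ j : ℕ, F ((rad1 j : ℂ) • z) - g z =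
      - ∫ ζ, phi z (rad1 j) ζ * db g ζ ((inner ℂ ζ z : ℂ) • ζ - z) ∂(sig d) +
      ∫ ζ, (g ζ - g z) * ((1 - (rad1 j : ℂ)) * (1 + inner ℂ z ζ) /
      ((1 - rad1 j * inner ℂ z ζ) * (1 - rad1 j * inner ℂ ζ z) ^ (d + 2))) ∂(sig d) := by
    intro j
    have hr0 := rad1_nonneg j
    have hr1 := rad1_lt j
    set r := rad1 j
    have e0 : F ((r : ℂ) • z) = SZ g ((r : ℂ) • z) := by
      refine hFSZ _ ?_
      rw [mem_closedBall_zero_iff, norm_smul, hz1, Complex.norm_real, Real.norm_of_nonneg hr0]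
      linarith
    have cden : ContinuousOn (fun ζ : EE d => (1 / (1 - (r:ℂ) * inner ℂ ζ z) ^ (d + 2))) (SS d) := by
      refine ContinuousOn.div (by fun_prop) (by fun_prop) fun ζ hζ => ?_
      exact pow_ne_zero _ (one_sub_ne hr0 hr1
        (norm_inner_le_one (mem_sphere_zero_iff_norm.1 hζ) hz1))
    have cK : ContinuousOn (fun ζ : EE d => (g ζ - g z) * ((r - inner ℂ z ζ) /
        ((1 - r * inner ℂ z ζ) * (1 - r * inner ℂ ζ z) ^ (d + 2)))) (SS d) := by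
      refine (hg.continuous.sub continuous_const).continuousOn.mul ?_
      refine ContinuousOn.div (by fun_prop) (by fun_prop) fun ζ hζ => ?_
      have hζ1 := mem_sphere_zero_iff_norm.1 hζ
      exact mul_ne_zero (one_sub_ne hr0 hr1 (norm_inner_le_one hz1 hζ1))
        (pow_ne_zero _ (one_sub_ne hr0 hr1 (norm_inner_le_one hζ1 hz1)))
    have cA : ContinuousOn (fun ζ : EE d => (g ζ - g z) * ((1 - (r : ℂ)) * (1 + inner ℂ z ζ) /
        ((1 - r * inner ℂ z ζ) * (1 - r * inner ℂ ζ z) ^ (d + 2)))) (SS d) := by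
      refine (hg.continuous.sub continuous_const).continuousOn.mul ?_
      refine ContinuousOn.div (by fun_prop) (by fun_prop) fun ζ hζ => ?_
      have hζ1 := mem_sphere_zero_iff_norm.1 hζ
      exact mul_ne_zero (one_sub_ne hr0 hr1 (norm_inner_le_one hz1 hζ1))
        (pow_ne_zero _ (one_sub_ne hr0 hr1 (norm_inner_le_one hζ1 hz1)))
    have e1 : SZ g ((r : ℂ) • z) - g z =
        ∫ ζ, (g ζ - g z) * (1 / (1 - (r:ℂ) * inner ℂ ζ z) ^ (d + 2)) ∂(sig d) := by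
      rw [SZ_eq_integral hgc hz1 hr0 hr1]
      have e2 : g z = ∫ ζ, g z * (1 / (1 - (r:ℂ) * inner ℂ ζ z) ^ (d + 2)) ∂(sig d) := by
        rw [integral_const_mul, integral_kernel_one hz1 hr0 hr1, mul_one]
      have i1 : Integrable (fun ζ : EE d => g ζ * (1 / (1 - (r:ℂ) * inner ℂ ζ z) ^ (d + 2)))
        (sig d) := integrable_of_continuousOn (hgc.mul cden)
      have i2 : Integrable (fun ζ : EE d => g z * (1 / (1 - (r:ℂ) * inner ℂ ζ z) ^ (d + 2)))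
        (sig d) := integrable_of_continuousOn (continuousOn_const.mul cden)
      conv_lhs => rw [e2]
      rw [← integral_sub i1 i2]
      congr 1
      funext ζ
      ring
    rw [e0, e1, ← integral_identity hz1 hr0 hr1 hg (g z), ← integral_add
      (integrable_of_continuousOn cK) (integrable_of_continuousOn cA)]
    refine integral_congr_sphere fun ζ hζ => ?_
    have hζ1 := mem_sphere_zero_iff_norm.1 hζ
    have n1 := one_sub_ne hr0 hr1 (norm_inner_le_one hz1 hζ1)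
    have n2 := one_sub_ne hr0 hr1 (norm_inner_le_one hζ1 hz1)
    field_simp
    ring
  -- limits
  have t1 : Filter.Tendsto (fun j : ℕ => ((rad1 j : ℝ) : ℂ)) Filter.atTop (nhds 1) := by
    have : Filter.Tendsto (fun j : ℕ => ((rad1 j : ℝ) : ℂ)) Filter.atTop
      (nhds ((1:ℝ):ℂ)) := (Complex.continuous_ofReal.tendsto 1).comp tendsto_rad1
    rwa [Complex.ofReal_one] at this
  have t2 : Filter.Tendsto (fun j : ℕ => F ((rad1 j : ℂ) • z)) Filter.atTop (nhds (F z)) := by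
    have h1 : Filter.Tendsto (fun j : ℕ => (rad1 j : ℂ) • z) Filter.atTop (nhds ((1:ℂ) • z)) :=
      t1.smul_const z
    rw [one_smul] at h1
    exact (hF.1.continuous.tendsto z).comp h1
  have t3 := tendsto_second hg hz1
  have t4 : Filter.Tendsto (fun j : ℕ => ‖(F ((rad1 j : ℂ) • z) - g z) -
      ∫ ζ, (g ζ - g z) * ((1 - (rad1 j : ℂ)) * (1 + inner ℂ z ζ) /
      ((1 - rad1 j * inner ℂ z ζ) * (1 - rad1 j * inner ℂ ζ z) ^ (d + 2))) ∂(sig d)‖)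
      Filter.atTop (nhds ‖(F z - g z) - 0‖) :=
    ((t2.sub_const (g z)).sub t3).norm
  have h5 : ‖(F z - g z) - 0‖ ≤ CK d * M := by
    refine le_of_tendsto t4 (Filter.Eventually.of_forall fun j => ?_)
    rw [formula j, add_sub_cancel_right, norm_neg]
    exact bound_first hg hM hz1 (rad1_nonneg j) (rad1_lt j)
  rw [sub_zero, hFSZ z (sphere_subset_closedBall hz), norm_sub_rev] at h5
  exact h5

theorem CK_nonneg : 0 ≤ CK d := by
  unfold CK kerC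
  have : 0 ≤ ∫ ζ : EE d, Real.sqrt ‖1 - ζ 0‖ / ‖1 - ζ 0‖ ^ (d + 2) ∂(sig d) :=
    integral_nonneg fun ζ => by positivity
  positivity

end

end Pool.Agent.PeakLib
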