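import Pool.Agent.Lib.MP_7d1258_an.Theta

/-!
Peak sets: boundary behaviour of the defining functions.
-/

set_option autoImplicit false
set_option linter.unusedSectionVars false

namespace Pool.Agent.PeakLib

open scoped ContDiff
open MeasureTheory Metric Complex Filter

noncomputable section

variable {d : ℕ}

theorem real_inner_eq' (x y : EE d) : inner ℝ x y = (inner ℂ x y).re := by
  rw [PiLp.inner_apply, PiLp.inner_apply, Complex.re_sum]
  rfl

/-- `e` exhibits `Z` as a peak set. -/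
structure PK (e : EE d → ℂ) (Z : Set (EE d)) : Prop where
  aa : AA e
  sub : Z ⊆ SS d
  zero : ∀ z ∈ Z, e z = 0
  pos : ∀ z ∈ closedBall (0 : EE d) 1, z ∉ Z → 0 < (e z).re

/-- Peak sets. -/
def IsPk (Z : Set (EE d)) : Prop := ∃ e : EE d → ℂ, PK e Z

namespace PK

variable {e : EE d → ℂ} {Z : Set (EE d)} (h : PK e Z)

include h

theorem re_nonneg {z : EE d} (hz : z ∈ closedBall (0 : EE d) 1) : 0 ≤ (e z).re := by
  by_cases hzZ : z ∈ Z
  · rw [h.zero z hzZ]; simp
  · exact (h.pos z hz hzZ).le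

theorem re_nonneg' {z : EE d} (hz : z ∈ SS d) : 0 ≤ (e z).re :=
  h.re_nonneg (sphere_subset_closedBall hz)

theorem mem_iff {z : EE d} (hz : z ∈ closedBall (0 : EE d) 1) : z ∈ Z ↔ (e z).re = 0 := by
  constructor
  · intro hzZ; rw [h.zero z hzZ]; simp
  · intro h0
    by_contra hzZ
    have := h.pos z hz hzZ
    linarith

theorem mem_iff' {z : EE d} (hz : z ∈ closedBall (0 : EE d) 1) : z ∈ Z ↔ e z = 0 := by
  constructor
  · intro hzZ; exact h.zero z hzZ
  · intro h0
    rw [h.mem_iff hz, h0]; simp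

theorem isClosed : IsClosed Z := by
  have h1 : Z = SS d ∩ {z | e z = 0} := by
    ext z
    constructor
    · intro hz; exact ⟨h.sub hz, h.zero z hz⟩
    · rintro ⟨hz, h0⟩
      exact (h.mem_iff' (sphere_subset_closedBall hz)).2 h0
  rw [h1]
  exact isClosed_sphere.inter (isClosed_eq h.aa.1.continuous continuous_const)

/-- Harnack type lower bound. -/
theorem lower_bound {ζ : EE d} (hζ : ζ ∈ SS d) {r : ℝ} (hr0 : 0 ≤ r) (hr1 : r < 1) :
    (1 - r) * ‖e 0‖ ≤ 2 * ‖e ((r : ℂ) • ζ)‖ := by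
  have hζ1 := mem_sphere_zero_iff_norm.1 hζ
  have hmem : ∀ l : ℂ, l ∈ ball (0:ℂ) 1 → l • ζ ∈ ball (0 : EE d) 1 := by
    intro l hl
    rw [mem_ball_zero_iff] at hl ⊢
    rw [norm_smul, hζ1, mul_one]
    exact hl
  have hpos : ∀ l : ℂ, l ∈ ball (0:ℂ) 1 → 0 < (e (l • ζ)).re := by
    intro l hl
    refine h.pos _ (ball_subset_closedBall (hmem l hl)) fun hZ => ?_
    have h1 := mem_sphere_zero_iff_norm.1 (h.sub hZ)
    have h2 := mem_ball_zero_iff.1 (hmem l hl)
    linarith
  set a := e 0 with ha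
  have ha0 : 0 < a.re := by
    have := hpos 0 (by simp)
    rwa [zero_smul] at this
  have hne : ∀ l : ℂ, l ∈ ball (0:ℂ) 1 → e (l • ζ) + (starRingEnd ℂ) a ≠ 0 := by
    intro l hl h0
    have h1 := congrArg Complex.re h0
    rw [Complex.add_re, Complex.conj_re, Complex.zero_re] at h1
    have := hpos l hl
    linarith
  set ψ : ℂ → ℂ := fun l => (e (l • ζ) - a) / (e (l • ζ) + (starRingEnd ℂ) a) with hψ
  have hd : DifferentiableOn ℂ ψ (ball (0:ℂ) 1) := by
    have h1 : DifferentiableOn ℂ (fun l : ℂ => e (l • ζ)) (ball (0:ℂ) 1) := by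
      refine (AA_iff.1 h.aa).2.comp ?_ (fun l hl => hmem l hl)
      exact (differentiable_id.smul_const ζ).differentiableOn
    exact (h1.sub_const a).div (h1.add_const _) hne
  have hmaps : Set.MapsTo ψ (ball (0:ℂ) 1) (ball (0:ℂ) 1) := by
    intro l hl
    rw [mem_ball_zero_iff, hψ]
    simp only []
    rw [norm_div, div_lt_one (norm_pos_iff.2 (hne l hl))]
    refine (sq_lt_sq₀ (norm_nonneg _) (norm_nonneg _)).1 ?_
    rw [← Complex.normSq_eq_norm_sq, ← Complex.normSq_eq_norm_sq, Complex.normSq_apply,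
      Complex.normSq_apply]
    simp only [Complex.sub_re, Complex.sub_im, Complex.add_re, Complex.add_im, Complex.conj_re,
      Complex.conj_im]
    have := hpos l hl
    nlinarith
  have h0 : ψ 0 = 0 := by
    rw [hψ]
    simp [ha]
  have hrm : (r : ℂ) ∈ ball (0:ℂ) 1 := by
    rw [mem_ball_zero_iff, Complex.norm_real, Real.norm_of_nonneg hr0]
    exact hr1
  have hS := Complex.norm_le_norm_of_mapsTo_ball hd (hmaps.mono_right ball_subset_closedBall) h0
    (mem_ball_zero_iff.1 hrm)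
  rw [hψ] at hS
  simp only [] at hS
  rw [norm_div, Complex.norm_real, Real.norm_of_nonneg hr0,
    div_le_iff₀ (norm_pos_iff.2 (hne _ hrm))] at hS
  set x := e ((r : ℂ) • ζ)
  have h1 : ‖a‖ - ‖x‖ ≤ ‖x - a‖ := by
    have := norm_sub_norm_le a x
    rwa [norm_sub_rev] at this
  have h2 : ‖x + (starRingEnd ℂ) a‖ ≤ ‖x‖ + ‖a‖ := by
    refine (norm_add_le _ _).trans ?_
    rw [RCLike.norm_conj]
  have h3 : r * ‖x + (starRingEnd ℂ) a‖ ≤ r * (‖x‖ + ‖a‖) := mul_le_mul_of_nonneg_left h2 hr0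
  have h4 : r * ‖x‖ ≤ ‖x‖ := mul_le_of_le_one_left (norm_nonneg _) hr1.le
  nlinarith

/-- Hopf lemma. -/
theorem rad_ne_zero {ζ : EE d} (hζ : ζ ∈ Z) : rad e ζ ≠ 0 := by
  intro h0
  have hζS := h.sub hζ
  have hζ1 := mem_sphere_zero_iff_norm.1 hζS
  obtain ⟨C, hC0, hC⟩ := taylor2 h.aa.1 (isCompact_closedBall (0 : EE d) 1)
    (convex_closedBall (0 : EE d) 1)
  have ha0 : 0 < ‖e 0‖ := by
    have h1 : 0 < (e 0).re := h.pos 0 (by simp) fun hZ => by
      have := mem_sphere_zero_iff_norm.1 (h.sub hZ)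
      simp at this
    exact h1.trans_le (Complex.re_le_norm _)
  -- choose r close to one
  set s : ℝ := min (1 / 2) (‖e 0‖ / (2 * (2 * C + 1))) with hs
  have hs0 : 0 < s := by positivity
  have hs1 : s ≤ 1 / 2 := min_le_left _ _
  have hs2 : s ≤ ‖e 0‖ / (2 * (2 * C + 1)) := min_le_right _ _
  have h1 := h.lower_bound hζS (r := 1 - s) (by linarith) (by linarith)
  have h2 := hC ζ (sphere_subset_closedBall hζS) (((1 - s : ℝ) : ℂ) • ζ) (by
    rw [mem_closedBall_zero_iff, norm_smul, hζ1, Complex.norm_real,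
      Real.norm_of_nonneg (by linarith)]
    linarith)
  have h3 : ((1 - s : ℝ) : ℂ) • ζ - ζ = (-s) • ζ := by
    rw [complex_smul_eq]
    simp only [Complex.ofReal_re, Complex.ofReal_im, zero_smul, add_zero]
    rw [sub_smul, one_smul, neg_smul]
    abel
  rw [h3, map_smul, h.zero ζ hζ] at h2
  have h4 : fderiv ℝ e ζ ζ = 0 := h0
  rw [h4, smul_zero, sub_zero, sub_zero, norm_smul, hζ1, Real.norm_eq_abs, abs_neg,
    abs_of_pos hs0, mul_one] at h2
  have h5 : s * ‖e 0‖ ≤ 2 * (C * s ^ 2) := by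
    have : (1 - (1 - s)) = s := by ring
    rw [this] at h1
    linarith
  have h6 : ‖e 0‖ ≤ 2 * C * s := by
    have h7 : s * ‖e 0‖ ≤ s * (2 * C * s) := by nlinarith
    exact le_of_mul_le_mul_left h7 hs0
  have h7 : (2 * C) * s ≤ ‖e 0‖ / 2 := by
    calc (2 * C) * s ≤ (2 * C + 1) * s := by nlinarith
      _ ≤ (2 * C + 1) * (‖e 0‖ / (2 * (2 * C + 1))) :=
          mul_le_mul_of_nonneg_left hs2 (by linarith)
      _ = ‖e 0‖ / 2 := by field_simp
  linarith

/-- Tangential derivative estimate. -/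
theorem tangential : ∃ C : ℝ, 0 ≤ C ∧ ∀ z ∈ SS d, ∀ w : EE d, inner ℂ z w = 0 →
    ‖fderiv ℝ e z w‖ ≤ C * Real.sqrt (e z).re * ‖w‖ := by
  obtain ⟨C, hC0, hC⟩ := taylor2 h.aa.1 (isCompact_closedBall (0 : EE d) 1)
    (convex_closedBall (0 : EE d) 1)
  have hD1 : ContDiff ℝ ∞ (fderiv ℝ e) := (contDiff_infty_iff_fderiv.1 h.aa.1).2
  obtain ⟨M1, hM1⟩ := isCompact_SS.exists_bound_of_continuousOn (s := SS d)
    hD1.continuous.continuousOn
  obtain ⟨M2, hM2⟩ := isCompact_SS.exists_bound_of_continuousOn (s := SS d)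
    h.aa.1.continuous.continuousOn
  set M : ℝ := |M1| + 2 * C + |M2| + 1 with hM
  have hMpos : 0 < M := by positivity
  -- unit vectors, real part
  have key : ∀ z ∈ SS d, ∀ w : EE d, inner ℂ z w = 0 → ‖w‖ = 1 →
      |(fderiv ℝ e z w).re| ≤ 2 * Real.sqrt M * Real.sqrt (e z).re := by
    intro z hz w hzw hw
    have hz1 := mem_sphere_zero_iff_norm.1 hz
    have hzc := sphere_subset_closedBall hz
    have hwz : inner ℂ w z = 0 := by
      rw [← inner_conj_symm, hzw, map_zero]
    set D := (fderiv ℝ e z w).re with hD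
    have hρM : (e z).re ≤ M := by
      have := (Complex.re_le_norm _).trans (hM2 z hz)
      have h1 := le_abs_self M2
      have h2 := abs_nonneg M1
      linarith
    have hsq : D ^ 2 ≤ 4 * M * (e z).re := by
      refine quad_ineq hMpos hρM fun t ht => ?_
      have ht2 : t ^ 2 ≤ 1 := by
        rw [← sq_abs]
        exact pow_le_one₀ (abs_nonneg _) ht
      have ht0 : 0 ≤ t ^ 2 := sq_nonneg t
      set y : EE d := (1 - t ^ 2) • z + t • w with hy
      have hri : inner ℝ z w = 0 := by rw [real_inner_eq', hzw]; rfl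
      have hynorm : ‖y‖ ^ 2 = (1 - t ^ 2) ^ 2 + t ^ 2 := by
        rw [hy, norm_add_sq_real, norm_smul, norm_smul, hz1, hw, inner_smul_left,
          inner_smul_right, hri]
        simp only [Real.norm_eq_abs, mul_one, sq_abs]
        simp
      have hyc : y ∈ closedBall (0 : EE d) 1 := by
        rw [mem_closedBall_zero_iff]
        have h1 : ‖y‖ ^ 2 ≤ 1 := by
          rw [hynorm]
          nlinarith
        exact (sq_le_one_iff₀ (norm_nonneg _)).1 h1
      have hyz : y - z = t • w - (t ^ 2) • z := by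
        rw [hy, sub_smul, one_smul]
        abel
      have hyzn : ‖y - z‖ ^ 2 ≤ 2 * t ^ 2 := by
        rw [hyz, norm_sub_sq_real, norm_smul, norm_smul, hz1, hw, inner_smul_left,
          inner_smul_right, real_inner_comm, hri]
        simp only [Real.norm_eq_abs, mul_one, sq_abs]
        simp only [mul_zero, sub_zero]
        nlinarith
      have h1 := hC z hzc y hyc
      have h2 := (Complex.abs_re_le_norm _).trans h1
      have h3 : (e y - e z - fderiv ℝ e z (y - z)).re =
          (e y).re - (e z).re - (t * D - t ^ 2 * (fderiv ℝ e z z).re) := by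
        rw [hyz, map_sub, map_smul, map_smul]
        simp [hD, -Complex.ofReal_pow]
      rw [h3] at h2
      have h4 := (abs_le.1 h2).2
      have h5 := h.re_nonneg hyc
      have h6 : |(fderiv ℝ e z z).re| ≤ |M1| := by
        refine (Complex.abs_re_le_norm _).trans ?_
        refine ((fderiv ℝ e z).le_opNorm z).trans ?_
        rw [hz1, mul_one]
        exact (hM1 z hz).trans (le_abs_self _)
      have h7 : -(t ^ 2 * (fderiv ℝ e z z).re) ≤ t ^ 2 * |M1| := by
        have h8 := (abs_le.1 h6).1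
        nlinarith
      have h8 : C * ‖y - z‖ ^ 2 ≤ C * (2 * t ^ 2) := mul_le_mul_of_nonneg_left hyzn hC0
      have h9 : 0 ≤ |M2| * t ^ 2 := by positivity
      rw [hM]
      nlinarith
    rw [mul_assoc, ← Real.sqrt_mul hMpos.le]
    refine abs_le_of_sq_le_sq ?_ (by positivity)
    rw [mul_pow, Real.sq_sqrt (mul_nonneg hMpos.le (h.re_nonneg' hz))]
    linarith
  refine ⟨4 * Real.sqrt M, by positivity, fun z hz w hzw => ?_⟩
  have hzc := sphere_subset_closedBall hz
  rcases eq_or_ne w 0 with hw0 | hw0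
  · rw [hw0]; simp
  · have hwn : 0 < ‖w‖ := norm_pos_iff.2 hw0
    set w' : EE d := ((‖w‖⁻¹ : ℝ) : ℂ) • w with hw'
    have hw'1 : ‖w'‖ = 1 := by
      rw [hw', norm_smul, Complex.norm_real, norm_inv, norm_norm, inv_mul_cancel₀ hwn.ne']
    have hw'z : inner ℂ z w' = 0 := by
      rw [hw', inner_smul_right, hzw, mul_zero]
    have hww : w = ((‖w‖ : ℝ) : ℂ) • w' := by
      rw [hw', smul_smul, ← Complex.ofReal_mul, mul_inv_cancel₀ hwn.ne', Complex.ofReal_one,
        one_smul]
    have k1 := key z hz w' hw'z hw'1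
    have k2 := key z hz (I • w') (by rw [inner_smul_right, hw'z, mul_zero])
      (by rw [norm_smul, norm_I, one_mul, hw'1])
    rw [h.aa.fderiv_I_smul hzc] at k2
    have e1 : (I * fderiv ℝ e z w').re = -(fderiv ℝ e z w').im := by simp
    rw [e1, abs_neg] at k2
    have k3 : ‖fderiv ℝ e z w'‖ ≤ 4 * Real.sqrt M * Real.sqrt (e z).re := by
      refine (Complex.norm_le_abs_re_add_abs_im _).trans ?_
      linarith
    conv_lhs => rw [hww]
    rw [h.aa.fderiv_smul hzc, norm_mul, Complex.norm_real, norm_norm, mul_comm]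
    exact mul_le_mul_of_nonneg_right k3 hwn.le

/-- Uniform nondegeneracy of the radial derivative near the zero set. -/
theorem rad_lower : ∃ c : ℝ, 0 < c ∧ ∀ z ∈ SS d, ‖e z‖ ≤ c → c < ‖rad e z‖ := by
  have hcont : ContinuousOn (fun z => max ‖rad e z‖ ‖e z‖) (SS d) :=
    ((h.aa.rad.1.continuous.norm).max (h.aa.1.continuous.norm)).continuousOn
  have hne : (SS d).Nonempty := by
    refine ⟨EuclideanSpace.single 0 (1:ℂ), ?_⟩
    rw [mem_sphere_zero_iff_norm]
    simp
  obtain ⟨z0, hz0, hmin⟩ := isCompact_SS.exists_isMinOn hne hcont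
  set μ := max ‖rad e z0‖ ‖e z0‖ with hμ
  have hμ0 : 0 < μ := by
    by_cases h0 : z0 ∈ Z
    · exact lt_max_of_lt_left (norm_pos_iff.2 (h.rad_ne_zero h0))
    · refine lt_max_of_lt_right (norm_pos_iff.2 fun h1 => h0 ?_)
      exact (h.mem_iff' (sphere_subset_closedBall hz0)).2 h1
  refine ⟨μ / 2, by linarith, fun z hz hez => ?_⟩
  have h1 : μ ≤ max ‖rad e z‖ ‖e z‖ := hmin hz
  rcases le_max_iff.1 h1 with h2 | h2
  · linarith
  · linarith

end PK

end

end Pool.Agent.PeakLib
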