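import Pool.Agent.Lib.MP_7d1258_an.Final

/-!
Functions which are holomorphic in the ball and smooth on the closed ball (in the sense of
one-sided derivatives up to the boundary) are restrictions of smooth functions on `ℂ^n`.
-/

set_option autoImplicit false
set_option linter.unusedSectionVars false

namespace Pool.Agent.PeakLib

open scoped ContDiff
open MeasureTheory Metric Complex Filter

noncomputable section

variable {d : ℕ}

theorem uniqueDiff_CB : UniqueDiffOn ℝ (closedBall (0 : EE d) 1) := by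
  refine uniqueDiffOn_convex (convex_closedBall _ _) ?_
  rw [interior_closedBall _ one_ne_zero]
  exact ⟨0, mem_ball_self one_pos⟩

/-- Rotation derivative relative to the closed ball. -/
def TW (g : EE d → ℂ) (p : EE d) : ℂ := fderivWithin ℝ g (closedBall (0 : EE d) 1) p (I • p)

theorem contDiffOn_TW {g : EE d → ℂ} (hg : ContDiffOn ℝ ∞ g (closedBall (0 : EE d) 1)) :
    ContDiffOn ℝ ∞ (TW g) (closedBall (0 : EE d) 1) := by
  have h1 := ((contDiffOn_infty_iff_fderivWithin uniqueDiff_CB).1 hg).2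
  exact h1.clm_apply contDiff_I_smul.contDiffOn

theorem contDiffOn_TW_iterate {g : EE d → ℂ} (hg : ContDiffOn ℝ ∞ g (closedBall (0 : EE d) 1))
    (k : ℕ) : ContDiffOn ℝ ∞ (TW^[k] g) (closedBall (0 : EE d) 1) := by
  induction k generalizing g with
  | zero => exact hg
  | succ k ih => exact ih (contDiffOn_TW hg)

theorem TE_iterate_congr {U : Set (EE d)} (hU : IsOpen U) (k : ℕ) : ∀ {g h : EE d → ℂ},
    (∀ z ∈ U, g z = h z) → ∀ z ∈ U, (TE^[k] g) z = (TE^[k] h) z := by
  induction k with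
  | zero => intro g h H z hz; exact H z hz
  | succ k ih =>
    intro g h H
    rw [Function.iterate_succ, Function.comp_apply, Function.comp_apply]
    refine ih fun z hz => ?_
    unfold TE
    have h1 : g =ᶠ[nhds z] h := (hU.mem_nhds hz) |> fun h2 => Filter.eventuallyEq_of_mem h2 H
    rw [h1.fderiv_eq]

theorem TW_iterate_eq (k : ℕ) : ∀ {g h : EE d → ℂ}, (∀ z ∈ ball (0 : EE d) 1, g z = h z) →
    ∀ z ∈ ball (0 : EE d) 1, (TW^[k] g) z = (TE^[k] h) z := by
  induction k with
  | zero => intro g h H z hz; exact H z hz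
  | succ k ih =>
    intro g h H
    rw [Function.iterate_succ, Function.comp_apply, Function.iterate_succ, Function.comp_apply]
    refine ih fun z hz => ?_
    unfold TW TE
    have h1 : g =ᶠ[nhds z] h := Filter.eventuallyEq_of_mem (isOpen_ball.mem_nhds hz) H
    rw [fderivWithin_of_mem_nhds (closedBall_mem_nhds_of_mem hz), h1.fderiv_eq]

theorem TE_dilate (h : EE d → ℂ) (r : ℝ) :
    TE (fun z => h (r • z)) = fun z => TE h (r • z) := by
  funext z
  unfold TE
  rw [fderiv_comp_smul, smul_apply, ← map_smul, smul_comm]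

theorem TE_dilate_iterate (k : ℕ) (r : ℝ) : ∀ (h : EE d → ℂ),
    TE^[k] (fun z => h (r • z)) = fun z => (TE^[k] h) (r • z) := by
  induction k with
  | zero => intro h; rfl
  | succ k ih =>
    intro h
    rw [Function.iterate_succ, Function.comp_apply, Function.comp_apply, TE_dilate, ih]

theorem exists_dilate {f : EE d → ℂ} (hf : ContDiffOn ℝ ∞ f (closedBall (0 : EE d) 1))
    (hd : DifferentiableOn ℂ f (ball (0 : EE d) 1)) {r : ℝ} (hr0 : 0 < r) (hr1 : r < 1) :
    ∃ g : EE d → ℂ, AA g ∧ ∃ R : ℝ, 1 < R ∧ ∀ z ∈ ball (0 : EE d) R, g z = f (r • z) := by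
  set s : ℝ := 1 / r with hs
  have hs1 : 1 < s := by rw [hs, lt_div_iff₀ hr0]; linarith
  have hrs : r * s = 1 := by rw [hs]; field_simp
  let χ : ContDiffBump (0 : EE d) := ⟨(1 + (1 + s) / 2) / 2, (1 + s) / 2, by linarith, by linarith⟩
  have hin : χ.rIn = (1 + (1 + s) / 2) / 2 := rfl
  have hout : χ.rOut = (1 + s) / 2 := rfl
  have hball : ∀ z ∈ ball (0 : EE d) s, r • z ∈ ball (0 : EE d) 1 := by
    intro z hz
    rw [mem_ball_zero_iff] at hz ⊢
    rw [norm_smul, Real.norm_of_nonneg hr0.le, ← hrs]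
    exact mul_lt_mul_of_pos_left hz hr0
  set g : EE d → ℂ := fun z => ((χ z : ℝ) : ℂ) * f (r • z) with hg
  have hcd : ContDiff ℝ ∞ g := by
    rw [contDiff_iff_contDiffAt]
    intro z
    by_cases hz : z ∈ ball (0 : EE d) s
    · have h1 : ContDiffAt ℝ ∞ f (r • z) := by
        have h2 := hf (r • z) (ball_subset_closedBall (hball z hz))
        exact h2.contDiffAt (closedBall_mem_nhds_of_mem (hball z hz))
      have h2 : ContDiffAt ℝ ∞ (fun z : EE d => f (r • z)) z :=
        ContDiffAt.comp z h1 (contDiff_const_smul r).contDiffAt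
      have h3 : ContDiffAt ℝ ∞ (fun z : EE d => ((χ z : ℝ) : ℂ)) z :=
        (Complex.ofRealCLM.contDiff.comp χ.contDiff).contDiffAt
      exact h3.mul h2
    · have h1 : z ∈ (tsupport χ)ᶜ := by
        rw [χ.tsupport_eq, hout]
        intro h2
        rw [mem_closedBall_zero_iff] at h2
        rw [mem_ball_zero_iff, not_lt] at hz
        linarith
      have h2 : g =ᶠ[nhds z] fun _ => 0 := by
        refine Filter.eventuallyEq_of_mem ((isClosed_tsupport χ).isOpen_compl.mem_nhds h1) ?_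
        intro w hw
        show ((χ w : ℝ) : ℂ) * f (r • w) = 0
        rw [image_eq_zero_of_notMem_tsupport hw]
        simp
      exact contDiffAt_const.congr_of_eventuallyEq h2
  have hR1 : 1 < (1 + (1 + s) / 2) / 2 := by linarith
  have heq : ∀ z ∈ ball (0 : EE d) ((1 + (1 + s) / 2) / 2), g z = f (r • z) := by
    intro z hz
    have h1 : χ z = 1 := χ.one_of_mem_closedBall (by rw [hin]; exact ball_subset_closedBall hz)
    show ((χ z : ℝ) : ℂ) * f (r • z) = f (r • z)
    rw [h1]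
    simp
  refine ⟨g, AA_iff.2 ⟨hcd, ?_⟩, (1 + (1 + s) / 2) / 2, hR1, heq⟩
  have h1 : DifferentiableOn ℂ (fun z : EE d => f (r • z)) (ball (0 : EE d) 1) := by
    have h2 : ∀ z : EE d, r • z = (r : ℂ) • z := fun z => (Complex.coe_smul r z).symm
    simp only [h2]
    refine hd.comp (differentiable_id.const_smul (r : ℂ)).differentiableOn fun z hz => ?_
    have h3 := hball z (ball_subset_ball hs1.le hz)
    rwa [h2] at h3
  exact h1.congr fun z hz => heq z (ball_subset_ball hR1.le hz)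

/-- Regularity up to the boundary gives a smooth extension. -/
theorem exists_AA {f : EE d → ℂ} (hf : ContDiffOn ℝ ∞ f (closedBall (0 : EE d) 1))
    (hd : DifferentiableOn ℂ f (ball (0 : EE d) 1)) :
    ∃ u : EE d → ℂ, AA u ∧ ∀ z ∈ closedBall (0 : EE d) 1, u z = f z := by
  have hr0 : ∀ j, 0 < rad1 j := by
    intro j
    unfold rad1
    have h1 : (0:ℝ) ≤ j := Nat.cast_nonneg j
    have h2 : 1 / ((j : ℝ) + 2) < 1 := by
      rw [div_lt_one (by positivity)]
      linarith
    linarith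
  choose g hAA hR using fun j => exists_dilate hf hd (hr0 j) (rad1_lt j)
  -- bounds for the rotation derivatives
  have hbd : ∀ K : ℕ, ∃ M : ℝ, ∀ j, ∀ ζ ∈ SS d, ‖(TE^[K] (g j)) ζ‖ ≤ M := by
    intro K
    obtain ⟨M, hM⟩ := (isCompact_closedBall (0 : EE d) 1).exists_bound_of_continuousOn
      (contDiffOn_TW_iterate hf K).continuousOn
    refine ⟨M, fun j ζ hζ => ?_⟩
    obtain ⟨R, hR1, hgR⟩ := hR j
    have hζ1 := mem_sphere_zero_iff_norm.1 hζ
    have h1 := TE_iterate_congr isOpen_ball K hgR ζ (by rw [mem_ball_zero_iff]; linarith)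
    rw [h1, TE_dilate_iterate]
    have h2 : rad1 j • ζ ∈ ball (0 : EE d) 1 := by
      rw [mem_ball_zero_iff, norm_smul, hζ1, Real.norm_of_nonneg (hr0 j).le, mul_one]
      exact rad1_lt j
    show ‖(TE^[K] f) (rad1 j • ζ)‖ ≤ M
    rw [← TW_iterate_eq K (g := f) (fun _ _ => rfl) _ h2]
    exact hM _ (ball_subset_closedBall h2)
  have hval : ∀ j, ∀ ζ ∈ SS d, g j ζ = f (rad1 j • ζ) := by
    intro j ζ hζ
    obtain ⟨R, hR1, hgR⟩ := hR j
    refine hgR ζ ?_
    rw [mem_ball_zero_iff, mem_sphere_zero_iff_norm.1 hζ]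
    exact hR1
  have hlim : ∀ z ∈ SS d, Tendsto (fun j => g j z) atTop (nhds (f z)) := by
    intro z hz
    have hz1 := mem_sphere_zero_iff_norm.1 hz
    have h1 : Tendsto (fun j => rad1 j • z) atTop (nhds ((1:ℝ) • z)) := tendsto_rad1.smul_const z
    rw [one_smul] at h1
    have h2 : Tendsto (fun j => rad1 j • z) atTop (nhdsWithin z (closedBall (0 : EE d) 1)) := by
      refine tendsto_nhdsWithin_iff.2 ⟨h1, Eventually.of_forall fun j => ?_⟩
      rw [mem_closedBall_zero_iff, norm_smul, hz1, Real.norm_of_nonneg (hr0 j).le, mul_one]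
      exact (rad1_lt j).le
    have h3 := (hf.continuousOn z (sphere_subset_closedBall hz)).tendsto.comp h2
    exact h3.congr fun j => (hval j z hz).symm
  -- convergence of the components
  obtain ⟨M0, hM0⟩ := hbd 0
  have hqlim : ∀ m, Tendsto (fun j => qq m (g j)) atTop (nhds (qq m f)) := by
    intro m
    unfold qq
    refine Tendsto.const_smul ?_ _
    refine tendsto_integral_of_dominated_convergence (fun _ => M0) ?_ (integrable_const _) ?_ ?_
    · intro j
      exact aesm_of_continuousOn (continuousOn_smul_form (hAA _).1.continuous.continuousOn m)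
    · intro j
      refine ae_mem_sphere.mono fun ζ hζ => ?_
      rw [norm_smul]
      have h1 := norm_form_le m (mem_sphere_zero_iff_norm.1 hζ)
      have h2 : ‖g j ζ‖ ≤ M0 := hM0 j ζ hζ
      calc ‖g j ζ‖ * ‖form m ζ‖ ≤ ‖g j ζ‖ * 1 := mul_le_mul_of_nonneg_left h1 (norm_nonneg _)
        _ ≤ M0 := by rw [mul_one]; exact h2
    · refine ae_mem_sphere.mono fun ζ hζ => ?_
      exact (hlim ζ hζ).smul_const (form m ζ)
  -- decay
  have hdecay : ∀ N : ℕ, ∃ C : ℝ, ∀ j m, ‖qq m (g j)‖ * ((m : ℝ) + 1) ^ N ≤ C := by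
    intro N
    obtain ⟨K, A, hA, hK⟩ := decay_of_bounds (d := d) N
    obtain ⟨M, hM⟩ := hbd K
    refine ⟨A * max M0 M, fun j m => ?_⟩
    exact hK (g j) (hAA j).1 (max M0 M) (fun ζ hζ => (hM0 j ζ hζ).trans (le_max_left _ _))
      (fun ζ hζ => (hM j ζ hζ).trans (le_max_right _ _)) m
  have hdecay0 : ∀ N : ℕ, ∃ C : ℝ, ∀ m, ‖qq m f‖ * ((m : ℝ) + 1) ^ N ≤ C := by
    intro N
    obtain ⟨C, hC⟩ := hdecay N
    refine ⟨C, fun m => ?_⟩
    exact le_of_tendsto ((hqlim m).norm.mul_const _) (Eventually.of_forall fun j => hC _ m)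
  obtain ⟨u, hu, huval⟩ := extension (fun m => qq m f) hdecay0
  have hub : ∀ z ∈ SS d, u z = f z := by
    intro z hz
    have hz1 : ‖z‖ ≤ 1 := (mem_sphere_zero_iff_norm.1 hz).le
    have h1 : ∀ j, g j z = SZ (g j) z := by
      intro j
      have h2 := key_ineq (hAA j).1 (M := 0)
        (fun p hp => by rw [(hAA j).db_DD hp, norm_zero]) hz
      rw [mul_zero] at h2
      exact sub_eq_zero.1 (norm_le_zero_iff.1 h2)
    obtain ⟨C, hC⟩ := hdecay 2
    have h2 : Tendsto (fun j => SZ (g j) z) atTop (nhds (∑' m, qq m f (fun _ => z))) := by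
      unfold SZ
      refine tendsto_tsum_of_dominated_convergence (bound := fun m : ℕ =>
        C * (1 / ((m : ℝ) + 1) ^ 2)) (summable_inv_sq.mul_left C) ?_ ?_
      · intro m
        have h3 := ((ContinuousMultilinearMap.apply ℂ (fun _ : Fin m => EE d) ℂ
          (fun _ => z)).continuous.tendsto (qq m f)).comp (hqlim m)
        exact h3
      · refine Eventually.of_forall fun j m => ?_
        refine (norm_apply_diag_le _ hz1).trans ?_
        rw [mul_one_div, le_div_iff₀ (by positivity)]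
        exact hC _ m
    have h3 : Tendsto (fun j => SZ (g j) z) atTop (nhds (f z)) := (hlim z hz).congr h1
    rw [huval z (sphere_subset_closedBall hz)]
    exact tendsto_nhds_unique h2 h3
  refine ⟨u, hu, ?_⟩
  have hfd : DiffContOnCl ℂ f (ball (0 : EE d) 1) :=
    ⟨hd, by rw [closure_ball _ one_ne_zero]; exact hf.continuousOn⟩
  have h1 := Complex.eqOn_closure_of_eqOn_frontier isBounded_ball hu.diffContOnCl hfd
    (by
      rw [frontier_ball _ one_ne_zero]
      exact hub)
  rw [closure_ball _ one_ne_zero] at h1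
  exact h1

/-- A compact set in which every point has a relative neighbourhood which is a peak set is a
peak set. -/
theorem isPk_of_local_rel {K : Set (EE d)} (hK : IsCompact K) (hKS : K ⊆ SS d)
    (hloc : ∀ p ∈ K, ∃ P ⊆ K, IsPk P ∧ P ∈ nhdsWithin p K) : IsPk K := by
  have key : ∃ C : Set (EE d), IsCompact C ∧ K ∩ K ⊆ C ∧ C ⊆ K ∧ ∃ P ⊆ K, IsPk P ∧
      C ⊆ interior (Kᶜ ∪ P) := by
    refine hK.induction_on (p := fun s => ∃ C : Set (EE d), IsCompact C ∧ K ∩ s ⊆ C ∧ C ⊆ K ∧
      ∃ P ⊆ K, IsPk P ∧ C ⊆ interior (Kᶜ ∪ P)) ?_ ?_ ?_ ?_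
    · exact ⟨∅, isCompact_empty, by simp, Set.empty_subset _, ∅, Set.empty_subset _, isPk_empty,
        Set.empty_subset _⟩
    · rintro s t hst ⟨C, hC, hsC, hCK, hP⟩
      exact ⟨C, hC, (Set.inter_subset_inter_right K hst).trans hsC, hCK, hP⟩
    · rintro s t ⟨C1, hC1, hsC1, hC1K, P1, hP1K, hP1, h1⟩ ⟨C2, hC2, hsC2, hC2K, P2, hP2K, hP2, h2⟩
      refine ⟨C1 ∪ C2, hC1.union hC2, ?_, Set.union_subset hC1K hC2K,
        glue_union hKS hC1 hC2 hC1K hC2K hP1K hP2K hP1 hP2 h1 h2⟩
      rw [Set.inter_union_distrib_left]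
      exact Set.union_subset_union hsC1 hsC2
    · intro x hx
      obtain ⟨P, hPK, hpk, hP⟩ := hloc x hx
      have hV : Kᶜ ∪ P ∈ nhds x := by
        rw [mem_nhdsWithin_iff_eventually] at hP
        filter_upwards [hP] with y hy
        by_cases hyK : y ∈ K
        · exact Or.inr (hy hyK)
        · exact Or.inl hyK
      obtain ⟨r, hr0, hr⟩ := Metric.nhds_basis_closedBall.mem_iff.1 (interior_mem_nhds.2 hV)
      refine ⟨closedBall x r, mem_nhdsWithin_of_mem_nhds (closedBall_mem_nhds x hr0),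
        K ∩ closedBall x r, hK.inter_right isClosed_closedBall, subset_rfl,
        Set.inter_subset_left, P, hPK, hpk, ?_⟩
      rintro y ⟨_, hy⟩
      exact hr hy
  obtain ⟨C, hC, hKC, hCK, P, hPK, hP, hCP⟩ := key
  have h1 : K ⊆ P := by
    intro x hx
    rcases interior_subset (hCP (hKC ⟨hx, hx⟩)) with h | h
    · exact absurd hx h
    · exact h
  rwa [← Set.Subset.antisymm hPK h1]

/-- The main theorem, with regularity only up to the boundary in the hypothesis. -/
theorem main_rel (n : ℕ) (hn : 1 < n) (K : Set (EuclideanSpace ℂ (Fin n))) (hK : IsCompact K)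
    (hKS : K ⊆ Metric.sphere (0 : EuclideanSpace ℂ (Fin n)) 1)
    (hloc : ∀ p ∈ K, ∃ P ⊆ K, (∃ f : EuclideanSpace ℂ (Fin n) → ℂ,
          DifferentiableOn ℂ f (Metric.ball (0 : EuclideanSpace ℂ (Fin n)) 1) ∧
          ContDiffOn ℝ ∞ f (Metric.closedBall (0 : EuclideanSpace ℂ (Fin n)) 1) ∧
          (∀ z ∈ P, f z = 1) ∧
          ∀ z ∈ Metric.closedBall (0 : EuclideanSpace ℂ (Fin n)) 1 \ P, ‖f z‖ < 1) ∧
          P ∈ nhdsWithin p K) :
    ∃ f : EuclideanSpace ℂ (Fin n) → ℂ,
        ContDiff ℝ ∞ f ∧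
        DifferentiableOn ℂ f (Metric.ball (0 : EuclideanSpace ℂ (Fin n)) 1) ∧
        (∀ z ∈ K, f z = 1) ∧
        ∀ z ∈ Metric.closedBall (0 : EuclideanSpace ℂ (Fin n)) 1 \ K, ‖f z‖ < 1 := by
  obtain ⟨d, rfl⟩ : ∃ d, n = d + 2 := ⟨n - 2, by omega⟩
  refine peak_of_isPk (isPk_of_local_rel hK hKS fun p hp => ?_)
  obtain ⟨P, hPK, ⟨f, hd, hf, h1, h2⟩, hP⟩ := hloc p hp
  obtain ⟨u, hu, huf⟩ := exists_AA hf hd
  have hPS : P ⊆ SS d := hPK.trans hKS
  refine ⟨P, hPK, isPk_of_peak hPS (AA_iff.1 hu).1 (AA_iff.1 hu).2 (fun z hz => ?_)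
    (fun z hz => ?_), hP⟩
  · rw [huf z (sphere_subset_closedBall (hPS hz)), h1 z hz]
  · rw [huf z hz.1]
    exact h2 z hz

end

end Pool.Agent.PeakLib
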