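import Pool.Agent.Lib.MP_7d1258_an.Extension
import Pool.Agent.Lib.MP_7d1258_an.Integrability

/-!
The homogeneous components of the Szegő projection.
-/

set_option autoImplicit false
set_option linter.unusedSectionVars false

namespace Pool.Agent.PeakLib

open scoped ContDiff
open MeasureTheory Metric Complex

noncomputable section

variable {d : ℕ}

/-- The multilinear form `(z_1, …, z_m) ↦ ∏ ⟨z_i, ζ⟩`. -/
def form (m : ℕ) (ζ : EE d) : MM d m :=
  (ContinuousMultilinearMap.mkPiAlgebra ℂ (Fin m) ℂ).compContinuousLinearMap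
    (fun _ => innerSL ℂ ζ)

theorem form_apply (m : ℕ) (ζ : EE d) (v : Fin m → EE d) :
    form m ζ v = ∏ i, inner ℂ ζ (v i) := rfl

theorem form_diag (m : ℕ) (ζ z : EE d) : form m ζ (fun _ => z) = (inner ℂ ζ z) ^ m := by
  rw [form_apply, Finset.prod_const, Finset.card_univ, Fintype.card_fin]

theorem norm_form_le (m : ℕ) {ζ : EE d} (hζ : ‖ζ‖ = 1) : ‖form m ζ‖ ≤ 1 := by
  unfold form
  refine (ContinuousMultilinearMap.norm_compContinuousLinearMap_le _ _).trans ?_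
  rw [ContinuousMultilinearMap.norm_mkPiAlgebra, one_mul, Finset.prod_const, innerSL_apply_norm,
    hζ, one_pow]

theorem continuous_form (m : ℕ) : Continuous (form (d := d) m) := by
  have h1 := (ContinuousMultilinearMap.compContinuousLinearMapContinuousMultilinear ℂ
    (fun _ : Fin m => EE d) (fun _ : Fin m => ℂ) ℂ).cont
  have h2 : Continuous (fun ζ : EE d => fun _ : Fin m => innerSL ℂ ζ) :=
    continuous_pi fun _ => (innerSL ℂ).continuous
  have h3 := h1.comp h2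
  have h4 : Continuous (fun L : (ContinuousMultilinearMap ℂ (fun _ : Fin m => ℂ) ℂ →L[ℂ]
      ContinuousMultilinearMap ℂ (fun _ : Fin m => EE d) ℂ) =>
      L (ContinuousMultilinearMap.mkPiAlgebra ℂ (Fin m) ℂ)) :=
    (ContinuousLinearMap.apply ℂ _ (ContinuousMultilinearMap.mkPiAlgebra ℂ (Fin m) ℂ)).continuous
  exact h4.comp h3

/-- The coefficients of the Szegő kernel. -/
def cc (d m : ℕ) : ℝ := ((m + (d + 1)).choose (d + 1) : ℕ)

theorem cc_nonneg (m : ℕ) : 0 ≤ cc d m := Nat.cast_nonneg _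

theorem cc_le (m : ℕ) : cc d m ≤ ((d : ℝ) + 1 + 1) ^ (d + 1) * ((m : ℝ) + 1) ^ (d + 1) := by
  unfold cc
  have h1 : (m + (d + 1)).choose (d + 1) ≤ (m + (d + 1)) ^ (d + 1) := Nat.choose_le_pow _ _
  have h2 : ((m + (d + 1) : ℕ) : ℝ) ≤ ((d : ℝ) + 1 + 1) * ((m : ℝ) + 1) := by
    push_cast
    have : (0:ℝ) ≤ m := Nat.cast_nonneg m
    have : (0:ℝ) ≤ d := Nat.cast_nonneg d
    nlinarith
  calc (((m + (d + 1)).choose (d + 1) : ℕ) : ℝ) ≤ ((m + (d + 1) : ℕ) : ℝ) ^ (d + 1) := by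
        exact_mod_cast h1
    _ ≤ (((d : ℝ) + 1 + 1) * ((m : ℝ) + 1)) ^ (d + 1) :=
        pow_le_pow_left₀ (Nat.cast_nonneg _) h2 _
    _ = _ := mul_pow _ _ _

/-- The homogeneous component of degree `m` of the Szegő projection. -/
def qq (m : ℕ) (g : EE d → ℂ) : MM d m :=
  ((cc d m : ℝ) : ℂ) • ∫ ζ, g ζ • form m ζ ∂(sig d)

theorem continuousOn_smul_form {g : EE d → ℂ} (hg : ContinuousOn g (SS d)) (m : ℕ) :
    ContinuousOn (fun ζ => g ζ • form m ζ) (SS d) :=
  hg.smul (continuous_form m).continuousOn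

theorem integrable_smul_form {g : EE d → ℂ} (hg : ContinuousOn g (SS d)) (m : ℕ) :
    Integrable (fun ζ => g ζ • form m ζ) (sig d) :=
  integrable_of_continuousOn (continuousOn_smul_form hg m)

theorem qq_apply {g : EE d → ℂ} (hg : ContinuousOn g (SS d)) (m : ℕ) (v : Fin m → EE d) :
    qq m g v = (cc d m : ℂ) * ∫ ζ, g ζ * ∏ i, inner ℂ ζ (v i) ∂(sig d) := by
  unfold qq
  rw [smul_apply, smul_eq_mul]
  congr 1
  have h := (ContinuousMultilinearMap.apply ℂ (fun _ : Fin m => EE d) ℂ v).integral_comp_comm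
    (integrable_smul_form hg m)
  rw [← ContinuousMultilinearMap.apply_apply (𝕜 := ℂ) (m := v), ← h]
  rfl

theorem qq_diag {g : EE d → ℂ} (hg : ContinuousOn g (SS d)) (m : ℕ) (z : EE d) :
    qq m g (fun _ => z) = (cc d m : ℂ) * ∫ ζ, g ζ * (inner ℂ ζ z) ^ m ∂(sig d) := by
  rw [qq_apply hg]
  simp only [Finset.prod_const, Finset.card_univ, Fintype.card_fin]

theorem norm_qq_le (m : ℕ) {g : EE d → ℂ} {M : ℝ} (hM : ∀ ζ ∈ SS d, ‖g ζ‖ ≤ M) :
    ‖qq m g‖ ≤ cc d m * M := by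
  unfold qq
  rw [norm_smul, Complex.norm_real, Real.norm_of_nonneg (cc_nonneg m)]
  refine mul_le_mul_of_nonneg_left ?_ (cc_nonneg m)
  have h1 : ∀ᵐ ζ ∂(sig d), ‖g ζ • form m ζ‖ ≤ M := by
    refine ae_mem_sphere.mono fun ζ hζ => ?_
    rw [norm_smul]
    have h2 := norm_form_le m (mem_sphere_zero_iff_norm.1 hζ)
    have h3 := hM ζ hζ
    calc ‖g ζ‖ * ‖form m ζ‖ ≤ ‖g ζ‖ * 1 := mul_le_mul_of_nonneg_left h2 (norm_nonneg _)
      _ ≤ M := by rw [mul_one]; exact h3
  have h2 := norm_integral_le_of_norm_le_const h1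
  simpa using h2

theorem qq_congr (m : ℕ) {g h : EE d → ℂ} (H : ∀ ζ ∈ SS d, g ζ = h ζ) : qq m g = qq m h := by
  unfold qq
  congr 1
  exact integral_congr_sphere fun z hz => by rw [H z hz]

theorem qq_sub (m : ℕ) {g h : EE d → ℂ} (hg : ContinuousOn g (SS d)) (hh : ContinuousOn h (SS d)) :
    qq m (fun ζ => g ζ - h ζ) = qq m g - qq m h := by
  have h1 : ∫ ζ, (g ζ - h ζ) • form m ζ ∂(sig d) =
      ∫ ζ, g ζ • form m ζ ∂(sig d) - ∫ ζ, h ζ • form m ζ ∂(sig d) := by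
    rw [← integral_sub (integrable_smul_form hg m) (integrable_smul_form hh m)]
    congr 1
    funext ζ
    exact sub_smul (g ζ) (h ζ) (form m ζ)
  unfold qq
  rw [h1]
  exact smul_sub _ _ _

theorem fderiv_prod_inner (m : ℕ) (v : Fin m → EE d) :
    ContDiff ℝ ∞ (fun ζ : EE d => ∏ i, inner ℂ ζ (v i)) := by
  refine contDiff_prod fun i _ => ?_
  have h : (fun ζ : EE d => inner ℂ ζ (v i)) = fun ζ => (starRingEnd ℂ) (inner ℂ (v i) ζ) := by
    funext ζ
    rw [inner_conj_symm]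
  rw [h]
  have h1 : ContDiff ℝ ∞ (fun ζ : EE d => inner ℂ (v i) ζ) := by
    have h2 : ContDiff ℝ ∞ (fun ζ : EE d => ((innerSL ℂ (v i)).restrictScalars ℝ) ζ) :=
      ((innerSL ℂ (v i)).restrictScalars ℝ).contDiff
    exact h2
  exact Complex.conjCLE.contDiff.comp h1

/-- Multiplication by `i` as a real linear map. -/
def mulI (d : ℕ) : EE d →L[ℝ] EE d := (ContinuousLinearMap.lsmul ℝ ℂ (E := EE d)) I

theorem mulI_apply (z : EE d) : mulI d z = I • z := rfl

theorem real_inner_eq (x y : EE d) : inner ℝ x y = (inner ℂ x y).re := by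
  rw [PiLp.inner_apply, PiLp.inner_apply, Complex.re_sum]
  rfl

theorem mulI_skew (z : EE d) : inner ℝ (mulI d z) z = 0 := by
  rw [real_inner_eq, mulI_apply, inner_smul_left, inner_self_eq_norm_sq_to_K]
  simp [← Complex.ofReal_pow]

theorem integral_TE {h : EE d → ℂ} (hh : ContDiff ℝ ∞ h) : ∫ ζ, TE h ζ ∂(sig d) = 0 := by
  have h1 : ContDiff ℝ ∞ (fderiv ℝ h) := (contDiff_infty_iff_fderiv.1 hh).2
  exact integral_skew (mulI d) mulI_skew (fun z _ => hh.differentiable (by simp) z)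
    h1.continuous.continuousOn

theorem TE_prod_inner (m : ℕ) (v : Fin m → EE d) (ζ : EE d) :
    TE (fun ζ : EE d => ∏ i, inner ℂ ζ (v i)) ζ = -(I * m) * ∏ i, inner ℂ ζ (v i) := by
  have hd := (fderiv_prod_inner m v).differentiable (by simp)
  have h1 := hasDerivAt_rot (g := fun ζ : EE d => ∏ i, inner ℂ ζ (v i)) (p := ζ) (θ := 0) (hd _)
  have h2 : (fun θ : ℝ => ∏ i, inner ℂ (Complex.exp (θ * I) • ζ) (v i)) =
      fun θ : ℝ => Complex.exp (θ * (-(I * m))) * ∏ i, inner ℂ ζ (v i) := by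
    funext θ
    simp only [inner_smul_left, Finset.prod_mul_distrib, Finset.prod_const, Finset.card_univ,
      Fintype.card_fin]
    congr 1
    rw [← Complex.exp_conj, ← Complex.exp_nat_mul]
    congr 1
    simp only [map_mul, Complex.conj_ofReal, Complex.conj_I]
    ring
  have h3 : HasDerivAt (fun θ : ℝ => Complex.exp (θ * (-(I * m))) * ∏ i, inner ℂ ζ (v i))
      (-(I * m) * ∏ i, inner ℂ ζ (v i)) 0 := by
    have h4 : HasDerivAt (fun x : ℂ => Complex.exp (x * (-(I * m)))) (-(I * m)) ((0:ℝ) : ℂ) := by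
      have := ((hasDerivAt_id (((0:ℝ)) : ℂ)).mul_const (-(I * m))).cexp
      simpa using this
    exact (h4.comp_ofReal).mul_const _
  have h5 : Complex.exp (((0:ℝ):ℂ) * I) • ζ = ζ := by simp
  rw [h5] at h1
  rw [h2] at h1
  exact h1.unique h3

theorem TE_mul {f g : EE d → ℂ} {z : EE d} (hf : DifferentiableAt ℝ f z)
    (hg : DifferentiableAt ℝ g z) :
    TE (fun z => f z * g z) z = TE f z * g z + f z * TE g z :=
  fderiv_mul_apply' hf hg _

theorem qq_TE (m : ℕ) {g : EE d → ℂ} (hg : ContDiff ℝ ∞ g) :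
    qq m (TE g) = (I * m) • qq m g := by
  ext v
  rw [smul_apply, smul_eq_mul,
    qq_apply (contDiff_TE hg).continuous.continuousOn, qq_apply hg.continuous.continuousOn]
  set P : EE d → ℂ := fun ζ => ∏ i, inner ℂ ζ (v i) with hP
  have hPd : ContDiff ℝ ∞ P := fderiv_prod_inner m v
  have h1 := integral_TE (hg.mul hPd)
  have h2 : (fun ζ => TE (fun ζ => g ζ * P ζ) ζ) = fun ζ => TE g ζ * P ζ + -(I * m) * (g ζ * P ζ) := by
    funext ζ
    rw [TE_mul (hg.differentiable (by simp) ζ) (hPd.differentiable (by simp) ζ),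
      TE_prod_inner]
    ring
  have h3 : ∫ ζ, TE (fun ζ => g ζ * P ζ) ζ ∂(sig d) = 0 := h1
  rw [h2, integral_add, integral_const_mul] at h3
  · have h4 : ∫ ζ, TE g ζ * P ζ ∂(sig d) = (I * m) * ∫ ζ, g ζ * P ζ ∂(sig d) := by
      linear_combination h3
    show (cc d m : ℂ) * ∫ ζ, TE g ζ * P ζ ∂(sig d) = _
    rw [h4]
    ring
  · exact integrable_of_continuousOn
      ((contDiff_TE hg).continuous.mul hPd.continuous).continuousOn
  · exact integrable_of_continuousOn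
      (continuous_const.mul (hg.continuous.mul hPd.continuous)).continuousOn

theorem qq_TE_iterate (m N : ℕ) {g : EE d → ℂ} (hg : ContDiff ℝ ∞ g) :
    qq m (TE^[N] g) = (I * m) ^ N • qq m g := by
  induction N generalizing g with
  | zero => simp
  | succ N ih =>
    rw [Function.iterate_succ, Function.comp_apply, ih (contDiff_TE hg), qq_TE m hg, smul_smul,
      pow_succ]

theorem norm_qq_decay (m N : ℕ) {g : EE d → ℂ} (hg : ContDiff ℝ ∞ g) {M : ℝ}
    (hM : ∀ ζ ∈ SS d, ‖(TE^[N] g) ζ‖ ≤ M) :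
    (m : ℝ) ^ N * ‖qq m g‖ ≤ cc d m * M := by
  have h1 := norm_qq_le m hM
  rw [qq_TE_iterate m N hg, norm_smul, norm_pow, norm_mul, norm_I, one_mul,
    Complex.norm_natCast] at h1
  exact h1

/-- Uniform decay of the components in terms of bounds for rotation derivatives. -/
theorem decay_of_bounds (N : ℕ) : ∃ (K : ℕ) (A : ℝ), 0 ≤ A ∧
    ∀ (g : EE d → ℂ), ContDiff ℝ ∞ g → ∀ M : ℝ, (∀ ζ ∈ SS d, ‖g ζ‖ ≤ M) →
      (∀ ζ ∈ SS d, ‖(TE^[K] g) ζ‖ ≤ M) → ∀ m, ‖qq m g‖ * ((m : ℝ) + 1) ^ N ≤ A * M := by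
  refine ⟨N + d + 1, 2 ^ (N + d + 1) * ((d : ℝ) + 1 + 1) ^ (d + 1), by positivity, ?_⟩
  intro g hg M hM hMK m
  have hM0 : 0 ≤ M := by
    have hz : (EuclideanSpace.single 0 (1:ℂ) : EE d) ∈ SS d := by
      rw [mem_sphere_zero_iff_norm]
      simp
    exact (norm_nonneg _).trans (hM _ hz)
  rcases Nat.eq_zero_or_pos m with hm | hm
  · subst hm
    have h1 := norm_qq_le 0 hM
    have h2 : cc d 0 = 1 := by
      unfold cc
      simp
    rw [h2, one_mul] at h1
    simp only [Nat.cast_zero, zero_add, one_pow, mul_one]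
    refine h1.trans (le_mul_of_one_le_left hM0 ?_)
    have h3 : (1:ℝ) ≤ 2 ^ (N + d + 1) := one_le_pow₀ (by norm_num)
    have h4 : (1:ℝ) ≤ ((d : ℝ) + 1 + 1) ^ (d + 1) := by
      refine one_le_pow₀ ?_
      have : (0:ℝ) ≤ d := Nat.cast_nonneg d
      linarith
    nlinarith
  · have h1 := norm_qq_decay m (N + d + 1) hg hMK
    have hm1 : (1:ℝ) ≤ m := by exact_mod_cast hm
    have h2 : ((m : ℝ) + 1) ^ (N + d + 1) ≤ 2 ^ (N + d + 1) * (m : ℝ) ^ (N + d + 1) := by
      rw [← mul_pow]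
      exact pow_le_pow_left₀ (by positivity) (by linarith) _
    have h3 : 0 < ((m : ℝ) + 1) ^ (d + 1) := by positivity
    have h4 : ‖qq m g‖ * ((m : ℝ) + 1) ^ (N + d + 1) ≤
        (2 ^ (N + d + 1) * ((d : ℝ) + 1 + 1) ^ (d + 1) * M) * ((m : ℝ) + 1) ^ (d + 1) := by
      calc ‖qq m g‖ * ((m : ℝ) + 1) ^ (N + d + 1)
          ≤ ‖qq m g‖ * (2 ^ (N + d + 1) * (m : ℝ) ^ (N + d + 1)) :=
            mul_le_mul_of_nonneg_left h2 (norm_nonneg _)
        _ = 2 ^ (N + d + 1) * ((m : ℝ) ^ (N + d + 1) * ‖qq m g‖) := by ring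
        _ ≤ 2 ^ (N + d + 1) * (cc d m * M) := mul_le_mul_of_nonneg_left h1 (by positivity)
        _ ≤ 2 ^ (N + d + 1) * ((((d : ℝ) + 1 + 1) ^ (d + 1) * ((m : ℝ) + 1) ^ (d + 1)) * M) := by
            refine mul_le_mul_of_nonneg_left ?_ (by positivity)
            exact mul_le_mul_of_nonneg_right (cc_le m) hM0
        _ = _ := by ring
    have h5 : ((m : ℝ) + 1) ^ (N + d + 1) = ((m : ℝ) + 1) ^ N * ((m : ℝ) + 1) ^ (d + 1) := by
      rw [← pow_add]; rfl
    rw [h5, ← mul_assoc] at h4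
    exact le_of_mul_le_mul_right h4 h3

/-- Sum of the components. -/
def SZ (g : EE d → ℂ) (z : EE d) : ℂ := ∑' m, qq m g (fun _ => z)

theorem exists_bound_TE {g : EE d → ℂ} (hg : ContDiff ℝ ∞ g) (K : ℕ) :
    ∃ M : ℝ, (∀ ζ ∈ SS d, ‖g ζ‖ ≤ M) ∧ ∀ ζ ∈ SS d, ‖(TE^[K] g) ζ‖ ≤ M := by
  obtain ⟨C, hC⟩ := isCompact_SS.exists_bound_of_continuousOn hg.continuous.continuousOn
  obtain ⟨C', hC'⟩ := isCompact_SS.exists_bound_of_continuousOn
    (contDiff_TE_iterate hg K).continuous.continuousOn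
  exact ⟨max C C', fun ζ hζ => (hC ζ hζ).trans (le_max_left _ _),
    fun ζ hζ => (hC' ζ hζ).trans (le_max_right _ _)⟩

theorem qq_decay {g : EE d → ℂ} (hg : ContDiff ℝ ∞ g) (N : ℕ) :
    ∃ C : ℝ, ∀ m, ‖qq m g‖ * ((m : ℝ) + 1) ^ N ≤ C := by
  obtain ⟨K, A, hA, hK⟩ := decay_of_bounds (d := d) N
  obtain ⟨M, hM1, hM2⟩ := exists_bound_TE hg K
  exact ⟨A * M, hK g hg M hM1 hM2⟩

theorem norm_apply_diag_le {m : ℕ} (q : MM d m) {z : EE d} (hz : ‖z‖ ≤ 1) :
    ‖q (fun _ => z)‖ ≤ ‖q‖ := by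
  refine (q.le_opNorm _).trans ?_
  rw [Finset.prod_const]
  exact mul_le_of_le_one_right (norm_nonneg _) (pow_le_one₀ (norm_nonneg _) hz)

theorem summable_norm_qq {g : EE d → ℂ} (hg : ContDiff ℝ ∞ g) :
    Summable (fun m => ‖qq m g‖) := by
  obtain ⟨C, hC⟩ := qq_decay hg 2
  exact summable_of_decay (fun m => norm_nonneg _) hC

/-- The projection of a smooth function extends to an element of the algebra. -/
theorem exists_projection {g : EE d → ℂ} (hg : ContDiff ℝ ∞ g) :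
    ∃ F : EE d → ℂ, AA F ∧ ∀ z ∈ closedBall (0 : EE d) 1, F z = SZ g z :=
  extension (fun m => qq m g) (qq_decay hg)

theorem SZ_congr {g h : EE d → ℂ} (H : ∀ ζ ∈ SS d, g ζ = h ζ) (z : EE d) : SZ g z = SZ h z := by
  unfold SZ
  exact tsum_congr fun m => by rw [qq_congr m H]

theorem SZ_sub {g h : EE d → ℂ} (hg : ContDiff ℝ ∞ g) (hh : ContDiff ℝ ∞ h) {z : EE d}
    (hz : ‖z‖ ≤ 1) : SZ (fun ζ => g ζ - h ζ) z = SZ g z - SZ h z := by
  unfold SZ
  have h1 : Summable (fun m => qq m g (fun _ => z)) :=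
    Summable.of_norm_bounded (summable_norm_qq hg) fun m => norm_apply_diag_le _ hz
  have h2 : Summable (fun m => qq m h (fun _ => z)) :=
    Summable.of_norm_bounded (summable_norm_qq hh) fun m => norm_apply_diag_le _ hz
  rw [← h1.tsum_sub h2]
  refine tsum_congr fun m => ?_
  rw [qq_sub m hg.continuous.continuousOn hh.continuous.continuousOn,
    sub_apply]

/-- The projection commutes with rotations, infinitesimally. -/
theorem TE_of_eq_SZ {g F : EE d → ℂ} (hg : ContDiff ℝ ∞ g) (hF : ContDiff ℝ ∞ F)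
    (h : ∀ z ∈ SS d, F z = SZ g z) : ∀ z ∈ SS d, TE F z = SZ (TE g) z := by
  intro z hz
  have hz1 : ‖z‖ ≤ 1 := (mem_sphere_zero_iff_norm.1 hz).le
  have h1 := hasDerivAt_rot (g := F) (p := z) (θ := 0) (hF.differentiable (by simp) _)
  have h2 : (fun θ : ℝ => F (Complex.exp (θ * I) • z)) =
      fun θ : ℝ => ∑' m : ℕ, Complex.exp (θ * (I * m)) * qq m g (fun _ => z) := by
    funext θ
    rw [h _ (RotInv.rot θ z hz)]
    unfold SZ
    refine tsum_congr fun m => ?_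
    rw [show (fun _ : Fin m => Complex.exp (θ * I) • z) =
      fun i : Fin m => (fun _ => Complex.exp (θ * I)) i • (fun _ => z) i from rfl,
      ContinuousMultilinearMap.map_smul_univ]
    rw [Finset.prod_const, Finset.card_univ, Fintype.card_fin, smul_eq_mul,
      ← Complex.exp_nat_mul]
    congr 2
    ring
  obtain ⟨C, hC⟩ := qq_decay hg 3
  have hsum : Summable (fun m : ℕ => (m : ℝ) * ‖qq m g‖) := by
    refine summable_of_decay (fun m => by positivity) (C := C) fun m => ?_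
    refine le_trans ?_ (hC m)
    have h3 : (0:ℝ) ≤ m := Nat.cast_nonneg m
    have h4 : (m : ℝ) * ‖qq m g‖ * ((m : ℝ) + 1) ^ 2 ≤
        ((m : ℝ) + 1) * ‖qq m g‖ * ((m : ℝ) + 1) ^ 2 := by
      refine mul_le_mul_of_nonneg_right (mul_le_mul_of_nonneg_right (by linarith)
        (norm_nonneg _)) (by positivity)
    refine h4.trans (le_of_eq (by ring))
  have h3 : HasDerivAt (fun θ : ℝ => ∑' m : ℕ, Complex.exp (θ * (I * m)) * qq m g (fun _ => z))
      (∑' m : ℕ, (Complex.exp (((0:ℝ) : ℂ) * (I * m)) * (I * m)) * qq m g (fun _ => z)) 0 := by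
    refine hasDerivAt_tsum (u := fun m : ℕ => (m : ℝ) * ‖qq m g‖)
      (g' := fun (m : ℕ) (θ : ℝ) =>
        (Complex.exp ((θ : ℂ) * (I * m)) * (I * m)) * qq m g (fun _ => z)) hsum ?_ ?_ (y₀ := 0) ?_ 0
    · intro m θ
      have h4 : HasDerivAt (fun x : ℂ => Complex.exp (x * (I * m)))
          (Complex.exp (θ * (I * m)) * (I * m)) (θ : ℂ) := by
        have := ((hasDerivAt_id (θ : ℂ)).mul_const (I * m)).cexp
        simpa using this
      exact (h4.comp_ofReal).mul_const _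
    · intro m θ
      rw [norm_mul, norm_mul, norm_mul, norm_I, one_mul, Complex.norm_natCast]
      have h5 : ‖Complex.exp ((θ : ℂ) * (I * m))‖ = 1 := by
        rw [show (θ : ℂ) * (I * m) = ((θ * m : ℝ) : ℂ) * I by push_cast; ring]
        exact Complex.norm_exp_ofReal_mul_I _
      rw [h5, one_mul]
      exact mul_le_mul_of_nonneg_left (norm_apply_diag_le _ hz1) (Nat.cast_nonneg _)
    · simp only [Complex.ofReal_zero, zero_mul, Complex.exp_zero, one_mul]
      exact Summable.of_norm_bounded (summable_norm_qq hg) fun m => norm_apply_diag_le _ hz1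
  rw [h2] at h1
  have h4 := h1.unique h3
  have h5 : Complex.exp (((0:ℝ):ℂ) * I) • z = z := by simp
  rw [h5] at h4
  rw [h4]
  unfold SZ
  refine tsum_congr fun m => ?_
  rw [qq_TE m hg, smul_apply, smul_eq_mul]
  simp

theorem TE_iterate_of_eq_SZ (k : ℕ) : ∀ {g F : EE d → ℂ}, ContDiff ℝ ∞ g → ContDiff ℝ ∞ F →
    (∀ z ∈ SS d, F z = SZ g z) → ∀ z ∈ SS d, (TE^[k] F) z = SZ (TE^[k] g) z := by
  induction k with
  | zero => intro g F _ _ h; exact h
  | succ k ih =>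
    intro g F hg hF h
    exact ih (contDiff_TE hg) (contDiff_TE hF) (TE_of_eq_SZ hg hF h)

end

end Pool.Agent.PeakLib
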