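import Pool.Agent.Lib.MP_7d1258_an.KeyIneq3

/-!
Uniform estimates for the regularised reciprocals `1 / (v + ε)`.
-/

set_option autoImplicit false
set_option linter.unusedSectionVars false

namespace Pool.Agent.PeakLib

open scoped ContDiff
open MeasureTheory Metric Complex

noncomputable section

variable {d : ℕ}

/-- Parameters. -/
abbrev IE : Type := Set.Ioc (0:ℝ) 1

/-- Families of constants. -/
theorem Iter.bd_constfam {X : Type*} [AddAction ℝ X] {ι : Type*} (k : ℕ) (c : ι → ℂ) {C : ℝ}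
    (hc : ∀ i, ‖c i‖ ≤ C) : Iter BD k (fun (i : ι) (_ : X) => c i) := by
  cases k with
  | zero => exact ⟨C, fun i _ => hc i⟩
  | succ k =>
    refine ⟨⟨C, fun i _ => hc i⟩, ?_⟩
    have : (fun i : ι => TT (fun _ : X => c i)) = fun _ _ => 0 := by
      funext i
      exact TT_const (c i)
    rw [this]
    exact Iter.bd_const k 0

/-- The regularised reciprocal. -/
def GG (v : EE d → ℂ) (ε : IE) (z : EE d) : ℂ := recip (ε.1 / 2) (v z + ((ε.1 : ℝ) : ℂ))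

theorem half_pos' (ε : IE) : 0 < ε.1 / 2 := half_pos ε.2.1

theorem contDiff_GG {v : EE d → ℂ} (hv : ContDiff ℝ ∞ v) (ε : IE) : ContDiff ℝ ∞ (GG v ε) :=
  (contDiff_recip (half_pos' ε)).comp (hv.add contDiff_const)

section

variable {v : EE d → ℂ} (hre : ∀ z ∈ SS d, 0 ≤ (v z).re)

include hre

theorem re_add_ge (ε : IE) {z : EE d} (hz : z ∈ SS d) : ε.1 ≤ (v z + ((ε.1 : ℝ) : ℂ)).re := by
  have := hre z hz
  rw [Complex.add_re, Complex.ofReal_re]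
  linarith

theorem norm_add_ge (ε : IE) {z : EE d} (hz : z ∈ SS d) : ε.1 ≤ ‖v z + ((ε.1 : ℝ) : ℂ)‖ :=
  (re_add_ge hre ε hz).trans (Complex.re_le_norm _)

theorem add_ne (ε : IE) {z : EE d} (hz : z ∈ SS d) : v z + ((ε.1 : ℝ) : ℂ) ≠ 0 := by
  intro h
  have := norm_add_ge hre ε hz
  rw [h, norm_zero] at this
  exact absurd ε.2.1 (not_lt.2 this)

theorem half_lt (ε : IE) {z : EE d} (hz : z ∈ SS d) : ε.1 / 2 < ‖v z + ((ε.1 : ℝ) : ℂ)‖ := by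
  have h1 := norm_add_ge hre ε hz
  have h2 := ε.2.1
  linarith

theorem GG_eq (ε : IE) {z : EE d} (hz : z ∈ SS d) : GG v ε z = (v z + ((ε.1 : ℝ) : ℂ))⁻¹ :=
  recip_eq (half_pos' ε) (half_lt hre ε hz).le

theorem norm_le_norm_add (ε : IE) {z : EE d} (hz : z ∈ SS d) :
    ‖v z‖ ≤ ‖v z + ((ε.1 : ℝ) : ℂ)‖ := by
  refine (sq_le_sq₀ (norm_nonneg _) (norm_nonneg _)).1 ?_
  rw [← Complex.normSq_eq_norm_sq, ← Complex.normSq_eq_norm_sq, Complex.normSq_apply,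
    Complex.normSq_apply]
  have h1 := hre z hz
  have h2 := ε.2.1
  simp only [Complex.add_re, Complex.ofReal_re, Complex.add_im, Complex.ofReal_im, add_zero]
  nlinarith

theorem db_GG (hv : ContDiff ℝ ∞ v) (ε : IE) {z : EE d} (hz : z ∈ SS d) (w : EE d) :
    db (GG v ε) z w = -(db v z w * ((v z + ((ε.1 : ℝ) : ℂ))⁻¹ * (v z + ((ε.1 : ℝ) : ℂ))⁻¹)) := by
  have hdv : DifferentiableAt ℝ v z := hv.differentiable (by simp) z
  have hd1 : DifferentiableAt ℝ (fun z => v z + ((ε.1 : ℝ) : ℂ)) z := hdv.add (by fun_prop)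
  have h1 : GG v ε =ᶠ[nhds z] fun z => (v z + ((ε.1 : ℝ) : ℂ))⁻¹ := by
    have h2 := recip_eventuallyEq (half_pos' ε) (half_lt hre ε hz)
    exact (hd1.continuousAt.eventually h2)
  rw [db_congr h1]
  have hne := add_ne hre ε hz
  rw [db_comp_complex (F := fun y : ℂ => y⁻¹) (f := fun z => v z + ((ε.1 : ℝ) : ℂ))
    (hasDerivAt_inv hne) hd1]
  have h2 : db (fun z => v z + ((ε.1 : ℝ) : ℂ)) z w = db v z w := by
    rw [db_add hdv (by fun_prop), db_const, add_zero]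
  rw [h2]
  field_simp

end

/-- Lipschitz estimate along the flow. -/
theorem flow_lip {v : EE d → ℂ} (hv : ContDiff ℝ ∞ v) :
    ∃ L : ℝ, ∀ (θ : ℝ) (z : EE d), z ∈ SS d →
      ‖v (Complex.exp (θ * I) • z)‖ ≤ ‖v z‖ + L * |θ| := by
  obtain ⟨L, hL⟩ := isCompact_SS.exists_bound_of_continuousOn
    (contDiff_TE hv).continuous.continuousOn (s := SS d)
  refine ⟨L, fun θ z hz => ?_⟩
  have h1 := (convex_univ (𝕜 := ℝ) (E := ℝ)).norm_image_sub_le_of_norm_hasDerivWithin_le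
    (f := fun θ : ℝ => v (Complex.exp (θ * I) • z))
    (f' := fun θ : ℝ => TE v (Complex.exp (θ * I) • z)) (C := L)
    (fun t _ => (hasDerivAt_rot (hv.differentiable (by simp) _)).hasDerivWithinAt)
    (fun t _ => hL _ (RotInv.rot t z hz)) (Set.mem_univ 0) (Set.mem_univ θ)
  have h2 : Complex.exp (((0:ℝ):ℂ) * I) • z = z := by simp
  rw [h2, sub_zero, Real.norm_eq_abs] at h1
  have h3 := norm_sub_norm_le (v (Complex.exp (θ * I) • z)) (v z)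
  linarith

/-- Base point map. -/
theorem base_mem (p : Pt (DD d)) : p.1.1 ∈ SS d := mem_sphere_zero_iff_norm.2 p.2.1

/-- Flatness of all rotation derivatives of `∂̄ v`. -/
theorem iter_flat {v : EE d → ℂ} (hv : ContDiff ℝ ∞ v)
    (hflat : ∀ N : ℕ, ∃ C : ℝ, ∀ p ∈ DD d, ‖db v p.1 p.2‖ ≤ C * ‖v p.1‖ ^ N) {ι : Type*} (k : ℕ) :
    Iter (FL (fun p : Pt (DD d) => ‖v p.1.1‖)) k (fun (_ : ι) (p : Pt (DD d)) => dbF v p.1) := by
  have hcd : ContDiff ℝ ∞ (dbF v) := contDiff_dbF hv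
  have hsm : Sm (fun p : Pt (DD d) => dbF v p.1) := Sm.restrict hcd
  have hsmj : ∀ j, Sm (TT^[j] (fun p : Pt (DD d) => dbF v p.1)) := by
    intro j
    rw [TT_restrict_iterate hcd]
    exact Sm.restrict (contDiff_TE_iterate hcd j)
  obtain ⟨L, hL⟩ := flow_lip hv
  obtain ⟨A, hA⟩ := isCompact_SS.exists_bound_of_continuousOn
    hv.continuous.continuousOn (s := SS d)
  have key : ∀ j, ∀ N : ℕ, ∃ C : ℝ, ∀ p : Pt (DD d),
      ‖TT^[j] (fun p : Pt (DD d) => dbF v p.1) p‖ ≤ C * ‖v p.1.1‖ ^ N := by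
    intro j
    induction j with
    | zero =>
      intro N
      obtain ⟨C, hC⟩ := hflat N
      exact ⟨C, fun p => hC p.1 p.2⟩
    | succ j ih =>
      have hbd : ∃ M : ℝ, ∀ p : Pt (DD d),
          ‖TT^[j+2] (fun p : Pt (DD d) => dbF v p.1) p‖ ≤ M := by
        obtain ⟨M, hM⟩ := isCompact_DD.exists_bound_of_continuousOn
          (contDiff_TE_iterate hcd (j+2)).continuous.continuousOn (s := DD d)
        refine ⟨M, fun p => ?_⟩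
        rw [TT_restrict_iterate hcd]
        exact hM p.1 p.2
      obtain ⟨M, hM⟩ := hbd
      have := flat_TT (hsmj j) (a := fun p : Pt (DD d) => ‖v p.1.1‖) (fun p => norm_nonneg _)
        (A := A) (L := L) (fun p => hA _ (base_mem p)) (fun θ p => hL θ _ (base_mem p))
        (M := M) (fun p => by
          have h := hM p
          rwa [Function.iterate_succ', Function.iterate_succ'] at h) ih
      rw [Function.iterate_succ']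
      exact this
  refine Iter.of_all k fun j _ N => ?_
  obtain ⟨C, hC⟩ := key j N
  exact ⟨C, fun _ p => hC p⟩

theorem TE_iterate_dbF {v : EE d → ℂ} (hv : ContDiff ℝ ∞ v) (k : ℕ) :
    TE^[k] (dbF v) = dbF (TE^[k] v) := by
  induction k generalizing v with
  | zero => rfl
  | succ k ih =>
    rw [Function.iterate_succ, Function.comp_apply, TE_dbF hv, ih (contDiff_TE hv)]
    rfl

/-- Uniform bounds for `∂̄` of all rotation derivatives of the regularised reciprocals. -/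
theorem uniform_db {v : EE d → ℂ} (hv : ContDiff ℝ ∞ v) (hre : ∀ z ∈ SS d, 0 ≤ (v z).re)
    (hflat : ∀ N : ℕ, ∃ C : ℝ, ∀ p ∈ DD d, ‖db v p.1 p.2‖ ≤ C * ‖v p.1‖ ^ N) (k : ℕ) :
    ∃ C : ℝ, ∀ (ε : IE), ∀ p ∈ DD d, ‖db (TE^[k] (GG v ε)) p.1 p.2‖ ≤ C := by
  set X := Pt (DD d) with hX
  -- the family v + ε
  set F : IE → X → ℂ := fun ε p => v p.1.1 + ((ε.1 : ℝ) : ℂ) with hF
  have hcdv : ContDiff ℝ ∞ (fun p : EE d × EE d => v p.1) := hv.comp contDiff_fst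
  have sF : ∀ ε, Sm (F ε) := fun ε =>
    Sm.restrict (g := fun p : EE d × EE d => v p.1 + ((ε.1 : ℝ) : ℂ)) (hcdv.add contDiff_const)
  have h0 : ∀ ε p, F ε p ≠ 0 := fun ε p => add_ne hre ε (base_mem p)
  have hc1 : ∀ i : IE, ‖((i.1 : ℝ) : ℂ)‖ ≤ 1 := fun i => by
    rw [Complex.norm_real, Real.norm_of_nonneg i.2.1.le]; exact i.2.2
  obtain ⟨A, hA⟩ := isCompact_SS.exists_bound_of_continuousOn
    hv.continuous.continuousOn (s := SS d)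
  have hR : ∀ ε p, ‖F ε p‖ ≤ A + 1 := fun ε p =>
    (norm_add_le _ _).trans (add_le_add (hA _ (base_mem p)) (hc1 ε))
  have hFbd : ∀ k, Iter BD k F := fun k =>
    Iter.bd_add (fun _ => Sm.restrict hcdv) (fun _ => Sm.const _)
      (Iter.bd_restrict isCompact_DD hcdv k) (Iter.bd_constfam k _ hc1)
  have hG := Iter.pg_inv sF h0 hR (hFbd k)
  have sG : ∀ ε, Sm (fun p => (F ε p)⁻¹) := fun ε => (sF ε).inv (h0 ε)
  have hw0 : ∀ ε p, 0 ≤ ‖F ε p‖ := fun ε p => norm_nonneg _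
  have hw : ∀ ε p, 0 < ‖F ε p‖ := fun ε p => norm_pos_iff.2 (h0 ε p)
  have hGG : Iter (PG (fun i x => ‖F i x‖)) k (fun ε p => (F ε p)⁻¹ * (F ε p)⁻¹) :=
    Iter.mul (PG.add hw0 hR) (PG.mul hw0) sG sG hG hG
  have hD := iter_flat hv hflat (ι := IE) k
  have haw : ∀ (ε : IE) (p : X), ‖v p.1.1‖ ≤ ‖F ε p‖ := fun ε p =>
    norm_le_norm_add hre ε (base_mem p)
  have hprod : Iter (FL (fun p : X => ‖v p.1.1‖)) k
      (fun ε p => dbF v p.1 * ((F ε p)⁻¹ * (F ε p)⁻¹)) :=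
    Iter.mul FL.add (FL.mul_pg (fun p => norm_nonneg _) haw hw)
      (fun _ => Sm.restrict (contDiff_dbF hv)) (fun ε => (sG ε).mul (sG ε)) hD hGG
  have hneg : Iter (FL (fun p : X => ‖v p.1.1‖)) k
      (fun ε p => -(dbF v p.1 * ((F ε p)⁻¹ * (F ε p)⁻¹))) :=
    Iter.neg FL.neg (fun ε => (Sm.restrict (contDiff_dbF hv)).mul ((sG ε).mul (sG ε))) hprod
  obtain ⟨C, hC⟩ := hneg.iterate 0
  refine ⟨C, fun ε p hp => ?_⟩
  have h1 : (fun p : X => -(dbF v p.1 * ((F ε p)⁻¹ * (F ε p)⁻¹))) =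
      fun p : X => dbF (GG v ε) p.1 := by
    funext p
    exact (db_GG hre hv ε (base_mem p) p.1.2).symm
  have h2 := hC ε ⟨p, hp⟩
  rw [pow_zero, mul_one] at h2
  have h3 : TT^[k] (fun p : X => -(dbF v p.1 * ((F ε p)⁻¹ * (F ε p)⁻¹))) ⟨p, hp⟩ =
      db (TE^[k] (GG v ε)) p.1 p.2 := by
    rw [h1, TT_restrict_iterate (contDiff_dbF (contDiff_GG hv ε)),
      TE_iterate_dbF (contDiff_GG hv ε)]
    rfl
  have h4 : ‖TT^[k] (fun p : X => -(dbF v p.1 * ((F ε p)⁻¹ * (F ε p)⁻¹))) ⟨p, hp⟩‖ ≤ C := h2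
  rw [h3] at h4
  exact h4

/-- Lipschitz dependence on the parameter. -/
theorem db_GG_sub {v : EE d → ℂ} (hv : ContDiff ℝ ∞ v) (hre : ∀ z ∈ SS d, 0 ≤ (v z).re)
    (hflat : ∀ N : ℕ, ∃ C : ℝ, ∀ p ∈ DD d, ‖db v p.1 p.2‖ ≤ C * ‖v p.1‖ ^ N) :
    ∃ C : ℝ, ∀ (ε ε' : IE), ∀ p ∈ DD d,
      ‖db (fun z => GG v ε z - GG v ε' z) p.1 p.2‖ ≤ C * |ε.1 - ε'.1| := by
  obtain ⟨C, hC⟩ := hflat 3
  refine ⟨2 * |C|, fun ε ε' p hp => ?_⟩
  have hz : p.1 ∈ SS d := mem_sphere_zero_iff_norm.2 hp.1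
  have d1 := (contDiff_GG hv ε).differentiable (by simp) p.1
  have d2 := (contDiff_GG hv ε').differentiable (by simp) p.1
  rw [db_sub d1 d2, db_GG hre hv ε hz, db_GG hre hv ε' hz]
  set x := v p.1 + ((ε.1 : ℝ) : ℂ) with hx
  set y := v p.1 + ((ε'.1 : ℝ) : ℂ) with hy
  have hx0 : x ≠ 0 := add_ne hre ε hz
  have hy0 : y ≠ 0 := add_ne hre ε' hz
  have hxa : ‖v p.1‖ ≤ ‖x‖ := norm_le_norm_add hre ε hz
  have hya : ‖v p.1‖ ≤ ‖y‖ := norm_le_norm_add hre ε' hz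
  set a := ‖v p.1‖ with ha
  have ha0 : 0 ≤ a := norm_nonneg _
  have hxp : 0 < ‖x‖ := norm_pos_iff.2 hx0
  have hyp : 0 < ‖y‖ := norm_pos_iff.2 hy0
  have hD : ‖db v p.1 p.2‖ ≤ |C| * a ^ 3 :=
    (hC p hp).trans (mul_le_mul_of_nonneg_right (le_abs_self _) (by positivity))
  have e1 : -(db v p.1 p.2 * (x⁻¹ * x⁻¹)) - -(db v p.1 p.2 * (y⁻¹ * y⁻¹)) =
      db v p.1 p.2 * ((x - y) * (x⁻¹ * x⁻¹ * y⁻¹ + x⁻¹ * y⁻¹ * y⁻¹)) := by
    field_simp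
    ring
  have e2 : x - y = (((ε.1 - ε'.1 : ℝ)) : ℂ) := by
    rw [hx, hy]; push_cast; ring
  rw [e1, e2, norm_mul, norm_mul, Complex.norm_real, Real.norm_eq_abs]
  have hx1 : a * ‖x‖⁻¹ ≤ 1 := by
    rw [mul_inv_le_iff₀ hxp, one_mul]; exact hxa
  have hy1 : a * ‖y‖⁻¹ ≤ 1 := by
    rw [mul_inv_le_iff₀ hyp, one_mul]; exact hya
  have hx2 : 0 ≤ a * ‖x‖⁻¹ := by positivity
  have hy2 : 0 ≤ a * ‖y‖⁻¹ := by positivity
  have e3 : a ^ 3 * ‖x⁻¹ * x⁻¹ * y⁻¹ + x⁻¹ * y⁻¹ * y⁻¹‖ ≤ 2 := by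
    have h1 : ‖x⁻¹ * x⁻¹ * y⁻¹ + x⁻¹ * y⁻¹ * y⁻¹‖ ≤
        ‖x‖⁻¹ * ‖x‖⁻¹ * ‖y‖⁻¹ + ‖x‖⁻¹ * ‖y‖⁻¹ * ‖y‖⁻¹ := by
      refine (norm_add_le _ _).trans (le_of_eq ?_)
      simp only [norm_mul, norm_inv]
    calc a ^ 3 * ‖x⁻¹ * x⁻¹ * y⁻¹ + x⁻¹ * y⁻¹ * y⁻¹‖
        ≤ a ^ 3 * (‖x‖⁻¹ * ‖x‖⁻¹ * ‖y‖⁻¹ + ‖x‖⁻¹ * ‖y‖⁻¹ * ‖y‖⁻¹) :=
          mul_le_mul_of_nonneg_left h1 (by positivity)
      _ = (a * ‖x‖⁻¹) * (a * ‖x‖⁻¹) * (a * ‖y‖⁻¹) +
          (a * ‖x‖⁻¹) * (a * ‖y‖⁻¹) * (a * ‖y‖⁻¹) := by ring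
      _ ≤ 1 * 1 * 1 + 1 * 1 * 1 := by gcongr
      _ = 2 := by norm_num
  calc ‖db v p.1 p.2‖ * (|ε.1 - ε'.1| * ‖x⁻¹ * x⁻¹ * y⁻¹ + x⁻¹ * y⁻¹ * y⁻¹‖)
      ≤ (|C| * a ^ 3) * (|ε.1 - ε'.1| * ‖x⁻¹ * x⁻¹ * y⁻¹ + x⁻¹ * y⁻¹ * y⁻¹‖) :=
        mul_le_mul_of_nonneg_right hD (by positivity)
    _ = |C| * |ε.1 - ε'.1| * (a ^ 3 * ‖x⁻¹ * x⁻¹ * y⁻¹ + x⁻¹ * y⁻¹ * y⁻¹‖) := by ring
    _ ≤ |C| * |ε.1 - ε'.1| * 2 := mul_le_mul_of_nonneg_left e3 (by positivity)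
    _ = 2 * |C| * |ε.1 - ε'.1| := by ring

end

end Pool.Agent.PeakLib
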