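import Pool.Agent.Lib.MP_7d1258_an.AlmostAnalytic

/-!
The almost analytic cut-off `Θ`.
-/

set_option autoImplicit false
set_option linter.unusedSectionVars false

namespace Pool.Agent.PeakLib

open scoped ContDiff
open MeasureTheory Metric Complex Filter

noncomputable section

/-- Almost analytic functions, real on the real line. -/
def AAn (ψ : ℂ → ℂ) : Prop :=
  ContDiff ℝ ∞ ψ ∧ (∀ x : ℝ, (ψ x).im = 0) ∧
    ∀ (R : ℝ) (N : ℕ), ∃ C : ℝ, 0 ≤ C ∧ ∀ w δ : ℂ, ‖w‖ ≤ R → ‖db ψ w δ‖ ≤ C * |w.im| ^ N * ‖δ‖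

theorem AAn.affine (a b : ℝ) : AAn (fun w => (a : ℂ) + (b : ℂ) * w) := by
  refine ⟨contDiff_const.add (contDiff_const.mul contDiff_id), fun x => ?_, fun R N => ?_⟩
  · show ((a : ℂ) + (b : ℂ) * (x : ℂ)).im = 0
    rw [← Complex.ofReal_mul, ← Complex.ofReal_add, Complex.ofReal_im]
  · refine ⟨0, le_rfl, fun w δ _ => ?_⟩
    have h : DifferentiableAt ℂ (fun w : ℂ => (a : ℂ) + (b : ℂ) * w) w := by fun_prop
    rw [db_eq_zero_of_complex h, norm_zero]
    simp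

theorem im_bound {χ : ℂ → ℂ} (hχ : ContDiff ℝ ∞ χ) (hre : ∀ x : ℝ, (χ x).im = 0) (R : ℝ) :
    ∃ L : ℝ, 0 ≤ L ∧ ∀ w : ℂ, ‖w‖ ≤ R → |(χ w).im| ≤ L * |w.im| := by
  obtain ⟨L, hL0, hL⟩ := lipschitz_compact hχ (isCompact_closedBall (0:ℂ) R)
    (convex_closedBall (0:ℂ) R)
  refine ⟨L, hL0, fun w hw => ?_⟩
  have h1 : ((w.re : ℝ) : ℂ) ∈ closedBall (0:ℂ) R := by
    rw [mem_closedBall_zero_iff, Complex.norm_real]
    exact (Complex.abs_re_le_norm w).trans hw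
  have h2 := hL w (mem_closedBall_zero_iff.2 hw) _ h1
  have h3 : ‖w - ((w.re : ℝ) : ℂ)‖ = |w.im| := by
    have : w - ((w.re : ℝ) : ℂ) = (w.im : ℂ) * I := by
      apply Complex.ext <;> simp
    rw [this, norm_mul, norm_I, mul_one, Complex.norm_real, Real.norm_eq_abs]
  rw [h3] at h2
  have h4 : (χ w).im = (χ w - χ ((w.re : ℝ) : ℂ)).im := by
    rw [Complex.sub_im, hre, sub_zero]
  rw [h4]
  exact (Complex.abs_im_le_norm _).trans h2

theorem AAn.comp {ψ χ : ℂ → ℂ} (hψ : AAn ψ) (hχ : AAn χ) : AAn (fun w => ψ (χ w)) := by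
  refine ⟨hψ.1.comp hχ.1, fun x => ?_, fun R N => ?_⟩
  · have h1 : χ x = (((χ x).re : ℝ) : ℂ) := by
      apply Complex.ext
      · simp
      · rw [hχ.2.1, Complex.ofReal_im]
    show (ψ (χ x)).im = 0
    rw [h1]
    exact hψ.2.1 _
  · obtain ⟨L, hL0, hL⟩ := im_bound hχ.1 hχ.2.1 R
    obtain ⟨R', hR'⟩ := (isCompact_closedBall (0:ℂ) R).exists_bound_of_continuousOn
      hχ.1.continuous.continuousOn
    have hDχ : ContDiff ℝ ∞ (fderiv ℝ χ) := (contDiff_infty_iff_fderiv.1 hχ.1).2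
    have hDψ : ContDiff ℝ ∞ (fderiv ℝ ψ) := (contDiff_infty_iff_fderiv.1 hψ.1).2
    obtain ⟨M1, hM1⟩ := (isCompact_closedBall (0:ℂ) R).exists_bound_of_continuousOn
      hDχ.continuous.continuousOn
    obtain ⟨M2, hM2⟩ := (isCompact_closedBall (0:ℂ) R').exists_bound_of_continuousOn
      hDψ.continuous.continuousOn
    obtain ⟨C1, hC10, hC1⟩ := hψ.2.2 R' N
    obtain ⟨C2, hC20, hC2⟩ := hχ.2.2 R N
    refine ⟨C1 * L ^ N * |M1| + |M2| * C2, by positivity, fun w δ hw => ?_⟩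
    have hwm := mem_closedBall_zero_iff.2 hw
    have hχw := mem_closedBall_zero_iff.2 (hR' w hwm)
    rw [db_comp (hψ.1.differentiable (by simp) _) (hχ.1.differentiable (by simp) _)]
    refine (norm_sub_le _ _).trans ?_
    have e1 : ‖db ψ (χ w) (fderiv ℝ χ w δ)‖ ≤ C1 * (L * |w.im|) ^ N * (|M1| * ‖δ‖) := by
      refine (hC1 _ _ (hR' w hwm)).trans ?_
      refine mul_le_mul (mul_le_mul_of_nonneg_left
        (pow_le_pow_left₀ (abs_nonneg _) (hL w hw) _) hC10) ?_ (norm_nonneg _) (by positivity)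
      refine ((fderiv ℝ χ w).le_opNorm δ).trans ?_
      exact mul_le_mul_of_nonneg_right ((hM1 w hwm).trans (le_abs_self _)) (norm_nonneg _)
    have e2 : ‖I * fderiv ℝ ψ (χ w) (I * db χ w δ)‖ ≤ |M2| * (C2 * |w.im| ^ N * ‖δ‖) := by
      rw [norm_mul, norm_I, one_mul]
      refine ((fderiv ℝ ψ (χ w)).le_opNorm _).trans ?_
      rw [norm_mul, norm_I, one_mul]
      exact mul_le_mul ((hM2 _ hχw).trans (le_abs_self _)) (hC2 w δ hw) (norm_nonneg _)
        (abs_nonneg _)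
    calc _ ≤ C1 * (L * |w.im|) ^ N * (|M1| * ‖δ‖) + |M2| * (C2 * |w.im| ^ N * ‖δ‖) :=
          add_le_add e1 e2
      _ = _ := by rw [mul_pow]; ring

theorem AAn.vph : AAn vph := by
  refine ⟨contDiff_vph, fun x => ?_, fun R N => ?_⟩
  · rcases lt_or_ge 0 x with hx | hx
    · rw [vph_real hx, Complex.ofReal_im]
    · rw [vph_nonpos (by simpa using hx), Complex.zero_im]
  · obtain ⟨C, hC0, hC⟩ := db_vph_bound N
    exact ⟨C, hC0, fun w δ _ => hC w δ⟩

/-- The cut-off function `Θ`. -/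
def Th (w : ℂ) : ℂ :=
  (Real.exp 1 : ℂ) * vph (1 - (Real.exp 1 : ℂ) * vph (1 - w))

theorem aan_Th : AAn Th := by
  have h1 := AAn.affine 1 (-1)
  have h2 := AAn.vph.comp h1
  have h3 := (AAn.affine 1 (-Real.exp 1)).comp h2
  have h4 := AAn.vph.comp h3
  have h5 := (AAn.affine 0 (Real.exp 1)).comp h4
  have : Th = fun w => (((0:ℝ) : ℂ)) + ((Real.exp 1 : ℝ) : ℂ) * PeakLib.vph ((((1:ℝ) : ℂ)) +
      ((-Real.exp 1 : ℝ) : ℂ) * PeakLib.vph ((((1:ℝ) : ℂ)) + (((-1:ℝ)) : ℂ) * w)) := by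
    funext w
    unfold Th
    push_cast
    ring_nf
  rw [this]
  exact h5

theorem contDiff_Th : ContDiff ℝ ∞ Th := aan_Th.1

theorem Th_one {w : ℂ} (hw : 1 ≤ w.re) : Th w = 1 := by
  unfold Th
  rw [vph_nonpos (w := 1 - w) (by simpa using hw), mul_zero, sub_zero]
  have := vph_real (x := 1) one_pos
  rw [Complex.ofReal_one] at this
  rw [this, ← Complex.ofReal_mul, ← Real.exp_add]
  simp

/-- Real version of `ϕ`. -/
def vphR (x : ℝ) : ℝ := if 0 < x then Real.exp (-x⁻¹) else 0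

theorem vph_ofReal (x : ℝ) : vph x = ((vphR x : ℝ) : ℂ) := by
  unfold vphR
  split_ifs with h
  · exact vph_real h
  · rw [vph_nonpos (by simpa using h), Complex.ofReal_zero]

theorem vphR_nonneg (x : ℝ) : 0 ≤ vphR x := by
  unfold vphR
  split_ifs
  · exact (Real.exp_pos _).le
  · exact le_rfl

theorem vphR_le {x : ℝ} (hx : x ≤ 1) : vphR x ≤ Real.exp (-1) := by
  unfold vphR
  split_ifs with h
  · refine Real.exp_le_exp.2 (neg_le_neg ?_)
    exact (one_le_inv₀ h).2 hx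
  · exact (Real.exp_pos _).le

theorem vphR_ge {x : ℝ} (hx : 1 ≤ x) : Real.exp (-1) ≤ vphR x := by
  unfold vphR
  rw [if_pos (by linarith)]
  refine Real.exp_le_exp.2 (neg_le_neg ?_)
  exact inv_le_one_of_one_le₀ hx

theorem vphR_lt {x : ℝ} (hx : x < 1) : vphR x < Real.exp (-1) := by
  unfold vphR
  split_ifs with h
  · refine Real.exp_lt_exp.2 (neg_lt_neg ?_)
    exact (one_lt_inv₀ h).2 hx
  · exact Real.exp_pos _

theorem vphR_zero {x : ℝ} (hx : x ≤ 0) : vphR x = 0 := if_neg (not_lt.2 hx)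

theorem vphR_pos {x : ℝ} (hx : 0 < x) : 0 < vphR x := by
  unfold vphR
  rw [if_pos hx]
  exact Real.exp_pos _

/-- Real version of `Θ`. -/
def ThR (x : ℝ) : ℝ := Real.exp 1 * vphR (1 - Real.exp 1 * vphR (1 - x))

theorem Th_ofReal (x : ℝ) : Th x = ((ThR x : ℝ) : ℂ) := by
  unfold Th ThR
  have h1 : vph (1 - (x : ℂ)) = ((vphR (1 - x) : ℝ) : ℂ) := by
    rw [← vph_ofReal]; push_cast; rfl
  rw [h1]
  have h2 := vph_ofReal (1 - Real.exp 1 * vphR (1 - x))
  rw [Complex.ofReal_sub, Complex.ofReal_mul, Complex.ofReal_one] at h2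
  rw [h2, ← Complex.ofReal_mul]

theorem ThR_nonneg (x : ℝ) : 0 ≤ ThR x := mul_nonneg (Real.exp_pos _).le (vphR_nonneg _)

theorem ThR_le_one (x : ℝ) : ThR x ≤ 1 := by
  unfold ThR
  have h1 : 1 - Real.exp 1 * vphR (1 - x) ≤ 1 := by
    have := mul_nonneg (Real.exp_pos 1).le (vphR_nonneg (1 - x))
    linarith
  calc Real.exp 1 * vphR (1 - Real.exp 1 * vphR (1 - x)) ≤ Real.exp 1 * Real.exp (-1) :=
        mul_le_mul_of_nonneg_left (vphR_le h1) (Real.exp_pos _).le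
    _ = 1 := by rw [← Real.exp_add]; simp

theorem ThR_one {x : ℝ} (hx : 1 ≤ x) : ThR x = 1 := by
  have h := Th_one (w := x) (by simpa using hx)
  rw [Th_ofReal] at h
  exact_mod_cast h

theorem ThR_zero {x : ℝ} (hx : x ≤ 0) : ThR x = 0 := by
  unfold ThR
  have h1 : 1 - Real.exp 1 * vphR (1 - x) ≤ 0 := by
    have h2 := vphR_ge (x := 1 - x) (by linarith)
    have h3 : Real.exp 1 * Real.exp (-1) ≤ Real.exp 1 * vphR (1 - x) :=
      mul_le_mul_of_nonneg_left h2 (Real.exp_pos _).le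
    rw [← Real.exp_add] at h3
    simp at h3
    linarith
  rw [vphR_zero h1, mul_zero]

theorem ThR_pos {x : ℝ} (hx : 0 < x) : 0 < ThR x := by
  unfold ThR
  have h1 : 0 < 1 - Real.exp 1 * vphR (1 - x) := by
    have h2 := vphR_lt (x := 1 - x) (by linarith)
    have h3 : Real.exp 1 * vphR (1 - x) < Real.exp 1 * Real.exp (-1) :=
      mul_lt_mul_of_pos_left h2 (Real.exp_pos _)
    rw [← Real.exp_add] at h3
    simp at h3
    linarith
  exact mul_pos (Real.exp_pos _) (vphR_pos h1)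

theorem db_Th_real (x : ℝ) (δ : ℂ) : db Th x δ = 0 := by
  obtain ⟨C, _, hC⟩ := aan_Th.2.2 |x| 1
  have := hC x δ (by rw [Complex.norm_real, Real.norm_eq_abs])
  rw [Complex.ofReal_im, abs_zero, pow_one, mul_zero, zero_mul] at this
  exact norm_le_zero_iff.1 this

/-- The derivative of `Θ` at real points. -/
theorem fderiv_Th_real (x : ℝ) (δ : ℂ) : fderiv ℝ Th x δ = δ * fderiv ℝ Th x 1 := by
  have h1 : fderiv ℝ Th x (I • (1:ℂ)) = I * fderiv ℝ Th x 1 :=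
    fderiv_I_smul_of_db (db_Th_real x 1)
  have h2 : δ = δ.re • (1:ℂ) + δ.im • (I • (1:ℂ)) := by
    rw [← complex_smul_eq]; simp
  conv_lhs => rw [h2]
  rw [map_add, map_smul, map_smul, h1]
  simp only [Complex.real_smul]
  conv_rhs => rw [← re_add_im δ]
  ring

theorem fderiv_Th_im (x : ℝ) : (fderiv ℝ Th x 1).im = 0 := by
  have h1 : HasDerivAt (fun t : ℝ => Th ((t : ℝ) : ℂ)) (fderiv ℝ Th x 1) x := by
    have h2 : HasDerivAt (fun t : ℝ => ((t : ℝ) : ℂ)) 1 x := Complex.ofRealCLM.hasDerivAt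
    exact ((contDiff_Th.differentiable (by simp) _).hasFDerivAt).comp_hasDerivAt x h2
  have h3 : HasDerivAt (fun t : ℝ => (Th ((t : ℝ) : ℂ)).im) (fderiv ℝ Th x 1).im x :=
    Complex.imCLM.hasFDerivAt.comp_hasDerivAt x h1
  have h4 : (fun t : ℝ => (Th ((t : ℝ) : ℂ)).im) = fun _ => 0 := by
    funext t
    exact aan_Th.2.1 t
  rw [h4] at h3
  exact h3.unique (hasDerivAt_const x 0)

/-- Comparison of values of `Θ`. -/
theorem Th_compare (R : ℝ) : ∃ C : ℝ, 0 ≤ C ∧ ∀ (x : ℝ) (y : ℂ), |x| ≤ R → ‖y‖ ≤ R →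
    ‖Th y - Th x‖ ≤ C * (Real.sqrt (ThR x) * ‖y - x‖ + ‖y - x‖ ^ 2) := by
  obtain ⟨C, hC0, hC⟩ := taylor2 contDiff_Th (isCompact_closedBall (0:ℂ) (R + 1))
    (convex_closedBall (0:ℂ) (R + 1))
  set M : ℝ := C + 1 with hM
  have hMpos : 0 < M := by linarith
  refine ⟨2 * Real.sqrt M + C, by positivity, fun x y hx hy => ?_⟩
  have hxm : (x : ℂ) ∈ closedBall (0:ℂ) (R + 1) := by
    rw [mem_closedBall_zero_iff, Complex.norm_real, Real.norm_eq_abs]
    linarith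
  have hym : y ∈ closedBall (0:ℂ) (R + 1) := by
    rw [mem_closedBall_zero_iff]
    linarith
  -- derivative bound
  set D := (fderiv ℝ Th x 1).re with hD
  have hDsq : D ^ 2 ≤ 4 * M * ThR x := by
    refine quad_ineq hMpos ((ThR_le_one x).trans (by linarith)) fun t ht => ?_
    have hxt : (((x + t : ℝ)) : ℂ) ∈ closedBall (0:ℂ) (R + 1) := by
      rw [mem_closedBall_zero_iff, Complex.norm_real, Real.norm_eq_abs]
      exact (abs_add_le _ _).trans (by linarith)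
    have h1 := hC x hxm _ hxt
    have h2 : (((x + t : ℝ)) : ℂ) - (x : ℂ) = (t : ℂ) := by push_cast; ring
    rw [h2, fderiv_Th_real, Complex.norm_real, Real.norm_eq_abs, sq_abs, Th_ofReal,
      Th_ofReal] at h1
    have h3 := (Complex.abs_re_le_norm _).trans h1
    have h4 : (((ThR (x + t) : ℝ) : ℂ) - ((ThR x : ℝ) : ℂ) - (t : ℂ) * fderiv ℝ Th x 1).re =
        ThR (x + t) - ThR x - t * D := by
      simp [hD]
    rw [h4] at h3
    have h5 := (abs_le.1 h3).2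
    have h6 := ThR_nonneg (x + t)
    have h7 : 0 ≤ t ^ 2 := sq_nonneg t
    rw [hM]
    nlinarith
  have hDabs : ‖fderiv ℝ Th x 1‖ ≤ 2 * Real.sqrt M * Real.sqrt (ThR x) := by
    have h1 : ‖fderiv ℝ Th x 1‖ = |D| := by
      have : fderiv ℝ Th x 1 = ((D : ℝ) : ℂ) := by
        apply Complex.ext
        · simp [hD]
        · rw [fderiv_Th_im, Complex.ofReal_im]
      rw [this, Complex.norm_real, Real.norm_eq_abs]
    rw [h1, mul_assoc, ← Real.sqrt_mul hMpos.le]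
    refine abs_le_of_sq_le_sq ?_ (by positivity)
    rw [mul_pow, Real.sq_sqrt (mul_nonneg hMpos.le (ThR_nonneg x))]
    linarith
  have h1 := hC x hxm y hym
  rw [fderiv_Th_real] at h1
  have h2 : Th y - Th x = (Th y - Th x - (y - x) * fderiv ℝ Th x 1) +
      (y - x) * fderiv ℝ Th x 1 := by ring
  rw [h2]
  refine (norm_add_le _ _).trans ?_
  rw [norm_mul]
  have h3 : ‖y - x‖ * ‖fderiv ℝ Th x 1‖ ≤ ‖y - x‖ * (2 * Real.sqrt M * Real.sqrt (ThR x)) :=
    mul_le_mul_of_nonneg_left hDabs (norm_nonneg _)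
  have h4 : 0 ≤ Real.sqrt M * ‖y - ↑x‖ ^ 2 := by positivity
  have h5 : 0 ≤ C * (Real.sqrt (ThR x) * ‖y - ↑x‖) := by positivity
  nlinarith

end

end Pool.Agent.PeakLib
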